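import Pool.Agent.H47T.Stm

set_option autoImplicit false

namespace Pool.Agent.H47T

open NumberField IsDedekindDomain

theorem mainSQRT : S_SQRT := by
  intro K _ _ hK
  -- an irrational element
  obtain ⟨x, hx⟩ : ∃ x : K, ∀ q : ℚ, (q : K) ≠ x := by
    by_contra hcon
    push Not at hcon
    have h1 : (⊥ : Subalgebra ℚ K) = ⊤ := by
      rw [eq_top_iff]
      intro x _
      obtain ⟨q, hq⟩ := hcon x
      rw [Algebra.mem_bot]
      exact ⟨q, by rw [← hq]; simp⟩
    rw [Subalgebra.bot_eq_top_iff_finrank_eq_one] at h1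
    omega
  -- a quadratic relation
  have hdep : ¬ LinearIndependent ℚ ![(1 : K), x, x ^ 2] := by
    intro h
    have h1 := h.fintype_card_le_finrank
    rw [hK, Fintype.card_fin] at h1
    omega
  obtain ⟨a, b, c, hc, habc⟩ : ∃ a b c : ℚ, c ≠ 0 ∧ (a : K) + b * x + c * x ^ 2 = 0 := by
    rw [Fintype.not_linearIndependent_iff] at hdep
    obtain ⟨g, hg, i, hi⟩ := hdep
    rw [Fin.sum_univ_three] at hg
    simp only [Matrix.cons_val_zero, Matrix.cons_val_one, Matrix.cons_val, Algebra.smul_def,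
      eq_ratCast, mul_one] at hg
    refine ⟨g 0, g 1, g 2, ?_, hg⟩
    intro h2
    rw [h2] at hg
    by_cases h1 : g 1 = 0
    · rw [h1] at hg
      have h0 : g 0 = 0 := by
        have : ((g 0 : ℚ) : K) = 0 := by simpa using hg
        exact_mod_cast this
      fin_cases i
      · exact hi h0
      · exact hi h1
      · exact hi h2
    · have h1' : ((g 1 : ℚ) : K) ≠ 0 := by exact_mod_cast h1
      apply hx (-(g 0) / g 1)
      push_cast
      rw [div_eq_iff h1']
      linear_combination -hg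
  obtain ⟨y, hy⟩ : ∃ y : K, y = 2 * c * x + b := ⟨_, rfl⟩
  have hcK : (c : K) ≠ 0 := by exact_mod_cast hc
  have hyirr : ∀ q : ℚ, (q : K) ≠ y := by
    intro q hq
    apply hx ((q - b) / (2 * c))
    push_cast
    rw [hq, hy]
    field_simp
    ring
  obtain ⟨D, hD⟩ : ∃ D : ℚ, D = b ^ 2 - 4 * a * c := ⟨_, rfl⟩
  have hyD : y ^ 2 = (D : K) := by
    rw [hy, hD]
    push_cast
    linear_combination (4 * (c : K)) * habc
  have hD0 : D ≠ 0 := by
    rintro rfl
    apply hyirr 0
    have : y = 0 := by simpa using hyD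
    rw [this]
    simp
  -- an integer
  have hden : (D.den : ℚ) ≠ 0 := by exact_mod_cast D.den_nz
  have hdenK : (D.den : K) ≠ 0 := by exact_mod_cast D.den_nz
  have hnum : D.num ≠ 0 := Rat.num_ne_zero.2 hD0
  obtain ⟨s0, k, hk, hsf⟩ := Nat.sq_mul_squarefree (D.num.natAbs * D.den)
  have hN0 : D.num.natAbs * D.den ≠ 0 := mul_ne_zero (Int.natAbs_ne_zero.2 hnum) D.den_nz
  have hk0 : k ≠ 0 := by
    rintro rfl
    apply hN0
    rw [← hk]
    simp
  have hkK : (k : K) ≠ 0 := by exact_mod_cast hk0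
  have hs0 : s0 ≠ 0 := hsf.ne_zero
  obtain ⟨d, hd⟩ : ∃ d : ℤ, d = D.num.sign * s0 := ⟨_, rfl⟩
  have hsgn : D.num.sign * (D.num.natAbs : ℤ) = D.num := Int.sign_mul_natAbs D.num
  have hdk : (D.num * D.den : ℤ) = (k : ℤ) ^ 2 * d := by
    have h1 : ((k : ℤ) ^ 2 * s0) = (D.num.natAbs : ℤ) * D.den := by exact_mod_cast hk
    rw [hd]
    calc D.num * (D.den : ℤ) = D.num.sign * (D.num.natAbs : ℤ) * D.den := by rw [hsgn]
      _ = D.num.sign * ((D.num.natAbs : ℤ) * D.den) := by ring
      _ = D.num.sign * ((k : ℤ) ^ 2 * s0) := by rw [h1]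
      _ = _ := by ring
  have hyd : (y * D.den / k) ^ 2 = (d : K) := by
    have h1 : D * (D.den : ℚ) ^ 2 = (k : ℚ) ^ 2 * d := by
      have h2 : ((D.num * D.den : ℤ) : ℚ) = (((k : ℤ) ^ 2 * d : ℤ) : ℚ) := by rw [hdk]
      push_cast at h2
      rw [← h2]
      have h3 : D * D.den = D.num := Rat.mul_den_eq_num D
      rw [← h3]
      ring
    have h1' : ((D * (D.den : ℚ) ^ 2 : ℚ) : K) = (((k : ℚ) ^ 2 * d : ℚ) : K) := by rw [h1]
    push_cast at h1'
    rw [div_pow, mul_pow, hyD, h1']
    field_simp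
  have hnat : d.natAbs = s0 := by
    rw [hd, Int.natAbs_mul, Int.natAbs_sign_of_ne_zero hnum]
    simp
  refine ⟨d, y * D.den / k, ?_, ?_, hyd⟩
  · rw [← Int.squarefree_natAbs, hnat]
    exact hsf
  · rintro rfl
    have h1 : (y * D.den / k - 1) * (y * D.den / k + 1) = 0 := by
      have h2 : (y * D.den / k) ^ 2 = 1 := by simpa using hyd
      linear_combination h2
    rcases mul_eq_zero.1 h1 with h2 | h2
    · apply hyirr (k / D.den)
      push_cast
      rw [div_eq_iff hdenK]
      have h3 : y * D.den / k = 1 := by linear_combination h2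
      rw [div_eq_iff hkK] at h3
      rw [h3]
      ring
    · apply hyirr (-k / D.den)
      push_cast
      rw [div_eq_iff hdenK]
      have h3 : y * D.den / k = -1 := by linear_combination h2
      rw [div_eq_iff hkK] at h3
      rw [h3]
      ring

end Pool.Agent.H47T
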