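import Pool.Agent.H47T.Stm

/-!
# Project TQ, piece ALLU (helper69): not all three units at two
-/

set_option autoImplicit false

namespace Pool.Agent.H47T

open NumberField IsDedekindDomain

namespace AlluAux

variable {K : Type} [Field K] [NumberField K] (v : HeightOneSpectrum (𝓞 K))

/-- a unit is `1` modulo `v` if the residue field has two elements -/
theorem sub_one_lt (hc : Nat.card (𝓞 K ⧸ v.asIdeal) = 2) {U : K} (hU : v.valuation K U = 1) :
    v.valuation K (U - 1) < 1 := by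
  obtain ⟨a, ha⟩ := HeightOneSpectrum.exists_valuation_sub_lt_of_integer v hU.le 1
  rw [Units.val_one] at ha
  have h1 : v.valuation K (algebraMap (𝓞 K) K a) = 1 := by
    have h2 : algebraMap (𝓞 K) K a = (algebraMap (𝓞 K) K a - U) + U := by ring
    rw [h2, Valuation.map_add_eq_of_lt_right _ (by rw [hU]; exact ha), hU]
  have h3 : a ∉ v.asIdeal := (HeightOneSpectrum.valuation_eq_one_iff_notMem v).1 h1
  have h4 : a - 1 ∈ v.asIdeal := by
    rw [← Ideal.Quotient.eq_zero_iff_mem, map_sub, map_one]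
    have h5 : Ideal.Quotient.mk v.asIdeal a ≠ 0 := fun h => h3 (Ideal.Quotient.eq_zero_iff_mem.1 h)
    have : Finite (𝓞 K ⧸ v.asIdeal) := Nat.finite_of_card_ne_zero (by rw [hc]; norm_num)
    have : Fintype (𝓞 K ⧸ v.asIdeal) := Fintype.ofFinite _
    have hnt : Nontrivial (𝓞 K ⧸ v.asIdeal) := Ideal.Quotient.nontrivial_iff.2 v.isPrime.ne_top
    by_contra h6
    have h7 : (1 : 𝓞 K ⧸ v.asIdeal) ≠ 0 := one_ne_zero
    have h8 : Ideal.Quotient.mk v.asIdeal a ≠ 1 := fun h => h6 (sub_eq_zero.2 h)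
    rw [Nat.card_eq_fintype_card] at hc
    classical
    have h9 : ({0, 1, Ideal.Quotient.mk v.asIdeal a} : Finset (𝓞 K ⧸ v.asIdeal)).card = 3 := by
      rw [Finset.card_eq_three]
      exact ⟨0, 1, _, h7.symm, h5.symm, h8.symm, rfl⟩
    have h10 := Finset.card_le_univ ({0, 1, Ideal.Quotient.mk v.asIdeal a} : Finset (𝓞 K ⧸ v.asIdeal))
    rw [h9, hc] at h10
    omega
  have h5 : v.valuation K (algebraMap (𝓞 K) K a - 1) < 1 := by
    have h := (HeightOneSpectrum.valuation_lt_one_iff_mem (K := K) v (a - 1)).2 h4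
    have e : algebraMap (𝓞 K) K (a - 1) = algebraMap (𝓞 K) K a - 1 := by rw [map_sub, map_one]
    rw [← e]
    exact h
  have h6 : U - 1 = (algebraMap (𝓞 K) K a - 1) - (algebraMap (𝓞 K) K a - U) := by ring
  rw [h6]
  exact Valuation.map_sub_lt _ h5 ha

end AlluAux

open AlluAux in
theorem mainALLU : S_ALLU := by
  intro K _ _ v h2 hor X Y Z hX hY hZ he hv
  obtain ⟨hv1, hv2⟩ := hv
  set w := v.valuation K with hw
  have hwZ : w Z ≠ 0 := (Valuation.ne_zero_iff _).2 hZ
  obtain ⟨U, hU⟩ : ∃ U, U = X / Z := ⟨_, rfl⟩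
  obtain ⟨V, hV⟩ : ∃ V, V = Y / Z := ⟨_, rfl⟩
  have hwU : w U = 1 := by rw [hU, map_div₀, hv1, div_self hwZ]
  have hwV : w V = 1 := by rw [hV, map_div₀, hv2, div_self hwZ]
  have hUV : U ^ 2 + V ^ 2 = 1 := by
    rw [hU, hV, div_pow, div_pow, ← add_div, he, div_self (pow_ne_zero 2 hZ)]
  have hw2 : w 2 < 1 := by
    have h := (HeightOneSpectrum.valuation_lt_one_iff_mem (K := K) v 2).2 h2
    have e : algebraMap (𝓞 K) K 2 = 2 := map_ofNat _ 2
    rw [← e]
    exact h
  rcases hor with hc | ⟨e, hodd, he1, he2⟩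
  · have h3 := sub_one_lt v hc hwU
    have h4 := sub_one_lt v hc hwV
    have h5 : w (U ^ 2 - 1) < 1 := by
      have : U ^ 2 - 1 = (U - 1) * (U + 1) := by ring
      rw [this, map_mul]
      have h6 : w (U + 1) ≤ 1 := Valuation.map_add_le _ hwU.le (map_one w).le
      exact mul_lt_one_of_lt_of_le h3 h6
    have h5' : w (V ^ 2 - 1) < 1 := by
      have : V ^ 2 - 1 = (V - 1) * (V + 1) := by ring
      rw [this, map_mul]
      have h6 : w (V + 1) ≤ 1 := Valuation.map_add_le _ hwV.le (map_one w).le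
      exact mul_lt_one_of_lt_of_le h4 h6
    have h7 : (-1 : K) = (U ^ 2 - 1) + (V ^ 2 - 1) := by
      linear_combination -hUV
    have h8 : w (-1) < 1 := by
      rw [h7]
      exact Valuation.map_add_lt _ h5 h5'
    rw [Valuation.map_neg, map_one] at h8
    exact lt_irrefl _ h8
  · have hv2e : w 2 = WithZero.exp (-(e : ℤ)) := by
      have h3 : v.intValuation 2 ≤ WithZero.exp (-(e : ℤ)) := (v.intValuation_le_pow_iff_mem 2 e).2 he1
      have h4 : ¬ v.intValuation 2 ≤ WithZero.exp (-((e + 1 : ℕ) : ℤ)) := fun h =>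
        he2 ((v.intValuation_le_pow_iff_mem 2 (e + 1)).1 h)
      have h5 : w 2 = v.intValuation 2 := by
        have h := HeightOneSpectrum.valuation_of_algebraMap (K := K) v (2 : 𝓞 K)
        have e : algebraMap (𝓞 K) K 2 = 2 := map_ofNat _ 2
        rw [← e]
        exact h
      have h6 : v.intValuation (2 : 𝓞 K) ≠ 0 := v.intValuation_ne_zero 2 two_ne_zero
      obtain ⟨k, hk⟩ : ∃ k : ℤ, v.intValuation (2 : 𝓞 K) = WithZero.exp k := ⟨_, (WithZero.exp_log h6).symm⟩
      rw [h5, hk]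
      rw [hk] at h3 h4
      rw [WithZero.exp_le_exp] at h3 h4
      congr 1
      push_cast at h4
      omega
    obtain ⟨s, hs⟩ : ∃ s, s = U + V - 1 := ⟨_, rfl⟩
    have h3 : s * (s + 2) = 2 * (U * V) := by
      rw [hs]
      linear_combination hUV
    have h4 : w s * w (s + 2) = w 2 := by
      rw [← map_mul, h3, map_mul, map_mul, hwU, hwV, mul_one, mul_one]
    have hw20 : w 2 ≠ 0 := (Valuation.ne_zero_iff _).2 two_ne_zero
    have hs0 : w s ≠ 0 := fun h => hw20 (by rw [← h4, h, zero_mul])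
    rcases lt_trichotomy (w s) (w 2) with h5 | h5 | h5
    · rw [Valuation.map_add_eq_of_lt_right _ h5] at h4
      have h6 : w s = 1 := mul_right_cancel₀ hw20 (by rw [h4, one_mul])
      rw [h6] at h5
      exact lt_asymm h5 hw2
    · have h6 : w (s + 2) ≤ w 2 := Valuation.map_add_le _ h5.le le_rfl
      have h7 : w 2 ≤ w 2 * w 2 := by
        calc w 2 = w s * w (s + 2) := h4.symm
          _ = w 2 * w (s + 2) := by rw [h5]
          _ ≤ w 2 * w 2 := mul_le_mul_right h6 _
      have h8 : w 2 * w 2 < w 2 := by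
        calc w 2 * w 2 < w 2 * 1 := by
              exact (mul_lt_mul_iff_right₀ (zero_lt_iff.2 hw20)).2 hw2
          _ = w 2 := mul_one _
      exact absurd h7 (not_le.2 h8)
    · rw [Valuation.map_add_eq_of_lt_left _ h5, hv2e] at h4
      obtain ⟨k, hk⟩ : ∃ k : ℤ, w s = WithZero.exp k := ⟨_, (WithZero.exp_log hs0).symm⟩
      rw [hk, ← WithZero.exp_add, WithZero.exp_inj] at h4
      obtain ⟨m, hm⟩ := hodd
      omega

end Pool.Agent.H47T
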