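import Pool.Agent.H47T.Stm

/-! Piece AP: a residue class of primes `p` for which `Bad d p` fails. -/

set_option autoImplicit false

namespace Pool.Agent.H47T

namespace AP

open scoped NumberTheorySymbols

theorem cls (n : ℕ) (hn : Odd n) (r s : ℕ) (hr : r.Coprime n) (hs : s % 2 = 1) :
    ∃ m a : ℕ, 0 < m ∧ a.Coprime m ∧
      ∀ p : ℕ, p % m = a % m → p ≡ r [MOD n] ∧ p % 8 = s % 8 := by
  have hn8 : n.Coprime 8 := by
    have : n.Coprime 2 := (Nat.coprime_two_right).2 hn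
    have h2 := Nat.Coprime.pow_right 3 this
    simpa using h2
  obtain ⟨a, ha1, ha2⟩ := Nat.chineseRemainder hn8 r s
  refine ⟨n * 8, a, ?_, ?_, ?_⟩
  · have := hn.pos
    omega
  · refine Nat.Coprime.mul_right ?_ ?_
    · have h1 := ha1.gcd_eq
      rw [Nat.Coprime, h1]
      exact hr
    · have h1 : a.Coprime 2 := by
        rw [Nat.coprime_two_right, Nat.odd_iff]
        have h2 : a % 8 = s % 8 := ha2
        omega
      have h2 := Nat.Coprime.pow_right 3 h1
      simpa using h2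
  · intro p hp
    have h1 : p ≡ a [MOD n * 8] := hp
    exact ⟨(h1.of_mul_right 8).trans ha1, ((h1.of_mul_left n).trans ha2)⟩

/-- a nonzero square -/
theorem one_of_sq {p : ℕ} (hp : p.Prime) {c s : ℤ} (hs : ¬ (p : ℤ) ∣ s)
    (h : (p : ℤ) ∣ s ^ 2 - c) : J(c | p) = 1 := by
  have : Fact p.Prime := ⟨hp⟩
  rw [← jacobiSym.legendreSym.to_jacobiSym]
  have h1 : ((c : ℤ) : ZMod p) = (s : ZMod p) ^ 2 := by
    have h2 := (ZMod.intCast_zmod_eq_zero_iff_dvd (s ^ 2 - c) p).2 h
    push_cast at h2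
    exact (sub_eq_zero.1 h2).symm
  have h3 : ((s : ℤ) : ZMod p) ≠ 0 := by
    intro h4
    exact hs ((ZMod.intCast_zmod_eq_zero_iff_dvd s p).1 h4)
  have h5 : ((c : ℤ) : ZMod p) ≠ 0 := by
    rw [h1]
    exact pow_ne_zero 2 h3
  rw [legendreSym.eq_one_iff p h5]
  exact ⟨s, by rw [h1, sq]⟩

/-- reciprocity for `p % 4 = 1` -/
theorem rec_one {p : ℕ} (hp : p % 4 = 1) (k : ℤ) (hk : k % 2 = 1) :
    J(k | p) = J((p : ℤ) | k.natAbs) := by
  have hko : Odd k.natAbs := by
    rw [Int.natAbs_odd, Int.odd_iff]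
    exact hk
  have hpo : Odd p := Nat.odd_iff.2 (by omega)
  rcases Int.natAbs_eq k with h | h
  · conv_lhs => rw [h]
    exact jacobiSym.quadratic_reciprocity_one_mod_four' hko hp
  · conv_lhs => rw [h]
    rw [jacobiSym.neg _ hpo, ZMod.χ₄_nat_one_mod_four hp, one_mul]
    exact jacobiSym.quadratic_reciprocity_one_mod_four' hko hp

/-- reciprocity for `p % 4 = 3` -/
theorem rec_three {p : ℕ} (hp : p % 4 = 3) (k : ℤ) (hk : k % 2 = 1) :
    J(k | p) = (if k % 4 = 1 then 1 else -1) * J((p : ℤ) | k.natAbs) := by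
  have hko : Odd k.natAbs := by
    rw [Int.natAbs_odd, Int.odd_iff]
    exact hk
  have hpo : Odd p := Nat.odd_iff.2 (by omega)
  have hk4 : k.natAbs % 4 = 1 ∨ k.natAbs % 4 = 3 := by
    have := Nat.odd_iff.1 hko
    omega
  have key : J((k.natAbs : ℤ) | p) = (if k.natAbs % 4 = 1 then 1 else -1) * J((p : ℤ) | k.natAbs) := by
    rcases hk4 with h4 | h4
    · rw [if_pos h4, one_mul]
      exact jacobiSym.quadratic_reciprocity_one_mod_four h4 hpo
    · rw [if_neg (by omega), neg_one_mul]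
      exact jacobiSym.quadratic_reciprocity_three_mod_four h4 hp
  rcases Int.natAbs_eq k with h | h
  · conv_lhs => rw [h]
    rw [key]
    congr 1
    have h5 : (k.natAbs % 4 = 1) ↔ (k % 4 = 1) := by omega
    simp only [h5]
  · conv_lhs => rw [h]
    rw [jacobiSym.neg _ hpo, ZMod.χ₄_nat_three_mod_four hp, key, ← mul_assoc]
    congr 1
    rcases hk4 with h4 | h4
    · rw [if_pos h4, if_neg (by omega), mul_one]
    · rw [if_neg (by omega), if_pos (by omega)]
      norm_num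

theorem dvd_one {n p : ℕ} (h : p ≡ 1 [MOD n]) {k : ℤ} (hk : k.natAbs ∣ n) :
    J((p : ℤ) | k.natAbs) = 1 := by
  have h1 : p ≡ 1 [MOD k.natAbs] := h.of_dvd hk
  have h2 : (p : ℤ) % (k.natAbs : ℤ) = 1 % (k.natAbs : ℤ) := by exact_mod_cast h1
  rw [jacobiSym.mod_left' h2, jacobiSym.one_left]

theorem dvd_two {n p : ℕ} (h : p ≡ 2 [MOD n]) {k : ℤ} (hk : k.natAbs ∣ n) (hk2 : k % 2 = 1) :
    J((p : ℤ) | k.natAbs) = if k % 8 = 1 ∨ k % 8 = 7 then 1 else -1 := by
  have h1 : p ≡ 2 [MOD k.natAbs] := h.of_dvd hk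
  have h2 : (p : ℤ) % (k.natAbs : ℤ) = 2 % (k.natAbs : ℤ) := by exact_mod_cast h1
  have hko : Odd k.natAbs := by
    rw [Int.natAbs_odd, Int.odd_iff]
    exact hk2
  rw [jacobiSym.mod_left' h2, jacobiSym.at_two hko, ZMod.χ₈_nat_eq_if_mod_eight]
  have h3 := Nat.odd_iff.1 hko
  rw [if_neg (by omega)]
  have h4 : (k.natAbs % 8 = 1 ∨ k.natAbs % 8 = 7) ↔ (k % 8 = 1 ∨ k % 8 = 7) := by omega
  simp only [h4]

theorem two_seven {p : ℕ} (hp : p % 8 = 7) : J(2 | p) = 1 := by
  rw [jacobiSym.at_two (Nat.odd_iff.2 (by omega)), ZMod.χ₈_nat_eq_if_mod_eight,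
    if_neg (by omega), if_pos (Or.inr hp)]

theorem two_three {p : ℕ} (hp : p % 8 = 3) : J(2 | p) = -1 := by
  rw [jacobiSym.at_two (Nat.odd_iff.2 (by omega)), ZMod.χ₈_nat_eq_if_mod_eight,
    if_neg (by omega), if_neg (by omega)]

theorem not_bad {d : ℤ} {p : ℕ} (hp : p.Prime)
    (h : ∀ c c' : ℤ, c * c' = d → c % 8 = p % 8 → J(c | p) = -1 ∧ J(c' | p) = -1) :
    ¬ Bad d p := by
  rintro ⟨c, c', hcc, hc8, -, s, hs, h1 | h1⟩
  · have := (h c c' hcc hc8).1
    rw [one_of_sq hp hs h1] at this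
    norm_num at this
  · have := (h c c' hcc hc8).2
    rw [one_of_sq hp hs h1] at this
    norm_num at this

theorem mod_mul {a b c : ℤ} (h : a * b = c) (m : ℤ) : (a % m) * (b % m) % m = c % m := by
  rw [← Int.mul_emod, h]

end AP

open AP NumberTheorySymbols

theorem mainAP : S_AP := by
  intro d hd
  have hd4 : d % 4 ≠ 0 := by
    intro h
    have h1 : (2 : ℤ) * 2 ∣ d := by
      rw [show (2 : ℤ) * 2 = 4 by norm_num]
      exact Int.dvd_of_emod_eq_zero h
    have h2 := hd 2 h1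
    rw [Int.isUnit_iff] at h2
    omega
  have hcases : d % 4 = 1 ∨ d % 8 = 3 ∨ d % 8 = 7 ∨ d % 8 = 2 ∨ d % 8 = 6 := by omega
  rcases hcases with h | h | h | h | h
  · -- `d % 4 = 1`
    obtain ⟨m, a, hm, ha, hp⟩ := cls d.natAbs (by rw [Int.natAbs_odd, Int.odd_iff]; omega) 1 3
      (Nat.coprime_one_left _) (by norm_num)
    refine ⟨m, a, hm, ha, fun p hpp hpm => ?_⟩
    obtain ⟨h1, h2⟩ := hp p hpm
    refine not_bad hpp fun c c' hcc hc8 => ?_
    have hp4 : p % 4 = 3 := by omega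
    have hc4 : c % 4 = 3 := by omega
    have hc4' : c' % 4 = 3 := by
      have := mod_mul hcc 4
      rw [hc4, h] at this
      omega
    have hdc : c.natAbs ∣ d.natAbs := Int.natAbs_dvd_natAbs.2 ⟨c', hcc.symm⟩
    have hdc' : c'.natAbs ∣ d.natAbs := Int.natAbs_dvd_natAbs.2 ⟨c, by rw [mul_comm]; exact hcc.symm⟩
    constructor
    · rw [rec_three hp4 c (by omega), dvd_one h1 hdc, if_neg (by omega)]
      norm_num
    · rw [rec_three hp4 c' (by omega), dvd_one h1 hdc', if_neg (by omega)]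
      norm_num
  · -- `d % 8 = 3`
    obtain ⟨m, a, hm, ha, hp⟩ := cls d.natAbs (by rw [Int.natAbs_odd, Int.odd_iff]; omega) 2 7
      (Nat.coprime_two_left.2 (by rw [Int.natAbs_odd, Int.odd_iff]; omega)) (by norm_num)
    refine ⟨m, a, hm, ha, fun p hpp hpm => ?_⟩
    obtain ⟨h1, h2⟩ := hp p hpm
    refine not_bad hpp fun c c' hcc hc8 => ?_
    have hp4 : p % 4 = 3 := by omega
    have hc4 : c % 8 = 7 := by omega
    have hc4' : c' % 8 = 5 := by
      have := mod_mul hcc 8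
      rw [hc4, h] at this
      omega
    have hdc : c.natAbs ∣ d.natAbs := Int.natAbs_dvd_natAbs.2 ⟨c', hcc.symm⟩
    have hdc' : c'.natAbs ∣ d.natAbs := Int.natAbs_dvd_natAbs.2 ⟨c, by rw [mul_comm]; exact hcc.symm⟩
    constructor
    · rw [rec_three hp4 c (by omega), dvd_two h1 hdc (by omega), if_neg (by omega),
        if_pos (by omega)]
      norm_num
    · rw [rec_three hp4 c' (by omega), dvd_two h1 hdc' (by omega), if_pos (by omega),
        if_neg (by omega)]
      norm_num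
  · -- `d % 8 = 7`
    obtain ⟨m, a, hm, ha, hp⟩ := cls d.natAbs (by rw [Int.natAbs_odd, Int.odd_iff]; omega) 2 5
      (Nat.coprime_two_left.2 (by rw [Int.natAbs_odd, Int.odd_iff]; omega)) (by norm_num)
    refine ⟨m, a, hm, ha, fun p hpp hpm => ?_⟩
    obtain ⟨h1, h2⟩ := hp p hpm
    refine not_bad hpp fun c c' hcc hc8 => ?_
    have hp4 : p % 4 = 1 := by omega
    have hc4 : c % 8 = 5 := by omega
    have hc4' : c' % 8 = 3 := by
      have := mod_mul hcc 8
      rw [hc4, h] at this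
      omega
    have hdc : c.natAbs ∣ d.natAbs := Int.natAbs_dvd_natAbs.2 ⟨c', hcc.symm⟩
    have hdc' : c'.natAbs ∣ d.natAbs := Int.natAbs_dvd_natAbs.2 ⟨c, by rw [mul_comm]; exact hcc.symm⟩
    constructor
    · rw [rec_one hp4 c (by omega), dvd_two h1 hdc (by omega), if_neg (by omega)]
    · rw [rec_one hp4 c' (by omega), dvd_two h1 hdc' (by omega), if_neg (by omega)]
  · -- `d = 2 k`, `k % 4 = 1`
    obtain ⟨k, rfl⟩ : ∃ k, d = 2 * k := ⟨d / 2, by omega⟩
    have hk : k % 4 = 1 := by omega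
    obtain ⟨m, a, hm, ha, hp⟩ := cls k.natAbs (by rw [Int.natAbs_odd, Int.odd_iff]; omega) 1 7
      (Nat.coprime_one_left _) (by norm_num)
    refine ⟨m, a, hm, ha, fun p hpp hpm => ?_⟩
    obtain ⟨h1, h2⟩ := hp p hpm
    refine not_bad hpp fun c c' hcc hc8 => ?_
    have hp4 : p % 4 = 3 := by omega
    have hc4 : c % 4 = 3 := by omega
    have hev : c' % 2 = 0 := by
      have := mod_mul hcc 2
      rw [show c % 2 = 1 by omega] at this
      omega
    obtain ⟨k', rfl⟩ : ∃ k', c' = 2 * k' := ⟨c' / 2, by omega⟩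
    have hck : c * k' = k := by linarith [hcc, mul_left_comm c 2 k']
    have hk' : k' % 4 = 3 := by
      have := mod_mul hck 4
      rw [hc4, hk] at this
      omega
    have hdc : c.natAbs ∣ k.natAbs := Int.natAbs_dvd_natAbs.2 ⟨k', hck.symm⟩
    have hdc' : k'.natAbs ∣ k.natAbs := Int.natAbs_dvd_natAbs.2 ⟨c, by rw [mul_comm]; exact hck.symm⟩
    constructor
    · rw [rec_three hp4 c (by omega), dvd_one h1 hdc, if_neg (by omega)]
      norm_num
    · rw [jacobiSym.mul_left, two_seven (by omega), rec_three hp4 k' (by omega),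
        dvd_one h1 hdc', if_neg (by omega)]
      norm_num
  · -- `d = 2 k`, `k % 4 = 3`
    obtain ⟨k, rfl⟩ : ∃ k, d = 2 * k := ⟨d / 2, by omega⟩
    have hk : k % 4 = 3 := by omega
    obtain ⟨m, a, hm, ha, hp⟩ := cls k.natAbs (by rw [Int.natAbs_odd, Int.odd_iff]; omega) 1 3
      (Nat.coprime_one_left _) (by norm_num)
    refine ⟨m, a, hm, ha, fun p hpp hpm => ?_⟩
    obtain ⟨h1, h2⟩ := hp p hpm
    refine not_bad hpp fun c c' hcc hc8 => ?_
    have hp4 : p % 4 = 3 := by omega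
    have hc4 : c % 4 = 3 := by omega
    have hev : c' % 2 = 0 := by
      have := mod_mul hcc 2
      rw [show c % 2 = 1 by omega] at this
      omega
    obtain ⟨k', rfl⟩ : ∃ k', c' = 2 * k' := ⟨c' / 2, by omega⟩
    have hck : c * k' = k := by linarith [hcc, mul_left_comm c 2 k']
    have hk' : k' % 4 = 1 := by
      have := mod_mul hck 4
      rw [hc4, hk] at this
      omega
    have hdc : c.natAbs ∣ k.natAbs := Int.natAbs_dvd_natAbs.2 ⟨k', hck.symm⟩
    have hdc' : k'.natAbs ∣ k.natAbs := Int.natAbs_dvd_natAbs.2 ⟨c, by rw [mul_comm]; exact hck.symm⟩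
    constructor
    · rw [rec_three hp4 c (by omega), dvd_one h1 hdc, if_neg (by omega)]
      norm_num
    · rw [jacobiSym.mul_left, two_three (by omega), rec_three hp4 k' (by omega),
        dvd_one h1 hdc', if_pos (by omega)]
      norm_num

end Pool.Agent.H47T
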