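import Pool.Agent.H47T.Stm4

/-!
# Project TQ phase 4 (helper47), piece IDN (helper63): the norm of an element with valuations divisible by `m`
-/

set_option autoImplicit false
set_option linter.all false

namespace Pool.Agent.H47T

open NumberField IsDedekindDomain

namespace IDNP

theorem pow_ideal {K : Type} [Field K] [NumberField K] (l : ℕ) (hl : 0 < l) (x : 𝓞 K) (hx : x ≠ 0)
    (h : ∀ v : HeightOneSpectrum (𝓞 K), ∃ m : ℤ,
      v.valuation K (x : K) = WithZero.exp ((l : ℤ) * m)) :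
    ∃ J : Ideal (𝓞 K), Ideal.span {x} = J ^ l := by
  classical
  have hI0 : (Ideal.span {x} : Ideal (𝓞 K)) ≠ 0 := by
    rw [Ne, Ideal.zero_eq_bot, Ideal.span_singleton_eq_bot]
    exact hx
  obtain ⟨e, he⟩ : ∃ e : HeightOneSpectrum (𝓞 K) → ℕ, e = fun v =>
    (Associates.mk v.asIdeal).count (Associates.mk (Ideal.span {x})).factors := ⟨_, rfl⟩
  have hev : ∀ v, e v / l * l = e v := by
    intro v
    obtain ⟨m, hm⟩ := h v
    have h1 : v.valuation K (algebraMap (𝓞 K) K x) = WithZero.exp (-(e v : ℤ)) := by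
      rw [HeightOneSpectrum.valuation_of_algebraMap, HeightOneSpectrum.intValuation_if_neg _ hx, he]
    have h2 : WithZero.exp ((l : ℤ) * m) = WithZero.exp (-(e v : ℤ)) := by
      rw [← hm, ← h1]
    have h3 : (l : ℤ) * m = -(e v : ℤ) := WithZero.exp_injective h2
    apply Nat.div_mul_cancel
    have h4 : (l : ℤ) ∣ (e v : ℤ) := ⟨-m, by linarith⟩
    exact_mod_cast h4
  have hfac := Ideal.finprod_heightOneSpectrum_factorization hI0
  have hmp : ∀ v : HeightOneSpectrum (𝓞 K),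
      v.maxPowDividing (Ideal.span {x}) = (v.asIdeal ^ (e v / l)) ^ l := by
    intro v
    rw [← pow_mul, hev, he]
    rfl
  have hfin : Function.HasFiniteMulSupport fun v : HeightOneSpectrum (𝓞 K) =>
      v.asIdeal ^ (e v / l) := by
    refine Set.Finite.subset (Ideal.hasFiniteMulSupport hI0) fun v hv => ?_
    rw [Function.mem_mulSupport] at hv ⊢
    rw [hmp]
    intro h1
    apply hv
    rw [Ideal.one_eq_top] at h1 ⊢
    exact (Ideal.pow_eq_top_iff.1 h1).resolve_right (by omega)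
  refine ⟨∏ᶠ v : HeightOneSpectrum (𝓞 K), v.asIdeal ^ (e v / l), ?_⟩
  rw [finprod_pow hfin, ← hfac]
  exact finprod_congr fun v => hmp v

theorem exists_den {K : Type} [Field K] [NumberField K] (a : K) :
    ∃ (e : ℤ) (b : 𝓞 K), e ≠ 0 ∧ (b : K) = (e : K) * a := by
  obtain ⟨e, he, hint⟩ :=
    ((IsFractionRing.isAlgebraic_iff ℤ ℚ K).2
      (Algebra.IsAlgebraic.isAlgebraic (R := ℚ) a)).exists_integral_multiple
  obtain ⟨α0, hα0⟩ : ∃ α0 : 𝓞 K, (α0 : K) = (e : K) * a := ⟨⟨_, hint⟩, by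
    simp [zsmul_eq_mul]⟩
  exact ⟨e, α0, he, hα0⟩

theorem val_ne {K : Type} [Field K] [NumberField K] (v : HeightOneSpectrum (𝓞 K)) (a : K) (ha : a ≠ 0) :
    ∃ m : ℤ, v.valuation K a = WithZero.exp m :=
  ⟨WithZero.log (v.valuation K a), (WithZero.exp_log ((Valuation.ne_zero_iff _).2 ha)).symm⟩

end IDNP

open IDNP in
/-- **IDN.** -/
theorem mainIDN : S_IDN := by
  intro m hm K _ _ a ha hev
  obtain ⟨e, b, he, hb⟩ := exists_den a
  obtain ⟨k, rfl⟩ : ∃ k, m = k + 1 := ⟨m - 1, by omega⟩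
  have heK : (e : K) ≠ 0 := by exact_mod_cast he
  have hbK : (b : K) ≠ 0 := by rw [hb]; exact mul_ne_zero heK ha
  set α : 𝓞 K := (e : 𝓞 K) ^ k * b with hα
  have hαK : (α : K) = (e : K) ^ (k + 1) * a := by
    rw [hα]
    show algebraMap (𝓞 K) K ((e : 𝓞 K) ^ k * b) = _
    rw [map_mul, map_pow, map_intCast, show algebraMap (𝓞 K) K b = (b : K) from rfl, hb]
    ring
  have hα0 : α ≠ 0 := by
    intro h0
    have h1 : (α : K) = 0 := by rw [h0]; rfl
    rw [hαK] at h1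
    exact mul_ne_zero (pow_ne_zero _ heK) ha h1
  obtain ⟨J, hJ⟩ := pow_ideal (k + 1) (by omega) α hα0 (by
    intro v
    obtain ⟨n, hn⟩ := hev v
    obtain ⟨n', hn'⟩ := val_ne v (e : K) heK
    refine ⟨n' + n, ?_⟩
    rw [hαK, map_mul, map_pow, hn, hn', ← WithZero.exp_nsmul, ← WithZero.exp_add]
    congr 1
    rw [nsmul_eq_mul]
    push_cast
    ring)
  have h1 : (Algebra.norm ℤ α).natAbs = (Ideal.absNorm J) ^ (k + 1) := by
    rw [← Ideal.absNorm_span_singleton, hJ, map_pow]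
  have h2 : (Algebra.norm ℤ α : ℚ) = (e : ℚ) ^ ((k + 1) * Module.finrank ℚ K) * Algebra.norm ℚ a := by
    rw [Algebra.coe_norm_int, hαK, map_mul, map_pow]
    have h3 : Algebra.norm ℚ (e : K) = (e : ℚ) ^ Module.finrank ℚ K := by
      have := Algebra.norm_algebraMap (S := K) (e : ℚ)
      rw [map_intCast] at this
      exact this
    rw [h3, ← pow_mul, mul_comm (Module.finrank ℚ K)]
  have heQ : (e : ℚ) ≠ 0 := by exact_mod_cast he
  have h4 : (e : ℚ) ^ ((k + 1) * Module.finrank ℚ K) ≠ 0 := pow_ne_zero _ heQ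
  have h5 : Algebra.norm ℚ a = (Algebra.norm ℤ α : ℚ) / (e : ℚ) ^ ((k + 1) * Module.finrank ℚ K) := by
    rw [h2]
    field_simp
  refine ⟨(Ideal.absNorm J : ℚ) / (e : ℚ) ^ Module.finrank ℚ K, ?_⟩
  have h6 : ((Ideal.absNorm J : ℚ) / (e : ℚ) ^ Module.finrank ℚ K) ^ (k + 1) =
      (((Algebra.norm ℤ α).natAbs : ℕ) : ℚ) / (e : ℚ) ^ ((k + 1) * Module.finrank ℚ K) := by
    rw [h1, div_pow, ← pow_mul, mul_comm (Module.finrank ℚ K)]
    push_cast
    rfl
  rw [h6, h5]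
  rcases Int.natAbs_eq (Algebra.norm ℤ α) with h7 | h7
  · left
    have h8 : ((Algebra.norm ℤ α : ℤ) : ℚ) = (((Algebra.norm ℤ α).natAbs : ℕ) : ℚ) := by
      have h9 := congrArg (Int.cast : ℤ → ℚ) h7
      rw [Int.cast_natCast] at h9
      exact h9
    rw [h8]
  · right
    have h8 : ((Algebra.norm ℤ α : ℤ) : ℚ) = -(((Algebra.norm ℤ α).natAbs : ℕ) : ℚ) := by
      have h9 := congrArg (Int.cast : ℤ → ℚ) h7
      rw [Int.cast_neg, Int.cast_natCast] at h9
      exact h9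
    rw [h8, neg_div]

end Pool.Agent.H47T
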