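import Pool.Agent.H47T.Stm4
import Pool.Agent.H47T.IDN

/-!
# Project TQ phase 4 (helper47), piece APP (helper63): weak approximation at the primes above `l`
-/

set_option autoImplicit false
set_option linter.all false

namespace Pool.Agent.H47T

open NumberField IsDedekindDomain

open IDNP in
/-- **APP.** -/
theorem mainAPP : S_APP := by
  classical
  intro l hl K _ _ b N hb
  have hl0 : Ideal.span {((l : ℕ) : 𝓞 K)} ≠ 0 := by
    rw [Ne, Ideal.zero_eq_bot, Ideal.span_singleton_eq_bot]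
    exact_mod_cast hl
  have hfin : {P : HeightOneSpectrum (𝓞 K) | ((l : ℕ) : 𝓞 K) ∈ P.asIdeal}.Finite := by
    refine (Ideal.finite_factors hl0).subset ?_
    intro P hP
    show P.asIdeal ∣ Ideal.span {((l : ℕ) : 𝓞 K)}
    rw [Ideal.dvd_span_singleton]
    exact hP
  set S : Finset (HeightOneSpectrum (𝓞 K)) := hfin.toFinset with hS
  have hmem : ∀ P : HeightOneSpectrum (𝓞 K), ((l : ℕ) : 𝓞 K) ∈ P.asIdeal → P ∈ S := by
    intro P hP
    rw [hS, Set.Finite.mem_toFinset]
    exact hP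
  by_cases hemp : S = ∅
  · refine ⟨1, one_ne_zero, fun P hP => ?_⟩
    have := hmem P hP
    rw [hemp] at this
    simp at this
  obtain ⟨P₀, hP₀⟩ := Finset.nonempty_iff_ne_empty.2 hemp
  choose e b' he hb' using fun P => exists_den (b P)
  set D : ℤ := ∏ P ∈ S, e P with hD
  have hD0 : D ≠ 0 := Finset.prod_ne_zero_iff.2 fun P _ => he P
  have hDK : (D : K) ≠ 0 := by exact_mod_cast hD0
  have hβ : ∀ P ∈ S, ∃ β : 𝓞 K, (β : K) = (D : K) * b P := by
    intro P hP
    refine ⟨((∏ Q ∈ S.erase P, e Q : ℤ) : 𝓞 K) * b' P, ?_⟩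
    show algebraMap (𝓞 K) K (((∏ Q ∈ S.erase P, e Q : ℤ) : 𝓞 K) * b' P) = _
    rw [map_mul, map_intCast, show algebraMap (𝓞 K) K (b' P) = (b' P : K) from rfl, hb', hD,
      ← Finset.mul_prod_erase S e hP]
    push_cast
    ring
  choose! β hβ using hβ
  have hβ0 : ∀ P ∈ S, (β P : K) ≠ 0 := fun P hP => by
    rw [hβ P hP]
    exact mul_ne_zero hDK (hb P)
  have hval : ∀ P : HeightOneSpectrum (𝓞 K), ∃ n : ℤ, P ∈ S → P.valuation K (β P : K) = WithZero.exp n := by
    intro P
    by_cases hP : P ∈ S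
    · obtain ⟨n, hn⟩ := val_ne P _ (hβ0 P hP)
      exact ⟨n, fun _ => hn⟩
    · exact ⟨0, fun h => absurd h hP⟩
  choose n hn using hval
  set E : ℕ := N + 1 + ∑ P ∈ S, (n P).natAbs with hE
  have hEn : ∀ P ∈ S, -(E : ℤ) ≤ n P - ((N + 1 : ℕ) : ℤ) := by
    intro P hP
    have h1 : (n P).natAbs ≤ ∑ P ∈ S, (n P).natAbs :=
      Finset.single_le_sum (f := fun P => (n P).natAbs) (fun _ _ => Nat.zero_le _) hP
    omega
  obtain ⟨y, hy⟩ := IsDedekindDomain.exists_forall_sub_mem_ideal (s := S)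
    (fun P : HeightOneSpectrum (𝓞 K) => P.asIdeal) (fun _ => E) (fun P _ => P.prime)
    (fun P _ Q _ hPQ h => hPQ (HeightOneSpectrum.ext h)) (fun P => β P.1)
  have key : ∀ P ∈ S, P.valuation K ((y : K) / D / b P - 1) ≤ WithZero.exp (-((N + 1 : ℕ) : ℤ)) := by
    intro P hP
    have h1 := hy P hP
    have h2 : P.valuation K ((y - β P : 𝓞 K) : K) ≤ WithZero.exp (-(E : ℤ)) := by
      have h3 := (P.intValuation_le_pow_iff_mem (y - β P) E).2 h1
      rw [← P.valuation_of_algebraMap (K := K)] at h3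
      exact h3
    have h3 : (y : K) / D / b P - 1 = ((y - β P : 𝓞 K) : K) / (β P : K) := by
      have h4 : ((y - β P : 𝓞 K) : K) = (y : K) - (β P : K) := rfl
      rw [h4, sub_div, div_self (hβ0 P hP), hβ P hP, div_div]
    rw [h3, map_div₀, hn P hP]
    refine (div_le_div_of_nonneg_right h2 zero_le').trans ?_
    rw [← WithZero.exp_sub, WithZero.exp_le_exp]
    have := hEn P hP
    omega
  refine ⟨(y : K) / D, ?_, fun P hP => ?_⟩
  · intro h0
    have h1 := key P₀ hP₀
    rw [h0, zero_div, zero_sub, Valuation.map_neg, map_one, ← WithZero.exp_zero, WithZero.exp_le_exp] at h1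
    push_cast at h1
    omega
  · refine (key P (hmem P hP)).trans ?_
    rw [WithZero.exp_le_exp]
    push_cast
    omega

end Pool.Agent.H47T
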