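import Pool.Agent.H47T.POS

/-!
# Project TQ: assembly
-/

set_option autoImplicit false

namespace Pool.Agent.H47T

open NumberField IsDedekindDomain

theorem val_exp {K : Type} [Field K] [NumberField K] (v : HeightOneSpectrum (𝓞 K)) {x : K}
    (hx : x ≠ 0) : ∃ k : ℤ, v.valuation K x = WithZero.exp k := by
  have h1 : v.valuation K x ≠ 0 := (Valuation.ne_zero_iff _).2 hx
  exact ⟨WithZero.log (v.valuation K x), (WithZero.exp_log h1).symm⟩

theorem Ev_sq {K : Type} [Field K] [NumberField K] {x : K} (hx : x ≠ 0) : Ev (x ^ 2) := by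
  intro v
  obtain ⟨k, hk⟩ := val_exp v hx
  refine ⟨k, ?_⟩
  rw [map_pow, hk, ← WithZero.exp_nsmul]
  simp

theorem Ev_neg {K : Type} [Field K] [NumberField K] {x : K} (hx : Ev x) : Ev (-x) := by
  intro v
  rw [Valuation.map_neg]
  exact hx v

theorem val_sq_le {K : Type} [Field K] [NumberField K] (v : HeightOneSpectrum (𝓞 K)) {x y : K}
    (hx : x ≠ 0) (hy : y ≠ 0) (h : v.valuation K x < v.valuation K y) :
    v.valuation K (x ^ 2) ≤ v.valuation K (y ^ 2) * WithZero.exp (-2) := by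
  obtain ⟨a, ha⟩ := val_exp v hx
  obtain ⟨b, hb⟩ := val_exp v hy
  rw [ha, hb, WithZero.exp_lt_exp] at h
  rw [map_pow, map_pow, ha, hb, ← WithZero.exp_nsmul, ← WithZero.exp_nsmul, ← WithZero.exp_add,
    WithZero.exp_le_exp]
  simp only [nsmul_eq_mul, Nat.cast_ofNat]
  omega

theorem pow_lt_iff' {K : Type} [Field K] [NumberField K] (v : HeightOneSpectrum (𝓞 K)) {n : ℕ}
    (hn : n ≠ 0) (x y : K) :
    v.valuation K (x ^ n) < v.valuation K (y ^ n) ↔ v.valuation K x < v.valuation K y := by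
  rw [map_pow, map_pow]
  exact pow_lt_pow_iff_left₀ zero_le zero_le hn

theorem pow_eq_iff' {K : Type} [Field K] [NumberField K] (v : HeightOneSpectrum (𝓞 K)) {n : ℕ}
    (hn : n ≠ 0) (x y : K) :
    v.valuation K (x ^ n) = v.valuation K (y ^ n) ↔ v.valuation K x = v.valuation K y := by
  rw [map_pow, map_pow]
  exact pow_left_inj₀ zero_le zero_le hn

/-- plus or minus squares with `Z` more divisible -/
theorem exists_XYZ {K : Type} [Field K] [NumberField K] {p : ℕ} (hp : Odd p)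
    {x y z : K} (hx : x ≠ 0) (hy : y ≠ 0) (hz : z ≠ 0)
    (h : x ^ (2 * p) + y ^ (2 * p) = z ^ (2 * p)) (v : HeightOneSpectrum (𝓞 K))
    (hnot : ¬ (v.valuation K x = v.valuation K z ∧ v.valuation K y = v.valuation K z)) :
    ∃ X Y Z : K, X ≠ 0 ∧ Y ≠ 0 ∧ Z ≠ 0 ∧ X ^ p + Y ^ p = Z ^ p ∧ Ev X ∧ Ev Y ∧ Ev Z ∧
      v.valuation K Y = v.valuation K X ∧
      v.valuation K Z ≤ v.valuation K X * WithZero.exp (-2) ∧
      ∀ w : HeightOneSpectrum (𝓞 K),
        w.valuation K x = w.valuation K z ∧ w.valuation K y = w.valuation K z →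
        w.valuation K X = w.valuation K Z ∧ w.valuation K Y = w.valuation K Z := by
  have hp0 : p ≠ 0 := by rintro rfl; exact absurd hp (by decide)
  have h2p : 2 * p ≠ 0 := by omega
  have e : ∀ a : K, (a ^ 2) ^ p = a ^ (2 * p) := fun a => by rw [pow_mul]
  have e' : ∀ a : K, (-a ^ 2) ^ p = -a ^ (2 * p) := fun a => by rw [hp.neg_pow, pow_mul]
  have hsq : ∀ {w : HeightOneSpectrum (𝓞 K)} {a b : K}, w.valuation K a = w.valuation K b →
      w.valuation K (a ^ 2) = w.valuation K (b ^ 2) := fun hab => by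
    rw [map_pow, map_pow, hab]
  by_cases h1 : v.valuation K x < v.valuation K z
  · -- `x` is more divisible
    have h2 : v.valuation K y = v.valuation K z := by
      rw [← pow_eq_iff' v h2p]
      have h3 : y ^ (2 * p) = z ^ (2 * p) - x ^ (2 * p) := by linear_combination h
      rw [h3]
      exact Valuation.map_sub_eq_of_lt_left _ ((pow_lt_iff' v h2p x z).2 h1)
    refine ⟨z ^ 2, -y ^ 2, x ^ 2, pow_ne_zero 2 hz, neg_ne_zero.2 (pow_ne_zero 2 hy),
      pow_ne_zero 2 hx, ?_, Ev_sq hz, Ev_neg (Ev_sq hy), Ev_sq hx, ?_, val_sq_le v hx hz h1, ?_⟩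
    · rw [e, e', e]
      linear_combination -h
    · rw [Valuation.map_neg]
      exact hsq h2
    · rintro w ⟨hw1, hw2⟩
      rw [Valuation.map_neg]
      exact ⟨hsq hw1.symm, hsq (hw2.trans hw1.symm)⟩
  by_cases h2 : v.valuation K y < v.valuation K z
  · -- `y` is more divisible
    have h3 : v.valuation K x = v.valuation K z := by
      rw [← pow_eq_iff' v h2p]
      have h3 : x ^ (2 * p) = z ^ (2 * p) - y ^ (2 * p) := by linear_combination h
      rw [h3]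
      exact Valuation.map_sub_eq_of_lt_left _ ((pow_lt_iff' v h2p y z).2 h2)
    refine ⟨z ^ 2, -x ^ 2, y ^ 2, pow_ne_zero 2 hz, neg_ne_zero.2 (pow_ne_zero 2 hx),
      pow_ne_zero 2 hy, ?_, Ev_sq hz, Ev_neg (Ev_sq hx), Ev_sq hy, ?_, val_sq_le v hy hz h2, ?_⟩
    · rw [e, e', e]
      linear_combination -h
    · rw [Valuation.map_neg]
      exact hsq h3
    · rintro w ⟨hw1, hw2⟩
      rw [Valuation.map_neg]
      exact ⟨hsq hw2.symm, hsq (hw1.trans hw2.symm)⟩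
  -- `z` is more divisible
  push Not at h1 h2
  have hzx : v.valuation K z < v.valuation K x := by
    refine lt_of_le_of_ne h1 fun h3 => ?_
    have h4 : v.valuation K z < v.valuation K y :=
      lt_of_le_of_ne h2 fun h4 => hnot ⟨h3.symm, h4.symm⟩
    have h5 : v.valuation K (x ^ (2 * p)) < v.valuation K (y ^ (2 * p)) :=
      (pow_lt_iff' v h2p x y).2 (h3 ▸ h4)
    have h6 := Valuation.map_add_eq_of_lt_left _ h5
    rw [add_comm, h, pow_eq_iff' v h2p] at h6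
    exact h4.ne h6
  have hxy : v.valuation K y = v.valuation K x := by
    rw [← pow_eq_iff' v h2p, ← Valuation.map_neg]
    have h3 : -y ^ (2 * p) = x ^ (2 * p) - z ^ (2 * p) := by linear_combination -h
    rw [h3]
    exact Valuation.map_sub_eq_of_lt_left _ ((pow_lt_iff' v h2p z x).2 hzx)
  refine ⟨x ^ 2, y ^ 2, z ^ 2, pow_ne_zero 2 hx, pow_ne_zero 2 hy, pow_ne_zero 2 hz, ?_,
    Ev_sq hx, Ev_sq hy, Ev_sq hz, hsq hxy, val_sq_le v hz hx hzx, ?_⟩
  · rw [e, e, e, h]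
  · rintro w ⟨hw1, hw2⟩
    exact ⟨hsq hw1, hsq hw2⟩

/-- The element `A`. -/
theorem core (hEVA : S_EVA) (hLOC2 : S_LOC2) (hLOCP : S_LOCP) (hPOS : S_POS)
    {K : Type} [Field K] [NumberField K] {p : ℕ} (hp : p.Prime) (hp2 : p ≠ 2)
    {x y z : K} (hx : x ≠ 0) (hy : y ≠ 0) (hz : z ≠ 0)
    (h : x ^ (2 * p) + y ^ (2 * p) = z ^ (2 * p))
    (hfc : ∀ v : HeightOneSpectrum (𝓞 K), ((p : ℕ) : 𝓞 K) ∈ v.asIdeal →
      v.valuation K x = v.valuation K z ∧ v.valuation K y = v.valuation K z)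
    (v : HeightOneSpectrum (𝓞 K)) (h2v : (2 : 𝓞 K) ∈ v.asIdeal)
    (hcard : ¬ p ∣ Nat.card (𝓞 K ⧸ v.asIdeal) - 1)
    (hnot : ¬ (v.valuation K x = v.valuation K z ∧ v.valuation K y = v.valuation K z)) :
    ∃ A X U : K, A ≠ 0 ∧ X ≠ 0 ∧ U ≠ 0 ∧ Ev A ∧
      (∀ φ : K →+* ℂ, (∀ a, ∃ s : ℝ, φ a = s) → 0 < (φ A).re) ∧
      v.valuation K (A / (p * X ^ (p - 1)) - 1) ≤ WithZero.exp (-(2 * p : ℤ)) ∧
      ∀ w : HeightOneSpectrum (𝓞 K), ((p : ℕ) : 𝓞 K) ∈ w.asIdeal →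
        w.valuation K (A / U ^ (p - 1) - 1) < 1 := by
  have hodd : Odd p := hp.odd_of_ne_two hp2
  obtain ⟨X, Y, Z, hX, hY, hZ, hXYZ, eX, eY, eZ, hYX, hZX, hw⟩ :=
    exists_XYZ hodd hx hy hz h v hnot
  have hmul := AA_mul hodd X Y
  have hne : X ^ p + Y ^ p ≠ 0 := by
    rw [hXYZ]
    exact pow_ne_zero p hZ
  refine ⟨AA p X Y, X, X + Y, ?_, hX, ?_, ?_, ?_, ?_, ?_⟩
  · intro h0
    rw [h0, zero_mul] at hmul
    exact hne hmul.symm
  · intro h0
    rw [h0, mul_zero] at hmul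
    exact hne hmul.symm
  · exact hEVA K p hp hp2 X Y Z hX hY hZ hXYZ eX eY eZ fun w hwp => hw w (hfc w hwp)
  · intro φ hφ
    exact hPOS K φ p hodd X Y (hφ X) (hφ Y) hne
  · exact hLOC2 K p hp hp2 v h2v hcard X Y Z hX hY hZ hXYZ hYX hZX
  · intro w hwp
    obtain ⟨h1, h2⟩ := hw w (hfc w hwp)
    exact hLOCP K p hp hp2 w hwp X Y Z hX hY hZ hXYZ h1 h2

theorem exists_two (K : Type) [Field K] [NumberField K] :
    ∃ v : HeightOneSpectrum (𝓞 K), (2 : 𝓞 K) ∈ v.asIdeal := by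
  have hne : (Ideal.span {(2 : 𝓞 K)} : Ideal (𝓞 K)) ≠ ⊤ := by
    intro h
    rw [Ideal.span_singleton_eq_top] at h
    have h1 : Algebra.norm ℤ (2 : 𝓞 K) = 1 ∨ Algebra.norm ℤ (2 : 𝓞 K) = -1 :=
      Int.isUnit_iff.1 (h.map (Algebra.norm ℤ))
    have h2 : Algebra.norm ℤ (algebraMap ℤ (𝓞 K) 2) = 2 ^ Module.finrank ℤ (𝓞 K) :=
      Algebra.norm_algebraMap 2
    rw [map_ofNat] at h2
    have h3 : Module.finrank ℤ (𝓞 K) ≠ 0 := by
      rw [RingOfIntegers.rank]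
      exact Module.finrank_pos.ne'
    have h4 : (2 : ℤ) ∣ Algebra.norm ℤ (2 : 𝓞 K) := by
      rw [h2]
      exact dvd_pow_self 2 h3
    rcases h1 with h1 | h1 <;> rw [h1] at h4 <;> norm_num at h4
  obtain ⟨M, hM, hle⟩ := Ideal.exists_le_maximal _ hne
  have h2M : (2 : 𝓞 K) ∈ M := hle (Ideal.mem_span_singleton_self 2)
  refine ⟨⟨M, hM.isPrime, ?_⟩, h2M⟩
  rintro rfl
  rw [Ideal.mem_bot] at h2M
  norm_num at h2M

theorem span_r {K : Type} [Field K] [NumberField K] (hK : Module.finrank ℚ K = 2) {d : ℤ}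
    (hd : Squarefree d) (hd1 : d ≠ 1) {r : K} (hr : r ^ 2 = (d : K)) :
    ∀ a : K, ∃ x y : ℚ, a = (x : K) + y * r := by
  have hirr : ∀ x : ℚ, (x : K) ≠ r := by
    intro x hx
    have h1 : (x : K) ^ 2 = (d : K) := by rw [hx, hr]
    have h2 : x ^ 2 = (d : ℚ) := by exact_mod_cast h1
    have h3 : IsSquare (d : ℚ) := ⟨x, by rw [← h2, sq]⟩
    have h4 : IsSquare d := Rat.isSquare_intCast_iff.1 h3
    obtain ⟨s, hs⟩ := h4
    have h5 : IsUnit s := hd s ⟨1, by rw [hs]; ring⟩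
    rcases Int.isUnit_iff.1 h5 with h | h <;> rw [h] at hs <;> norm_num at hs <;> exact hd1 hs
  have hli : LinearIndependent ℚ ![(1 : K), r] := by
    rw [LinearIndependent.pair_iff]
    intro s t hst
    rw [Algebra.smul_def, Algebra.smul_def, mul_one] at hst
    simp only [eq_ratCast] at hst
    have ht : t = 0 := by
      by_contra ht
      apply hirr (-s / t)
      have ht' : (t : K) ≠ 0 := by exact_mod_cast ht
      push_cast
      rw [div_eq_iff ht']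
      linear_combination -hst
    subst ht
    refine ⟨?_, rfl⟩
    simpa using hst
  let b := basisOfLinearIndependentOfCardEqFinrank hli (by rw [hK]; rfl)
  have hb : ∀ i, b i = ![(1 : K), r] i := fun i => by
    rw [show b i = _ from congrFun (coe_basisOfLinearIndependentOfCardEqFinrank hli _) i]
  have hb0 : b 0 = 1 := hb 0
  have hb1 : b 1 = r := hb 1
  intro a
  refine ⟨b.repr a 0, b.repr a 1, ?_⟩
  have h1 := b.sum_repr a
  rw [Fin.sum_univ_two, hb0, hb1, Algebra.smul_def, Algebra.smul_def, mul_one] at h1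
  simp only [eq_ratCast] at h1
  exact h1.symm

theorem real_of_pos {K : Type} [Field K] [NumberField K] (hK : Module.finrank ℚ K = 2) {d : ℤ}
    (hd : Squarefree d) (hd1 : d ≠ 1) {r : K} (hr : r ^ 2 = (d : K)) (hpos : 0 < d)
    (φ : K →+* ℂ) (a : K) : ∃ s : ℝ, φ a = s := by
  have h1 : φ r ^ 2 = (d : ℂ) := by rw [← map_pow, hr, map_intCast]
  obtain ⟨ρ, hρ⟩ : ∃ ρ : ℝ, φ r = ρ := by
    have h2 : φ r ^ 2 = ((Real.sqrt d : ℝ) : ℂ) ^ 2 := by
      rw [h1, ← Complex.ofReal_pow, Real.sq_sqrt (by exact_mod_cast hpos.le)]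
      simp
    rcases sq_eq_sq_iff_eq_or_eq_neg.1 h2 with h3 | h3
    · exact ⟨_, h3⟩
    · exact ⟨-Real.sqrt d, by rw [h3]; simp⟩
  obtain ⟨x, y, rfl⟩ := span_r hK hd hd1 hr a
  refine ⟨x + y * ρ, ?_⟩
  rw [map_add, map_mul, map_ratCast, map_ratCast, hρ]
  push_cast
  ring

theorem even_pow_half {K : Type} [Field K] {p : ℕ} (hp : Odd p) (X : K) :
    (X ^ ((p - 1) / 2)) ^ 2 = X ^ (p - 1) := by
  obtain ⟨k, rfl⟩ := hp
  rw [← pow_mul]
  congr 1
  omega

/-- Terjanian's theorem over quadratic fields -/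
theorem mainTQ (hEVA : S_EVA) (hLOC2 : S_LOC2) (hLOCP : S_LOCP) (hPOS : S_POS) (hALLU : S_ALLU)
    (hQTWO : S_QTWO) (hNRM : S_NRM) (hDIV : S_DIV) (hTWO : S_TWO) (hSQP : S_SQP)
    {K : Type} [Field K] [NumberField K] (hK : Module.finrank ℚ K = 2) {d : ℤ} {r : K}
    (hd : Squarefree d) (hd1 : d ≠ 1) (hr : r ^ 2 = (d : K)) {p : ℕ} (hp : p.Prime) (h5 : 5 ≤ p)
    (hbad : ¬ Bad d p) {x y z : K} (hx : x ≠ 0) (hy : y ≠ 0) (hz : z ≠ 0)
    (h : x ^ (2 * p) + y ^ (2 * p) = z ^ (2 * p))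
    (hfc : ∀ v : HeightOneSpectrum (𝓞 K), ((p : ℕ) : 𝓞 K) ∈ v.asIdeal →
      v.valuation K x = v.valuation K z ∧ v.valuation K y = v.valuation K z) : False := by
  have hp2 : p ≠ 2 := by omega
  have hodd : Odd p := hp.odd_of_ne_two hp2
  have hp0 : p ≠ 0 := hp.ne_zero
  obtain ⟨v, h2v⟩ := exists_two K
  have hq := hQTWO K hK v h2v
  have hnot : ¬ (v.valuation K x = v.valuation K z ∧ v.valuation K y = v.valuation K z) := by
    rintro ⟨h1, h2⟩
    refine hALLU K v h2v (hq.imp id fun h3 => ⟨1, odd_one, by rw [pow_one]; exact h2v, h3.2⟩)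
      (x ^ p) (y ^ p) (z ^ p) (pow_ne_zero p hx) (pow_ne_zero p hy) (pow_ne_zero p hz) ?_ ?_
    · rw [← pow_mul, ← pow_mul, ← pow_mul, mul_comm p 2, h]
    · exact ⟨(pow_eq_iff' v hp0 x z).2 h1, (pow_eq_iff' v hp0 y z).2 h2⟩
  have hcard : ¬ p ∣ Nat.card (𝓞 K ⧸ v.asIdeal) - 1 := by
    intro h1
    rcases hq with h2 | ⟨h2, -⟩ <;> rw [h2] at h1
    · have := Nat.le_of_dvd (by norm_num) h1
      omega
    · have := Nat.le_of_dvd (by norm_num) h1
      omega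
  obtain ⟨A, X, U, hA, hX, hU, hEA, hpos, hloc2, hlocp⟩ :=
    core hEVA hLOC2 hLOCP hPOS hp hp2 hx hy hz h hfc v h2v hcard hnot
  obtain ⟨c, w, hcs, hcpos, hw0, hcA⟩ := hNRM K hK d r hd hd1 hr A hEA fun hdp φ =>
    hpos φ (real_of_pos hK hd hd1 hr hdp φ)
  have hc0 : (c : K) ≠ 0 := by
    intro h0
    rw [h0, zero_mul] at hcA
    exact pow_ne_zero 2 hw0 hcA.symm
  -- valuations of `c`
  have hEc : Ev (c : K) := by
    intro u
    obtain ⟨m, hm⟩ := hEA u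
    obtain ⟨k, hk⟩ := val_exp u hw0
    obtain ⟨j, hj⟩ := val_exp u hc0
    have h1 := congrArg (u.valuation K) hcA
    rw [map_mul, map_pow, hm, hk, hj, ← WithZero.exp_add, ← WithZero.exp_nsmul] at h1
    have h2 := WithZero.exp_injective h1
    refine ⟨k - m, ?_⟩
    rw [hj]
    congr 1
    simp only [nsmul_eq_mul, Nat.cast_ofNat] at h2
    linarith
  have hdiv := hDIV K hK d r hd hd1 hr c hcs hEc
  have hpK : (p : K) ≠ 0 := by exact_mod_cast hp0
  obtain ⟨t, ht⟩ : ∃ t : K, t = A / (p * X ^ (p - 1)) - 1 := ⟨_, rfl⟩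
  have hXp : X ^ (p - 1) ≠ 0 := pow_ne_zero _ hX
  obtain ⟨c', hcc, h8⟩ := hTWO K hK d r hd hd1 hr c hcs hdiv p (Nat.odd_iff.1 hodd) v h2v
    (w / X ^ ((p - 1) / 2)) t (by
      rw [div_pow, even_pow_half hodd, ← hcA, ht]
      field_simp
      ring) (by
      rw [ht]
      refine hloc2.trans ?_
      rw [WithZero.exp_le_exp]
      have : (5 : ℤ) ≤ p := by exact_mod_cast h5
      omega)
  have hUp : U ^ (p - 1) ≠ 0 := pow_ne_zero _ hU
  obtain ⟨s, hs, hss⟩ := hSQP K hK d r hd hd1 hr p hp hp2 c c' hcc (fun u hu =>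
    ⟨w / U ^ ((p - 1) / 2), A / U ^ (p - 1) - 1, by
      rw [div_pow, even_pow_half hodd, ← hcA]
      field_simp
      ring, hlocp u hu⟩)
  rcases h8 with h8 | h8
  · exact hbad ⟨c, c', hcc, h8, hcpos, s, hs, hss⟩
  · refine hbad ⟨c', c, by rw [mul_comm]; exact hcc, h8, fun hdp => ?_, s, hs, hss.symm⟩
    have h1 := hcpos hdp
    rw [← hcc] at hdp
    exact (pos_iff_pos_of_mul_pos hdp).1 h1

end Pool.Agent.H47T
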