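import Pool.Agent.H47T.Stm

/-!
# Project TQ, phase 2: exponents `2 p` over general number fields

Goal: let `K` be a number field with a prime `v₀` above two of odd ramification index, or of norm two
and ramification index not divisible by four. Then the first case of Fermat's Last Theorem holds
over `K` for all exponents divisible by `2 p`, for a set of primes `p` of positive lower density.

Proof. `Sq v M u`: up to a factor `1 + t`, `t` divisible by `v ^ M`, `u` is a square. There is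
`q ∈ {3, 5, 7}` and (for large `M`) a homomorphism `χ : Kˣ → {1, -1}` with `χ u = 1` for all `u` with
`Sq v₀ M u`, `χ (-1) = (-1 | q)`, `χ 2 = (2 | q)` and `χ q = -1` (CND, LIN). Let `F` represent the
finitely many square classes of elements with even valuations (FIN, done). By Kummer theory (KUM) there
is `Φ ∈ Gal(L / K)` with `Φ √f = χ f √f` for `f ∈ F`, `f = -1` and `f = 2`, and by Chebotarev (DEN) there
are many primes `p` which are the norm of a prime `v` of `K` with Frobenius `Φ`. Then `p ≡ q` modulo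
`8` (SYM). If `x ^ (2 p) + y ^ (2 p) = z ^ (2 p)` in the first case then the element `A` of phase 1
has even valuations, so `A = f b ^ 2`, `f ∈ F`; `A / p` is a square at `v₀`, hence so is `A / q` (SQ8), so
`χ f = χ A = χ q = -1`; and `A` is a square times `1 + small` at `v`, so `χ f = 1` (SYM).
-/

set_option autoImplicit false

namespace Pool.Agent.H47T

open NumberField IsDedekindDomain

/-- up to a factor `1 + t`, with `t` of valuation at least `M`, `u` is a square -/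
def Sq {K : Type} [Field K] [NumberField K] (v : HeightOneSpectrum (𝓞 K)) (M : ℕ) (u : K) : Prop :=
  ∃ b t : K, b ≠ 0 ∧ u * (1 + t) = b ^ 2 ∧ v.valuation K t ≤ WithZero.exp (-(M : ℤ))

/-- the symbol `(-1 | q)` -/
def s1 (q : ℕ) : ℤˣ := if q % 4 = 3 then -1 else 1

/-- the symbol `(2 | q)` -/
def s2 (q : ℕ) : ℤˣ := if q % 8 = 3 ∨ q % 8 = 5 then -1 else 1

/-- FIN: finitely many square classes of elements with even valuations -/
def S_FIN : Prop := ∀ (K : Type) [Field K] [NumberField K], ∃ F : Finset K, (∀ f ∈ F, f ≠ 0) ∧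
  ∀ a : K, a ≠ 0 → Ev a → ∃ f ∈ F, ∃ b : K, b ≠ 0 ∧ a = f * b ^ 2

/-- SQ8. Proof. `p q ≡ p ^ 2 ≡ 1` modulo `8`, so for every `N` there is an (odd) integer `b` with
`2 ^ N ∣ b ^ 2 - p q` (induction on `N ≥ 3`: if `b ^ 2 - p q` is an odd multiple of `2 ^ N` then
replace `b` by `b + 2 ^ (N - 1)`). Take `N = M + 3` and `t = (b ^ 2 - p q) / (p q)`; `v (p q) = 1`. -/
def S_SQ8 : Prop := ∀ (K : Type) [Field K] [NumberField K] (v : HeightOneSpectrum (𝓞 K)),
  (2 : 𝓞 K) ∈ v.asIdeal → ∀ M p q : ℕ, p % 2 = 1 → p % 8 = q % 8 → Sq v M ((p : K) * q)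

/-- CND. Additive notation `v 2 = e`; let `M ≥ 8 e + 8` be large. `Sq v M` is closed under
products and contains all squares; it is enough to treat exponents `i, j, k ≤ 1`.
(a) If `-1` and `-2` are not in `Sq`, take `q = 7`: for `i + k` odd the elements are `-1, -2, 7, 14`, and
`-7` is in `Sq` (`-7 ≡ 1` modulo `8`, as in SQ8), so none of the four is in `Sq`. This is the case if `e`
is odd: `-2 (1 + t) = b ^ 2` gives `e = 2 v b`; and `- (1 + t) = b ^ 2` gives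
`(b - 1) ^ 2 = b ^ 2 - 2 b + 1 = - t - 2 b` of valuation `e`, so `e = 2 v (b - 1)`.
Now let the residue field have two elements and `4 ∤ e`.
(b) Claim: `5` is not in `Sq`. `5 (1 + t) = b ^ 2`, `(b - 1) (b + 1) = 4 + 5 t` has valuation `2 e`, and
`(b + 1) - (b - 1) = 2`, so both factors have valuation `e`; `g = (b + 1) / 2` and `g - 1` are both
units, impossible in a residue field with two elements.
(c) Let `-1` be in `Sq`. Then `2` is not: `b ^ 2 = - (1 + t)`, `c ^ 2 = 2 (1 + t')`, `u = (1 + b) / c`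
is a unit with `u ^ 4 = - 1 + small` and `(u - 1) ^ 4 = u ^ 4 + 1 - 2 u (2 u ^ 2 - 3 u + 2)` has
valuation `e`, so `4 ∣ e`. Hence `2, -2, 5, -5` are not in `Sq`: take `q = 5` (the elements with `j + k`
odd are `2, -2, 5, -5`).
(d) Let `-1` not be in `Sq` and `-2` be in `Sq`. Then `2` is not, and `3` is not:
`b ^ 2 = 3 (1 + t)`, `c ^ 2 = -2 (1 + t')`, `(b - 1) ^ 2 = 4 - 2 b + 3 t` has valuation `e`,
`u = (b - 1) / c` is a unit with `u ^ 2 = b - 2 + small`, `(u - 1) ^ 2 = b - 1 - 2 u + small` has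
valuation `e / 2`, so `4 ∣ e`. And `-6` is not (`12 = 4 * 3`). Take `q = 3` (`i + j + k` odd: `-1, 2, 3`,
`-6`). -/
def S_CND : Prop := ∀ (K : Type) [Field K] [NumberField K] (v : HeightOneSpectrum (𝓞 K)) (e : ℕ),
  (2 : 𝓞 K) ∈ v.asIdeal → (2 : 𝓞 K) ∈ v.asIdeal ^ e → (2 : 𝓞 K) ∉ v.asIdeal ^ (e + 1) →
  (Odd e ∨ (Nat.card (𝓞 K ⧸ v.asIdeal) = 2 ∧ ¬ 4 ∣ e)) →
  ∃ M q : ℕ, (q = 3 ∨ q = 5 ∨ q = 7) ∧ ∀ i j k : ℕ, Sq v M ((-1) ^ i * 2 ^ j * (q : K) ^ k) →
    s1 q ^ i * s2 q ^ j * (-1) ^ k = 1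

/-- LIN (pure algebra). Proof. `V = G / H` (written additively) is a vector space over `ZMod 2`; the
linear map `(Fin 3 → ZMod 2) → V` given by `g1, g2, g3` and the functional on `Fin 3 → ZMod 2` given by
the signs `ε`, which vanishes on its kernel; `LinearMap.range_dualMap_eq_dualAnnihilator_ker`. -/
def S_LIN : Prop := ∀ (G : Type) [CommGroup G] (H : Subgroup G), (∀ g : G, g ^ 2 ∈ H) →
  ∀ (g1 g2 g3 : G) (ε1 ε2 ε3 : ℤˣ),
  (∀ i j k : ℕ, g1 ^ i * g2 ^ j * g3 ^ k ∈ H → ε1 ^ i * ε2 ^ j * ε3 ^ k = 1) →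
  ∃ χ : G →* ℤˣ, (∀ h ∈ H, χ h = 1) ∧ χ g1 = ε1 ∧ χ g2 = ε2 ∧ χ g3 = ε3

/-- KUM (Kummer theory). Proof. Induction on `F`, with the stronger claim that
`Φ s = χ a s` for ALL `a ∈ Kˣ` and `s ∈ L` with `s ^ 2 = a`. Start: `L = K`, `Φ = 1` (`χ` is trivial on
squares). Step: let `L, Φ` be given and `f ∈ Kˣ`. If `f` is a square in `L` nothing is to be done.
Otherwise `L' = L (√f)` (`AdjoinRoot (X ^ 2 - C f)`, a number field), and `Φ` extends to an
automorphism `Φ'` of `L'` over `K` with `Φ' √f = χ f √f`. If `a ∈ Kˣ` and `(α + β √f) ^ 2 = a`,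
`α, β ∈ L`, then `α β = 0`; if `β = 0` use `Φ`; if `α = 0` then `β ^ 2 = a / f` and
`Φ β = χ (a / f) β`. -/
def S_KUM : Prop := ∀ (K : Type) [Field K] [NumberField K] (χ : Kˣ →* ℤˣ) (F : Finset Kˣ),
  ∃ (L : Type) (_ : Field L) (_ : NumberField L) (_ : Algebra K L) (Φ : L ≃ₐ[K] L),
    ∀ f ∈ F, ∃ s : L, s ^ 2 = algebraMap K L (f : K) ∧ Φ s = (((χ f : ℤˣ) : ℤ) : L) * s

/-- `v` is a prime of `K` of norm `p` and `P` a prime of `L` above it, with Frobenius `Φ` -/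
def Fr {K L : Type} [Field K] [NumberField K] [Field L] [NumberField L] [Algebra K L]
    (Φ : L ≃ₐ[K] L) (p : ℕ) (v : HeightOneSpectrum (𝓞 K)) (P : HeightOneSpectrum (𝓞 L)) : Prop :=
  Ideal.absNorm v.asIdeal = p ∧ P.asIdeal.comap (algebraMap (𝓞 K) (𝓞 L)) = v.asIdeal ∧
    ∀ x : 𝓞 L, P.valuation L (Φ (x : L) - (x : L) ^ p) < 1

/-- DEN. Proof: adapt `t_CHEB` of `Pool/Agent/K3h73/RS/Cheb.lean` (there the prime ideals are
counted; here the rational primes, which is simpler: its `good p` and its `key`). -/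
def S_DEN : Prop := ∀ (K L : Type) [Field K] [NumberField K] [Field L] [NumberField L]
  [Algebra K L] (Φ : L ≃ₐ[K] L) (B : ℕ), ∃ c : ℝ, 0 < c ∧ ∀ᶠ X : ℕ in Filter.atTop,
    c * (Nat.primeCounting X : ℝ) ≤ Nat.card {p : ℕ // p ≤ X ∧ p.Prime ∧ B < p ∧
      ∃ (v : HeightOneSpectrum (𝓞 K)) (P : HeightOneSpectrum (𝓞 L)), Fr Φ p v P}

/-- SYM. Proof. The congruence `Φ σ ≡ σ ^ p` modulo `P` holds for all `σ ∈ L` with `P (σ) ≤ 1` (write
`σ = α / β`, `α, β ∈ 𝓞 L`, `β ∉ P`; then `Φ β ≡ β ^ p ∉ P`), and `2 ∉ P`.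
(i) `σ = s / b` has `σ ^ 2 = 1 + t ≡ 1`, so `σ ≡ 1` or `-1`, so `σ ^ p ≡ σ`, and `Φ σ = ε σ`: `ε σ ≡ σ`.
(ii) `s ^ p = (-1) ^ ((p - 1) / 2) s ≡ Φ s = ε s`. (iii) In the residue field of `P`, `s ^ 2 = 2`, so
`s ^ (p - 1) = 2 ^ ((p - 1) / 2) = (2 | p)` (`ZMod.euler_criterion`, `ZMod.exists_sq_eq_two_iff`). -/
def S_SYM : Prop := ∀ (K L : Type) [Field K] [NumberField K] [Field L] [NumberField L]
  [Algebra K L] (Φ : L ≃ₐ[K] L) (p : ℕ) (v : HeightOneSpectrum (𝓞 K))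
  (P : HeightOneSpectrum (𝓞 L)), p.Prime → p ≠ 2 → Fr Φ p v P → ∀ (s : L) (ε : ℤˣ),
  Φ s = ((ε : ℤ) : L) * s →
    (∀ f b t : K, b ≠ 0 → f = b ^ 2 * (1 + t) → v.valuation K t < 1 →
      s ^ 2 = algebraMap K L f → ε = 1) ∧
    (s ^ 2 = -1 → ε = s1 p) ∧ (s ^ 2 = 2 → ε = s2 p)

end Pool.Agent.H47T
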