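import Pool.Agent.H47T.Asm
import Pool.Agent.H47T.Stm2

/-!
# Project TQ, phase 2: assembly
-/

set_option autoImplicit false

namespace Pool.Agent.H47T

open NumberField IsDedekindDomain

theorem Sq_one {K : Type} [Field K] [NumberField K] (v : HeightOneSpectrum (𝓞 K)) (M : ℕ) :
    Sq v M (1 : K) := by
  refine ⟨1, 0, one_ne_zero, by ring, ?_⟩
  rw [map_zero]
  exact zero_le

theorem Sq_mul {K : Type} [Field K] [NumberField K] {v : HeightOneSpectrum (𝓞 K)} {M : ℕ}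
    {a b : K} (ha : Sq v M a) (hb : Sq v M b) : Sq v M (a * b) := by
  obtain ⟨x, s, hx, hxs, hs⟩ := ha
  obtain ⟨y, t, hy, hyt, ht⟩ := hb
  refine ⟨x * y, s + t + s * t, mul_ne_zero hx hy, ?_, ?_⟩
  · linear_combination y ^ 2 * hxs + a * (1 + s) * hyt
  · have hM : WithZero.exp (-(M : ℤ)) ≤ 1 := by
      rw [← WithZero.exp_zero, WithZero.exp_le_exp]
      omega
    refine (Valuation.map_add_le _ (Valuation.map_add_le _ hs ht) ?_)
    rw [map_mul]
    calc v.valuation K s * v.valuation K t ≤ WithZero.exp (-(M : ℤ)) * 1 :=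
          mul_le_mul' hs (ht.trans hM)
      _ = _ := mul_one _

theorem Sq_inv {K : Type} [Field K] [NumberField K] {v : HeightOneSpectrum (𝓞 K)} {M : ℕ}
    {a : K} (h0 : a ≠ 0) (ha : Sq v M a) : Sq v M a⁻¹ := by
  obtain ⟨x, s, hx, hxs, hs⟩ := ha
  refine ⟨x / a, s, div_ne_zero hx h0, ?_, hs⟩
  rw [div_pow, ← hxs]
  field_simp

theorem Sq_sq {K : Type} [Field K] [NumberField K] (v : HeightOneSpectrum (𝓞 K)) (M : ℕ) {a : K}
    (h0 : a ≠ 0) : Sq v M (a ^ 2) := by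
  refine ⟨a, 0, h0, by ring, ?_⟩
  rw [map_zero]
  exact zero_le

/-- the subgroup of `Kˣ` of the local squares -/
def SqG {K : Type} [Field K] [NumberField K] (v : HeightOneSpectrum (𝓞 K)) (M : ℕ) :
    Subgroup Kˣ where
  carrier := {u | Sq v M (u : K)}
  mul_mem' := by
    intro a b ha hb
    change Sq v M ((a * b : Kˣ) : K)
    rw [Units.val_mul]
    exact Sq_mul ha hb
  one_mem' := by
    change Sq v M ((1 : Kˣ) : K)
    rw [Units.val_one]
    exact Sq_one v M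
  inv_mem' := by
    intro a ha
    change Sq v M ((a⁻¹ : Kˣ) : K)
    rw [Units.val_inv_eq_inv_val]
    exact Sq_inv a.ne_zero ha

theorem mod_eight {p q : ℕ} (hp : p % 2 = 1) (hq : q = 3 ∨ q = 5 ∨ q = 7) (h1 : s1 q = s1 p)
    (h2 : s2 q = s2 p) : p % 8 = q % 8 := by
  have hne : (1 : ℤˣ) ≠ -1 := by decide
  have hne' : (-1 : ℤˣ) ≠ 1 := by decide
  have h4 : p % 4 = p % 8 % 4 := by omega
  have h8 : p % 8 = 1 ∨ p % 8 = 3 ∨ p % 8 = 5 ∨ p % 8 = 7 := by omega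
  unfold s1 s2 at *
  rw [h4] at h1
  rcases hq with rfl | rfl | rfl <;> rcases h8 with h | h | h | h <;> rw [h] at h1 h2 ⊢ <;>
    revert h1 h2 <;> decide

/-- the good primes -/
theorem mainTQ2 (hEVA : S_EVA) (hLOC2 : S_LOC2) (hLOCP : S_LOCP) (hPOS : S_POS) (hALLU : S_ALLU)
    (hFIN : S_FIN) (hSQ8 : S_SQ8) (hLIN : S_LIN) (hKUM : S_KUM) (hDEN : S_DEN)
    (hSYM : S_SYM)
    {K : Type} [Field K] [NumberField K] (v : HeightOneSpectrum (𝓞 K))
    (h2v : (2 : 𝓞 K) ∈ v.asIdeal)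
    (hres : Nat.card (𝓞 K ⧸ v.asIdeal) = 2 ∨
      ∃ e : ℕ, Odd e ∧ (2 : 𝓞 K) ∈ v.asIdeal ^ e ∧ (2 : 𝓞 K) ∉ v.asIdeal ^ (e + 1))
    (hcnd : ∃ M q : ℕ, (q = 3 ∨ q = 5 ∨ q = 7) ∧ ∀ i j k : ℕ,
      Sq v M ((-1) ^ i * 2 ^ j * (q : K) ^ k) → s1 q ^ i * s2 q ^ j * (-1) ^ k = 1) :
    ∃ c : ℝ, 0 < c ∧ ∀ᶠ X : ℕ in Filter.atTop, c * (Nat.primeCounting X : ℝ) ≤
      Nat.card {p : ℕ // p ≤ X ∧ p.Prime ∧ ∀ x y z : K, x ≠ 0 → y ≠ 0 → z ≠ 0 →
        x ^ (2 * p) + y ^ (2 * p) = z ^ (2 * p) →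
        ¬ ∀ w : HeightOneSpectrum (𝓞 K), ((p : ℕ) : 𝓞 K) ∈ w.asIdeal →
          w.valuation K x = w.valuation K z ∧ w.valuation K y = w.valuation K z} := by
  classical
  obtain ⟨M, q, hq, hMq⟩ := hcnd
  obtain ⟨F, hF0, hF⟩ := hFIN K
  have hq0 : (q : K) ≠ 0 := by
    rcases hq with rfl | rfl | rfl <;> norm_num
  have h20 : (2 : K) ≠ 0 := two_ne_zero
  -- the homomorphism
  obtain ⟨χ, hχ, hχ1, hχ2, hχq⟩ := hLIN Kˣ (SqG v M) (fun g => by
      change Sq v M ((g ^ 2 : Kˣ) : K)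
      rw [Units.val_pow_eq_pow_val]
      exact Sq_sq v M g.ne_zero) (-1) (Units.mk0 2 h20) (Units.mk0 (q : K) hq0) (s1 q) (s2 q) (-1)
    (fun i j k h => by
      apply hMq i j k
      have h1 : Sq v M (((-1) ^ i * (Units.mk0 2 h20) ^ j * (Units.mk0 (q : K) hq0) ^ k : Kˣ) : K) :=
        h
      push_cast at h1
      simpa using h1)
  -- the field
  let S : Finset Kˣ := insert (-1) (insert (Units.mk0 2 h20)
    (F.attach.image (fun f : {x // x ∈ F} => Units.mk0 (f : K) (hF0 f.1 f.2))))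
  obtain ⟨L, _, _, _, Φ, hΦ⟩ := hKUM K χ S
  obtain ⟨c, hc, hX⟩ := hDEN K L Φ (M + 5 + Nat.card (𝓞 K ⧸ v.asIdeal))
  refine ⟨c, hc, hX.mono fun X hX => hX.trans ?_⟩
  refine Nat.cast_le.2 ?_
  -- the inclusion
  have key : ∀ p : ℕ, (p ≤ X ∧ p.Prime ∧ M + 5 + Nat.card (𝓞 K ⧸ v.asIdeal) < p ∧
      ∃ (w : HeightOneSpectrum (𝓞 K)) (P : HeightOneSpectrum (𝓞 L)), Fr Φ p w P) →
      (p ≤ X ∧ p.Prime ∧ ∀ x y z : K, x ≠ 0 → y ≠ 0 → z ≠ 0 →
        x ^ (2 * p) + y ^ (2 * p) = z ^ (2 * p) →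
        ¬ ∀ w : HeightOneSpectrum (𝓞 K), ((p : ℕ) : 𝓞 K) ∈ w.asIdeal →
          w.valuation K x = w.valuation K z ∧ w.valuation K y = w.valuation K z) := by
    rintro p ⟨hpX, hp, hB, w, P, hFr⟩
    refine ⟨hpX, hp, fun x y z hx hy hz h hfc => ?_⟩
    have hp2 : p ≠ 2 := by omega
    have hodd : Odd p := hp.odd_of_ne_two hp2
    have hp0 : p ≠ 0 := hp.ne_zero
    have hpK : (p : K) ≠ 0 := by exact_mod_cast hp0
    have hnot : ¬ (v.valuation K x = v.valuation K z ∧ v.valuation K y = v.valuation K z) := by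
      rintro ⟨h1, h2⟩
      refine hALLU K v h2v hres
        (x ^ p) (y ^ p) (z ^ p) (pow_ne_zero p hx) (pow_ne_zero p hy) (pow_ne_zero p hz) ?_ ?_
      · rw [← pow_mul, ← pow_mul, ← pow_mul, mul_comm p 2, h]
      · exact ⟨(pow_eq_iff' v hp0 x z).2 h1, (pow_eq_iff' v hp0 y z).2 h2⟩
    have hcardne : 1 < Nat.card (𝓞 K ⧸ v.asIdeal) := by
      have hfin : Finite (𝓞 K ⧸ v.asIdeal) := Ring.HasFiniteQuotients.finiteQuotient v.ne_bot
      have : Nontrivial (𝓞 K ⧸ v.asIdeal) := Ideal.Quotient.nontrivial_iff.2 v.isPrime.ne_top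
      exact Finite.one_lt_card
    have hcard : ¬ p ∣ Nat.card (𝓞 K ⧸ v.asIdeal) - 1 := by
      intro h1
      have := Nat.le_of_dvd (by omega) h1
      omega
    obtain ⟨A, Y, U, hA, hY, hU, hEA, -, hloc2, hlocp⟩ :=
      core hEVA hLOC2 hLOCP hPOS hp hp2 hx hy hz h hfc v h2v hcard hnot
    obtain ⟨f, hf, b, hb, hAf⟩ := hF A hA hEA
    have hf0 := hF0 f hf
    -- the value of `χ`
    have hsgn : ∀ g ∈ S, ∃ s : L, s ^ 2 = algebraMap K L (g : K) ∧
        Φ s = (((χ g : ℤˣ) : ℤ) : L) * s := hΦ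
    have hm1 : χ (-1) = s1 p := by
      obtain ⟨s, hs, hs'⟩ := hsgn (-1) (by simp [S])
      refine (hSYM K L Φ p w P hp hp2 hFr s _ hs').2.1 ?_
      rw [hs]
      simp
    have hm2 : χ (Units.mk0 2 h20) = s2 p := by
      obtain ⟨s, hs, hs'⟩ := hsgn (Units.mk0 2 h20) (by simp [S])
      refine (hSYM K L Φ p w P hp hp2 hFr s _ hs').2.2 ?_
      rw [hs, Units.val_mk0, map_ofNat]
    have h8 : p % 8 = q % 8 :=
      mod_eight (Nat.odd_iff.1 hodd) hq (hχ1.symm.trans hm1) (hχ2.symm.trans hm2)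
    have hpq : χ (Units.mk0 (p : K) hpK) * χ (Units.mk0 (q : K) hq0) = 1 := by
      rw [← map_mul]
      apply hχ
      change Sq v M ((Units.mk0 (p : K) hpK * Units.mk0 (q : K) hq0 : Kˣ) : K)
      rw [Units.val_mul, Units.val_mk0, Units.val_mk0]
      exact hSQ8 K v h2v M p q (Nat.odd_iff.1 hodd) h8
    have hYp : Y ^ (p - 1) ≠ 0 := pow_ne_zero _ hY
    have hAp : χ (Units.mk0 A hA) * χ (Units.mk0 (p : K) hpK) = 1 := by
      rw [← map_mul, ← inv_inv (Units.mk0 A hA * Units.mk0 (p : K) hpK), map_inv, inv_eq_one]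
      apply hχ
      change Sq v M (((Units.mk0 A hA * Units.mk0 (p : K) hpK)⁻¹ : Kˣ) : K)
      rw [Units.val_inv_eq_inv_val, Units.val_mul, Units.val_mk0, Units.val_mk0]
      refine ⟨(p * Y ^ ((p - 1) / 2))⁻¹, A / (p * Y ^ (p - 1)) - 1,
        inv_ne_zero (mul_ne_zero hpK (pow_ne_zero _ hY)), ?_, ?_⟩
      · rw [inv_pow, mul_pow, even_pow_half hodd]
        field_simp
        ring
      · refine hloc2.trans ?_
        rw [WithZero.exp_le_exp]
        omega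
    have hA1 : χ (Units.mk0 A hA) = -1 := by
      rw [hχq] at hpq
      have h1 : χ (Units.mk0 (p : K) hpK) = -1 := by
        have := congrArg (fun u => u * (-1 : ℤˣ)) hpq
        simpa using this
      rw [h1] at hAp
      have := congrArg (fun u => u * (-1 : ℤˣ)) hAp
      simpa using this
    have hfA : χ (Units.mk0 f hf0) = χ (Units.mk0 A hA) := by
      have h1 : Units.mk0 A hA = Units.mk0 f hf0 * (Units.mk0 b hb) ^ 2 := by
        ext
        simpa using hAf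
      rw [h1, map_mul, map_pow, Int.units_sq, mul_one]
    -- the contradiction
    obtain ⟨s, hs, hs'⟩ := hsgn (Units.mk0 f hf0) (by
      simp only [S, Finset.mem_insert, Finset.mem_image, Finset.mem_attach, true_and,
        Subtype.exists]
      exact Or.inr (Or.inr ⟨f, hf, rfl⟩))
    have hwp : ((p : ℕ) : 𝓞 K) ∈ w.asIdeal := by
      have h1 := Ideal.absNorm_mem w.asIdeal
      rwa [hFr.1] at h1
    have hUp : U ^ (p - 1) ≠ 0 := pow_ne_zero _ hU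
    have h1 := (hSYM K L Φ p w P hp hp2 hFr s _ hs').1 f (U ^ ((p - 1) / 2) / b)
      (A / U ^ (p - 1) - 1) (div_ne_zero (pow_ne_zero _ hU) hb) (by
        rw [div_pow, even_pow_half hodd, hAf]
        field_simp
        ring) (hlocp w hwp) (by rw [hs]; rfl)
    rw [hfA, hA1] at h1
    exact absurd h1 (by decide)
  have hfin : Finite {p : ℕ // p ≤ X ∧ p.Prime ∧ ∀ x y z : K, x ≠ 0 → y ≠ 0 → z ≠ 0 →
        x ^ (2 * p) + y ^ (2 * p) = z ^ (2 * p) →
        ¬ ∀ w : HeightOneSpectrum (𝓞 K), ((p : ℕ) : 𝓞 K) ∈ w.asIdeal →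
          w.valuation K x = w.valuation K z ∧ w.valuation K y = w.valuation K z} :=
    Set.Finite.to_subtype ((Set.finite_le_nat X).subset fun p hp => hp.1)
  refine Nat.card_le_card_of_injective (fun p => ⟨p.1, key p.1 p.2⟩) ?_
  intro p p' hpp
  exact Subtype.ext (congrArg (fun r => r.1) hpp)

end Pool.Agent.H47T
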