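import Pool.Agent.H47T.Stm2

/-!
# Project TQ, phase 3: exponents `l p` for odd primes `l` (for instance `3 p`)

Goal: let `K` be a number field, `l` an odd prime, `P` a prime of `K` above `l` with ramification index
prime to `l` at which the first case of the equation of exponent `l` is impossible (always so if
`l = 3` and `P` is unramified or of norm `3` and ramification index `2`). Then the first case of
Fermat's Last Theorem holds over `K` for all exponents divisible by `l p`, for a set of primes `p`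
of positive lower density.

Proof. As in phase 2, with `l`-th powers: `x ^ (l p) + y ^ (l p) = z ^ (l p)` is written
`X ^ p + Y ^ p = Z ^ p` with `X, Y, Z` plus or minus the `l`-th powers, `Z` the more divisible one at
`P`. Then `A = (X ^ p + Y ^ p) / (X + Y)` has all valuations divisible by `l` (EVAL), is `p` times an
`l`-th power at `P` (LOCL) and, if `l ∣ p - 1`, an `l`-th power at the primes above `p` (LOCP of phase
1). The elements with valuations divisible by `l` form finitely many classes modulo `l`-th powers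
(FINL). Let `K' ∋ ζ`, of degree prime to `l` over `K`, and `P'` above `P` (CYC). Neither `ζ` nor
`1 + l` is an `l`-th power at `P'` (NPW), so there is `χ : K'ˣ → ZMod l`, trivial on the local
`l`-th powers, with `χ ζ = 1` and `χ (1 + l) ≠ 0` (LINL). By Kummer theory (KUML) and Chebotarev (DEN of
phase 2) there are many `p` with a prime `w'` of `K'` of norm `p` with the symbols `χ`. Then
`p ≡ 1 + l` modulo `l ^ 2` (SYML), so `χ A = χ p = χ (1 + l) ≠ 0` (SQL); but `A` is an `l`-th power at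
`w'`, so `χ A = 0` (SYML).
-/

set_option autoImplicit false

namespace Pool.Agent.H47T

open NumberField IsDedekindDomain

/-- all valuations of `a` are divisible by `l` -/
def EvL {K : Type} [Field K] [NumberField K] (l : ℕ) (a : K) : Prop :=
  ∀ v : HeightOneSpectrum (𝓞 K), ∃ m : ℤ, v.valuation K a = WithZero.exp ((l : ℤ) * m)

/-- up to a factor `1 + t`, with `t` of valuation at least `M`, `u` is an `l`-th power -/
def Pw {K : Type} [Field K] [NumberField K] (l : ℕ) (v : HeightOneSpectrum (𝓞 K)) (M : ℕ) (u : K) :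
    Prop :=
  ∃ b t : K, b ≠ 0 ∧ u * (1 + t) = b ^ l ∧ v.valuation K t ≤ WithZero.exp (-(M : ℤ))

/-- EVAL. Proof: as EVA of phase 1 (file `EVA.lean`), with `2` replaced by `l`: at every `v` the
valuation of `A` is `v Z ^ p / M` or `M ^ (p - 1)` with `M = max (v X) (v Y)`. -/
def S_EVAL : Prop := ∀ (l : ℕ) (K : Type) [Field K] [NumberField K] (p : ℕ), p.Prime → p ≠ 2 →
  ∀ X Y Z : K, X ≠ 0 → Y ≠ 0 → Z ≠ 0 → X ^ p + Y ^ p = Z ^ p → EvL l X → EvL l Y → EvL l Z →
  (∀ v : HeightOneSpectrum (𝓞 K), ((p : ℕ) : 𝓞 K) ∈ v.asIdeal →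
    v.valuation K X = v.valuation K Z ∧ v.valuation K Y = v.valuation K Z) →
  EvL l (AA p X Y)

/-- LOCL. Proof: as LOC2 of phase 1 (file `LOC2.lean`); only `v p = 1` and `p ∤ card - 1` are used. -/
def S_LOCL : Prop := ∀ (K : Type) [Field K] [NumberField K] (p : ℕ), p.Prime → p ≠ 2 →
  ∀ v : HeightOneSpectrum (𝓞 K), ((p : ℕ) : 𝓞 K) ∉ v.asIdeal →
  ¬ p ∣ Nat.card (𝓞 K ⧸ v.asIdeal) - 1 →
  ∀ X Y Z : K, X ≠ 0 → Y ≠ 0 → Z ≠ 0 → X ^ p + Y ^ p = Z ^ p →
  v.valuation K Y = v.valuation K X →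
  v.valuation K Z ≤ v.valuation K X * WithZero.exp (-1) →
  v.valuation K (AA p X Y / (p * X ^ (p - 1)) - 1) ≤ WithZero.exp (-(p : ℤ))

/-- FINL. Proof: `sel` of `Pool/Agent/K4H56/IF/Sel.lean` with `S = ∅`. -/
def S_FINL : Prop := ∀ (l : ℕ), 1 ≤ l → ∀ (K : Type) [Field K] [NumberField K],
  ∃ F : Finset K, (∀ f ∈ F, f ≠ 0) ∧
    ∀ a : K, a ≠ 0 → EvL l a → ∃ f ∈ F, ∃ b : K, b ≠ 0 ∧ a = f * b ^ l

/-- DWN (restriction of a prime). Proof: `v' = v.under`-type prime `comap`, which is not zero;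
`HeightOneSpectrum.valuation_comap` or similar; `k` is the ramification index. -/
def S_DWN : Prop := ∀ (K K' : Type) [Field K] [NumberField K] [Field K'] [NumberField K']
  [Algebra K K'] (w' : HeightOneSpectrum (𝓞 K')), ∃ (w : HeightOneSpectrum (𝓞 K)) (k : ℕ), 0 < k ∧
    ∀ x : K, w'.valuation K' (algebraMap K K' x) = w.valuation K x ^ k

/-- CYC. Proof. `K' = CyclotomicField l K`, of degree at most `l - 1` over `K`; `P'` any prime above
`P`; its ramification index `k` over `P` is at most the degree (`Ideal.sum_ramification_inertia`), so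
`1 ≤ k < l` and `l ∤ e k`. -/
def S_CYC : Prop := ∀ (l : ℕ), l.Prime → l ≠ 2 → ∀ (K : Type) [Field K] [NumberField K]
  (P : HeightOneSpectrum (𝓞 K)) (e : ℕ), P.valuation K (l : K) = WithZero.exp (-(e : ℤ)) →
  0 < e → ¬ l ∣ e →
  ∃ (K' : Type) (_ : Field K') (_ : NumberField K') (_ : Algebra K K') (ζ : K')
    (P' : HeightOneSpectrum (𝓞 K')) (k : ℕ), IsPrimitiveRoot ζ l ∧ 0 < k ∧ ¬ l ∣ e * k ∧
    ∀ x : K, P'.valuation K' (algebraMap K K' x) = P.valuation K x ^ k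

/-- NPW. Proof (additive valuations). Let `u (1 + t) = b ^ l`, `u = 1 + l` or `u = ζ`; let `c = b - 1`.
`b ^ l ≡ 1` modulo `v`, so `v c > 0` (the Frobenius map of the residue field is injective; or:
`c ^ l ≡ b ^ l - 1`). Then `b ^ l - 1 = c ^ l + l c (...)`, and `v (b ^ l - 1)` is `e` if `u = 1 + l` and
`e / (l - 1)` if `u = ζ` (`(ζ - 1) ^ (l - 1)` is `l` times a unit), in both cases at most `e < v (l c)`;
so it equals `l v c`, and `l ∣ e`. -/
def S_NPW : Prop := ∀ (l : ℕ), l.Prime → l ≠ 2 → ∀ (K : Type) [Field K] [NumberField K]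
  (v : HeightOneSpectrum (𝓞 K)) (e : ℕ), v.valuation K (l : K) = WithZero.exp (-(e : ℤ)) →
  0 < e → ¬ l ∣ e → ∀ ζ : K, IsPrimitiveRoot ζ l → ∀ M : ℕ, e < M →
  ¬ Pw l v M ζ ∧ ¬ Pw l v M (1 + (l : K))

/-- LINL (pure algebra). Proof: `G / H` is a vector space over `ZMod l`, and the classes of `g1` and
`g2` are not zero. If they are linearly dependent, `g2 = a g1`, take a functional with value `1` on
`g1`; if not, one with values `1` and `1`. -/
def S_LINL : Prop := ∀ (l : ℕ), l.Prime → ∀ (G : Type) [CommGroup G] (H : Subgroup G),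
  (∀ g : G, g ^ l ∈ H) → ∀ g1 g2 : G, g1 ∉ H → g2 ∉ H →
  ∃ χ : G →* Multiplicative (ZMod l), (∀ h ∈ H, χ h = 1) ∧ χ g1 = Multiplicative.ofAdd 1 ∧
    χ g2 ≠ 1

/-- KUML (Kummer theory). Proof: as KUM of phase 2 (file `KUM.lean`), by induction on `F`, with the
stronger claim `Φ s = ζ ^ (χ a) s` for all `a ∈ Kˣ` and `s ∈ L` with `s ^ l = a`. Step: if `f` is not
an `l`-th power in `L` then `X ^ l - f` is irreducible over `L` (`X_pow_sub_C_irreducible_of_prime`),
`L' = L (α)`, `α ^ l = f`, `Φ' α = ζ ^ (χ f) α`. If `s ∈ L'`, `s ^ l = a ∈ Kˣ`, let `σ` be the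
automorphism of `L'` over `L` with `σ α = ζ α`; `σ s = ζ ^ i s` for some `i`, so `s / α ^ i` is fixed by
`σ` and lies in `L`. -/
def S_KUML : Prop := ∀ (l : ℕ), l.Prime → ∀ (K : Type) [Field K] [NumberField K] (ζ : K),
  IsPrimitiveRoot ζ l → ∀ (χ : Kˣ →* Multiplicative (ZMod l)) (F : Finset Kˣ),
  ∃ (L : Type) (_ : Field L) (_ : NumberField L) (_ : Algebra K L) (Φ : L ≃ₐ[K] L),
    ∀ f ∈ F, ∃ s : L, s ^ l = algebraMap K L (f : K) ∧
      Φ s = algebraMap K L (ζ ^ (Multiplicative.toAdd (χ f)).val) * s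

/-- SYML. Proof. `Φ σ ≡ σ ^ p` modulo `P` for all `P`-integral `σ ∈ L` (as in `SYM.lean`). The residue
field of `v` has `p` elements and `ζ` has order `l` in it (`p ≠ l`), so `l ∣ p - 1`.
(i) `σ = s / b` has `σ ^ l = 1 + t ≡ 1`, so `σ ≡ ζ ^ j` for some `j` (the roots of `X ^ l - 1` in the
residue field of `P`) and `σ ^ p ≡ σ`; and `Φ σ = ζ ^ i σ`; so `ζ ^ i ≡ 1` and `l ∣ i`.
(ii) `ζ ^ i s = Φ s ≡ s ^ p = (s ^ l) ^ ((p - 1) / l) s = ζ ^ ((p - 1) / l) s`, so
`(p - 1) / l ≡ i` modulo `l`. -/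
def S_SYML : Prop := ∀ (K L : Type) [Field K] [NumberField K] [Field L] [NumberField L]
  [Algebra K L] (Φ : L ≃ₐ[K] L) (p : ℕ) (v : HeightOneSpectrum (𝓞 K))
  (P : HeightOneSpectrum (𝓞 L)), p.Prime → Fr Φ p v P → ∀ (l : ℕ), l.Prime → l ≠ p →
  ∀ ζ : K, IsPrimitiveRoot ζ l → l ∣ p - 1 ∧ ∀ (s : L) (i : ℕ),
  Φ s = algebraMap K L (ζ ^ i) * s →
    (∀ f b t : K, b ≠ 0 → f = b ^ l * (1 + t) → v.valuation K t < 1 →
      s ^ l = algebraMap K L f → l ∣ i) ∧
    (s ^ l = algebraMap K L ζ → p ≡ 1 + i * l [MOD l ^ 2])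

/-- SQL. Proof. As in SQ8: for every `N` there is an integer `b` with `l ^ N ∣ b ^ l q - p` ...: `p / q`
is `1` modulo `l ^ 2` in `ℤ_l`, so an `l`-th power (induction on `N`: if `b ^ l ≡ p q⁻¹` modulo
`l ^ N`, `N ≥ 2`, replace `b` by `b + c l ^ (N - 1)`; or use Hensel's lemma in `ℤ_[l]` and
approximate). -/
def S_SQL : Prop := ∀ (l : ℕ), l.Prime → l ≠ 2 → ∀ (K : Type) [Field K] [NumberField K]
  (v : HeightOneSpectrum (𝓞 K)), ((l : ℕ) : 𝓞 K) ∈ v.asIdeal → ∀ M p q : ℕ, ¬ l ∣ p →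
  p ≡ q [MOD l ^ 2] → Pw l v M ((p : K) * (q : K)⁻¹)

/-- LOC3: the first case of the cubic equation is impossible at `v`. Proof. Let `u = X / Z`,
`w = Y / Z`, units with `u ^ 3 + w ^ 3 = 1`. (a) `e = 1`: `(u + w - 1) ^ 3 ≡ 0` modulo `3`, so
`u + w = 1 + s`, `v s > 0`, `(u + w) ^ 3 ≡ 1` modulo `v ^ 2`, and `(u + w) ^ 3 = 1 + 3 u w (u + w)`, so
`v (u w (u + w)) > 0`, a contradiction. (b) residue field with three elements, `e = 2`: `u, w ≡ 1` or
`-1`; `u ^ 3, w ^ 3 ≡ 1` or `-1` modulo `v ^ 3`; so one of `2 - 1, 0 - 1, -2 - 1` is in `v ^ 3`, but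
`v 3 = 2`. -/
def S_LOC3 : Prop := ∀ (K : Type) [Field K] [NumberField K] (v : HeightOneSpectrum (𝓞 K)),
  (v.valuation K (3 : K) = WithZero.exp (-1) ∨
    (Nat.card (𝓞 K ⧸ v.asIdeal) = 3 ∧ v.valuation K (3 : K) = WithZero.exp (-2))) →
  ∀ X Y Z : K, X ≠ 0 → Y ≠ 0 → Z ≠ 0 → X ^ 3 + Y ^ 3 = Z ^ 3 →
  ¬ (v.valuation K X = v.valuation K Z ∧ v.valuation K Y = v.valuation K Z)

end Pool.Agent.H47T
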