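import Pool.Agent.H47T.Asm
import Pool.Agent.H47T.Stm3

/-!
# Project TQ, phase 3: assembly
-/

set_option autoImplicit false

namespace Pool.Agent.H47T

open NumberField IsDedekindDomain

theorem Pw_one {K : Type} [Field K] [NumberField K] (l : ℕ) (v : HeightOneSpectrum (𝓞 K))
    (M : ℕ) : Pw l v M (1 : K) := by
  refine ⟨1, 0, one_ne_zero, by simp, ?_⟩
  rw [map_zero]
  exact zero_le

theorem Pw_mul {K : Type} [Field K] [NumberField K] {l : ℕ} {v : HeightOneSpectrum (𝓞 K)} {M : ℕ}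
    {a b : K} (ha : Pw l v M a) (hb : Pw l v M b) : Pw l v M (a * b) := by
  obtain ⟨x, s, hx, hxs, hs⟩ := ha
  obtain ⟨y, t, hy, hyt, ht⟩ := hb
  refine ⟨x * y, s + t + s * t, mul_ne_zero hx hy, ?_, ?_⟩
  · rw [mul_pow]
    linear_combination y ^ l * hxs + a * (1 + s) * hyt
  · have hM : WithZero.exp (-(M : ℤ)) ≤ 1 := by
      rw [← WithZero.exp_zero, WithZero.exp_le_exp]
      omega
    refine (Valuation.map_add_le _ (Valuation.map_add_le _ hs ht) ?_)
    rw [map_mul]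
    calc v.valuation K s * v.valuation K t ≤ WithZero.exp (-(M : ℤ)) * 1 :=
          mul_le_mul' hs (ht.trans hM)
      _ = _ := mul_one _

theorem Pw_pow {K : Type} [Field K] [NumberField K] (l : ℕ) (v : HeightOneSpectrum (𝓞 K)) (M : ℕ)
    {a : K} (h0 : a ≠ 0) : Pw l v M (a ^ l) := by
  refine ⟨a, 0, h0, by ring, ?_⟩
  rw [map_zero]
  exact zero_le

theorem Pw_inv {K : Type} [Field K] [NumberField K] {l : ℕ} {v : HeightOneSpectrum (𝓞 K)} {M : ℕ}
    (hM : 0 < M) {a : K} (h0 : a ≠ 0) (ha : Pw l v M a) : Pw l v M a⁻¹ := by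
  obtain ⟨x, s, hx, hxs, hs⟩ := ha
  have hs1 : v.valuation K s < 1 := by
    refine lt_of_le_of_lt hs ?_
    rw [← WithZero.exp_zero, WithZero.exp_lt_exp]
    omega
  have h1s : v.valuation K (1 + s) = 1 := by
    rw [Valuation.map_add_eq_of_lt_left _ (by rw [map_one]; exact hs1), map_one]
  have h1s0 : 1 + s ≠ 0 := by
    intro h
    rw [h, map_zero] at h1s
    exact zero_ne_one h1s
  refine ⟨x⁻¹, -s / (1 + s), inv_ne_zero hx, ?_, ?_⟩
  · rw [inv_pow, ← hxs]
    field_simp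
    ring
  · rw [map_div₀, Valuation.map_neg, h1s, div_one]
    exact hs

/-- the subgroup of `Kˣ` of the local `l`-th powers -/
def PwG {K : Type} [Field K] [NumberField K] (l : ℕ) (v : HeightOneSpectrum (𝓞 K)) {M : ℕ}
    (hM : 0 < M) : Subgroup Kˣ where
  carrier := {u | Pw l v M (u : K)}
  mul_mem' := by
    intro a b ha hb
    change Pw l v M ((a * b : Kˣ) : K)
    rw [Units.val_mul]
    exact Pw_mul ha hb
  one_mem' := by
    change Pw l v M ((1 : Kˣ) : K)
    rw [Units.val_one]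
    exact Pw_one l v M
  inv_mem' := by
    intro a ha
    change Pw l v M ((a⁻¹ : Kˣ) : K)
    rw [Units.val_inv_eq_inv_val]
    exact Pw_inv hM a.ne_zero ha

theorem EvL_pow {K : Type} [Field K] [NumberField K] (l : ℕ) {x : K} (hx : x ≠ 0) :
    EvL l (x ^ l) := by
  intro v
  obtain ⟨k, hk⟩ := val_exp v hx
  refine ⟨k, ?_⟩
  rw [map_pow, hk, ← WithZero.exp_nsmul]
  simp

theorem EvL_neg {K : Type} [Field K] [NumberField K] {l : ℕ} {x : K} (hx : EvL l x) :
    EvL l (-x) := by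
  intro v
  rw [Valuation.map_neg]
  exact hx v

theorem val_pow_le {K : Type} [Field K] [NumberField K] (v : HeightOneSpectrum (𝓞 K)) {l : ℕ}
    (hl : 0 < l) {x y : K} (hx : x ≠ 0) (hy : y ≠ 0) (h : v.valuation K x < v.valuation K y) :
    v.valuation K (x ^ l) ≤ v.valuation K (y ^ l) * WithZero.exp (-1) := by
  obtain ⟨a, ha⟩ := val_exp v hx
  obtain ⟨b, hb⟩ := val_exp v hy
  rw [ha, hb, WithZero.exp_lt_exp] at h
  rw [map_pow, map_pow, ha, hb, ← WithZero.exp_nsmul, ← WithZero.exp_nsmul, ← WithZero.exp_add,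
    WithZero.exp_le_exp]
  simp only [nsmul_eq_mul]
  have h1 : (1 : ℤ) ≤ l := by exact_mod_cast hl
  nlinarith

/-- plus or minus `l`-th powers with `Z` more divisible -/
theorem exists_XYZL {K : Type} [Field K] [NumberField K] {p l : ℕ} (hp : Odd p) (hl : 0 < l)
    {x y z : K} (hx : x ≠ 0) (hy : y ≠ 0) (hz : z ≠ 0)
    (h : x ^ (l * p) + y ^ (l * p) = z ^ (l * p)) (v : HeightOneSpectrum (𝓞 K))
    (hnot : ¬ (v.valuation K x = v.valuation K z ∧ v.valuation K y = v.valuation K z)) :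
    ∃ X Y Z ξ : K, X ≠ 0 ∧ Y ≠ 0 ∧ Z ≠ 0 ∧ ξ ≠ 0 ∧ X = ξ ^ l ∧
      X ^ p + Y ^ p = Z ^ p ∧ EvL l X ∧ EvL l Y ∧ EvL l Z ∧
      v.valuation K Y = v.valuation K X ∧
      v.valuation K Z ≤ v.valuation K X * WithZero.exp (-1) ∧
      ∀ w : HeightOneSpectrum (𝓞 K),
        w.valuation K x = w.valuation K z ∧ w.valuation K y = w.valuation K z →
        w.valuation K X = w.valuation K Z ∧ w.valuation K Y = w.valuation K Z := by
  have hp0 : p ≠ 0 := by rintro rfl; exact absurd hp (by decide)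
  have h2p : l * p ≠ 0 := mul_ne_zero hl.ne' hp0
  have e : ∀ a : K, (a ^ l) ^ p = a ^ (l * p) := fun a => by rw [pow_mul]
  have e' : ∀ a : K, (-a ^ l) ^ p = -a ^ (l * p) := fun a => by rw [hp.neg_pow, pow_mul]
  have hsq : ∀ {w : HeightOneSpectrum (𝓞 K)} {a b : K}, w.valuation K a = w.valuation K b →
      w.valuation K (a ^ l) = w.valuation K (b ^ l) := fun hab => by
    rw [map_pow, map_pow, hab]
  by_cases h1 : v.valuation K x < v.valuation K z
  · -- `x` is more divisible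
    have h2 : v.valuation K y = v.valuation K z := by
      rw [← pow_eq_iff' v h2p]
      have h3 : y ^ (l * p) = z ^ (l * p) - x ^ (l * p) := by linear_combination h
      rw [h3]
      exact Valuation.map_sub_eq_of_lt_left _ ((pow_lt_iff' v h2p x z).2 h1)
    refine ⟨z ^ l, -y ^ l, x ^ l, z, pow_ne_zero l hz, neg_ne_zero.2 (pow_ne_zero l hy),
      pow_ne_zero l hx, hz, rfl, ?_, EvL_pow l hz, EvL_neg (EvL_pow l hy), EvL_pow l hx, ?_,
      val_pow_le v hl hx hz h1, ?_⟩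
    · rw [e, e', e]
      linear_combination -h
    · rw [Valuation.map_neg]
      exact hsq h2
    · rintro w ⟨hw1, hw2⟩
      rw [Valuation.map_neg]
      exact ⟨hsq hw1.symm, hsq (hw2.trans hw1.symm)⟩
  by_cases h2 : v.valuation K y < v.valuation K z
  · -- `y` is more divisible
    have h3 : v.valuation K x = v.valuation K z := by
      rw [← pow_eq_iff' v h2p]
      have h3 : x ^ (l * p) = z ^ (l * p) - y ^ (l * p) := by linear_combination h
      rw [h3]
      exact Valuation.map_sub_eq_of_lt_left _ ((pow_lt_iff' v h2p y z).2 h2)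
    refine ⟨z ^ l, -x ^ l, y ^ l, z, pow_ne_zero l hz, neg_ne_zero.2 (pow_ne_zero l hx),
      pow_ne_zero l hy, hz, rfl, ?_, EvL_pow l hz, EvL_neg (EvL_pow l hx), EvL_pow l hy, ?_,
      val_pow_le v hl hy hz h2, ?_⟩
    · rw [e, e', e]
      linear_combination -h
    · rw [Valuation.map_neg]
      exact hsq h3
    · rintro w ⟨hw1, hw2⟩
      rw [Valuation.map_neg]
      exact ⟨hsq hw2.symm, hsq (hw1.trans hw2.symm)⟩
  -- `z` is more divisible
  push Not at h1 h2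
  have hzx : v.valuation K z < v.valuation K x := by
    refine lt_of_le_of_ne h1 fun h3 => ?_
    have h4 : v.valuation K z < v.valuation K y :=
      lt_of_le_of_ne h2 fun h4 => hnot ⟨h3.symm, h4.symm⟩
    have h5 : v.valuation K (x ^ (l * p)) < v.valuation K (y ^ (l * p)) :=
      (pow_lt_iff' v h2p x y).2 (h3 ▸ h4)
    have h6 := Valuation.map_add_eq_of_lt_left _ h5
    rw [add_comm, h, pow_eq_iff' v h2p] at h6
    exact h4.ne h6
  have hxy : v.valuation K y = v.valuation K x := by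
    rw [← pow_eq_iff' v h2p, ← Valuation.map_neg]
    have h3 : -y ^ (l * p) = x ^ (l * p) - z ^ (l * p) := by linear_combination -h
    rw [h3]
    exact Valuation.map_sub_eq_of_lt_left _ ((pow_lt_iff' v h2p z x).2 hzx)
  refine ⟨x ^ l, y ^ l, z ^ l, x, pow_ne_zero l hx, pow_ne_zero l hy, pow_ne_zero l hz, hx, rfl,
    ?_, EvL_pow l hx, EvL_pow l hy, EvL_pow l hz, hsq hxy, val_pow_le v hl hz hx hzx, ?_⟩
  · rw [e, e, e, h]
  · rintro w ⟨hw1, hw2⟩
    exact ⟨hsq hw1, hsq hw2⟩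

/-- The element `A`. -/
theorem coreL (hEVAL : S_EVAL) (hLOCL : S_LOCL) (hLOCP : S_LOCP)
    {K : Type} [Field K] [NumberField K] {p l : ℕ} (hp : p.Prime) (hp2 : p ≠ 2) (hl : 0 < l)
    {x y z : K} (hx : x ≠ 0) (hy : y ≠ 0) (hz : z ≠ 0)
    (h : x ^ (l * p) + y ^ (l * p) = z ^ (l * p))
    (hfc : ∀ v : HeightOneSpectrum (𝓞 K), ((p : ℕ) : 𝓞 K) ∈ v.asIdeal →
      v.valuation K x = v.valuation K z ∧ v.valuation K y = v.valuation K z)
    (v : HeightOneSpectrum (𝓞 K)) (hpv : ((p : ℕ) : 𝓞 K) ∉ v.asIdeal)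
    (hcard : ¬ p ∣ Nat.card (𝓞 K ⧸ v.asIdeal) - 1)
    (hnot : ¬ (v.valuation K x = v.valuation K z ∧ v.valuation K y = v.valuation K z)) :
    ∃ A ξ U : K, A ≠ 0 ∧ ξ ≠ 0 ∧ U ≠ 0 ∧ EvL l A ∧
      v.valuation K (A / (p * (ξ ^ l) ^ (p - 1)) - 1) ≤ WithZero.exp (-(p : ℤ)) ∧
      ∀ w : HeightOneSpectrum (𝓞 K), ((p : ℕ) : 𝓞 K) ∈ w.asIdeal →
        w.valuation K (A / U ^ (p - 1) - 1) < 1 := by
  have hodd : Odd p := hp.odd_of_ne_two hp2
  obtain ⟨X, Y, Z, ξ, hX, hY, hZ, hξ, hXξ, hXYZ, eX, eY, eZ, hYX, hZX, hw⟩ :=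
    exists_XYZL hodd hl hx hy hz h v hnot
  have hmul := AA_mul hodd X Y
  have hne : X ^ p + Y ^ p ≠ 0 := by
    rw [hXYZ]
    exact pow_ne_zero p hZ
  refine ⟨AA p X Y, ξ, X + Y, ?_, hξ, ?_, ?_, ?_, ?_⟩
  · intro h0
    rw [h0, zero_mul] at hmul
    exact hne hmul.symm
  · intro h0
    rw [h0, mul_zero] at hmul
    exact hne hmul.symm
  · exact hEVAL l K p hp hp2 X Y Z hX hY hZ hXYZ eX eY eZ fun w hwp => hw w (hfc w hwp)
  · rw [← hXξ]
    exact hLOCL K p hp hp2 v hpv hcard X Y Z hX hY hZ hXYZ hYX hZX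
  · intro w hwp
    obtain ⟨h1, h2⟩ := hw w (hfc w hwp)
    exact hLOCP K p hp hp2 w hwp X Y Z hX hY hZ hXYZ h1 h2

/-- the good primes -/
theorem mainTQ3 (hEVAL : S_EVAL) (hLOCL : S_LOCL) (hLOCP : S_LOCP) (hFINL : S_FINL)
    (hDWN : S_DWN) (hCYC : S_CYC) (hNPW : S_NPW) (hLINL : S_LINL) (hKUML : S_KUML) (hDEN : S_DEN)
    (hSYML : S_SYML) (hSQL : S_SQL) {l : ℕ} (hl : l.Prime) (hl2 : l ≠ 2)
    {K : Type} [Field K] [NumberField K] (v : HeightOneSpectrum (𝓞 K)) (e : ℕ) (he : 0 < e)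
    (hve : v.valuation K (l : K) = WithZero.exp (-(e : ℤ))) (hle : ¬ l ∣ e)
    (hloc : ∀ X Y Z : K, X ≠ 0 → Y ≠ 0 → Z ≠ 0 → X ^ l + Y ^ l = Z ^ l →
      ¬ (v.valuation K X = v.valuation K Z ∧ v.valuation K Y = v.valuation K Z)) :
    ∃ c : ℝ, 0 < c ∧ ∀ᶠ X : ℕ in Filter.atTop, c * (Nat.primeCounting X : ℝ) ≤
      Nat.card {p : ℕ // p ≤ X ∧ p.Prime ∧ ∀ x y z : K, x ≠ 0 → y ≠ 0 → z ≠ 0 →
        x ^ (l * p) + y ^ (l * p) = z ^ (l * p) →
        ¬ ∀ w : HeightOneSpectrum (𝓞 K), ((p : ℕ) : 𝓞 K) ∈ w.asIdeal →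
          w.valuation K x = w.valuation K z ∧ w.valuation K y = w.valuation K z} := by
  classical
  obtain ⟨F, hF0, hF⟩ := hFINL l hl.one_lt.le K
  obtain ⟨K', _, _, _, ζ, P', k, hζ, hk, hlek, hP'⟩ := hCYC l hl hl2 K v e hve he hle
  have hek : 0 < e * k := Nat.mul_pos he hk
  have hlK : (l : K) ≠ 0 := by exact_mod_cast hl.ne_zero
  have hlK' : (l : K') ≠ 0 := by exact_mod_cast hl.ne_zero
  have hP'l : P'.valuation K' (l : K') = WithZero.exp (-((e * k : ℕ) : ℤ)) := by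
    have h1 := hP' (l : K)
    rw [map_natCast, hve, ← WithZero.exp_nsmul] at h1
    rw [h1]
    congr 1
    simp only [nsmul_eq_mul]
    push_cast
    ring
  obtain ⟨M, hMdef⟩ : ∃ M : ℕ, M = e * k + 1 := ⟨_, rfl⟩
  have hM : 0 < M := by omega
  obtain ⟨hn1, hn2⟩ := hNPW l hl hl2 K' P' (e * k) hP'l hek hlek ζ hζ M (by omega)
  have hζ0 : ζ ≠ 0 := hζ.ne_zero hl.ne_zero
  have hq0 : (1 + (l : K')) ≠ 0 := by
    have : ((1 + l : ℕ) : K') ≠ 0 := by exact_mod_cast (by omega : 1 + l ≠ 0)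
    simpa using this
  -- the homomorphism
  obtain ⟨χ, hχ, hχζ, hχq⟩ := hLINL l hl K'ˣ (PwG l P' hM) (fun g => by
      change Pw l P' M ((g ^ l : K'ˣ) : K')
      rw [Units.val_pow_eq_pow_val]
      exact Pw_pow l P' M g.ne_zero) (Units.mk0 ζ hζ0) (Units.mk0 (1 + (l : K')) hq0) hn1 hn2
  -- the field
  have hmap0 : ∀ f : {x // x ∈ F}, algebraMap K K' f.1 ≠ 0 := fun f =>
    (map_ne_zero _).2 (hF0 f.1 f.2)
  let S : Finset K'ˣ := insert (Units.mk0 ζ hζ0)
    (F.attach.image (fun f : {x // x ∈ F} => Units.mk0 (algebraMap K K' f.1) (hmap0 f)))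
  obtain ⟨L, _, _, _, Φ, hΦ⟩ := hKUML l hl K' ζ hζ χ S
  obtain ⟨c, hc, hX⟩ := hDEN K' L Φ (M + l + 5 + Nat.card (𝓞 K ⧸ v.asIdeal))
  refine ⟨c, hc, hX.mono fun X hX => hX.trans ?_⟩
  refine Nat.cast_le.2 ?_
  have hlv : ((l : ℕ) : 𝓞 K) ∈ v.asIdeal := by
    rw [← HeightOneSpectrum.valuation_lt_one_iff_mem (K := K)]
    have h1 : v.valuation K (algebraMap (𝓞 K) K (l : 𝓞 K)) = WithZero.exp (-(e : ℤ)) := by
      rw [map_natCast]
      exact hve
    refine lt_of_eq_of_lt h1 ?_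
    rw [← WithZero.exp_zero, WithZero.exp_lt_exp]
    omega
  have hlP' : ((l : ℕ) : 𝓞 K') ∈ P'.asIdeal := by
    rw [← HeightOneSpectrum.valuation_lt_one_iff_mem (K := K')]
    have h1 : P'.valuation K' (algebraMap (𝓞 K') K' (l : 𝓞 K')) =
        WithZero.exp (-((e * k : ℕ) : ℤ)) := by
      rw [map_natCast]
      exact hP'l
    refine lt_of_eq_of_lt h1 ?_
    rw [← WithZero.exp_zero, WithZero.exp_lt_exp]
    omega
  -- the inclusion
  have key : ∀ p : ℕ, (p ≤ X ∧ p.Prime ∧ M + l + 5 + Nat.card (𝓞 K ⧸ v.asIdeal) < p ∧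
      ∃ (w : HeightOneSpectrum (𝓞 K')) (P : HeightOneSpectrum (𝓞 L)), Fr Φ p w P) →
      (p ≤ X ∧ p.Prime ∧ ∀ x y z : K, x ≠ 0 → y ≠ 0 → z ≠ 0 →
        x ^ (l * p) + y ^ (l * p) = z ^ (l * p) →
        ¬ ∀ w : HeightOneSpectrum (𝓞 K), ((p : ℕ) : 𝓞 K) ∈ w.asIdeal →
          w.valuation K x = w.valuation K z ∧ w.valuation K y = w.valuation K z) := by
    rintro p ⟨hpX, hp, hB, w', P, hFr⟩
    refine ⟨hpX, hp, fun x y z hx hy hz h hfc => ?_⟩
    have hp2 : p ≠ 2 := by omega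
    have hlp : l ≠ p := by omega
    have hodd : Odd p := hp.odd_of_ne_two hp2
    have hp0 : p ≠ 0 := hp.ne_zero
    have hpK : (p : K) ≠ 0 := by exact_mod_cast hp0
    have hpK' : (p : K') ≠ 0 := by exact_mod_cast hp0
    obtain ⟨hl1, hsym⟩ := hSYML K' L Φ p w' P hp hFr l hl hlp ζ hζ
    have hpl : ¬ l ∣ p := by
      intro h1
      rcases (Nat.dvd_prime hp).1 h1 with h2 | h2
      · exact hl.one_lt.ne' h2
      · exact hlp h2
    have hpv : ((p : ℕ) : 𝓞 K) ∉ v.asIdeal := by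
      intro h1
      have h2 : IsCoprime (l : ℤ) (p : ℤ) :=
        Nat.isCoprime_iff_coprime.2 ((Nat.coprime_primes hl hp).2 hlp)
      obtain ⟨a, b, hab⟩ := h2
      apply v.isPrime.ne_top
      rw [Ideal.eq_top_iff_one]
      have h3 : (1 : 𝓞 K) = (a : 𝓞 K) * (l : 𝓞 K) + (b : 𝓞 K) * (p : 𝓞 K) := by
        have := congrArg (fun x : ℤ => (x : 𝓞 K)) hab
        push_cast at this
        exact this.symm
      rw [h3]
      exact v.asIdeal.add_mem (v.asIdeal.mul_mem_left _ hlv) (v.asIdeal.mul_mem_left _ h1)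
    have hnot : ¬ (v.valuation K x = v.valuation K z ∧ v.valuation K y = v.valuation K z) := by
      rintro ⟨h1, h2⟩
      refine hloc (x ^ p) (y ^ p) (z ^ p) (pow_ne_zero p hx) (pow_ne_zero p hy)
        (pow_ne_zero p hz) ?_ ?_
      · rw [← pow_mul, ← pow_mul, ← pow_mul, mul_comm p l, h]
      · exact ⟨(pow_eq_iff' v hp0 x z).2 h1, (pow_eq_iff' v hp0 y z).2 h2⟩
    have hcardne : 1 < Nat.card (𝓞 K ⧸ v.asIdeal) := by
      have hfin : Finite (𝓞 K ⧸ v.asIdeal) := Ring.HasFiniteQuotients.finiteQuotient v.ne_bot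
      have : Nontrivial (𝓞 K ⧸ v.asIdeal) := Ideal.Quotient.nontrivial_iff.2 v.isPrime.ne_top
      exact Finite.one_lt_card
    have hcard : ¬ p ∣ Nat.card (𝓞 K ⧸ v.asIdeal) - 1 := by
      intro h1
      have := Nat.le_of_dvd (by omega) h1
      omega
    obtain ⟨A, ξ, U, hA, hξ, hU, hEA, hloc2, hlocp⟩ :=
      coreL hEVAL hLOCL hLOCP hp hp2 hl.pos hx hy hz h hfc v hpv hcard hnot
    obtain ⟨f, hf, b, hb, hAf⟩ := hF A hA hEA
    have hf0 := hF0 f hf
    have hA' : algebraMap K K' A ≠ 0 := (map_ne_zero _).2 hA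
    have hf' : algebraMap K K' f ≠ 0 := (map_ne_zero _).2 hf0
    have hb' : algebraMap K K' b ≠ 0 := (map_ne_zero _).2 hb
    -- `p ≡ 1 + l`
    have hval1 : (Multiplicative.toAdd (χ (Units.mk0 ζ hζ0))).val = 1 := by
      rw [hχζ, toAdd_ofAdd]
      have : Fact (1 < l) := ⟨hl.one_lt⟩
      exact ZMod.val_one l
    have hmod : p ≡ 1 + l [MOD l ^ 2] := by
      obtain ⟨s, hs, hs'⟩ := hΦ (Units.mk0 ζ hζ0) (by simp [S])
      rw [hval1] at hs'
      have := (hsym s 1 hs').2 hs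
      rwa [one_mul] at this
    have hpq : χ (Units.mk0 (p : K') hpK') = χ (Units.mk0 (1 + (l : K')) hq0) := by
      rw [← mul_inv_eq_one, ← map_inv, ← map_mul]
      apply hχ
      change Pw l P' M ((Units.mk0 (p : K') hpK' * (Units.mk0 (1 + (l : K')) hq0)⁻¹ : K'ˣ) : K')
      rw [Units.val_mul, Units.val_inv_eq_inv_val, Units.val_mk0, Units.val_mk0]
      have := hSQL l hl hl2 K' P' hlP' M p (1 + l) hpl hmod
      push_cast at this
      exact this
    have hξp : (ξ ^ l) ^ (p - 1) ≠ 0 := pow_ne_zero _ (pow_ne_zero _ hξ)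
    have hAp : χ (Units.mk0 (algebraMap K K' A) hA') = χ (Units.mk0 (p : K') hpK') := by
      rw [← mul_inv_eq_one, ← map_inv, ← map_mul, ← inv_inv (Units.mk0 (algebraMap K K' A) hA' *
        (Units.mk0 (p : K') hpK')⁻¹), map_inv, inv_eq_one]
      apply hχ
      change Pw l P' M (((Units.mk0 (algebraMap K K' A) hA' * (Units.mk0 (p : K') hpK')⁻¹)⁻¹ :
        K'ˣ) : K')
      rw [Units.val_inv_eq_inv_val, Units.val_mul, Units.val_inv_eq_inv_val, Units.val_mk0,
        Units.val_mk0]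
      refine ⟨(algebraMap K K' (ξ ^ (p - 1)))⁻¹,
        algebraMap K K' (A / (p * (ξ ^ l) ^ (p - 1)) - 1),
        inv_ne_zero ((map_ne_zero _).2 (pow_ne_zero _ hξ)), ?_, ?_⟩
      · have hid : (A * (p : K)⁻¹)⁻¹ * (1 + (A / (p * (ξ ^ l) ^ (p - 1)) - 1)) =
            ((ξ ^ (p - 1))⁻¹) ^ l := by
          have e1 : (ξ ^ l) ^ (p - 1) = (ξ ^ (p - 1)) ^ l := by
            rw [← pow_mul, ← pow_mul, mul_comm]
          have e2 : (ξ ^ (p - 1)) ^ l ≠ 0 := pow_ne_zero _ (pow_ne_zero _ hξ)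
          rw [e1, inv_pow]
          field_simp
          ring
        have := congrArg (algebraMap K K') hid
        rw [map_mul, map_inv₀, map_mul, map_inv₀, map_natCast, map_add, map_one, map_pow,
          map_inv₀] at this
        exact this
      · rw [hP']
        refine (pow_le_pow_left₀ zero_le hloc2 k).trans ?_
        rw [← WithZero.exp_nsmul, WithZero.exp_le_exp]
        simp only [nsmul_eq_mul]
        have h1 : (1 : ℤ) ≤ k := by exact_mod_cast hk
        have h2 : (M : ℤ) ≤ p := by exact_mod_cast (by omega : M ≤ p)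
        have h3 : (0 : ℤ) ≤ p := by positivity
        nlinarith
    have hfA : χ (Units.mk0 (algebraMap K K' f) hf') = χ (Units.mk0 (algebraMap K K' A) hA') := by
      have h1 : Units.mk0 (algebraMap K K' A) hA' =
          Units.mk0 (algebraMap K K' f) hf' * (Units.mk0 (algebraMap K K' b) hb') ^ l := by
        ext
        simp [hAf]
      have h2 : ∀ g : Multiplicative (ZMod l), g ^ l = 1 := by
        intro g
        apply Multiplicative.toAdd.injective
        rw [toAdd_pow, toAdd_one]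
        simp
      rw [h1, map_mul, map_pow, h2, mul_one]
    -- the contradiction
    obtain ⟨s, hs, hs'⟩ := hΦ (Units.mk0 (algebraMap K K' f) hf') (by
      simp only [S, Finset.mem_insert, Finset.mem_image, Finset.mem_attach, true_and,
        Subtype.exists]
      exact Or.inr ⟨f, hf, rfl⟩)
    obtain ⟨w, j, hj, hw⟩ := hDWN K K' w'
    have hwp' : ((p : ℕ) : 𝓞 K') ∈ w'.asIdeal := by
      have h1 := Ideal.absNorm_mem w'.asIdeal
      rwa [hFr.1] at h1
    have hwp : ((p : ℕ) : 𝓞 K) ∈ w.asIdeal := by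
      rw [← HeightOneSpectrum.valuation_lt_one_iff_mem (K := K)]
      have h1 := hw (p : K)
      have h2 : w'.valuation K' (algebraMap (𝓞 K') K' (p : 𝓞 K')) < 1 :=
        (HeightOneSpectrum.valuation_lt_one_iff_mem (K := K') w' _).2 (by
          have h1 := Ideal.absNorm_mem w'.asIdeal
          rwa [hFr.1] at h1)
      rw [map_natCast] at h1 h2
      rw [h1] at h2
      have h3 : w.valuation K (algebraMap (𝓞 K) K (p : 𝓞 K)) = w.valuation K (p : K) := by
        rw [map_natCast]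
      refine lt_of_eq_of_lt h3 ?_
      by_contra h4
      push Not at h4
      exact absurd h2 (not_lt.2 (one_le_pow₀ h4))
    obtain ⟨m, hm⟩ := hl1
    have hUp : (U ^ m) ^ l ≠ 0 := pow_ne_zero _ (pow_ne_zero _ hU)
    have hUm : U ^ (p - 1) = (U ^ m) ^ l := by rw [hm, ← pow_mul, mul_comm]
    have hdvd := (hsym s _ hs').1 (algebraMap K K' f) (algebraMap K K' (U ^ m / b))
      (algebraMap K K' (A / U ^ (p - 1) - 1)) ((map_ne_zero _).2 (div_ne_zero (pow_ne_zero _ hU) hb))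
      (by
        rw [← map_pow, ← map_one (algebraMap K K'), ← map_add, ← map_mul, hUm, hAf]
        congr 1
        rw [div_pow]
        field_simp
        ring) (by
        rw [hw]
        exact pow_lt_one₀ zero_le (hlocp w hwp) hj.ne') (by rw [hs]; rfl)
    have hlt : (Multiplicative.toAdd (χ (Units.mk0 (algebraMap K K' f) hf'))).val < l := by
      have : NeZero l := ⟨hl.ne_zero⟩
      exact ZMod.val_lt _
    have hz0 : (Multiplicative.toAdd (χ (Units.mk0 (algebraMap K K' f) hf'))).val = 0 :=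
      Nat.eq_zero_of_dvd_of_lt hdvd hlt
    rw [ZMod.val_eq_zero] at hz0
    have h1 : χ (Units.mk0 (algebraMap K K' f) hf') = 1 := by
      apply Multiplicative.toAdd.injective
      rw [hz0, toAdd_one]
    rw [hfA, hAp, hpq] at h1
    exact hχq h1
  have hfin : Finite {p : ℕ // p ≤ X ∧ p.Prime ∧ ∀ x y z : K, x ≠ 0 → y ≠ 0 → z ≠ 0 →
        x ^ (l * p) + y ^ (l * p) = z ^ (l * p) →
        ¬ ∀ w : HeightOneSpectrum (𝓞 K), ((p : ℕ) : 𝓞 K) ∈ w.asIdeal →
          w.valuation K x = w.valuation K z ∧ w.valuation K y = w.valuation K z} :=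
    Set.Finite.to_subtype ((Set.finite_le_nat X).subset fun p hp => hp.1)
  refine Nat.card_le_card_of_injective (fun p => ⟨p.1, key p.1 p.2⟩) ?_
  intro p p' hpp
  exact Subtype.ext (congrArg (fun r => r.1) hpp)

end Pool.Agent.H47T
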