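import Pool.Agent.H47T.LOCS
import Pool.Agent.H47T.Asm3

/-!
# Project TQ, phase 4: assembly
-/

set_option autoImplicit false

namespace Pool.Agent.H47T

open NumberField IsDedekindDomain

open LOCPaux

/-- an element with valuations divisible by `l ^ k` which is `p` times an `l ^ k`-th power at all
primes above `l` -/
theorem finB (hIDN : S_IDN) (hNRN : S_NRN) (hAPP : S_APP) (hRAT : S_RAT) {l : ℕ} (hl : l.Prime)
    (hl2 : l ≠ 2) {k : ℕ} (hk : 0 < k) {K : Type} [Field K] [NumberField K] {p : ℕ}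
    (hlp : ¬ l ∣ p) {B : K} (hB : B ≠ 0) (hEv : EvL (l ^ k) B)
    (hloc : ∀ P : HeightOneSpectrum (𝓞 K), ((l : ℕ) : 𝓞 K) ∈ P.asIdeal →
      ∃ b : K, b ≠ 0 ∧ P.valuation K (B / (p * b ^ (l ^ k)) - 1) ≤
        P.valuation K (l : K) ^ k * WithZero.exp (-1)) :
    p ^ (Module.finrank ℚ K * (l - 1)) ≡ 1 [MOD l ^ (k + 1)] := by
  classical
  have hp0 : p ≠ 0 := by
    rintro rfl
    exact hlp (dvd_zero l)
  have hpK : (p : K) ≠ 0 := by exact_mod_cast hp0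
  have hlK : (l : K) ≠ 0 := by exact_mod_cast hl.ne_zero
  have hl𝓞 : ((l : ℕ) : 𝓞 K) ≠ 0 := by exact_mod_cast hl.ne_zero
  have hmodd : Odd (l ^ k) := (hl.odd_of_ne_two hl2).pow
  -- the local elements
  have h1 : ∀ P : HeightOneSpectrum (𝓞 K), ∃ b : K, b ≠ 0 ∧ (((l : ℕ) : 𝓞 K) ∈ P.asIdeal →
      P.valuation K (B / (p * b ^ (l ^ k)) - 1) ≤
        P.valuation K (l : K) ^ k * WithZero.exp (-1)) := by
    intro P
    by_cases hP : ((l : ℕ) : 𝓞 K) ∈ P.asIdeal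
    · obtain ⟨b, hb, h⟩ := hloc P hP
      exact ⟨b, hb, fun _ => h⟩
    · exact ⟨1, one_ne_zero, fun h => absurd h hP⟩
  choose b hb0 hb using h1
  -- the precision
  have hfin : {P : HeightOneSpectrum (𝓞 K) | ((l : ℕ) : 𝓞 K) ∈ P.asIdeal}.Finite := by
    have h2 : (Ideal.span {((l : ℕ) : 𝓞 K)}) ≠ 0 := by
      rw [Ne, Ideal.zero_eq_bot, Ideal.span_singleton_eq_bot]
      exact hl𝓞
    refine (Ideal.finite_factors h2).subset fun P hP => ?_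
    exact Ideal.dvd_iff_le.2 ((Ideal.span_singleton_le_iff_mem _).2 hP)
  have hval : ∀ P : HeightOneSpectrum (𝓞 K), ∃ j : ℕ,
      WithZero.exp (-(j : ℤ)) ≤ P.valuation K (l : K) ^ k * WithZero.exp (-1) := by
    intro P
    obtain ⟨i, hi⟩ := val_exp P hlK
    refine ⟨(-(k * i - 1)).toNat, ?_⟩
    rw [hi, ← WithZero.exp_nsmul, ← WithZero.exp_add, WithZero.exp_le_exp]
    simp only [nsmul_eq_mul]
    have := Int.self_le_toNat (-((k : ℤ) * i - 1))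
    linarith
  choose j hj using hval
  obtain ⟨N, hN⟩ := (hfin.image j).bddAbove
  have hN' : ∀ P : HeightOneSpectrum (𝓞 K), ((l : ℕ) : 𝓞 K) ∈ P.asIdeal →
      WithZero.exp (-(N : ℤ)) ≤ P.valuation K (l : K) ^ k * WithZero.exp (-1) := by
    intro P hP
    refine le_trans ?_ (hj P)
    rw [WithZero.exp_le_exp]
    have : j P ≤ N := hN ⟨P, hP, rfl⟩
    omega
  have hγ : ∀ P : HeightOneSpectrum (𝓞 K), ((l : ℕ) : 𝓞 K) ∈ P.asIdeal →
      P.valuation K (l : K) ^ k * WithZero.exp (-1) < 1 := by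
    intro P hP
    have h3 : P.valuation K (l : K) ≤ 1 := by
      simpa using P.valuation_le_one (K := K) ((l : ℕ) : 𝓞 K)
    calc _ ≤ 1 * WithZero.exp (-1 : ℤ) := mul_le_mul' (pow_le_one₀ zero_le h3) le_rfl
      _ < 1 := by
        rw [one_mul, ← WithZero.exp_zero, WithZero.exp_lt_exp]
        norm_num
  -- the global element
  obtain ⟨c, hc0, hc⟩ := hAPP l hl.ne_zero K b N hb0
  have ht : ∀ P : HeightOneSpectrum (𝓞 K), ((l : ℕ) : 𝓞 K) ∈ P.asIdeal →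
      P.valuation K (B / (p * c ^ (l ^ k)) - 1) ≤
        P.valuation K (l : K) ^ k * WithZero.exp (-1) := by
    intro P hP
    have h4 := near_inv _ (hγ P hP) ((hc P hP).trans (hN' P hP))
    have h5 := near_mul _ (hγ P hP).le (hb P hP) (near_pow _ (hγ P hP).le h4 (l ^ k))
    refine le_of_eq_of_le ?_ h5
    congr 2
    rw [inv_div, div_pow]
    have := hb0 P
    field_simp
  obtain ⟨a, d, hd, hnorm⟩ := hNRN l hl k hk K _ ht
  rw [add_sub_cancel] at hnorm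
  obtain ⟨u, hu⟩ := hIDN (l ^ k) (pow_pos hl.pos k) K B hB hEv
  have hNc : Algebra.norm ℚ c ≠ 0 := Algebra.norm_ne_zero_iff.2 hc0
  have h6 : Algebra.norm ℚ B = (p : ℚ) ^ Module.finrank ℚ K * Algebra.norm ℚ c ^ (l ^ k) *
      (1 + (l : ℚ) ^ (k + 1) * (a / d)) := by
    rw [← hnorm, ← map_pow]
    have h7 : (p : ℚ) ^ Module.finrank ℚ K = Algebra.norm ℚ (p : K) := by
      have h8 : Algebra.norm ℚ (algebraMap ℚ K (p : ℚ)) = (p : ℚ) ^ Module.finrank ℚ K :=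
        Algebra.norm_algebraMap (p : ℚ)
      rw [map_natCast] at h8
      exact h8.symm
    rw [h7, ← map_mul, ← map_mul]
    congr 1
    field_simp
  obtain ⟨u', hu'⟩ : ∃ u' : ℚ, Algebra.norm ℚ B = u' ^ (l ^ k) := by
    rcases hu with hu | hu
    · exact ⟨u, hu⟩
    · exact ⟨-u, by rw [hu, hmodd.neg_pow]⟩
  refine hRAT l hl k p _ hlp (u' / Algebra.norm ℚ c) a d hd ?_
  rw [div_pow, ← hu', h6]
  field_simp

theorem mainTQ4 (hEVAL : S_EVAL) (hIDN : S_IDN) (hNRN : S_NRN) (hAPP : S_APP) (hRAT : S_RAT)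
    {l : ℕ} (hl : l.Prime) (hl2 : l ≠ 2) {k : ℕ} (hk : 0 < k)
    {K : Type} [Field K] [NumberField K] {p : ℕ} (hp : p.Prime) (hp2 : p ≠ 2) (hpl : p ≠ l)
    (hcard : ∀ P : HeightOneSpectrum (𝓞 K), ((l : ℕ) : 𝓞 K) ∈ P.asIdeal →
      ¬ p ∣ Nat.card (𝓞 K ⧸ P.asIdeal) - 1)
    {x y z : K} (hx : x ≠ 0) (hy : y ≠ 0) (hz : z ≠ 0)
    (h : x ^ (l ^ k * p) + y ^ (l ^ k * p) = z ^ (l ^ k * p))
    (hnot : ∀ P : HeightOneSpectrum (𝓞 K), ((l : ℕ) : 𝓞 K) ∈ P.asIdeal →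
      ¬ (P.valuation K x = P.valuation K z ∧ P.valuation K y = P.valuation K z))
    (hprec : (∀ P : HeightOneSpectrum (𝓞 K), ((l : ℕ) : 𝓞 K) ∈ P.asIdeal →
      WithZero.exp (-((l ^ k : ℕ) : ℤ)) ≤ P.valuation K (l : K) ^ k * WithZero.exp (-1)))
    (hfc : ∀ v : HeightOneSpectrum (𝓞 K), ((p : ℕ) : 𝓞 K) ∈ v.asIdeal →
      v.valuation K x = v.valuation K z ∧ v.valuation K y = v.valuation K z) :
    p ^ (Module.finrank ℚ K * (l - 1)) ≡ 1 [MOD l ^ (k + 1)] := by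
  have hodd : Odd p := hp.odd_of_ne_two hp2
  obtain ⟨m, hm⟩ : ∃ m, m = l ^ k := ⟨_, rfl⟩
  have hm0 : 0 < m := by
    rw [hm]
    exact pow_pos hl.pos k
  rw [← hm] at h hprec
  have h' : (x ^ m) ^ p + (y ^ m) ^ p = (z ^ m) ^ p := by
    rw [← pow_mul, ← pow_mul, ← pow_mul, h]
  have hlp : ¬ l ∣ p := fun hd => hpl ((Nat.prime_dvd_prime_iff_eq hl hp).1 hd).symm
  have hxm := pow_ne_zero m hx
  have hym := pow_ne_zero m hy
  have hzm := pow_ne_zero m hz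
  have E1 := hEVAL m K p hp hp2 (x ^ m) (y ^ m) (z ^ m) hxm hym hzm h'
    (EvL_pow m hx) (EvL_pow m hy) (EvL_pow m hz) fun v hv => by
      obtain ⟨h1, h2⟩ := hfc v hv
      rw [map_pow, map_pow, map_pow, h1, h2]
      exact ⟨rfl, rfl⟩
  have E2 := hEVAL m K p hp hp2 (z ^ m) (-y ^ m) (x ^ m) hzm (neg_ne_zero.2 hym) hxm
    (by rw [hodd.neg_pow]; linear_combination -h')
    (EvL_pow m hz) (EvL_neg (EvL_pow m hy)) (EvL_pow m hx) fun v hv => by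
      obtain ⟨h1, h2⟩ := hfc v hv
      rw [Valuation.map_neg, map_pow, map_pow, map_pow, h1, h2]
      exact ⟨rfl, rfl⟩
  have E3 := hEVAL m K p hp hp2 (z ^ m) (-x ^ m) (y ^ m) hzm (neg_ne_zero.2 hxm) hym
    (by rw [hodd.neg_pow]; linear_combination -h')
    (EvL_pow m hz) (EvL_neg (EvL_pow m hx)) (EvL_pow m hy) fun v hv => by
      obtain ⟨h1, h2⟩ := hfc v hv
      rw [Valuation.map_neg, map_pow, map_pow, map_pow, h1, h2]
      exact ⟨rfl, rfl⟩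
  have hne : ∀ X Y Z : K, Z ≠ 0 → X ^ p + Y ^ p = Z ^ p → AA p X Y ≠ 0 := by
    intro X Y Z hZ hXYZ h0
    have h1 := AA_mul hodd X Y
    rw [h0, zero_mul, hXYZ] at h1
    exact pow_ne_zero p hZ h1.symm
  refine finB hIDN hNRN hAPP hRAT hl hl2 hk hlp (B := AA p (x ^ m) (y ^ m) *
    AA p (z ^ m) (-y ^ m) * AA p (z ^ m) (-x ^ m)) ?_ ?_ ?_
  · refine mul_ne_zero (mul_ne_zero (hne _ _ _ hzm h') (hne _ _ _ hxm ?_)) (hne _ _ _ hym ?_)
    · rw [hodd.neg_pow]; linear_combination -h'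
    · rw [hodd.neg_pow]; linear_combination -h'
  · intro v
    obtain ⟨a1, h1⟩ := E1 v
    obtain ⟨a2, h2⟩ := E2 v
    obtain ⟨a3, h3⟩ := E3 v
    refine ⟨a1 + a2 + a3, ?_⟩
    rw [map_mul, map_mul, h1, h2, h3, ← WithZero.exp_add, ← WithZero.exp_add, ← hm]
    congr 1
    ring
  · intro P hP
    have hpP : ((p : ℕ) : 𝓞 K) ∉ P.asIdeal := by
      intro hpP
      have h1 := Nat.isCoprime_iff_coprime.2 ((Nat.coprime_primes hp hl).2 hpl)
      obtain ⟨a, b, hab⟩ := h1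
      apply P.isPrime.ne_top
      rw [Ideal.eq_top_iff_one]
      have h2 : (1 : 𝓞 K) = (a : 𝓞 K) * ((p : ℕ) : 𝓞 K) + (b : 𝓞 K) * ((l : ℕ) : 𝓞 K) := by
        have h3 : ((a * (p : ℤ) + b * (l : ℤ) : ℤ) : 𝓞 K) = ((1 : ℤ) : 𝓞 K) := by rw [hab]
        push_cast at h3
        exact h3.symm
      rw [h2]
      exact Ideal.add_mem _ (Ideal.mul_mem_left _ _ hpP) (Ideal.mul_mem_left _ _ hP)
    obtain ⟨b, hb, h1⟩ := locB hp hp2 P hpP (hcard P hP) hm0 hx hy hz h' (hnot P hP)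
    refine ⟨b, hb, ?_⟩
    rw [← hm]
    exact h1.trans (hprec P hP)

end Pool.Agent.H47T
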