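import Pool.Agent.H47T.Stm4

/-!
# Project TQ, phase 5: the same for `l = 2` (exponents `2 ^ k p`), and residue fields with `l` elements

The proof of phase 4 works for `l = 2` with the modulus `2 ^ (k + 2)`; the norm of `B` is positive.
-/

set_option autoImplicit false

namespace Pool.Agent.H47T

open NumberField IsDedekindDomain

/-- POSN. Proof. The norm is the product over all embeddings; those which are not real come in
pairs of complex conjugates. Or: `f (t) = N (a + t)` is a real polynomial in `t` which is positive for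
large `t` (`norm_pos` in `Pool/Agent/R479/NF/NForm.lean`) and has no zero `t ≥ 0`, as its zeros are the
`-φ a`; use the intermediate value theorem. -/
def S_POSN : Prop := ∀ (K : Type) [Field K] [NumberField K] (a : K), a ≠ 0 →
  (∀ φ : K →+* ℂ, ComplexEmbedding.IsReal φ → 0 < (φ a).re) → 0 < Algebra.norm ℚ a

/-- RAT2 (elementary). Proof: as `RAT.lean`, with `u ^ (2 ^ k) ≡ 1` modulo `2 ^ (k + 2)` for odd `u` and
`k ≥ 1` (induction, starting with `u ^ 2 ≡ 1` modulo `8`). -/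
def S_RAT2 : Prop := ∀ (k p d : ℕ), 0 < k → ¬ 2 ∣ p → ∀ (c : ℚ) (a b : ℤ),
  ¬ (2 : ℤ) ∣ b → (p : ℚ) ^ d * (1 + (2 : ℚ) ^ (k + 2) * (a / b)) = c ^ (2 ^ k) →
  p ^ d ≡ 1 [MOD 2 ^ (k + 2)]

/-- RES. Proof. The residue field has `l` elements, so every element of `𝓞 K` is congruent to an
integer modulo `v`, and an integer is in `v` only if it is divisible by `l`. -/
def S_RES : Prop := ∀ (l : ℕ), l.Prime → ∀ (K : Type) [Field K] [NumberField K]
  (v : HeightOneSpectrum (𝓞 K)), Nat.card (𝓞 K ⧸ v.asIdeal) = l →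
  (∀ a b : ℤ, ¬ (l : ℤ) ∣ a → ¬ (l : ℤ) ∣ b → ¬ (l : ℤ) ∣ a + b →
    ¬ (l : ℤ) ^ 2 ∣ (a + b) ^ l - a ^ l - b ^ l) →
  ∀ a b : 𝓞 K, a ∉ v.asIdeal → b ∉ v.asIdeal → a + b ∉ v.asIdeal →
    (∑ i ∈ Finset.Ioo 0 l, ((l.choose i / l : ℕ) : 𝓞 K) * a ^ i * b ^ (l - i)) ∉ v.asIdeal

end Pool.Agent.H47T
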