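import Pool.Agent.H47T.Asm4
import Pool.Agent.H47T.Stm5

/-!
# Project TQ, phase 5: assembly for all primes `l`
-/

set_option autoImplicit false

namespace Pool.Agent.H47T

open NumberField IsDedekindDomain

open LOCPaux

/-- the norm of an element which is `p` times an `m`-th power at all primes above `l` -/
theorem finG (hNRN : S_NRN) (hAPP : S_APP) {l : ℕ} (hl : l.Prime) {k : ℕ} (hk : 0 < k) {m : ℕ}
    {K : Type} [Field K] [NumberField K] {p : ℕ} (hp0 : p ≠ 0) {B : K}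
    (hloc : ∀ P : HeightOneSpectrum (𝓞 K), ((l : ℕ) : 𝓞 K) ∈ P.asIdeal →
      ∃ b : K, b ≠ 0 ∧ P.valuation K (B / (p * b ^ m) - 1) ≤
        P.valuation K (l : K) ^ k * WithZero.exp (-1)) :
    ∃ (c : K) (a d : ℤ), c ≠ 0 ∧ ¬ (l : ℤ) ∣ d ∧
      Algebra.norm ℚ B = (p : ℚ) ^ Module.finrank ℚ K * Algebra.norm ℚ c ^ m *
        (1 + (l : ℚ) ^ (k + 1) * (a / d)) := by
  classical
  have hpK : (p : K) ≠ 0 := by exact_mod_cast hp0
  have hlK : (l : K) ≠ 0 := by exact_mod_cast hl.ne_zero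
  have hl𝓞 : ((l : ℕ) : 𝓞 K) ≠ 0 := by exact_mod_cast hl.ne_zero
  -- the local elements
  have h1 : ∀ P : HeightOneSpectrum (𝓞 K), ∃ b : K, b ≠ 0 ∧ (((l : ℕ) : 𝓞 K) ∈ P.asIdeal →
      P.valuation K (B / (p * b ^ m) - 1) ≤
        P.valuation K (l : K) ^ k * WithZero.exp (-1)) := by
    intro P
    by_cases hP : ((l : ℕ) : 𝓞 K) ∈ P.asIdeal
    · obtain ⟨b, hb, h⟩ := hloc P hP
      exact ⟨b, hb, fun _ => h⟩
    · exact ⟨1, one_ne_zero, fun h => absurd h hP⟩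
  choose b hb0 hb using h1
  -- the precision
  have hfin : {P : HeightOneSpectrum (𝓞 K) | ((l : ℕ) : 𝓞 K) ∈ P.asIdeal}.Finite := by
    have h2 : (Ideal.span {((l : ℕ) : 𝓞 K)}) ≠ 0 := by
      rw [Ne, Ideal.zero_eq_bot, Ideal.span_singleton_eq_bot]
      exact hl𝓞
    refine (Ideal.finite_factors h2).subset fun P hP => ?_
    exact Ideal.dvd_iff_le.2 ((Ideal.span_singleton_le_iff_mem _).2 hP)
  have hval : ∀ P : HeightOneSpectrum (𝓞 K), ∃ j : ℕ,
      WithZero.exp (-(j : ℤ)) ≤ P.valuation K (l : K) ^ k * WithZero.exp (-1) := by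
    intro P
    obtain ⟨i, hi⟩ := val_exp P hlK
    refine ⟨(-(k * i - 1)).toNat, ?_⟩
    rw [hi, ← WithZero.exp_nsmul, ← WithZero.exp_add, WithZero.exp_le_exp]
    simp only [nsmul_eq_mul]
    have := Int.self_le_toNat (-((k : ℤ) * i - 1))
    linarith
  choose j hj using hval
  obtain ⟨N, hN⟩ := (hfin.image j).bddAbove
  have hN' : ∀ P : HeightOneSpectrum (𝓞 K), ((l : ℕ) : 𝓞 K) ∈ P.asIdeal →
      WithZero.exp (-(N : ℤ)) ≤ P.valuation K (l : K) ^ k * WithZero.exp (-1) := by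
    intro P hP
    refine le_trans ?_ (hj P)
    rw [WithZero.exp_le_exp]
    have : j P ≤ N := hN ⟨P, hP, rfl⟩
    omega
  have hγ : ∀ P : HeightOneSpectrum (𝓞 K), ((l : ℕ) : 𝓞 K) ∈ P.asIdeal →
      P.valuation K (l : K) ^ k * WithZero.exp (-1) < 1 := by
    intro P hP
    have h3 : P.valuation K (l : K) ≤ 1 := by
      simpa using P.valuation_le_one (K := K) ((l : ℕ) : 𝓞 K)
    calc _ ≤ 1 * WithZero.exp (-1 : ℤ) := mul_le_mul' (pow_le_one₀ zero_le h3) le_rfl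
      _ < 1 := by
        rw [one_mul, ← WithZero.exp_zero, WithZero.exp_lt_exp]
        norm_num
  -- the global element
  obtain ⟨c, hc0, hc⟩ := hAPP l hl.ne_zero K b N hb0
  have ht : ∀ P : HeightOneSpectrum (𝓞 K), ((l : ℕ) : 𝓞 K) ∈ P.asIdeal →
      P.valuation K (B / (p * c ^ m) - 1) ≤
        P.valuation K (l : K) ^ k * WithZero.exp (-1) := by
    intro P hP
    have h4 := near_inv _ (hγ P hP) ((hc P hP).trans (hN' P hP))
    have h5 := near_mul _ (hγ P hP).le (hb P hP) (near_pow _ (hγ P hP).le h4 m)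
    refine le_of_eq_of_le ?_ h5
    congr 2
    rw [inv_div, div_pow]
    have := hb0 P
    field_simp
  obtain ⟨a, d, hd, hnorm⟩ := hNRN l hl k hk K _ ht
  rw [add_sub_cancel] at hnorm
  refine ⟨c, a, d, hc0, hd, ?_⟩
  rw [← hnorm, ← map_pow]
  have h7 : (p : ℚ) ^ Module.finrank ℚ K = Algebra.norm ℚ (p : K) := by
    have h8 : Algebra.norm ℚ (algebraMap ℚ K (p : ℚ)) = (p : ℚ) ^ Module.finrank ℚ K :=
      Algebra.norm_algebraMap (p : ℚ)
    rw [map_natCast] at h8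
    exact h8.symm
  rw [h7, ← map_mul, ← map_mul]
  congr 1
  field_simp

/-- `k`, and `k + 1` if `l = 2` -/
def kap (l k : ℕ) : ℕ := if l = 2 then k + 1 else k

/-- an element with valuations divisible by `l ^ k` which is `p` times an `l ^ k`-th power at all
primes above `l` -/
theorem finB5 (hIDN : S_IDN) (hNRN : S_NRN) (hAPP : S_APP) (hRAT : S_RAT) (hRAT2 : S_RAT2)
    {l : ℕ} (hl : l.Prime) {k : ℕ} (hk : 0 < k) {K : Type} [Field K] [NumberField K] {p : ℕ}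
    (hlp : ¬ l ∣ p) {B : K} (hB : B ≠ 0) (hEv : EvL (l ^ k) B)
    (hpos : l = 2 → 0 < Algebra.norm ℚ B)
    (hloc : ∀ P : HeightOneSpectrum (𝓞 K), ((l : ℕ) : 𝓞 K) ∈ P.asIdeal →
      ∃ b : K, b ≠ 0 ∧ P.valuation K (B / (p * b ^ (l ^ k)) - 1) ≤
        P.valuation K (l : K) ^ (kap l k) * WithZero.exp (-1)) :
    p ^ (Module.finrank ℚ K * (l - 1)) ≡ 1 [MOD l ^ (kap l k + 1)] := by
  have hp0 : p ≠ 0 := by
    rintro rfl
    exact hlp (dvd_zero l)
  have hkap : 0 < kap l k := by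
    unfold kap
    split_ifs <;> omega
  obtain ⟨c, a, d, hc0, hd, h6⟩ := finG hNRN hAPP hl hkap hp0 hloc
  obtain ⟨u, hu⟩ := hIDN (l ^ k) (pow_pos hl.pos k) K B hB hEv
  have hNc : Algebra.norm ℚ c ≠ 0 := Algebra.norm_ne_zero_iff.2 hc0
  obtain ⟨u', hu'⟩ : ∃ u' : ℚ, Algebra.norm ℚ B = u' ^ (l ^ k) := by
    rcases hu with hu | hu
    · exact ⟨u, hu⟩
    · rcases eq_or_ne l 2 with h2 | h2
      · exfalso
        have h3 := hpos h2
        rw [hu] at h3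
        have h4 : Even (l ^ k) := by
          rw [h2]
          exact (even_two).pow_of_ne_zero hk.ne'
        have h5 := h4.pow_nonneg u
        linarith
      · exact ⟨-u, by rw [hu, ((hl.odd_of_ne_two h2).pow).neg_pow]⟩
  have h9 : (p : ℚ) ^ Module.finrank ℚ K * (1 + (l : ℚ) ^ (kap l k + 1) * (a / d)) =
      (u' / Algebra.norm ℚ c) ^ (l ^ k) := by
    rw [div_pow, ← hu', h6]
    field_simp
  rcases eq_or_ne l 2 with h2 | h2
  · subst h2
    have h10 := hRAT2 k p (Module.finrank ℚ K) hk hlp (u' / Algebra.norm ℚ c) a d hd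
      (by simpa [kap] using h9)
    simpa [kap] using h10
  · have h11 : kap l k = k := by simp [kap, h2]
    rw [h11] at h9 ⊢
    exact hRAT l hl k p _ hlp _ a d hd h9

theorem val_pow_le' {K : Type} [Field K] [NumberField K] (v : HeightOneSpectrum (𝓞 K)) {l : ℕ}
    {x y : K} (hx : x ≠ 0) (hy : y ≠ 0) (h : v.valuation K x < v.valuation K y) :
    v.valuation K (x ^ l / y ^ l) ≤ WithZero.exp (-(l : ℤ)) := by
  obtain ⟨a, ha⟩ := val_exp v hx
  obtain ⟨b, hb⟩ := val_exp v hy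
  rw [ha, hb, WithZero.exp_lt_exp] at h
  rw [map_div₀, map_pow, map_pow, ha, hb, ← WithZero.exp_nsmul, ← WithZero.exp_nsmul,
    ← WithZero.exp_sub, WithZero.exp_le_exp]
  simp only [nsmul_eq_mul]
  have h1 : (0 : ℤ) ≤ l := by positivity
  nlinarith

/-- plus or minus `l`-th powers with `Z` more divisible -/
theorem exists_XYZ5 {K : Type} [Field K] [NumberField K] {p l : ℕ} (hp : Odd p) (hl : 0 < l)
    {x y z : K} (hx : x ≠ 0) (hy : y ≠ 0) (hz : z ≠ 0)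
    (h : x ^ (l * p) + y ^ (l * p) = z ^ (l * p)) (v : HeightOneSpectrum (𝓞 K))
    (hnot : ¬ (v.valuation K x = v.valuation K z ∧ v.valuation K y = v.valuation K z)) :
    ∃ X Y Z ξ : K, X ≠ 0 ∧ Y ≠ 0 ∧ Z ≠ 0 ∧ ξ ≠ 0 ∧ X = ξ ^ l ∧
      X ^ p + Y ^ p = Z ^ p ∧ EvL l X ∧ EvL l Y ∧ EvL l Z ∧
      v.valuation K Y = v.valuation K X ∧
      v.valuation K Z < v.valuation K X ∧
      v.valuation K (Z / X) ≤ WithZero.exp (-(l : ℤ)) ∧
      ∀ w : HeightOneSpectrum (𝓞 K),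
        w.valuation K x = w.valuation K z ∧ w.valuation K y = w.valuation K z →
        w.valuation K X = w.valuation K Z ∧ w.valuation K Y = w.valuation K Z := by
  have hp0 : p ≠ 0 := by rintro rfl; exact absurd hp (by decide)
  have h2p : l * p ≠ 0 := mul_ne_zero hl.ne' hp0
  have e : ∀ a : K, (a ^ l) ^ p = a ^ (l * p) := fun a => by rw [pow_mul]
  have e' : ∀ a : K, (-a ^ l) ^ p = -a ^ (l * p) := fun a => by rw [hp.neg_pow, pow_mul]
  have hsq : ∀ {w : HeightOneSpectrum (𝓞 K)} {a b : K}, w.valuation K a = w.valuation K b →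
      w.valuation K (a ^ l) = w.valuation K (b ^ l) := fun hab => by
    rw [map_pow, map_pow, hab]
  by_cases h1 : v.valuation K x < v.valuation K z
  · -- `x` is more divisible
    have h2 : v.valuation K y = v.valuation K z := by
      rw [← pow_eq_iff' v h2p]
      have h3 : y ^ (l * p) = z ^ (l * p) - x ^ (l * p) := by linear_combination h
      rw [h3]
      exact Valuation.map_sub_eq_of_lt_left _ ((pow_lt_iff' v h2p x z).2 h1)
    refine ⟨z ^ l, -y ^ l, x ^ l, z, pow_ne_zero l hz, neg_ne_zero.2 (pow_ne_zero l hy),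
      pow_ne_zero l hx, hz, rfl, ?_, EvL_pow l hz, EvL_neg (EvL_pow l hy), EvL_pow l hx, ?_,
      (pow_lt_iff' v hl.ne' x z).2 h1, val_pow_le' v hx hz h1, ?_⟩
    · rw [e, e', e]
      linear_combination -h
    · rw [Valuation.map_neg]
      exact hsq h2
    · rintro w ⟨hw1, hw2⟩
      rw [Valuation.map_neg]
      exact ⟨hsq hw1.symm, hsq (hw2.trans hw1.symm)⟩
  by_cases h2 : v.valuation K y < v.valuation K z
  · -- `y` is more divisible
    have h3 : v.valuation K x = v.valuation K z := by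
      rw [← pow_eq_iff' v h2p]
      have h3 : x ^ (l * p) = z ^ (l * p) - y ^ (l * p) := by linear_combination h
      rw [h3]
      exact Valuation.map_sub_eq_of_lt_left _ ((pow_lt_iff' v h2p y z).2 h2)
    refine ⟨z ^ l, -x ^ l, y ^ l, z, pow_ne_zero l hz, neg_ne_zero.2 (pow_ne_zero l hx),
      pow_ne_zero l hy, hz, rfl, ?_, EvL_pow l hz, EvL_neg (EvL_pow l hx), EvL_pow l hy, ?_,
      (pow_lt_iff' v hl.ne' y z).2 h2, val_pow_le' v hy hz h2, ?_⟩
    · rw [e, e', e]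
      linear_combination -h
    · rw [Valuation.map_neg]
      exact hsq h3
    · rintro w ⟨hw1, hw2⟩
      rw [Valuation.map_neg]
      exact ⟨hsq hw2.symm, hsq (hw1.trans hw2.symm)⟩
  -- `z` is more divisible
  push Not at h1 h2
  have hzx : v.valuation K z < v.valuation K x := by
    refine lt_of_le_of_ne h1 fun h3 => ?_
    have h4 : v.valuation K z < v.valuation K y :=
      lt_of_le_of_ne h2 fun h4 => hnot ⟨h3.symm, h4.symm⟩
    have h5 : v.valuation K (x ^ (l * p)) < v.valuation K (y ^ (l * p)) :=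
      (pow_lt_iff' v h2p x y).2 (h3 ▸ h4)
    have h6 := Valuation.map_add_eq_of_lt_left _ h5
    rw [add_comm, h, pow_eq_iff' v h2p] at h6
    exact h4.ne h6
  have hxy : v.valuation K y = v.valuation K x := by
    rw [← pow_eq_iff' v h2p, ← Valuation.map_neg]
    have h3 : -y ^ (l * p) = x ^ (l * p) - z ^ (l * p) := by linear_combination -h
    rw [h3]
    exact Valuation.map_sub_eq_of_lt_left _ ((pow_lt_iff' v h2p z x).2 hzx)
  refine ⟨x ^ l, y ^ l, z ^ l, x, pow_ne_zero l hx, pow_ne_zero l hy, pow_ne_zero l hz, hx, rfl,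
    ?_, EvL_pow l hx, EvL_pow l hy, EvL_pow l hz, hsq hxy,
    (pow_lt_iff' v hl.ne' z x).2 hzx, val_pow_le' v hz hx hzx, ?_⟩
  · rw [e, e, e, h]
  · rintro w ⟨hw1, hw2⟩
    exact ⟨hsq hw1, hsq hw2⟩

theorem AA_ne {K : Type} [Field K] {p : ℕ} (hodd : Odd p) {X Y Z : K} (hZ : Z ≠ 0)
    (hXYZ : X ^ p + Y ^ p = Z ^ p) : AA p X Y ≠ 0 := by
  intro h0
  have h1 := LOCPaux.AA_mul hodd X Y
  rw [h0, zero_mul, hXYZ] at h1
  exact pow_ne_zero p hZ h1.symm

/-- the norm of `A` is positive -/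
theorem AA_norm_pos (hPOSN : S_POSN) {K : Type} [Field K] [NumberField K] {p : ℕ} (hodd : Odd p)
    {X Y Z : K} (hZ : Z ≠ 0) (hXYZ : X ^ p + Y ^ p = Z ^ p) : 0 < Algebra.norm ℚ (AA p X Y) := by
  refine hPOSN K _ (AA_ne hodd hZ hXYZ) fun φ hφ => ?_
  have hr : ∀ a : K, ∃ s : ℝ, φ a = s := by
    intro a
    have h1 : (starRingEnd ℂ) (φ a) = φ a := by
      have := congrArg (fun ψ : K →+* ℂ => ψ a) hφ
      exact this
    obtain ⟨s, hs⟩ := Complex.conj_eq_iff_real.1 h1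
    exact ⟨s, hs⟩
  refine mainPOS K φ p hodd X Y (hr X) (hr Y) ?_
  rw [hXYZ]
  exact pow_ne_zero p hZ

theorem mainTQ5 (hEVAL : S_EVAL) (hIDN : S_IDN) (hNRN : S_NRN) (hAPP : S_APP) (hRAT : S_RAT)
    (hRAT2 : S_RAT2) (hPOSN : S_POSN) {l : ℕ} (hl : l.Prime) {k : ℕ} (hk : 0 < k)
    {K : Type} [Field K] [NumberField K] {p : ℕ} (hp : p.Prime) (hp2 : p ≠ 2) (hpl : p ≠ l)
    (hcard : ∀ P : HeightOneSpectrum (𝓞 K), ((l : ℕ) : 𝓞 K) ∈ P.asIdeal →
      ¬ p ∣ Nat.card (𝓞 K ⧸ P.asIdeal) - 1)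
    {x y z : K} (hx : x ≠ 0) (hy : y ≠ 0) (hz : z ≠ 0)
    (h : x ^ (l ^ k * p) + y ^ (l ^ k * p) = z ^ (l ^ k * p))
    (hnot : ∀ P : HeightOneSpectrum (𝓞 K), ((l : ℕ) : 𝓞 K) ∈ P.asIdeal →
      ¬ (P.valuation K x = P.valuation K z ∧ P.valuation K y = P.valuation K z))
    (hprec : (∀ P : HeightOneSpectrum (𝓞 K), ((l : ℕ) : 𝓞 K) ∈ P.asIdeal →
        WithZero.exp (-((l ^ k : ℕ) : ℤ)) ≤
          P.valuation K (l : K) ^ (kap l k) * WithZero.exp (-1)) ∨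
      ∃ P : HeightOneSpectrum (𝓞 K), ((l : ℕ) : 𝓞 K) ∈ P.asIdeal ∧
        (∀ P' : HeightOneSpectrum (𝓞 K), ((l : ℕ) : 𝓞 K) ∈ P'.asIdeal → P' = P) ∧
        WithZero.exp (-((l ^ k * p : ℕ) : ℤ)) ≤
          P.valuation K (l : K) ^ (kap l k) * WithZero.exp (-1))
    (hfc : ∀ v : HeightOneSpectrum (𝓞 K), ((p : ℕ) : 𝓞 K) ∈ v.asIdeal →
      v.valuation K x = v.valuation K z ∧ v.valuation K y = v.valuation K z) :
    p ^ (Module.finrank ℚ K * (l - 1)) ≡ 1 [MOD l ^ (kap l k + 1)] := by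
  have hodd : Odd p := hp.odd_of_ne_two hp2
  obtain ⟨m, hm⟩ : ∃ m, m = l ^ k := ⟨_, rfl⟩
  have hm0 : 0 < m := by
    rw [hm]
    exact pow_pos hl.pos k
  rw [← hm] at h hprec
  have h' : (x ^ m) ^ p + (y ^ m) ^ p = (z ^ m) ^ p := by
    rw [← pow_mul, ← pow_mul, ← pow_mul, h]
  have hlp : ¬ l ∣ p := fun hd => hpl ((Nat.prime_dvd_prime_iff_eq hl hp).1 hd).symm
  have hpP : ∀ P : HeightOneSpectrum (𝓞 K), ((l : ℕ) : 𝓞 K) ∈ P.asIdeal →
      ((p : ℕ) : 𝓞 K) ∉ P.asIdeal := by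
    intro P hP hpP
    have h1 := Nat.isCoprime_iff_coprime.2 ((Nat.coprime_primes hp hl).2 hpl)
    obtain ⟨a, b, hab⟩ := h1
    apply P.isPrime.ne_top
    rw [Ideal.eq_top_iff_one]
    have h2 : (1 : 𝓞 K) = (a : 𝓞 K) * ((p : ℕ) : 𝓞 K) + (b : 𝓞 K) * ((l : ℕ) : 𝓞 K) := by
      have h3 : ((a * (p : ℤ) + b * (l : ℤ) : ℤ) : 𝓞 K) = ((1 : ℤ) : 𝓞 K) := by rw [hab]
      push_cast at h3
      exact h3.symm
    rw [h2]
    exact Ideal.add_mem _ (Ideal.mul_mem_left _ _ hpP) (Ideal.mul_mem_left _ _ hP)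
  rcases hprec with hprec | ⟨P, hPl, hP1, hprec⟩
  · have hxm := pow_ne_zero m hx
    have hym := pow_ne_zero m hy
    have hzm := pow_ne_zero m hz
    have h2 : (z ^ m) ^ p + (-y ^ m) ^ p = (x ^ m) ^ p := by
      rw [hodd.neg_pow]; linear_combination -h'
    have h3 : (z ^ m) ^ p + (-x ^ m) ^ p = (y ^ m) ^ p := by
      rw [hodd.neg_pow]; linear_combination -h'
    have E1 := hEVAL m K p hp hp2 (x ^ m) (y ^ m) (z ^ m) hxm hym hzm h'
      (EvL_pow m hx) (EvL_pow m hy) (EvL_pow m hz) fun v hv => by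
        obtain ⟨h1, h2⟩ := hfc v hv
        rw [map_pow, map_pow, map_pow, h1, h2]
        exact ⟨rfl, rfl⟩
    have E2 := hEVAL m K p hp hp2 (z ^ m) (-y ^ m) (x ^ m) hzm (neg_ne_zero.2 hym) hxm h2
      (EvL_pow m hz) (EvL_neg (EvL_pow m hy)) (EvL_pow m hx) fun v hv => by
        obtain ⟨h1, h2⟩ := hfc v hv
        rw [Valuation.map_neg, map_pow, map_pow, map_pow, h1, h2]
        exact ⟨rfl, rfl⟩
    have E3 := hEVAL m K p hp hp2 (z ^ m) (-x ^ m) (y ^ m) hzm (neg_ne_zero.2 hxm) hym h3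
      (EvL_pow m hz) (EvL_neg (EvL_pow m hx)) (EvL_pow m hy) fun v hv => by
        obtain ⟨h1, h2⟩ := hfc v hv
        rw [Valuation.map_neg, map_pow, map_pow, map_pow, h1, h2]
        exact ⟨rfl, rfl⟩
    refine finB5 hIDN hNRN hAPP hRAT hRAT2 hl hk hlp (B := AA p (x ^ m) (y ^ m) *
      AA p (z ^ m) (-y ^ m) * AA p (z ^ m) (-x ^ m)) ?_ ?_ ?_ ?_
    · exact mul_ne_zero (mul_ne_zero (AA_ne hodd hzm h') (AA_ne hodd hxm h2)) (AA_ne hodd hym h3)
    · intro v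
      obtain ⟨a1, h1⟩ := E1 v
      obtain ⟨a2, h2⟩ := E2 v
      obtain ⟨a3, h3⟩ := E3 v
      refine ⟨a1 + a2 + a3, ?_⟩
      rw [map_mul, map_mul, h1, h2, h3, ← WithZero.exp_add, ← WithZero.exp_add, ← hm]
      congr 1
      ring
    · intro _
      rw [map_mul, map_mul]
      exact mul_pos (mul_pos (AA_norm_pos hPOSN hodd hzm h') (AA_norm_pos hPOSN hodd hxm h2))
        (AA_norm_pos hPOSN hodd hym h3)
    · intro P hP
      obtain ⟨b, hb, h1⟩ := locB hp hp2 P (hpP P hP) (hcard P hP) hm0 hx hy hz h' (hnot P hP)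
      refine ⟨b, hb, ?_⟩
      rw [← hm]
      exact h1.trans (hprec P hP)
  · -- only one prime above `l`
    obtain ⟨X, Y, Z, ξ, hX, hY, hZ, hξ, hXξ, hXYZ, eX, eY, eZ, hYX, hZX, hZX', hw⟩ :=
      exists_XYZ5 hodd hm0 hx hy hz h P (hnot P hPl)
    refine finB5 hIDN hNRN hAPP hRAT hRAT2 hl hk hlp (B := AA p X Y) (AA_ne hodd hZ hXYZ) ?_
      (fun _ => AA_norm_pos hPOSN hodd hZ hXYZ) ?_
    · rw [← hm]
      exact hEVAL m K p hp hp2 X Y Z hX hY hZ hXYZ eX eY eZ fun w hwp => hw w (hfc w hwp)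
    · intro P' hP'
      rw [hP1 P' hP']
      refine ⟨ξ ^ (p - 1), pow_ne_zero _ hξ, ?_⟩
      have h1 := locS hp hp2 P (hpP P hPl) (hcard P hPl) hX hXYZ hYX hZX
      rw [← hm, ← pow_mul, mul_comm (p - 1) m, pow_mul, ← hXξ]
      refine h1.trans (le_trans ?_ hprec)
      refine (pow_le_pow_left₀ zero_le hZX' p).trans ?_
      rw [← WithZero.exp_nsmul, WithZero.exp_le_exp]
      simp only [nsmul_eq_mul]
      push_cast
      linarith

end Pool.Agent.H47T
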