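import Pool.Agent.H47T.Stm5

/-!
# Project TQ, phase 6: solutions which are not in the first case at some of the primes above `p`

With the valuations of `A` at the primes above `p` at which `x, y, z` do not have the same valuation,
the proof of phases 4 and 5 gives: the sum `D` of the local degrees of the primes above `p` at which
`x, y, z` have the same valuation satisfies `p ^ (D (l - 1)) ≡ 1` modulo `l ^ (k + 1)`.
-/

set_option autoImplicit false

namespace Pool.Agent.H47T

open NumberField IsDedekindDomain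

/-- EVW (valuation of `A` at a prime above `p` where `Z` is more divisible; `e < p - 1`). Proof.
`t = - Y / X` has `v t = 1` and `t ^ p - 1 = - (Z / X) ^ p` has `v < 1`; so `c = t - 1` has `v c < 1`
(`(t - 1) ^ p ≡ t ^ p - 1` modulo `p`), `v c ≤ exp (-1)`. `AA p X Y = X ^ (p - 1) S` with
`S = ∑_{i<p} t ^ i = ∑_{j<p} (p.choose (j + 1)) c ^ j = p (1 + c (...)) + c ^ (p - 1)`
(`AA_eq` in `LOC2.lean`), and `v (c ^ (p - 1)) ≤ exp (-(p - 1)) < v p`; so `v S = v p`. -/
def S_EVW : Prop := ∀ (K : Type) [Field K] [NumberField K] (p : ℕ), p.Prime → p ≠ 2 →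
  ∀ v : HeightOneSpectrum (𝓞 K), ((p : ℕ) : 𝓞 K) ∈ v.asIdeal →
  WithZero.exp (-((p : ℤ) - 1)) < v.valuation K (p : K) →
  ∀ X Y Z : K, X ≠ 0 → Y ≠ 0 → Z ≠ 0 → X ^ p + Y ^ p = Z ^ p →
  v.valuation K Y = v.valuation K X → v.valuation K Z < v.valuation K X →
  v.valuation K (AA p X Y) = v.valuation K (p : K) * v.valuation K X ^ (p - 1)

/-- NFAC (the norm in terms of the valuations). Proof. `FractionalIdeal.absNorm_span_singleton` and
the factorisation `FractionalIdeal.finprod_heightOneSpectrum_factorization`; or write `a = α / n` with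
`α ∈ 𝓞 K`, `n` a positive integer, and use `Ideal.finprod_heightOneSpectrum_factorization` and
`Ideal.absNorm_span_singleton` for `α` and `n` (compare `IDN.lean`). -/
def S_NFAC : Prop := ∀ (K : Type) [Field K] [NumberField K] (a : K), a ≠ 0 →
  ∀ (T : Finset (HeightOneSpectrum (𝓞 K))) (k : HeightOneSpectrum (𝓞 K) → ℤ),
  (∀ v ∈ T, v.valuation K a = WithZero.exp (-k v)) →
  (∀ v, v ∉ T → v.valuation K a = 1) →
  |Algebra.norm ℚ a| = ∏ v ∈ T, (Ideal.absNorm v.asIdeal : ℚ) ^ k v

end Pool.Agent.H47T
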