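import Pool.Agent.H47T.Asm5
import Pool.Agent.H47T.Stm6
import Pool.Agent.H47T.EVAL

/-!
# Project TQ, phase 6: assembly
-/

set_option autoImplicit false

namespace Pool.Agent.H47T

open NumberField IsDedekindDomain

open LOCPaux EVALaux EVAaux

/-- the valuation of `A` outside `p` -/
theorem ev_out {K : Type} [Field K] [NumberField K] (m : ℕ) {p : ℕ} (hodd : Odd p)
    (v : HeightOneSpectrum (𝓞 K)) (hv : ((p : ℕ) : 𝓞 K) ∉ v.asIdeal) {X Y Z : K} (hX : X ≠ 0)
    (hY : Y ≠ 0) (hZ : Z ≠ 0) (hXYZ : X ^ p + Y ^ p = Z ^ p) (eX : EvL m X) (eY : EvL m Y)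
    (eZ : EvL m Z) : ∃ j : ℤ, v.valuation K (AA p X Y) = WithZero.exp ((m : ℤ) * j) := by
  obtain ⟨a, ha⟩ := eX v
  obtain ⟨b, hb⟩ := eY v
  obtain ⟨c, hc⟩ := eZ v
  have hwp : v.valuation K (p : K) = 1 := by
    have h : v.valuation K (algebraMap (𝓞 K) K ((p : ℕ) : 𝓞 K)) = 1 :=
      (v.valuation_eq_one_iff_notMem (K := K)).mpr hv
    rwa [map_natCast] at h
  rcases le_total (v.valuation K Y) (v.valuation K X) with hle | hle
  · exact case_one m _ hodd hwp X Y Z hX hXYZ a c ha hc hle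
  · have h0 : X ^ p + Y ^ p ≠ 0 := by rw [hXYZ]; exact pow_ne_zero _ hZ
    rw [← AA_symm hodd X Y h0]
    exact case_one m _ hodd hwp Y X Z hY (by rw [add_comm, hXYZ]) b c hb hc hle

/-- the valuation of `A` at a prime where `X, Y, Z` have the same valuation -/
theorem ev_good {K : Type} [Field K] [NumberField K] {p : ℕ} (hodd : Odd p)
    (v : HeightOneSpectrum (𝓞 K)) {X Y Z : K} (hZ : Z ≠ 0) (hXYZ : X ^ p + Y ^ p = Z ^ p)
    (hvX : v.valuation K X = v.valuation K Z) (hvY : v.valuation K Y = v.valuation K Z) :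
    v.valuation K (AA p X Y) = v.valuation K Z ^ (p - 1) := by
  set w := v.valuation K with hw
  have hp1 : p - 1 + 1 = p := Nat.sub_add_cancel hodd.pos
  have hZ0 : w Z ≠ 0 := (Valuation.ne_zero_iff _).mpr hZ
  have hA : AA p X Y * (X + Y) = Z ^ p := by rw [LOCPaux.AA_mul hodd, hXYZ]
  have hA1 : w (AA p X Y) ≤ w Z ^ (p - 1) := val_AA_le w p X Y (w Z) hvX.le hvY.le
  have hS1 : w (X + Y) ≤ w Z := (w.map_add X Y).trans (by rw [hvX, hvY, max_self])
  have hmul : w (AA p X Y) * w (X + Y) = w Z ^ p := by rw [← map_mul, hA, map_pow]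
  refine le_antisymm hA1 ?_
  by_contra hlt
  push Not at hlt
  have h1 : w (AA p X Y) * w (X + Y) < w Z ^ (p - 1) * w Z := by
    refine lt_of_le_of_lt (mul_le_mul' le_rfl hS1) ?_
    exact mul_lt_mul_of_pos_right hlt (zero_lt_iff.mpr hZ0)
  rw [hmul, ← pow_succ, hp1] at h1
  exact lt_irrefl _ h1

/-- the valuation of `A` at a prime where `X` is more divisible -/
theorem ev_X {K : Type} [Field K] [NumberField K] {p : ℕ} (hodd : Odd p)
    (v : HeightOneSpectrum (𝓞 K)) {X Y : K} (hY : Y ≠ 0)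
    (h : v.valuation K X < v.valuation K Y) :
    v.valuation K (AA p X Y) = v.valuation K Y ^ (p - 1) := by
  have hY0 : v.valuation K Y ≠ 0 := (Valuation.ne_zero_iff _).mpr hY
  have h1 := locX hodd v hY h
  have h2 : v.valuation K (X / Y) < 1 := by
    rw [map_div₀, div_lt_one₀ (zero_lt_iff.mpr hY0)]
    exact h
  have h3 : v.valuation K (AA p X Y / Y ^ (p - 1)) = 1 := by
    have h4 : AA p X Y / Y ^ (p - 1) = 1 + (AA p X Y / Y ^ (p - 1) - 1) := by ring
    rw [h4, Valuation.map_add_eq_of_lt_left _ (by rw [map_one]; exact h1.trans_lt h2), map_one]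
  rw [map_div₀, map_pow] at h3
  exact (div_eq_one_iff_eq (pow_ne_zero _ hY0)).1 h3

theorem ev_Y {K : Type} [Field K] [NumberField K] {p : ℕ} (hodd : Odd p)
    (v : HeightOneSpectrum (𝓞 K)) {X Y : K} (hX : X ≠ 0)
    (h : v.valuation K Y < v.valuation K X) :
    v.valuation K (AA p X Y) = v.valuation K X ^ (p - 1) := by
  rw [AA_comm hodd]
  exact ev_X hodd v hX h

/-- powers of elements with valuations divisible by `m` -/
theorem EvL_val_pow {K : Type} [Field K] [NumberField K] {m : ℕ} {X : K} (h : EvL m X)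
    (v : HeightOneSpectrum (𝓞 K)) (n : ℕ) :
    ∃ j : ℤ, v.valuation K X ^ n = WithZero.exp ((m : ℤ) * j) := by
  obtain ⟨a, ha⟩ := h v
  refine ⟨n * a, ?_⟩
  rw [ha, ← WithZero.exp_nsmul]
  congr 1
  rw [nsmul_eq_mul]
  ring

open scoped Classical in
/-- the valuations of one `A`: at a prime above `p` at which `Z` is more divisible there is a
factor `p` -/
theorem val_A (hEVW : S_EVW) {K : Type} [Field K] [NumberField K] {m : ℕ} {p : ℕ} (hp : p.Prime)
    (hp2 : p ≠ 2) {X Y Z : K} (hX : X ≠ 0) (hY : Y ≠ 0) (hZ : Z ≠ 0)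
    (hXYZ : X ^ p + Y ^ p = Z ^ p) (eX : EvL m X) (eY : EvL m Y) (eZ : EvL m Z)
    (v : HeightOneSpectrum (𝓞 K))
    (hpe : ((p : ℕ) : 𝓞 K) ∈ v.asIdeal → v.valuation K Z < v.valuation K X →
      WithZero.exp (-((p : ℤ) - 1)) < v.valuation K (p : K)) :
    ∃ j : ℤ, v.valuation K (AA p X Y) = WithZero.exp ((m : ℤ) * j) *
      (if ((p : ℕ) : 𝓞 K) ∈ v.asIdeal ∧ v.valuation K Z < v.valuation K X then
        v.valuation K (p : K) else 1) := by
  have hodd : Odd p := hp.odd_of_ne_two hp2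
  by_cases hv : ((p : ℕ) : 𝓞 K) ∈ v.asIdeal
  · rcases lt_trichotomy (v.valuation K X) (v.valuation K Y) with h | h | h
    · -- `X` is more divisible
      have h1 : v.valuation K Z = v.valuation K Y := by
        rw [← pow_eq_iff' v hp.ne_zero, ← hXYZ]
        exact Valuation.map_add_eq_of_lt_right _ ((pow_lt_iff' v hp.ne_zero X Y).2 h)
      have h2 : ¬ v.valuation K Z < v.valuation K X := by
        rw [h1]
        exact h.not_gt
      obtain ⟨j, hj⟩ := EvL_val_pow eY v (p - 1)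
      refine ⟨j, ?_⟩
      rw [if_neg (fun h3 => h2 h3.2), mul_one, ← hj]
      exact ev_X hodd v hY h
    · by_cases h2 : v.valuation K Z < v.valuation K X
      · obtain ⟨j, hj⟩ := EvL_val_pow eX v (p - 1)
        refine ⟨j, ?_⟩
        rw [if_pos ⟨hv, h2⟩, hEVW K p hp hp2 v hv (hpe hv h2) X Y Z hX hY hZ hXYZ h.symm h2, hj,
          mul_comm]
      · have h3 : v.valuation K X = v.valuation K Z := by
          refine le_antisymm (not_lt.1 h2) ?_
          have h4 : v.valuation K (Z ^ p) ≤ v.valuation K (X ^ p) := by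
            rw [← hXYZ]
            refine Valuation.map_add_le _ le_rfl ?_
            rw [map_pow, map_pow, h]
          rw [map_pow, map_pow] at h4
          exact (pow_le_pow_iff_left₀ zero_le zero_le hp.ne_zero).1 h4
        obtain ⟨j, hj⟩ := EvL_val_pow eZ v (p - 1)
        refine ⟨j, ?_⟩
        rw [if_neg (fun h3 => h2 h3.2), mul_one, ← hj]
        exact ev_good hodd v hZ hXYZ h3 (h ▸ h3)
    · -- `Y` is more divisible
      have h1 : v.valuation K Z = v.valuation K X := by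
        rw [← pow_eq_iff' v hp.ne_zero, ← hXYZ]
        exact Valuation.map_add_eq_of_lt_left _ ((pow_lt_iff' v hp.ne_zero Y X).2 h)
      obtain ⟨j, hj⟩ := EvL_val_pow eX v (p - 1)
      refine ⟨j, ?_⟩
      rw [if_neg (fun h3 => (h1 ▸ h3.2).false), mul_one, ← hj]
      exact ev_Y hodd v hX h
  · obtain ⟨j, hj⟩ := ev_out m hodd v hv hX hY hZ hXYZ eX eY eZ
    refine ⟨j, ?_⟩
    rw [if_neg (fun h3 => hv h3.1), mul_one, hj]

open scoped Classical in
/-- the norm of an element with valuations divisible by `m` outside a finite set -/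
theorem norm_B (hNFAC : S_NFAC) {K : Type} [Field K] [NumberField K] {m : ℕ} {B : K} (hB : B ≠ 0)
    (T : Finset (HeightOneSpectrum (𝓞 K))) (e : HeightOneSpectrum (𝓞 K) → ℕ)
    (h : ∀ v, ∃ j : ℤ, v.valuation K B = WithZero.exp ((m : ℤ) * j) *
      (if v ∈ T then WithZero.exp (-(e v : ℤ)) else 1)) :
    ∃ c : ℚ, |Algebra.norm ℚ B| = c ^ m * ∏ v ∈ T, (Ideal.absNorm v.asIdeal : ℚ) ^ e v := by
  choose j hj using h
  have hfin : {v : HeightOneSpectrum (𝓞 K) | v.valuation K B ≠ 1}.Finite := by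
    have h1 : {v : HeightOneSpectrum (𝓞 K) | 1 < v.valuation K B}.Finite :=
      HeightOneSpectrum.Support.finite (𝓞 K) B
    have h2 : {v : HeightOneSpectrum (𝓞 K) | 1 < v.valuation K B⁻¹}.Finite :=
      HeightOneSpectrum.Support.finite (𝓞 K) B⁻¹
    refine (h1.union h2).subset fun v hv => ?_
    rcases lt_or_gt_of_ne hv with h3 | h3
    · right
      have h4 : v.valuation K B ≠ 0 := (Valuation.ne_zero_iff _).2 hB
      change 1 < v.valuation K B⁻¹
      rw [map_inv₀]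
      exact (one_lt_inv₀ (zero_lt_iff.2 h4)).2 h3
    · left
      exact h3
  have key := hNFAC K B hB (T ∪ hfin.toFinset)
    (fun v => (-(m : ℤ) * j v) + (if v ∈ T then (e v : ℤ) else 0)) (fun v _ => by
      rw [hj v]
      split_ifs
      · rw [← WithZero.exp_add]
        congr 1
        ring
      · rw [mul_one]
        congr 1
        ring) (fun v hv => by
      by_contra h5
      exact hv (Finset.mem_union_right _ (hfin.mem_toFinset.2 h5)))
  have hN : ∀ v : HeightOneSpectrum (𝓞 K), (Ideal.absNorm v.asIdeal : ℚ) ≠ 0 := by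
    intro v
    have : Ideal.absNorm v.asIdeal ≠ 0 := fun h0 => v.ne_bot (Ideal.absNorm_eq_zero_iff.1 h0)
    exact_mod_cast this
  refine ⟨∏ v ∈ T ∪ hfin.toFinset, (Ideal.absNorm v.asIdeal : ℚ) ^ (-j v), ?_⟩
  rw [key, ← Finset.prod_pow]
  have h6 : ∏ v ∈ T, (Ideal.absNorm v.asIdeal : ℚ) ^ e v =
      ∏ v ∈ T ∪ hfin.toFinset, (if v ∈ T then (Ideal.absNorm v.asIdeal : ℚ) ^ e v else 1) := by
    rw [Finset.prod_ite_mem, Finset.union_inter_cancel_left]
  rw [h6, ← Finset.prod_mul_distrib]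
  refine Finset.prod_congr rfl fun v _ => ?_
  rw [zpow_add₀ (hN v)]
  congr 1
  · rw [← zpow_natCast, ← zpow_mul]
    congr 1
    ring
  · split_ifs
    · rw [zpow_natCast]
    · rw [zpow_zero]

open scoped Classical in
/-- the conclusion from an element `B` -/
theorem finB6 (hNRN : S_NRN) (hAPP : S_APP) (hRAT : S_RAT) (hRAT2 : S_RAT2) (hNFAC : S_NFAC)
    {l : ℕ} (hl : l.Prime) {k : ℕ} (hk : 0 < k) {K : Type} [Field K] [NumberField K] {p : ℕ}
    (hp : p.Prime) (hlp : ¬ l ∣ p) {B : K} (hB : B ≠ 0) (hpos : 0 < Algebra.norm ℚ B)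
    (e f : HeightOneSpectrum (𝓞 K) → ℕ)
    (he : ∀ v : HeightOneSpectrum (𝓞 K), ((p : ℕ) : 𝓞 K) ∈ v.asIdeal →
      v.valuation K (p : K) = WithZero.exp (-(e v : ℤ)))
    (hf : ∀ v : HeightOneSpectrum (𝓞 K), ((p : ℕ) : 𝓞 K) ∈ v.asIdeal →
      Ideal.absNorm v.asIdeal = p ^ f v)
    (T T' : Finset (HeightOneSpectrum (𝓞 K))) (hTT : Disjoint T T')
    (hT : ∀ v, v ∈ T ∪ T' ↔ ((p : ℕ) : 𝓞 K) ∈ v.asIdeal)
    (hval : ∀ v, ∃ j : ℤ, v.valuation K B = WithZero.exp (((l ^ k : ℕ) : ℤ) * j) *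
      (if v ∈ T then WithZero.exp (-(e v : ℤ)) else 1))
    (hloc : ∀ P : HeightOneSpectrum (𝓞 K), ((l : ℕ) : 𝓞 K) ∈ P.asIdeal →
      ∃ b : K, b ≠ 0 ∧ P.valuation K (B / (p * b ^ (l ^ k)) - 1) ≤
        P.valuation K (l : K) ^ (kap l k) * WithZero.exp (-1)) :
    p ^ ((∑ v ∈ T', e v * f v) * (l - 1)) ≡ 1 [MOD l ^ (kap l k + 1)] := by
  have hpK : (p : K) ≠ 0 := by exact_mod_cast hp.ne_zero
  have hpQ : (p : ℚ) ≠ 0 := by exact_mod_cast hp.ne_zero
  have hkap : 0 < kap l k := by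
    unfold kap
    split_ifs <;> omega
  obtain ⟨c, a, d, hc0, hd, h6⟩ := finG hNRN hAPP hl hkap hp.ne_zero hloc
  obtain ⟨u, hu⟩ := norm_B hNFAC hB T e hval
  rw [abs_of_pos hpos] at hu
  have hNc : Algebra.norm ℚ c ≠ 0 := Algebra.norm_ne_zero_iff.2 hc0
  -- the norm of `p`
  have hNp : (p : ℚ) ^ Module.finrank ℚ K =
      ∏ v ∈ T ∪ T', (Ideal.absNorm v.asIdeal : ℚ) ^ e v := by
    have h7 : (p : ℚ) ^ Module.finrank ℚ K = Algebra.norm ℚ (p : K) := by
      have h8 : Algebra.norm ℚ (algebraMap ℚ K (p : ℚ)) = (p : ℚ) ^ Module.finrank ℚ K :=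
        Algebra.norm_algebraMap (p : ℚ)
      rw [map_natCast] at h8
      exact h8.symm
    have h8 := hNFAC K (p : K) hpK (T ∪ T') (fun v => (e v : ℤ))
      (fun v hv => he v ((hT v).1 hv)) (fun v hv => by
        have h : v.valuation K (algebraMap (𝓞 K) K ((p : ℕ) : 𝓞 K)) = 1 :=
          (v.valuation_eq_one_iff_notMem (K := K)).mpr (fun h9 => hv ((hT v).2 h9))
        rwa [map_natCast] at h)
    rw [← h7, abs_of_pos (by positivity)] at h8
    rw [h8]
    exact Finset.prod_congr rfl fun v _ => zpow_natCast _ _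
  have hT'p : ∏ v ∈ T', (Ideal.absNorm v.asIdeal : ℚ) ^ e v =
      (p : ℚ) ^ (∑ v ∈ T', e v * f v) := by
    rw [← Finset.prod_pow_eq_pow_sum]
    refine Finset.prod_congr rfl fun v hv => ?_
    rw [hf v ((hT v).1 (Finset.mem_union_right _ hv)), Nat.cast_pow, ← pow_mul, mul_comm]
  have hTne : ∏ v ∈ T, (Ideal.absNorm v.asIdeal : ℚ) ^ e v ≠ 0 := by
    refine Finset.prod_ne_zero_iff.2 fun v hv => pow_ne_zero _ ?_
    rw [hf v ((hT v).1 (Finset.mem_union_left _ hv)), Nat.cast_pow]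
    exact pow_ne_zero _ hpQ
  rw [Finset.prod_union hTT, hT'p] at hNp
  have h9 : (p : ℚ) ^ (∑ v ∈ T', e v * f v) * (1 + (l : ℚ) ^ (kap l k + 1) * (a / d)) =
      (u / Algebra.norm ℚ c) ^ (l ^ k) := by
    rw [hu, hNp] at h6
    rw [div_pow, eq_div_iff (pow_ne_zero _ hNc)]
    apply mul_left_cancel₀ hTne
    linear_combination -h6
  rcases eq_or_ne l 2 with h2 | h2
  · subst h2
    have h10 := hRAT2 k p (∑ v ∈ T', e v * f v) hk hlp (u / Algebra.norm ℚ c) a d hd
      (by simpa [kap] using h9)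
    simpa [kap] using h10
  · have h11 : kap l k = k := by simp [kap, h2]
    rw [h11] at h9 ⊢
    exact hRAT l hl k p _ hlp _ a d hd h9

end Pool.Agent.H47T
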