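import Pool.Agent.H47T.Asm6

/-!
# Project TQ, phase 6: assembly, second part
-/

set_option autoImplicit false

namespace Pool.Agent.H47T

open NumberField IsDedekindDomain

/-- the finitely many primes above `l` -/
theorem fin_above {K : Type} [Field K] [NumberField K] {l : ℕ} (hl : l ≠ 0) :
    {P : HeightOneSpectrum (𝓞 K) | ((l : ℕ) : 𝓞 K) ∈ P.asIdeal}.Finite := by
  have h2 : (Ideal.span {((l : ℕ) : 𝓞 K)}) ≠ 0 := by
    rw [Ne, Ideal.zero_eq_bot, Ideal.span_singleton_eq_bot]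
    exact_mod_cast hl
  refine (Ideal.finite_factors h2).subset fun P hP => ?_
  exact Ideal.dvd_iff_le.2 ((Ideal.span_singleton_le_iff_mem _).2 hP)

/-- the sum of the local degrees -/
theorem sum_ef (hNFAC : S_NFAC) {K : Type} [Field K] [NumberField K] {p : ℕ} (hp : p.Prime)
    (e f : HeightOneSpectrum (𝓞 K) → ℕ)
    (he : ∀ v : HeightOneSpectrum (𝓞 K), ((p : ℕ) : 𝓞 K) ∈ v.asIdeal →
      v.valuation K (p : K) = WithZero.exp (-(e v : ℤ)))
    (hf : ∀ v : HeightOneSpectrum (𝓞 K), ((p : ℕ) : 𝓞 K) ∈ v.asIdeal →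
      Ideal.absNorm v.asIdeal = p ^ f v)
    (T : Finset (HeightOneSpectrum (𝓞 K)))
    (hT : ∀ v, v ∈ T ↔ ((p : ℕ) : 𝓞 K) ∈ v.asIdeal) :
    ∑ v ∈ T, e v * f v = Module.finrank ℚ K := by
  have hpK : (p : K) ≠ 0 := by exact_mod_cast hp.ne_zero
  have h7 : (p : ℚ) ^ Module.finrank ℚ K = Algebra.norm ℚ (p : K) := by
    have h8 : Algebra.norm ℚ (algebraMap ℚ K (p : ℚ)) = (p : ℚ) ^ Module.finrank ℚ K :=
      Algebra.norm_algebraMap (p : ℚ)
    rw [map_natCast] at h8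
    exact h8.symm
  have h8 := hNFAC K (p : K) hpK T (fun v => (e v : ℤ))
    (fun v hv => he v ((hT v).1 hv)) (fun v hv => by
      have h : v.valuation K (algebraMap (𝓞 K) K ((p : ℕ) : 𝓞 K)) = 1 :=
        (v.valuation_eq_one_iff_notMem (K := K)).mpr (fun h9 => hv ((hT v).2 h9))
      rwa [map_natCast] at h)
  rw [← h7, abs_of_pos (by have := hp.pos; positivity)] at h8
  have h9 : (p : ℚ) ^ Module.finrank ℚ K = (p : ℚ) ^ (∑ v ∈ T, e v * f v) := by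
    rw [h8, ← Finset.prod_pow_eq_pow_sum]
    refine Finset.prod_congr rfl fun v hv => ?_
    rw [hf v ((hT v).1 hv), Nat.cast_pow, zpow_natCast, ← pow_mul, mul_comm]
  have h10 : p ^ Module.finrank ℚ K = p ^ (∑ v ∈ T, e v * f v) := by exact_mod_cast h9
  exact (Nat.pow_right_injective hp.two_le h10).symm

/-- comparison of the three valuations -/
theorem tri {K : Type} [Field K] [NumberField K] (v : HeightOneSpectrum (𝓞 K)) {n : ℕ} (hn : n ≠ 0)
    {X Y Z : K} (h : X ^ n + Y ^ n = Z ^ n) :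
    (v.valuation K X < v.valuation K Y ∧ v.valuation K Z = v.valuation K Y) ∨
    (v.valuation K Y < v.valuation K X ∧ v.valuation K Z = v.valuation K X) ∨
    (v.valuation K Y = v.valuation K X ∧ v.valuation K Z < v.valuation K X) ∨
    (v.valuation K X = v.valuation K Z ∧ v.valuation K Y = v.valuation K Z) := by
  rcases lt_trichotomy (v.valuation K X) (v.valuation K Y) with h1 | h1 | h1
  · left
    refine ⟨h1, ?_⟩
    rw [← pow_eq_iff' v hn, ← h]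
    exact Valuation.map_add_eq_of_lt_right _ ((pow_lt_iff' v hn X Y).2 h1)
  · right; right
    have h4 : v.valuation K Z ≤ v.valuation K X := by
      have h5 : v.valuation K (Z ^ n) ≤ v.valuation K (X ^ n) := by
        rw [← h]
        refine Valuation.map_add_le _ le_rfl ?_
        rw [map_pow, map_pow, h1]
      rw [map_pow, map_pow] at h5
      exact (pow_le_pow_iff_left₀ zero_le zero_le hn).1 h5
    rcases h4.lt_or_eq with h5 | h5
    · exact Or.inl ⟨h1.symm, h5⟩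
    · exact Or.inr ⟨h5.symm, h1 ▸ h5.symm⟩
  · right; left
    refine ⟨h1, ?_⟩
    rw [← pow_eq_iff' v hn, ← h]
    exact Valuation.map_add_eq_of_lt_left _ ((pow_lt_iff' v hn Y X).2 h1)

theorem mainTQ6 (hEVW : S_EVW) (hNRN : S_NRN) (hAPP : S_APP) (hRAT : S_RAT) (hRAT2 : S_RAT2)
    (hPOSN : S_POSN) (hNFAC : S_NFAC) {l : ℕ} (hl : l.Prime) {k : ℕ} (hk : 0 < k)
    {K : Type} [Field K] [NumberField K] {p : ℕ} (hp : p.Prime) (hp2 : p ≠ 2) (hpl : p ≠ l)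
    (hcard : ∀ P : HeightOneSpectrum (𝓞 K), ((l : ℕ) : 𝓞 K) ∈ P.asIdeal →
      ¬ p ∣ Nat.card (𝓞 K ⧸ P.asIdeal) - 1)
    {x y z : K} (hx : x ≠ 0) (hy : y ≠ 0) (hz : z ≠ 0)
    (h : x ^ (l ^ k * p) + y ^ (l ^ k * p) = z ^ (l ^ k * p))
    (hnot : ∀ P : HeightOneSpectrum (𝓞 K), ((l : ℕ) : 𝓞 K) ∈ P.asIdeal →
      ¬ (P.valuation K x = P.valuation K z ∧ P.valuation K y = P.valuation K z))
    (hprec : ∀ P : HeightOneSpectrum (𝓞 K), ((l : ℕ) : 𝓞 K) ∈ P.asIdeal →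
        WithZero.exp (-((l ^ k : ℕ) : ℤ)) ≤
          P.valuation K (l : K) ^ (kap l k) * WithZero.exp (-1))
    (e f : HeightOneSpectrum (𝓞 K) → ℕ)
    (he : ∀ v : HeightOneSpectrum (𝓞 K), ((p : ℕ) : 𝓞 K) ∈ v.asIdeal →
      v.valuation K (p : K) = WithZero.exp (-(e v : ℤ)))
    (hf : ∀ v : HeightOneSpectrum (𝓞 K), ((p : ℕ) : 𝓞 K) ∈ v.asIdeal →
      Ideal.absNorm v.asIdeal = p ^ f v)
    (hep : ∀ v : HeightOneSpectrum (𝓞 K), ((p : ℕ) : 𝓞 K) ∈ v.asIdeal →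
      ¬ (v.valuation K x = v.valuation K z ∧ v.valuation K y = v.valuation K z) → e v + 1 < p)
    (T' : Finset (HeightOneSpectrum (𝓞 K)))
    (hT' : ∀ v, v ∈ T' ↔ ((p : ℕ) : 𝓞 K) ∈ v.asIdeal ∧
      v.valuation K x = v.valuation K z ∧ v.valuation K y = v.valuation K z) :
    p ^ ((∑ v ∈ T', e v * f v) * (l - 1)) ≡ 1 [MOD l ^ (kap l k + 1)] := by
  classical
  have hodd : Odd p := hp.odd_of_ne_two hp2
  obtain ⟨m, hm⟩ : ∃ m, m = l ^ k := ⟨_, rfl⟩
  have hm0 : 0 < m := by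
    rw [hm]
    exact pow_pos hl.pos k
  rw [← hm] at h hprec
  have h' : (x ^ m) ^ p + (y ^ m) ^ p = (z ^ m) ^ p := by
    rw [← pow_mul, ← pow_mul, ← pow_mul, h]
  have hlp : ¬ l ∣ p := fun hd => hpl ((Nat.prime_dvd_prime_iff_eq hl hp).1 hd).symm
  have hpP : ∀ P : HeightOneSpectrum (𝓞 K), ((l : ℕ) : 𝓞 K) ∈ P.asIdeal →
      ((p : ℕ) : 𝓞 K) ∉ P.asIdeal := by
    intro P hP hpP
    have h1 := Nat.isCoprime_iff_coprime.2 ((Nat.coprime_primes hp hl).2 hpl)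
    obtain ⟨a, b, hab⟩ := h1
    apply P.isPrime.ne_top
    rw [Ideal.eq_top_iff_one]
    have h2 : (1 : 𝓞 K) = (a : 𝓞 K) * ((p : ℕ) : 𝓞 K) + (b : 𝓞 K) * ((l : ℕ) : 𝓞 K) := by
      have h3 : ((a * (p : ℤ) + b * (l : ℤ) : ℤ) : 𝓞 K) = ((1 : ℤ) : 𝓞 K) := by rw [hab]
      push_cast at h3
      exact h3.symm
    rw [h2]
    exact Ideal.add_mem _ (Ideal.mul_mem_left _ _ hpP) (Ideal.mul_mem_left _ _ hP)
  have hxm := pow_ne_zero m hx
  have hym := pow_ne_zero m hy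
  have hzm := pow_ne_zero m hz
  have h2 : (z ^ m) ^ p + (-y ^ m) ^ p = (x ^ m) ^ p := by
    rw [hodd.neg_pow]; linear_combination -h'
  have h3 : (z ^ m) ^ p + (-x ^ m) ^ p = (y ^ m) ^ p := by
    rw [hodd.neg_pow]; linear_combination -h'
  -- small ramification at the bad primes
  have hpe : ∀ v : HeightOneSpectrum (𝓞 K), ((p : ℕ) : 𝓞 K) ∈ v.asIdeal →
      ¬ (v.valuation K x = v.valuation K z ∧ v.valuation K y = v.valuation K z) →
      WithZero.exp (-((p : ℤ) - 1)) < v.valuation K (p : K) := by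
    intro v hv hbad
    have h4 := hep v hv hbad
    rw [he v hv, WithZero.exp_lt_exp]
    omega
  have hlt : ∀ (v : HeightOneSpectrum (𝓞 K)) (a b : K),
      v.valuation K (a ^ m) < v.valuation K (b ^ m) ↔ v.valuation K a < v.valuation K b :=
    fun v a b => pow_lt_iff' v hm0.ne' a b
  obtain ⟨Tp, hTp⟩ : ∃ Tp : Finset (HeightOneSpectrum (𝓞 K)),
      ∀ v, v ∈ Tp ↔ ((p : ℕ) : 𝓞 K) ∈ v.asIdeal :=
    ⟨(fin_above hp.ne_zero).toFinset, fun v => (fin_above hp.ne_zero).mem_toFinset⟩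
  have hsub : T' ⊆ Tp := fun v hv => (hTp v).2 ((hT' v).1 hv).1
  refine finB6 hNRN hAPP hRAT hRAT2 hNFAC hl hk hp hlp (B := AA p (x ^ m) (y ^ m) *
    AA p (z ^ m) (-y ^ m) * AA p (z ^ m) (-x ^ m)) ?_ ?_ e f he hf (Tp \ T') T'
    Finset.sdiff_disjoint ?_ ?_ ?_
  · exact mul_ne_zero (mul_ne_zero (AA_ne hodd hzm h') (AA_ne hodd hxm h2)) (AA_ne hodd hym h3)
  · rw [map_mul, map_mul]
    exact mul_pos (mul_pos (AA_norm_pos hPOSN hodd hzm h') (AA_norm_pos hPOSN hodd hxm h2))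
      (AA_norm_pos hPOSN hodd hym h3)
  · intro v
    rw [Finset.sdiff_union_of_subset hsub, hTp]
  · intro v
    have hmem : v ∈ Tp \ T' ↔ ((p : ℕ) : 𝓞 K) ∈ v.asIdeal ∧
        ¬ (v.valuation K x = v.valuation K z ∧ v.valuation K y = v.valuation K z) := by
      rw [Finset.mem_sdiff, hTp, hT']
      tauto
    obtain ⟨j1, hj1⟩ := val_A hEVW (m := m) hp hp2 hxm hym hzm h' (EvL_pow m hx) (EvL_pow m hy)
      (EvL_pow m hz) v (fun hv h4 => hpe v hv fun h5 => by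
        rw [hlt, h5.1] at h4
        exact lt_irrefl _ h4)
    obtain ⟨j2, hj2⟩ := val_A hEVW (m := m) hp hp2 hzm (neg_ne_zero.2 hym) hxm h2 (EvL_pow m hz)
      (EvL_neg (EvL_pow m hy)) (EvL_pow m hx) v (fun hv h4 => hpe v hv fun h5 => by
        rw [hlt, h5.1] at h4
        exact lt_irrefl _ h4)
    obtain ⟨j3, hj3⟩ := val_A hEVW (m := m) hp hp2 hzm (neg_ne_zero.2 hxm) hym h3 (EvL_pow m hz)
      (EvL_neg (EvL_pow m hx)) (EvL_pow m hy) v (fun hv h4 => hpe v hv fun h5 => by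
        rw [hlt, h5.2] at h4
        exact lt_irrefl _ h4)
    simp only [hlt] at hj1 hj2 hj3
    refine ⟨j1 + j2 + j3, ?_⟩
    rw [map_mul, map_mul, hj1, hj2, hj3, ← hm]
    have hexp : WithZero.exp ((m : ℤ) * (j1 + j2 + j3)) = WithZero.exp ((m : ℤ) * j1) *
        WithZero.exp ((m : ℤ) * j2) * WithZero.exp ((m : ℤ) * j3) := by
      rw [← WithZero.exp_add, ← WithZero.exp_add]
      congr 1
      ring
    rw [hexp]
    by_cases hv : ((p : ℕ) : 𝓞 K) ∈ v.asIdeal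
    · rcases tri v (mul_ne_zero hm0.ne' hp.ne_zero) h with h4 | h4 | h4 | h4
      · -- `x` is more divisible
        have c1 : ¬ (((p : ℕ) : 𝓞 K) ∈ v.asIdeal ∧ v.valuation K z < v.valuation K x) := by
          rintro ⟨-, h5⟩
          rw [h4.2] at h5
          exact lt_asymm h5 h4.1
        have c2 : (((p : ℕ) : 𝓞 K) ∈ v.asIdeal ∧ v.valuation K x < v.valuation K z) :=
          ⟨hv, h4.2 ▸ h4.1⟩
        have c3 : ¬ (((p : ℕ) : 𝓞 K) ∈ v.asIdeal ∧ v.valuation K y < v.valuation K z) := by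
          rintro ⟨-, h5⟩
          rw [h4.2] at h5
          exact lt_irrefl _ h5
        have c4 : v ∈ Tp \ T' := hmem.2 ⟨hv, fun h5 => by
          rw [h5.1, h5.2] at h4
          exact lt_irrefl _ h4.1⟩
        rw [if_neg c1, if_pos c2, if_neg c3, if_pos c4, he v hv]
        ac_rfl
      · -- `y` is more divisible
        have c1 : ¬ (((p : ℕ) : 𝓞 K) ∈ v.asIdeal ∧ v.valuation K z < v.valuation K x) := by
          rintro ⟨-, h5⟩
          rw [h4.2] at h5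
          exact lt_irrefl _ h5
        have c2 : ¬ (((p : ℕ) : 𝓞 K) ∈ v.asIdeal ∧ v.valuation K x < v.valuation K z) := by
          rintro ⟨-, h5⟩
          rw [h4.2] at h5
          exact lt_irrefl _ h5
        have c3 : (((p : ℕ) : 𝓞 K) ∈ v.asIdeal ∧ v.valuation K y < v.valuation K z) :=
          ⟨hv, h4.2 ▸ h4.1⟩
        have c4 : v ∈ Tp \ T' := hmem.2 ⟨hv, fun h5 => by
          rw [h5.1, h5.2] at h4
          exact lt_irrefl _ h4.1⟩
        rw [if_neg c1, if_neg c2, if_pos c3, if_pos c4, he v hv]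
        ac_rfl
      · -- `z` is more divisible
        have c1 : (((p : ℕ) : 𝓞 K) ∈ v.asIdeal ∧ v.valuation K z < v.valuation K x) :=
          ⟨hv, h4.2⟩
        have c2 : ¬ (((p : ℕ) : 𝓞 K) ∈ v.asIdeal ∧ v.valuation K x < v.valuation K z) := by
          rintro ⟨-, h5⟩
          exact lt_asymm h5 h4.2
        have c3 : ¬ (((p : ℕ) : 𝓞 K) ∈ v.asIdeal ∧ v.valuation K y < v.valuation K z) := by
          rintro ⟨-, h5⟩
          rw [h4.1] at h5
          exact lt_asymm h5 h4.2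
        have c4 : v ∈ Tp \ T' := hmem.2 ⟨hv, fun h5 => by
          rw [h5.1] at h4
          exact lt_irrefl _ h4.2⟩
        rw [if_pos c1, if_neg c2, if_neg c3, if_pos c4, he v hv]
        ac_rfl
      · -- equal valuations
        have c1 : ¬ (((p : ℕ) : 𝓞 K) ∈ v.asIdeal ∧ v.valuation K z < v.valuation K x) := by
          rintro ⟨-, h5⟩
          rw [h4.1] at h5
          exact lt_irrefl _ h5
        have c2 : ¬ (((p : ℕ) : 𝓞 K) ∈ v.asIdeal ∧ v.valuation K x < v.valuation K z) := by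
          rintro ⟨-, h5⟩
          rw [h4.1] at h5
          exact lt_irrefl _ h5
        have c3 : ¬ (((p : ℕ) : 𝓞 K) ∈ v.asIdeal ∧ v.valuation K y < v.valuation K z) := by
          rintro ⟨-, h5⟩
          rw [h4.2] at h5
          exact lt_irrefl _ h5
        have c4 : ¬ v ∈ Tp \ T' := fun h5 => (hmem.1 h5).2 h4
        rw [if_neg c1, if_neg c2, if_neg c3, if_neg c4]
        ac_rfl
    · rw [if_neg fun h5 => hv h5.1, if_neg fun h5 => hv h5.1, if_neg fun h5 => hv h5.1,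
        if_neg fun h5 => hv (hmem.1 h5).1]
      ac_rfl
  · intro P hP
    obtain ⟨b, hb, h1⟩ := locB hp hp2 P (hpP P hP) (hcard P hP) hm0 hx hy hz h' (hnot P hP)
    refine ⟨b, hb, ?_⟩
    rw [← hm]
    exact h1.trans (hprec P hP)

/-- only one prime above `l` -/
theorem mainTQ6s (hEVW : S_EVW) (hNRN : S_NRN) (hAPP : S_APP) (hRAT : S_RAT) (hRAT2 : S_RAT2)
    (hPOSN : S_POSN) (hNFAC : S_NFAC) {l : ℕ} (hl : l.Prime) {k : ℕ} (hk : 0 < k)
    {K : Type} [Field K] [NumberField K] {p : ℕ} (hp : p.Prime) (hp2 : p ≠ 2) (hpl : p ≠ l)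
    {x y z : K} (hx : x ≠ 0) (hy : y ≠ 0) (hz : z ≠ 0)
    (h : x ^ (l ^ k * p) + y ^ (l ^ k * p) = z ^ (l ^ k * p))
    (P : HeightOneSpectrum (𝓞 K)) (hPl : ((l : ℕ) : 𝓞 K) ∈ P.asIdeal)
    (hP1 : ∀ P' : HeightOneSpectrum (𝓞 K), ((l : ℕ) : 𝓞 K) ∈ P'.asIdeal → P' = P)
    (hcard : ¬ p ∣ Nat.card (𝓞 K ⧸ P.asIdeal) - 1)
    (hnot : ¬ (P.valuation K x = P.valuation K z ∧ P.valuation K y = P.valuation K z))
    (hprec : WithZero.exp (-((l ^ k * p : ℕ) : ℤ)) ≤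
          P.valuation K (l : K) ^ (kap l k) * WithZero.exp (-1))
    (e f : HeightOneSpectrum (𝓞 K) → ℕ)
    (he : ∀ v : HeightOneSpectrum (𝓞 K), ((p : ℕ) : 𝓞 K) ∈ v.asIdeal →
      v.valuation K (p : K) = WithZero.exp (-(e v : ℤ)))
    (hf : ∀ v : HeightOneSpectrum (𝓞 K), ((p : ℕ) : 𝓞 K) ∈ v.asIdeal →
      Ideal.absNorm v.asIdeal = p ^ f v)
    (hep : ∀ v : HeightOneSpectrum (𝓞 K), ((p : ℕ) : 𝓞 K) ∈ v.asIdeal →
      ¬ (v.valuation K x = v.valuation K z ∧ v.valuation K y = v.valuation K z) → e v + 1 < p) :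
    ∃ T' : Finset (HeightOneSpectrum (𝓞 K)),
      (∀ v ∈ T', ((p : ℕ) : 𝓞 K) ∈ v.asIdeal) ∧
      (∀ v : HeightOneSpectrum (𝓞 K), ((p : ℕ) : 𝓞 K) ∈ v.asIdeal →
        v.valuation K x = v.valuation K z → v.valuation K y = v.valuation K z → v ∈ T') ∧
      p ^ ((∑ v ∈ T', e v * f v) * (l - 1)) ≡ 1 [MOD l ^ (kap l k + 1)] := by
  classical
  have hodd : Odd p := hp.odd_of_ne_two hp2
  obtain ⟨m, hm⟩ : ∃ m, m = l ^ k := ⟨_, rfl⟩
  have hm0 : 0 < m := by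
    rw [hm]
    exact pow_pos hl.pos k
  rw [← hm] at h hprec
  have hlp : ¬ l ∣ p := fun hd => hpl ((Nat.prime_dvd_prime_iff_eq hl hp).1 hd).symm
  have hpP : ((p : ℕ) : 𝓞 K) ∉ P.asIdeal := by
    intro hpP
    have h1 := Nat.isCoprime_iff_coprime.2 ((Nat.coprime_primes hp hl).2 hpl)
    obtain ⟨a, b, hab⟩ := h1
    apply P.isPrime.ne_top
    rw [Ideal.eq_top_iff_one]
    have h2 : (1 : 𝓞 K) = (a : 𝓞 K) * ((p : ℕ) : 𝓞 K) + (b : 𝓞 K) * ((l : ℕ) : 𝓞 K) := by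
      have h3 : ((a * (p : ℤ) + b * (l : ℤ) : ℤ) : 𝓞 K) = ((1 : ℤ) : 𝓞 K) := by rw [hab]
      push_cast at h3
      exact h3.symm
    rw [h2]
    exact Ideal.add_mem _ (Ideal.mul_mem_left _ _ hpP) (Ideal.mul_mem_left _ _ hPl)
  have hpe : ∀ v : HeightOneSpectrum (𝓞 K), ((p : ℕ) : 𝓞 K) ∈ v.asIdeal →
      ¬ (v.valuation K x = v.valuation K z ∧ v.valuation K y = v.valuation K z) →
      WithZero.exp (-((p : ℤ) - 1)) < v.valuation K (p : K) := by
    intro v hv hbad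
    have h4 := hep v hv hbad
    rw [he v hv, WithZero.exp_lt_exp]
    omega
  obtain ⟨X, Y, Z, ξ, hX, hY, hZ, hξ, hXξ, hXYZ, eX, eY, eZ, hYX, hZX, hZX', hw⟩ :=
    exists_XYZ5 hodd hm0 hx hy hz h P hnot
  obtain ⟨Tp, hTp⟩ : ∃ Tp : Finset (HeightOneSpectrum (𝓞 K)),
      ∀ v, v ∈ Tp ↔ ((p : ℕ) : 𝓞 K) ∈ v.asIdeal :=
    ⟨(fin_above hp.ne_zero).toFinset, fun v => (fin_above hp.ne_zero).mem_toFinset⟩
  obtain ⟨T, hTdef⟩ : ∃ T, T = Tp.filter fun v => v.valuation K Z < v.valuation K X := ⟨_, rfl⟩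
  have hTm : ∀ v, v ∈ T ↔ ((p : ℕ) : 𝓞 K) ∈ v.asIdeal ∧ v.valuation K Z < v.valuation K X := by
    intro v
    rw [hTdef, Finset.mem_filter, hTp]
  have hgood : ∀ v : HeightOneSpectrum (𝓞 K),
      v.valuation K x = v.valuation K z → v.valuation K y = v.valuation K z →
      ¬ v.valuation K Z < v.valuation K X := by
    intro v h4 h5 h6
    rw [(hw v ⟨h4, h5⟩).1] at h6
    exact lt_irrefl _ h6
  refine ⟨Tp \ T, fun v hv => (hTp v).1 (Finset.mem_sdiff.1 hv).1, fun v hv h4 h5 =>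
    Finset.mem_sdiff.2 ⟨(hTp v).2 hv, fun h6 => hgood v h4 h5 ((hTm v).1 h6).2⟩, ?_⟩
  refine finB6 hNRN hAPP hRAT hRAT2 hNFAC hl hk hp hlp (B := AA p X Y) (AA_ne hodd hZ hXYZ)
    (AA_norm_pos hPOSN hodd hZ hXYZ) e f he hf T (Tp \ T) Finset.disjoint_sdiff ?_ ?_ ?_
  · intro v
    rw [Finset.union_sdiff_of_subset (by rw [hTdef]; exact Finset.filter_subset _ _), hTp]
  · intro v
    obtain ⟨j, hj⟩ := val_A hEVW (m := m) hp hp2 hX hY hZ hXYZ eX eY eZ v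
      (fun hv h4 => hpe v hv fun h5 => hgood v h5.1 h5.2 h4)
    refine ⟨j, ?_⟩
    rw [hj, ← hm]
    congr 1
    by_cases h4 : ((p : ℕ) : 𝓞 K) ∈ v.asIdeal ∧ v.valuation K Z < v.valuation K X
    · rw [if_pos h4, if_pos ((hTm v).2 h4), he v h4.1]
    · rw [if_neg h4, if_neg fun h5 => h4 ((hTm v).1 h5)]
  · intro P' hP'
    rw [hP1 P' hP']
    refine ⟨ξ ^ (p - 1), pow_ne_zero _ hξ, ?_⟩
    have h1 := locS hp hp2 P hpP hcard hX hXYZ hYX hZX
    rw [← hm, ← pow_mul, mul_comm (p - 1) m, pow_mul, ← hXξ]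
    refine h1.trans (le_trans ?_ hprec)
    refine (pow_le_pow_left₀ zero_le hZX' p).trans ?_
    rw [← WithZero.exp_nsmul, WithZero.exp_le_exp]
    simp only [nsmul_eq_mul]
    push_cast
    linarith

end Pool.Agent.H47T
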