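import Pool.Agent.H47T.Stm6
import Pool.Agent.H47T.LOC2

/-!
# Project TQ phase 6, piece EVW (helper61 for helper47): the valuation of `A` at a prime above `p`
-/

set_option autoImplicit false
set_option linter.all false

namespace Pool.Agent.H47T

open NumberField IsDedekindDomain

open LOC2aux LOCPaux Polynomial in
theorem mainEVW : S_EVW := by
  intro K _ _ p hp hp2 v hpv hexp X Y Z hX hY hZ hXYZ hvY hvZ
  have hodd : Odd p := hp.odd_of_ne_two hp2
  set w := v.valuation K with hw
  have hX0 : w X ≠ 0 := (Valuation.ne_zero_iff _).mpr hX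
  have hp1 : p - 1 + 1 = p := Nat.sub_add_cancel hp.one_le
  have hvp : w (p : K) < 1 := by
    have h : w (algebraMap (𝓞 K) K ((p : ℕ) : 𝓞 K)) < 1 :=
      (v.valuation_lt_one_iff_mem (K := K) _).mpr hpv
    rwa [map_natCast] at h
  have hnat : ∀ n : ℕ, w (n : K) ≤ 1 := by
    intro n
    have h := v.valuation_le_one (K := K) ((n : ℕ) : 𝓞 K)
    simpa using h
  set t := -Y / X with ht
  have hYt : Y = -(t * X) := by rw [ht]; field_simp
  have hvt : w t = 1 := by rw [ht, map_div₀, Valuation.map_neg, hvY, div_self hX0]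
  set S := ∑ i ∈ Finset.range p, t ^ i with hS
  have htp : t ^ p - 1 = -(Z / X) ^ p := by
    rw [ht, neg_div, hodd.neg_pow, div_pow, div_pow, ← hXYZ]
    field_simp
    ring
  have htp1 : w (t ^ p - 1) < 1 := by
    rw [htp, Valuation.map_neg, map_pow]
    apply pow_lt_one₀ zero_le _ hp.ne_zero
    rw [map_div₀, div_lt_one₀ (zero_lt_iff.mpr hX0)]
    exact hvZ
  set c := t - 1 with hcdef
  have hvc1 : w c ≤ 1 := (Valuation.map_sub _ _ _).trans (by rw [hvt, map_one, max_self])
  obtain ⟨q, hq⟩ : ∃ q, p = q + 2 := ⟨p - 2, by have := hp.two_le; omega⟩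
  -- the expansion of `S`
  have hSc : S = ∑ i ∈ Finset.range p, (p.choose (i + 1) : K) * c ^ i := by
    have h := congrArg (Polynomial.eval c) (geom_sum_X_comp_X_add_one_eq_sum (R := K) p)
    rw [eval_comp, eval_finsetSum, eval_finsetSum] at h
    simp only [eval_add, eval_X, eval_one, eval_pow, eval_mul, eval_natCast] at h
    rw [← h, hS]
    refine Finset.sum_congr rfl fun i _ => ?_
    rw [hcdef, sub_add_cancel]
  have hch : ∀ i, i + 1 < p → w ((p.choose (i + 1) : ℕ) : K) ≤ w (p : K) := by
    intro i hi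
    obtain ⟨r, hr⟩ := hp.dvd_choose_self (Nat.succ_ne_zero i) hi
    rw [hr, Nat.cast_mul, map_mul]
    exact mul_le_of_le_one_right' (hnat r)
  set R := ∑ i ∈ Finset.range (q + 1), (p.choose (i + 1) : K) * c ^ i with hR
  have hSR : S = R + c ^ (q + 1) := by
    rw [hSc, hR]
    conv_lhs => rw [show Finset.range p = Finset.range (q + 1 + 1) by rw [hq]]
    rw [Finset.sum_range_succ, show q + 1 + 1 = p by omega, Nat.choose_self, Nat.cast_one, one_mul]
  have hwR : w R ≤ w (p : K) := by
    rw [hR]
    refine w.map_sum_le fun i hi => ?_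
    rw [Finset.mem_range] at hi
    rw [map_mul, map_pow]
    exact (mul_le_of_le_one_right' (pow_le_one₀ zero_le hvc1)).trans (hch i (by omega))
  have hgeo : S * c = t ^ p - 1 := geom_sum_mul t p
  have hc : w c < 1 := by
    by_contra h
    have hc1 : w c = 1 := le_antisymm hvc1 (not_lt.1 h)
    have h1 : w S = 1 := by
      rw [hSR, add_comm, Valuation.map_add_eq_of_lt_left]
      · rw [map_pow, hc1, one_pow]
      · rw [map_pow, hc1, one_pow]
        exact lt_of_le_of_lt hwR hvp
    have h2 : w (S * c) = 1 := by rw [map_mul, h1, hc1, one_mul]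
    rw [hgeo] at h2
    exact absurd h2 htp1.ne
  have hcexp : w c ≤ WithZero.exp (-1) := by
    by_cases hc0 : c = 0
    · rw [hc0, map_zero]; exact zero_le
    · have hm : WithZero.exp (WithZero.log (w c)) = w c :=
        WithZero.exp_log ((Valuation.ne_zero_iff _).2 hc0)
      rw [← hm] at hc ⊢
      rw [← WithZero.exp_zero, WithZero.exp_lt_exp] at hc
      rw [WithZero.exp_le_exp]
      omega
  have hpK : w (p : K) ≠ 0 := by
    rw [Valuation.ne_zero_iff]
    exact_mod_cast hp.ne_zero
  have hRp : w R = w (p : K) := by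
    have h1 : R = (p : K) + c * ∑ i ∈ Finset.range q, (p.choose (i + 2) : K) * c ^ i := by
      rw [hR, Finset.sum_range_succ', Finset.mul_sum, zero_add, Nat.choose_one_right, pow_zero,
        mul_one, add_comm]
      congr 1
      refine Finset.sum_congr rfl fun i _ => ?_
      rw [pow_succ]; ring
    rw [h1, Valuation.map_add_eq_of_lt_left]
    rw [map_mul]
    have h2 : w (∑ i ∈ Finset.range q, (p.choose (i + 2) : K) * c ^ i) ≤ w (p : K) := by
      refine w.map_sum_le fun i hi => ?_
      rw [Finset.mem_range] at hi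
      rw [map_mul, map_pow]
      exact (mul_le_of_le_one_right' (pow_le_one₀ zero_le hvc1)).trans (hch (i + 1) (by omega))
    calc w c * w (∑ i ∈ Finset.range q, (p.choose (i + 2) : K) * c ^ i) ≤ w c * w (p : K) :=
          mul_le_mul' le_rfl h2
      _ < 1 * w (p : K) := mul_lt_mul_of_pos_right hc (zero_lt_iff.2 hpK)
      _ = w (p : K) := one_mul _
  have hSp : w S = w (p : K) := by
    rw [hSR, Valuation.map_add_eq_of_lt_left, hRp]
    rw [hRp, map_pow]
    refine lt_of_le_of_lt (pow_le_pow_left₀ zero_le hcexp (q + 1)) ?_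
    have h3 : (WithZero.exp (-1 : ℤ)) ^ (q + 1) = WithZero.exp (-((p : ℤ) - 1)) := by
      rw [← WithZero.exp_nsmul, hq]
      congr 1
      push_cast
      simp
      ring
    rw [h3]
    exact hexp
  rw [hYt, AA_eq, ← hS, map_mul, map_pow, hSp, mul_comm]

end Pool.Agent.H47T
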