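import Pool.Agent.H47T.Stm6

/-!
# Project TQ phase 6, piece NFAC (helper61 for helper47): the norm as a product over primes
-/

set_option autoImplicit false
set_option linter.all false

namespace Pool.Agent.H47T

open NumberField IsDedekindDomain

namespace NFACP

variable {K : Type} [Field K] [NumberField K]

/-- the exponent of the prime `v` in `x` -/
noncomputable def cnt (v : HeightOneSpectrum (𝓞 K)) (x : 𝓞 K) : ℕ :=
  (Associates.mk v.asIdeal).count (Associates.mk (Ideal.span {x})).factors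

theorem val_cnt (v : HeightOneSpectrum (𝓞 K)) (x : 𝓞 K) (hx : x ≠ 0) :
    v.valuation K (x : K) = WithZero.exp (-(cnt v x : ℤ)) := by
  show v.valuation K (algebraMap (𝓞 K) K x) = _
  rw [HeightOneSpectrum.valuation_of_algebraMap, HeightOneSpectrum.intValuation_if_neg _ hx]
  rfl

theorem supp_fin (x : 𝓞 K) (hx : x ≠ 0) :
    {v : HeightOneSpectrum (𝓞 K) | cnt v x ≠ 0}.Finite := by
  have hI0 : (Ideal.span {x} : Ideal (𝓞 K)) ≠ 0 := by
    rw [Ne, Ideal.zero_eq_bot, Ideal.span_singleton_eq_bot]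
    exact hx
  refine Set.Finite.subset (Ideal.hasFiniteMulSupport hI0) fun v hv => ?_
  rw [Function.mem_mulSupport]
  intro h
  change v.asIdeal ^ (cnt v x) = 1 at h
  rw [Ideal.one_eq_top, Ideal.pow_eq_top_iff] at h
  rcases h with h | h
  · exact v.isPrime.ne_top h
  · exact hv h

theorem nf (x : 𝓞 K) (hx : x ≠ 0) (T : Finset (HeightOneSpectrum (𝓞 K)))
    (hT : ∀ v, cnt v x ≠ 0 → v ∈ T) :
    |Algebra.norm ℚ (x : K)| = ∏ v ∈ T, (Ideal.absNorm v.asIdeal : ℚ) ^ cnt v x := by
  classical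
  have hI0 : (Ideal.span {x} : Ideal (𝓞 K)) ≠ 0 := by
    rw [Ne, Ideal.zero_eq_bot, Ideal.span_singleton_eq_bot]
    exact hx
  have hfac := Ideal.finprod_heightOneSpectrum_factorization hI0
  rw [finprod_eq_prod_of_mulSupport_subset (s := T)] at hfac
  · have h1 : Ideal.absNorm (Ideal.span {x} : Ideal (𝓞 K)) =
        ∏ v ∈ T, (Ideal.absNorm v.asIdeal) ^ cnt v x := by
      conv_lhs => rw [← hfac]
      rw [map_prod]
      refine Finset.prod_congr rfl fun v _ => ?_
      change Ideal.absNorm (v.asIdeal ^ cnt v x) = _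
      rw [map_pow]
    rw [Ideal.absNorm_span_singleton] at h1
    rw [← Algebra.coe_norm_int, ← Int.cast_abs, Int.abs_eq_natAbs, h1]
    push_cast
    rfl
  · intro v hv
    rw [Function.mem_mulSupport] at hv
    apply Finset.mem_coe.2
    apply hT
    intro h
    apply hv
    change v.asIdeal ^ (cnt v x) = 1
    rw [h, pow_zero]

theorem exists_den (a : K) :
    ∃ (e : ℤ) (b : 𝓞 K), e ≠ 0 ∧ (b : K) = (e : K) * a := by
  obtain ⟨e, he, hint⟩ :=
    ((IsFractionRing.isAlgebraic_iff ℤ ℚ K).2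
      (Algebra.IsAlgebraic.isAlgebraic (R := ℚ) a)).exists_integral_multiple
  obtain ⟨α0, hα0⟩ : ∃ α0 : 𝓞 K, (α0 : K) = (e : K) * a := ⟨⟨_, hint⟩, by
    simp [zsmul_eq_mul]⟩
  exact ⟨e, α0, he, hα0⟩

end NFACP

open NFACP in
theorem mainNFAC : S_NFAC := by
  classical
  intro K _ _ a ha T k hk h1
  obtain ⟨e, b, he, hb⟩ := exists_den a
  have heK : (e : K) ≠ 0 := by exact_mod_cast he
  have hbK : (b : K) ≠ 0 := by rw [hb]; exact mul_ne_zero heK ha
  have hb0 : b ≠ 0 := by
    intro h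
    apply hbK
    rw [h]; rfl
  set e' : 𝓞 K := (e : 𝓞 K) with he'
  have he'K : (e' : K) = (e : K) := by
    show algebraMap (𝓞 K) K (e : 𝓞 K) = _
    rw [map_intCast]
  have he'0 : e' ≠ 0 := by
    intro h
    apply heK
    rw [← he'K, h]; rfl
  set T' : Finset (HeightOneSpectrum (𝓞 K)) :=
    T ∪ (supp_fin b hb0).toFinset ∪ (supp_fin e' he'0).toFinset with hT'
  have hTT' : T ⊆ T' := fun v hv => Finset.mem_union_left _ (Finset.mem_union_left _ hv)
  have hbT : ∀ v, cnt v b ≠ 0 → v ∈ T' := fun v hv =>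
    Finset.mem_union_left _ (Finset.mem_union_right _ ((supp_fin b hb0).mem_toFinset.2 hv))
  have heT : ∀ v, cnt v e' ≠ 0 → v ∈ T' := fun v hv =>
    Finset.mem_union_right _ ((supp_fin e' he'0).mem_toFinset.2 hv)
  have nb := nf b hb0 T' hbT
  have ne := nf e' he'0 T' heT
  have hN : |Algebra.norm ℚ (b : K)| = |Algebra.norm ℚ (e' : K)| * |Algebra.norm ℚ a| := by
    rw [hb, he'K, map_mul, abs_mul]
  have hval : ∀ v : HeightOneSpectrum (𝓞 K),
      v.valuation K a = WithZero.exp ((cnt v e' : ℤ) - cnt v b) := by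
    intro v
    have h2 : v.valuation K (b : K) = v.valuation K (e' : K) * v.valuation K a := by
      rw [hb, he'K, map_mul]
    rw [val_cnt v b hb0, val_cnt v e' he'0] at h2
    have h3 : (WithZero.exp (-(cnt v e' : ℤ)) : WithZero (Multiplicative ℤ)) ≠ 0 := WithZero.exp_ne_zero
    apply mul_left_cancel₀ h3
    rw [← h2, ← WithZero.exp_add]
    congr 1
    ring
  have hvpos : ∀ v : HeightOneSpectrum (𝓞 K), (Ideal.absNorm v.asIdeal : ℚ) ≠ 0 := by
    intro v
    have h4 : Ideal.absNorm v.asIdeal ≠ 0 := by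
      rw [Ne, Ideal.absNorm_eq_zero_iff]
      exact v.ne_bot
    exact_mod_cast h4
  have hprod : |Algebra.norm ℚ a| =
      ∏ v ∈ T', (Ideal.absNorm v.asIdeal : ℚ) ^ ((cnt v b : ℤ) - cnt v e') := by
    have hne : (∏ v ∈ T', (Ideal.absNorm v.asIdeal : ℚ) ^ cnt v e') ≠ 0 :=
      Finset.prod_ne_zero_iff.2 fun v _ => pow_ne_zero _ (hvpos v)
    apply mul_left_cancel₀ hne
    rw [← ne, ← hN, nb, ne, ← Finset.prod_mul_distrib]
    refine Finset.prod_congr rfl fun v _ => ?_
    rw [← zpow_natCast, ← zpow_natCast, ← zpow_add₀ (hvpos v)]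
    congr 1
    ring
  rw [hprod]
  symm
  rw [← Finset.prod_subset hTT']
  · refine Finset.prod_congr rfl fun v hv => ?_
    have h5 := hk v hv
    rw [hval v] at h5
    have h6 := WithZero.exp_injective h5
    congr 1
    omega
  · intro v _ hv
    have h5 := h1 v hv
    rw [hval v, ← WithZero.exp_zero] at h5
    have h6 := WithZero.exp_injective h5
    have h7 : (cnt v b : ℤ) - cnt v e' = 0 := by omega
    rw [h7, zpow_zero]

end Pool.Agent.H47T
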