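import Pool.Agent.H47T.Stm4

/-!
# Project TQ phase 4, piece NRN
-/

set_option autoImplicit false

namespace Pool.Agent.H47T

open NumberField IsDedekindDomain

section
variable {K : Type} [Field K] [NumberField K]

/-- if `β` lies in all the primes above `l` then `l` divides its trace -/
theorem nrn_trace {l : ℕ} (hl : l.Prime) (β : 𝓞 K)
    (h : ∀ P : HeightOneSpectrum (𝓞 K), ((l : ℕ) : 𝓞 K) ∈ P.asIdeal → β ∈ P.asIdeal) :
    (l : ℤ) ∣ Algebra.trace ℤ (𝓞 K) β := by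
  classical
  have hl0 : ((l : ℕ) : 𝓞 K) ≠ 0 := by exact_mod_cast hl.ne_zero
  have hrad : β ∈ (Ideal.span {((l : ℕ) : 𝓞 K)}).radical := by
    rw [Ideal.radical_eq_sInf, Ideal.mem_sInf]
    rintro J ⟨hJ1, hJ2⟩
    have hlJ : ((l : ℕ) : 𝓞 K) ∈ J := hJ1 (Ideal.mem_span_singleton_self _)
    have hJ0 : J ≠ ⊥ := by
      rintro rfl
      exact hl0 (Ideal.mem_bot.1 hlJ)
    exact h ⟨J, hJ2, hJ0⟩ hlJ
  obtain ⟨N, hN⟩ := hrad
  obtain ⟨γ, hγ⟩ := Ideal.mem_span_singleton.1 hN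
  let b := RingOfIntegers.basis K
  set M := Algebra.leftMulMatrix b β with hM
  have h1 : IsNilpotent (M.map (Int.castRingHom (ZMod l))) := by
    refine ⟨N, ?_⟩
    have h2 : (M.map (Int.castRingHom (ZMod l))) ^ N =
        (Int.castRingHom (ZMod l)).mapMatrix (M ^ N) := by
      rw [map_pow]; rfl
    rw [h2, hM, ← map_pow, hγ, map_mul]
    have h3 : Algebra.leftMulMatrix b ((l : ℕ) : 𝓞 K) = ((l : ℕ) : Matrix _ _ ℤ) := by
      rw [map_natCast]
    rw [h3, map_mul, map_natCast]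
    have h4 : (((l : ℕ) : ℕ) : Matrix (Module.Free.ChooseBasisIndex ℤ (𝓞 K))
        (Module.Free.ChooseBasisIndex ℤ (𝓞 K)) (ZMod l)) = 0 := by
      rw [← Matrix.diagonal_natCast]
      simp
    rw [h4, zero_mul]
  have : Fact l.Prime := ⟨hl⟩
  have h5 := (Matrix.isNilpotent_trace_of_isNilpotent h1).eq_zero
  rw [Algebra.trace_eq_matrix_trace b]
  rw [← ZMod.intCast_zmod_eq_zero_iff_dvd]
  have h6 : ((Matrix.trace M : ℤ) : ZMod l) = Matrix.trace (M.map (Int.castRingHom (ZMod l))) := by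
    have := (AddMonoidHom.map_trace (Int.castRingHom (ZMod l)).toAddMonoidHom M)
    exact this
  rw [h6, h5]

theorem nrn_alg {l : ℕ} (hl : l.Prime) {k : ℕ} (hk : 0 < k) (β : 𝓞 K)
    (h : ∀ P : HeightOneSpectrum (𝓞 K), ((l : ℕ) : 𝓞 K) ∈ P.asIdeal → β ∈ P.asIdeal) :
    ∃ A : ℤ, Algebra.norm ℤ (1 + ((l : ℤ) ^ k) • β) = 1 + (l : ℤ) ^ (k + 1) * A := by
  obtain ⟨r, hr⟩ := Algebra.norm_one_add_smul ((l : ℤ) ^ k) β
  obtain ⟨c, hc⟩ := nrn_trace hl β h
  obtain ⟨j, rfl⟩ := Nat.exists_eq_succ_of_ne_zero hk.ne'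
  refine ⟨c + r * (l : ℤ) ^ j, ?_⟩
  rw [hr, hc]
  rw [Nat.succ_eq_add_one]
  ring

end

/-- piece NRN -/
theorem mainNRN : S_NRN := by
  intro l hl k hk K _ _ t ht
  classical
  have hlK : (l : K) ≠ 0 := by exact_mod_cast hl.ne_zero
  set r : K := t / (l : K) ^ k with hr
  have htr : t = (l : K) ^ k * r := by
    rw [hr]; field_simp
  have hval : ∀ P : HeightOneSpectrum (𝓞 K), ((l : ℕ) : 𝓞 K) ∈ P.asIdeal →
      P.valuation K r ≤ WithZero.exp (-1) := by
    intro P hP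
    have h1 := ht P hP
    rw [htr, map_mul, map_pow] at h1
    have h0 : P.valuation K (l : K) ^ k ≠ 0 := by
      apply pow_ne_zero
      rw [Ne, map_eq_zero]
      exact hlK
    exact (mul_le_mul_iff_right₀ (zero_lt_iff.2 h0)).1 h1
  -- the denominator
  have halg : IsAlgebraic ℤ r := by
    rw [IsFractionRing.isAlgebraic_iff ℤ ℚ K]
    exact Algebra.IsAlgebraic.isAlgebraic r
  obtain ⟨y, hy0, hy⟩ := halg.exists_integral_multiple
  have hn0 : y.natAbs ≠ 0 := Int.natAbs_ne_zero.2 hy0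
  obtain ⟨j, s0, hs0, hs0e⟩ := Nat.exists_eq_pow_mul_and_not_dvd hn0 l hl.ne_one
  have hint : IsIntegral ℤ ((y.natAbs : K) * r) := by
    have h1 : (y.natAbs : K) * r = y • r ∨ (y.natAbs : K) * r = - (y • r) := by
      rcases Int.natAbs_eq y with h | h
      · left
        have e : (y : K) = (y.natAbs : K) := by
          conv_lhs => rw [h]
          rw [Int.cast_natCast]
        rw [zsmul_eq_mul, e]
      · right
        have e : (y : K) = -(y.natAbs : K) := by
          conv_lhs => rw [h]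
          rw [Int.cast_neg, Int.cast_natCast]
        rw [zsmul_eq_mul, e]
        ring
    rcases h1 with h1 | h1
    · rw [h1]; exact hy
    · rw [h1]; exact hy.neg
  have hβ' : ∃ β' : 𝓞 K, (β' : K) = (s0 : K) * r := by
    have h1 : ∀ P : HeightOneSpectrum (𝓞 K), P.valuation K ((s0 : K) * r) ≤ 1 := by
      intro P
      have hs1 : P.valuation K (s0 : K) ≤ 1 := by
        have := P.valuation_le_one (K := K) ((s0 : ℕ) : 𝓞 K)
        simpa using this
      by_cases hP : ((l : ℕ) : 𝓞 K) ∈ P.asIdeal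
      · rw [map_mul]
        have h2 := hval P hP
        have h3 : (WithZero.exp (-1 : ℤ) : WithZero (Multiplicative ℤ)) ≤ 1 := by
          rw [← WithZero.exp_zero, WithZero.exp_le_exp]; norm_num
        exact mul_le_one' hs1 (h2.trans h3)
      · have h2 : P.valuation K (l : K) = 1 := by
          have h3 : P.valuation K (algebraMap (𝓞 K) K ((l : ℕ) : 𝓞 K)) = 1 := by
            rw [P.valuation_of_algebraMap, HeightOneSpectrum.intValuation_eq_one_iff]
            exact hP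
          simpa using h3
        have h3 : P.valuation K ((y.natAbs : K) * r) ≤ 1 := by
          have := P.valuation_le_one (K := K) (⟨_, hint⟩ : 𝓞 K)
          exact this
        have h4 : (y.natAbs : K) * r = (l : K) ^ j * ((s0 : K) * r) := by
          rw [hs0e]; push_cast; ring
        rw [h4, map_mul, map_pow, h2, one_pow, one_mul] at h3
        exact h3
    obtain ⟨x, hx⟩ := HeightOneSpectrum.mem_integers_of_valuation_le_one K ((s0 : K) * r) h1
    exact ⟨x, hx⟩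
  obtain ⟨β', hβ'⟩ := hβ'
  have hcop : Nat.Coprime s0 (l ^ (k + 1)) :=
    Nat.Coprime.pow_right _ ((Nat.Prime.coprime_iff_not_dvd hl).2 hs0).symm
  have hlk : 1 < l ^ (k + 1) := Nat.one_lt_pow (Nat.succ_ne_zero k) hl.one_lt
  obtain ⟨s', -, hs'⟩ := Nat.exists_mul_mod_eq_one_of_coprime hcop hlk
  set q := s0 * s' / l ^ (k + 1) with hq
  have hsq : s0 * s' = l ^ (k + 1) * q + 1 := by
    have := Nat.div_add_mod (s0 * s') (l ^ (k + 1))
    rw [hs'] at this
    exact this.symm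
  have hsqK : (s0 : K) * s' = (l : K) ^ (k + 1) * q + 1 := by
    exact_mod_cast congrArg (Nat.cast (R := K)) hsq
  set β : 𝓞 K := (s' : 𝓞 K) * β' + (l : 𝓞 K) * (q : 𝓞 K) with hβ
  have hβP : ∀ P : HeightOneSpectrum (𝓞 K), ((l : ℕ) : 𝓞 K) ∈ P.asIdeal → β ∈ P.asIdeal := by
    intro P hP
    have h1 : β' ∈ P.asIdeal := by
      rw [← P.valuation_lt_one_iff_mem (K := K)]
      have h2 : P.valuation K (β' : K) < 1 := by
        rw [hβ', map_mul]
        have hs1 : P.valuation K (s0 : K) ≤ 1 := by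
          have := P.valuation_le_one (K := K) ((s0 : ℕ) : 𝓞 K)
          simpa using this
        have h3 : (WithZero.exp (-1 : ℤ) : WithZero (Multiplicative ℤ)) < 1 := by
          rw [← WithZero.exp_zero, WithZero.exp_lt_exp]; norm_num
        calc P.valuation K (s0 : K) * P.valuation K r ≤ 1 * WithZero.exp (-1) :=
              mul_le_mul' hs1 (hval P hP)
          _ < 1 := by rw [one_mul]; exact h3
      exact h2
    exact P.asIdeal.add_mem (P.asIdeal.mul_mem_left _ h1) (P.asIdeal.mul_mem_right _ hP)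
  obtain ⟨A, hA⟩ := nrn_alg hl hk β hβP
  have hkey : ((1 + ((l : ℤ) ^ k) • β : 𝓞 K) : K) = ((s0 * s' : ℕ) : K) * (1 + t) := by
    have h1 : ((1 + ((l : ℤ) ^ k) • β : 𝓞 K) : K) = 1 + (l : K) ^ k * (β : K) := by
      simp [zsmul_eq_mul]
    have h2 : (β : K) = (s' : K) * (β' : K) + (l : K) * (q : K) := by
      rw [hβ]; simp
    rw [h1, h2, hβ', htr]
    push_cast
    linear_combination (-1 : K) * hsqK
  have hnorm : ((1 + (l : ℤ) ^ (k + 1) * A : ℤ) : ℚ) =
      ((s0 * s' : ℕ) : ℚ) ^ (Module.finrank ℚ K) * Algebra.norm ℚ (1 + t) := by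
    rw [← hA, Algebra.coe_norm_int, hkey, map_mul]
    congr 1
    have := Algebra.norm_algebraMap (R := ℚ) (S := K) ((s0 * s' : ℕ) : ℚ)
    simpa using this
  set d := Module.finrank ℚ K with hd
  obtain ⟨B, hB⟩ : ∃ B : ℤ, ((s0 * s' : ℕ) : ℤ) ^ d = 1 + (l : ℤ) ^ (k + 1) * B := by
    have h1 : ((s0 * s' : ℕ) : ℤ) ^ d ≡ 1 ^ d [ZMOD (l : ℤ) ^ (k + 1)] := by
      apply Int.ModEq.pow
      rw [hsq]
      push_cast
      exact (Int.modEq_iff_dvd.2 ⟨-q, by ring⟩)
    rw [one_pow] at h1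
    obtain ⟨B, hB⟩ := Int.modEq_iff_dvd.1 h1.symm
    exact ⟨B, by linarith⟩
  have hs'l : ¬ l ∣ s0 * s' := by
    intro h1
    have h2 : l ∣ l ^ (k + 1) * q + 1 := hsq ▸ h1
    have h3 : l ∣ l ^ (k + 1) * q := (dvd_pow_self l (Nat.succ_ne_zero k)).mul_right q
    have h4 : l ∣ 1 := (Nat.dvd_add_right h3).1 h2
    exact hl.one_lt.ne' (Nat.dvd_one.1 h4)
  refine ⟨A - B, ((s0 * s' : ℕ) : ℤ) ^ d, ?_, ?_⟩
  · intro h1
    have h2 : l ∣ (s0 * s') ^ d := by exact_mod_cast h1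
    exact hs'l (hl.dvd_of_dvd_pow h2)
  · have hne : ((s0 * s' : ℕ) : ℚ) ^ d ≠ 0 := by
      apply pow_ne_zero
      intro h0
      apply hs'l
      have : s0 * s' = 0 := by exact_mod_cast h0
      rw [this]
      exact dvd_zero _
    have hBQ : ((s0 * s' : ℕ) : ℚ) ^ d = 1 + (l : ℚ) ^ (k + 1) * B := by
      exact_mod_cast congrArg (Int.cast (R := ℚ)) hB
    have hAQ : Algebra.norm ℚ (1 + t) =
        (1 + (l : ℚ) ^ (k + 1) * A) / ((s0 * s' : ℕ) : ℚ) ^ d := by
      rw [eq_div_iff hne, mul_comm, ← hnorm]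
      push_cast
      ring
    rw [hAQ, Int.cast_pow, Int.cast_natCast, eq_comm, eq_div_iff hne]
    push_cast at hBQ hne ⊢
    rw [add_mul, one_mul, mul_assoc, div_mul_cancel₀ _ hne, hBQ]
    ring

end Pool.Agent.H47T
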