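import Pool.Agent.H47T.Stm5

/-!
# Project TQ, phase 5, piece POSN
-/

set_option autoImplicit false

namespace Pool.Agent.H47T

open NumberField

theorem mainPOSN : S_POSN := by
  classical
  intro K _ _ a ha hpos
  have h1 : algebraMap ℚ ℂ (Algebra.norm ℚ a) = ∏ φ : K →+* ℂ, φ a := by
    rw [Algebra.norm_eq_prod_embeddings ℚ ℂ a]
    exact (Fintype.prod_equiv (RingHom.equivRatAlgHom K ℂ) (fun f => f a)
      (fun φ => φ a) fun _ => by simp [RingHom.equivRatAlgHom_apply]).symm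
  have hne : ∀ φ : K →+* ℂ, φ a ≠ 0 := fun φ => (map_ne_zero φ).2 ha
  have hn : ∀ φ : K →+* ℂ, ((‖φ a‖ : ℝ) : ℂ) ≠ 0 := fun φ => by
    exact_mod_cast (norm_ne_zero_iff.2 (hne φ))
  have hreal : ∀ φ : K →+* ℂ, ComplexEmbedding.IsReal φ → φ a / ((‖φ a‖ : ℝ) : ℂ) = 1 := by
    intro φ hφ
    have h2 : (starRingEnd ℂ) (φ a) = φ a := by
      have h3 := RingHom.congr_fun (ComplexEmbedding.isReal_iff.1 hφ) a
      exact h3
    have h3 : φ a = (((φ a).re : ℝ) : ℂ) := (Complex.conj_eq_iff_re.1 h2).symm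
    have h4 : ‖φ a‖ = (φ a).re := by
      conv_lhs => rw [h3]
      rw [Complex.norm_real, Real.norm_of_nonneg (hpos φ hφ).le]
    rw [h4, div_eq_one_iff_eq (by exact_mod_cast (hpos φ hφ).ne')]
    exact h3
  have h2 : ∏ φ : K →+* ℂ, (φ a / ((‖φ a‖ : ℝ) : ℂ)) = 1 := by
    refine Finset.prod_involution (fun φ _ => ComplexEmbedding.conjugate φ) ?_ ?_ ?_ ?_
    · intro φ _
      have h3 : ComplexEmbedding.conjugate φ a = (starRingEnd ℂ) (φ a) := rfl
      rw [h3, Complex.norm_conj, div_mul_div_comm, Complex.mul_conj, Complex.normSq_eq_norm_sq,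
        div_eq_one_iff_eq (mul_ne_zero (hn φ) (hn φ))]
      push_cast
      ring
    · intro φ _ h3 h4
      exact h3 (hreal φ (ComplexEmbedding.isReal_iff.2 h4))
    · intro φ _
      exact Finset.mem_univ _
    · intro φ _
      exact star_star φ
  rw [Finset.prod_div_distrib, div_eq_one_iff_eq (Finset.prod_ne_zero_iff.2 fun φ _ => hn φ),
    ← h1, ← Complex.ofReal_prod] at h2
  have h3 : ((Algebra.norm ℚ a : ℚ) : ℝ) = ∏ φ : K →+* ℂ, ‖φ a‖ := by
    have h4 : (((Algebra.norm ℚ a : ℚ) : ℝ) : ℂ) = ((∏ φ : K →+* ℂ, ‖φ a‖ : ℝ) : ℂ) := by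
      rw [← h2]
      simp
    exact_mod_cast h4
  have h4 : 0 < ((Algebra.norm ℚ a : ℚ) : ℝ) := by
    rw [h3]
    exact Finset.prod_pos fun φ _ => norm_pos_iff.2 (hne φ)
  exact_mod_cast h4

end Pool.Agent.H47T

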