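import Pool.Agent.H47T.Stm4

/-!
# Project TQ, phase 4, piece RAT
-/

set_option autoImplicit false

namespace Pool.Agent.H47T

namespace RATaux

lemma unit_of_not_dvd {l : ℕ} (hl : l.Prime) (k : ℕ) {x : ℤ} (hx : ¬ (l : ℤ) ∣ x) :
    IsUnit ((x : ℤ) : ZMod (l ^ (k + 1))) := by
  rw [ZMod.coe_int_isUnit_iff_isCoprime]
  have h1 : IsCoprime (l : ℤ) x := by
    exact (Nat.prime_iff_prime_int.mp hl).coprime_iff_not_dvd.mpr hx
  push_cast
  exact h1.pow_left

lemma pow_phi {l : ℕ} (hl : l.Prime) (k : ℕ) {x : ZMod (l ^ (k + 1))} (hx : IsUnit x) :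
    x ^ (l ^ k * (l - 1)) = 1 := by
  obtain ⟨U, rfl⟩ := hx
  have h := ZMod.pow_totient U
  rw [Nat.totient_prime_pow_succ hl] at h
  rw [← Units.val_pow_eq_pow_val, h, Units.val_one]

end RATaux

open RATaux

theorem mainRAT : S_RAT := by
  intro l hl k p d hlp c a b hb heq
  have hlZ : Prime (l : ℤ) := Nat.prime_iff_prime_int.mp hl
  set m := l ^ k with hm
  have hm0 : m ≠ 0 := pow_ne_zero _ hl.ne_zero
  have hb0 : (b : ℚ) ≠ 0 := by
    intro h
    apply hb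
    have : b = 0 := by exact_mod_cast h
    rw [this]; exact dvd_zero _
  set u := c.num with hu
  set w : ℤ := (c.den : ℤ) with hw
  have hw0 : (w : ℚ) ≠ 0 := by rw [hw]; exact_mod_cast c.den_ne_zero
  have hc : c = (u : ℚ) / w := by rw [hu, hw]; exact_mod_cast (Rat.num_div_den c).symm
  have hcop : IsCoprime u w := by
    rw [hu, hw]
    exact Rat.isCoprime_num_den c
  have key : (p : ℤ) ^ d * (b + (l : ℤ) ^ (k + 1) * a) * w ^ m = b * u ^ m := by
    have h1 : (p : ℚ) ^ d * (b + (l : ℚ) ^ (k + 1) * a) * w ^ m = b * u ^ m := by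
      rw [hc, div_pow] at heq
      have hwm : (w : ℚ) ^ m ≠ 0 := pow_ne_zero _ hw0
      field_simp at heq
      linarith
    exact_mod_cast h1
  have hlw : ¬ (l : ℤ) ∣ w := by
    intro h
    have h1 : (l : ℤ) ∣ b * u ^ m := by
      rw [← key]
      exact Dvd.dvd.mul_left (dvd_pow h hm0) _
    rcases hlZ.dvd_or_dvd h1 with h2 | h2
    · exact hb h2
    · have h3 := hlZ.dvd_of_dvd_pow h2
      exact hlZ.not_isUnit (hcop.isUnit_of_dvd' h3 h)
  have hlu : ¬ (l : ℤ) ∣ u := by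
    intro h
    have h1 : (l : ℤ) ∣ (p : ℤ) ^ d * (b + (l : ℤ) ^ (k + 1) * a) * w ^ m := by
      rw [key]
      exact Dvd.dvd.mul_left (dvd_pow h hm0) _
    rcases hlZ.dvd_or_dvd h1 with h2 | h2
    · rcases hlZ.dvd_or_dvd h2 with h3 | h3
      · exact hlp (by exact_mod_cast hlZ.dvd_of_dvd_pow h3)
      · apply hb
        have h4 : (l : ℤ) ∣ (l : ℤ) ^ (k + 1) * a := Dvd.dvd.mul_right (dvd_pow_self _ (by omega)) _
        exact (dvd_add_left h4).mp h3
    · exact hlw (hlZ.dvd_of_dvd_pow h2)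
  have hkey := congrArg (fun x : ℤ => ((x : ℤ) : ZMod (l ^ (k + 1)))) key
  push_cast at hkey
  have hz : ((l : ℕ) : ZMod (l ^ (k + 1))) ^ (k + 1) = 0 := by
    have := ZMod.natCast_self (l ^ (k + 1))
    rwa [Nat.cast_pow] at this
  rw [hz, zero_mul, add_zero] at hkey
  have hbu : IsUnit ((b : ℤ) : ZMod (l ^ (k + 1))) := unit_of_not_dvd hl k hb
  have hwu : IsUnit ((w : ℤ) : ZMod (l ^ (k + 1))) := unit_of_not_dvd hl k hlw
  have huu : IsUnit ((u : ℤ) : ZMod (l ^ (k + 1))) := unit_of_not_dvd hl k hlu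
  have h2 : ((p : ℕ) : ZMod (l ^ (k + 1))) ^ d * ((w : ℤ) : ZMod (l ^ (k + 1))) ^ m
      = ((u : ℤ) : ZMod (l ^ (k + 1))) ^ m := by
    apply hbu.mul_left_cancel
    rw [← hkey]
    ring
  have h3 := congrArg (fun x => x ^ (l - 1)) h2
  rw [mul_pow, ← pow_mul, ← pow_mul, ← pow_mul, hm, pow_phi hl k hwu, pow_phi hl k huu, mul_one] at h3
  rw [← ZMod.natCast_eq_natCast_iff]
  push_cast
  exact h3

end Pool.Agent.H47T
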