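import Pool.Agent.H47T.Stm5

/-!
# Project TQ, phase 5, piece RAT2
-/

set_option autoImplicit false

namespace Pool.Agent.H47T

namespace RAT2aux

lemma pow_two_pow (k : ℕ) (hk : 0 < k) {x : ℤ} (hx : ¬ (2 : ℤ) ∣ x) :
    (2 : ℤ) ^ (k + 2) ∣ x ^ (2 ^ k) - 1 := by
  have hodd : Odd x := Int.not_even_iff_odd.1 fun h => hx h.two_dvd
  induction k with
  | zero => omega
  | succ k ih =>
    rcases Nat.eq_zero_or_pos k with rfl | hk'
    · have := Int.eight_dvd_sq_sub_one_of_odd hodd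
      norm_num
      exact this
    · obtain ⟨a, ha⟩ := ih hk'
      obtain ⟨b, hb⟩ := (hodd.pow (n := 2 ^ k)).add_odd odd_one
      refine ⟨a * b, ?_⟩
      have h1 : x ^ (2 ^ (k + 1)) - 1 = (x ^ (2 ^ k) - 1) * (x ^ (2 ^ k) + 1) := by
        rw [pow_succ 2 k, pow_mul]
        ring
      rw [h1, ha, hb]
      ring

lemma pow_phi2 (k : ℕ) (hk : 0 < k) {x : ℤ} (hx : ¬ (2 : ℤ) ∣ x) :
    ((x : ℤ) : ZMod (2 ^ (k + 2))) ^ (2 ^ k) = 1 := by
  have h1 := pow_two_pow k hk hx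
  have h2 : ((2 ^ (k + 2) : ℕ) : ℤ) ∣ x ^ (2 ^ k) - 1 := by
    push_cast
    exact h1
  have h3 := (ZMod.intCast_zmod_eq_zero_iff_dvd _ _).2 h2
  push_cast at h3
  exact sub_eq_zero.1 h3

lemma unit_of_odd (k : ℕ) {x : ℤ} (hx : ¬ (2 : ℤ) ∣ x) :
    IsUnit ((x : ℤ) : ZMod (2 ^ (k + 2))) := by
  rw [ZMod.coe_int_isUnit_iff_isCoprime]
  have h1 : IsCoprime (2 : ℤ) x := Int.prime_two.coprime_iff_not_dvd.mpr hx
  push_cast
  exact h1.pow_left

end RAT2aux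

open RAT2aux

theorem mainRAT2 : S_RAT2 := by
  intro k p d hk hlp c a b hb heq
  have hlZ : Prime (2 : ℤ) := Int.prime_two
  set m := 2 ^ k with hm
  have hm0 : m ≠ 0 := pow_ne_zero _ two_ne_zero
  have hb0 : (b : ℚ) ≠ 0 := by
    intro h
    apply hb
    have : b = 0 := by exact_mod_cast h
    rw [this]; exact dvd_zero _
  set u := c.num with hu
  set w : ℤ := (c.den : ℤ) with hw
  have hw0 : (w : ℚ) ≠ 0 := by rw [hw]; exact_mod_cast c.den_ne_zero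
  have hc : c = (u : ℚ) / w := by rw [hu, hw]; exact_mod_cast (Rat.num_div_den c).symm
  have hcop : IsCoprime u w := by
    rw [hu, hw]
    exact Rat.isCoprime_num_den c
  have key : (p : ℤ) ^ d * (b + (2 : ℤ) ^ (k + 2) * a) * w ^ m = b * u ^ m := by
    have h1 : (p : ℚ) ^ d * (b + (2 : ℚ) ^ (k + 2) * a) * w ^ m = b * u ^ m := by
      rw [hc, div_pow] at heq
      have hwm : (w : ℚ) ^ m ≠ 0 := pow_ne_zero _ hw0
      field_simp at heq
      linarith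
    exact_mod_cast h1
  have hlw : ¬ (2 : ℤ) ∣ w := by
    intro h
    have h1 : (2 : ℤ) ∣ b * u ^ m := by
      rw [← key]
      exact Dvd.dvd.mul_left (dvd_pow h hm0) _
    rcases hlZ.dvd_or_dvd h1 with h2 | h2
    · exact hb h2
    · have h3 := hlZ.dvd_of_dvd_pow h2
      exact hlZ.not_isUnit (hcop.isUnit_of_dvd' h3 h)
  have hlu : ¬ (2 : ℤ) ∣ u := by
    intro h
    have h1 : (2 : ℤ) ∣ (p : ℤ) ^ d * (b + (2 : ℤ) ^ (k + 2) * a) * w ^ m := by
      rw [key]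
      exact Dvd.dvd.mul_left (dvd_pow h hm0) _
    rcases hlZ.dvd_or_dvd h1 with h2 | h2
    · rcases hlZ.dvd_or_dvd h2 with h3 | h3
      · exact hlp (by exact_mod_cast hlZ.dvd_of_dvd_pow h3)
      · apply hb
        have h4 : (2 : ℤ) ∣ (2 : ℤ) ^ (k + 2) * a := Dvd.dvd.mul_right (dvd_pow_self _ (by omega)) _
        exact (dvd_add_left h4).mp h3
    · exact hlw (hlZ.dvd_of_dvd_pow h2)
  have hkey := congrArg (fun x : ℤ => ((x : ℤ) : ZMod (2 ^ (k + 2)))) key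
  push_cast at hkey
  have hz : (2 : ZMod (2 ^ (k + 2))) ^ (k + 2) = 0 := by
    have := ZMod.natCast_self (2 ^ (k + 2))
    rw [Nat.cast_pow] at this
    exact_mod_cast this
  rw [hz, zero_mul, add_zero] at hkey
  have hbu : IsUnit ((b : ℤ) : ZMod (2 ^ (k + 2))) := unit_of_odd k hb
  have h2 : ((p : ℕ) : ZMod (2 ^ (k + 2))) ^ d * ((w : ℤ) : ZMod (2 ^ (k + 2))) ^ m
      = ((u : ℤ) : ZMod (2 ^ (k + 2))) ^ m := by
    apply hbu.mul_left_cancel
    rw [← hkey]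
    ring
  rw [hm, pow_phi2 k hk hlw, pow_phi2 k hk hlu, mul_one] at h2
  rw [← ZMod.natCast_eq_natCast_iff]
  push_cast
  exact h2

end Pool.Agent.H47T

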