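import Pool.Agent.H47T.QL

/-!
# Project TQ, phase 5: ramified primes of quadratic fields
-/

set_option autoImplicit false

namespace Pool.Agent.H47T

open NumberField IsDedekindDomain

/-- if `l` ramifies in the quadratic field `K` then there is only one prime above `l` -/
theorem ram_unique {l : ℕ} (hl : l.Prime) {K : Type} [Field K] [NumberField K]
    (hK : Module.finrank ℚ K = 2) (v : HeightOneSpectrum (𝓞 K))
    (hv2 : v.valuation K (l : K) = WithZero.exp (-2)) (w : HeightOneSpectrum (𝓞 K))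
    (hw : ((l : ℕ) : 𝓞 K) ∈ w.asIdeal) : w = v := by
  have hval : v.valuation K (l : K) = v.intValuation ((l : ℕ) : 𝓞 K) := by
    rw [← v.valuation_of_algebraMap (K := K)]
    simp
  have h22 : ((l : ℕ) : 𝓞 K) ∈ v.asIdeal ^ 2 := by
    rw [← v.intValuation_le_pow_iff_mem, ← hval, hv2]
    rfl
  have hv : ((l : ℕ) : 𝓞 K) ∈ v.asIdeal := Ideal.pow_le_self two_ne_zero h22
  obtain ⟨N, hN⟩ : ∃ N : ℕ, N = Ideal.absNorm v.asIdeal := ⟨_, rfl⟩
  have hcard : Nat.card (𝓞 K ⧸ v.asIdeal) = N := by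
    rw [hN, Ideal.absNorm_apply, Submodule.cardQuot_apply]
  have h2 : Ideal.absNorm (Ideal.span {((l : ℕ) : 𝓞 K)}) = l ^ 2 := by
    rw [Ideal.absNorm_span_natCast, RingOfIntegers.rank, hK]
  have hNl : l ≤ N := by
    rcases (mainQL l hl K hK v hv).1 with h | h
    · rw [hcard] at h
      exact h.ge
    · rw [hcard] at h
      rw [h]
      exact Nat.le_self_pow two_ne_zero l
  obtain ⟨J, hJ⟩ := Ideal.dvd_iff_le.2 ((Ideal.span_singleton_le_iff_mem _).2 h22)
  have h3 := congrArg Ideal.absNorm hJ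
  rw [h2, map_mul, map_pow, ← hN] at h3
  have hJ1 : Ideal.absNorm J = 1 := by
    have h4 : l ^ 2 ≤ N ^ 2 := Nat.pow_le_pow_left hNl 2
    have h5 : 0 < l ^ 2 := pow_pos hl.pos 2
    have h6 : Ideal.absNorm J ≠ 0 := by
      intro h0
      rw [h0, mul_zero] at h3
      omega
    have h7 : Ideal.absNorm J ≤ 1 := by
      by_contra h8
      push Not at h8
      nlinarith
    omega
  rw [Ideal.absNorm_eq_one_iff.1 hJ1, Ideal.mul_top] at hJ
  have h8 : v.asIdeal ^ 2 ≤ w.asIdeal := by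
    rw [← hJ]
    exact (Ideal.span_singleton_le_iff_mem _).2 hw
  have h9 : v.asIdeal ≤ w.asIdeal := w.isPrime.le_of_pow_le h8
  have h10 : v.asIdeal = w.asIdeal := (v.isPrime.isMaximal v.ne_bot).eq_of_le w.isPrime.ne_top h9
  exact HeightOneSpectrum.ext h10.symm

end Pool.Agent.H47T
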