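import Pool.Agent.H47T.Asm7
import Pool.Agent.H47T.UNQ
import Pool.Agent.H47T.NRN
import Pool.Agent.H47T.APP
import Pool.Agent.H47T.RAT
import Pool.Agent.H47T.RAT2
import Pool.Agent.H47T.POSN
import Pool.Agent.H47T.EVW
import Pool.Agent.H47T.NFAC

/-!
# Project TQ, phase 6: quadratic fields
-/

set_option autoImplicit false

namespace Pool.Agent.H47T

open NumberField IsDedekindDomain

theorem quad_key {K : Type} [Field K] [NumberField K] (hK : Module.finrank ℚ K = 2)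
    {l : ℕ} (hl : l.Prime) {k : ℕ} (hk : 0 < k)
    {p : ℕ} (hp : p.Prime) (hp2 : p ≠ 2) (hpl : p ≠ l)
    (hcard : ∀ P : HeightOneSpectrum (𝓞 K), ((l : ℕ) : 𝓞 K) ∈ P.asIdeal →
      ¬ p ∣ Nat.card (𝓞 K ⧸ P.asIdeal) - 1)
    {x y z : K} (hx : x ≠ 0) (hy : y ≠ 0) (hz : z ≠ 0)
    (h : x ^ (l ^ k * p) + y ^ (l ^ k * p) = z ^ (l ^ k * p))
    (hnot : ∀ P : HeightOneSpectrum (𝓞 K), ((l : ℕ) : 𝓞 K) ∈ P.asIdeal →
      ¬ (P.valuation K x = P.valuation K z ∧ P.valuation K y = P.valuation K z))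
    (hprec : (∀ P : HeightOneSpectrum (𝓞 K), ((l : ℕ) : 𝓞 K) ∈ P.asIdeal →
        WithZero.exp (-((l ^ k : ℕ) : ℤ)) ≤
          P.valuation K (l : K) ^ (kap l k) * WithZero.exp (-1)) ∨
      ∃ P : HeightOneSpectrum (𝓞 K), ((l : ℕ) : 𝓞 K) ∈ P.asIdeal ∧
        (∀ P' : HeightOneSpectrum (𝓞 K), ((l : ℕ) : 𝓞 K) ∈ P'.asIdeal → P' = P) ∧
        WithZero.exp (-((l ^ k * p : ℕ) : ℤ)) ≤
          P.valuation K (l : K) ^ (kap l k) * WithZero.exp (-1))
    (v0 : HeightOneSpectrum (𝓞 K)) (hv0 : ((p : ℕ) : 𝓞 K) ∈ v0.asIdeal)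
    (hgood : v0.valuation K x = v0.valuation K z ∧ v0.valuation K y = v0.valuation K z) :
    p ^ (2 * (l - 1)) ≡ 1 [MOD l ^ (kap l k + 1)] := by
  classical
  -- ramification indices and residue degrees
  have hex : ∀ v : HeightOneSpectrum (𝓞 K), ∃ ef : ℕ × ℕ, ((p : ℕ) : 𝓞 K) ∈ v.asIdeal →
      (ef.1 = 1 ∨ ef.1 = 2) ∧ v.valuation K (p : K) = WithZero.exp (-(ef.1 : ℤ)) ∧
        0 < ef.2 ∧ Ideal.absNorm v.asIdeal = p ^ ef.2 := by
    intro v
    by_cases hv : ((p : ℕ) : 𝓞 K) ∈ v.asIdeal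
    · have hcard' : Nat.card (𝓞 K ⧸ v.asIdeal) = Ideal.absNorm v.asIdeal := by
        rw [Ideal.absNorm_apply, Submodule.cardQuot_apply]
      obtain ⟨h1, h2⟩ := mainQL p hp K hK v hv
      rw [hcard'] at h1
      rcases h1 with h1 | h1 <;> rcases h2 with h2 | h2
      · exact ⟨(1, 1), fun _ => ⟨Or.inl rfl, by simpa using h2, one_pos, by simpa using h1⟩⟩
      · exact ⟨(2, 1), fun _ => ⟨Or.inr rfl, by simpa using h2, one_pos, by simpa using h1⟩⟩
      · exact ⟨(1, 2), fun _ => ⟨Or.inl rfl, by simpa using h2, two_pos, by simpa using h1⟩⟩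
      · exact ⟨(2, 2), fun _ => ⟨Or.inr rfl, by simpa using h2, two_pos, by simpa using h1⟩⟩
    · exact ⟨(0, 0), fun h => absurd h hv⟩
  choose ef hef using hex
  have hp3 : 3 ≤ p := by
    have := hp.two_le
    omega
  have hep : ∀ v : HeightOneSpectrum (𝓞 K), ((p : ℕ) : 𝓞 K) ∈ v.asIdeal →
      ¬ (v.valuation K x = v.valuation K z ∧ v.valuation K y = v.valuation K z) →
      (ef v).1 + 1 < p := by
    intro v hv hbad
    obtain ⟨h1, h2, -, -⟩ := hef v hv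
    rcases h1 with h1 | h1
    · omega
    · exfalso
      rw [h1] at h2
      have h3 := ram_unique hp hK v (by simpa using h2) v0 hv0
      rw [h3] at hgood
      exact hbad hgood
  obtain ⟨Tp, hTp⟩ : ∃ Tp : Finset (HeightOneSpectrum (𝓞 K)),
      ∀ v, v ∈ Tp ↔ ((p : ℕ) : 𝓞 K) ∈ v.asIdeal :=
    ⟨(fin_above hp.ne_zero).toFinset, fun v => (fin_above hp.ne_zero).mem_toFinset⟩
  have hsum := sum_ef mainNFAC hp (fun v => (ef v).1) (fun v => (ef v).2)
    (fun v hv => (hef v hv).2.1) (fun v hv => (hef v hv).2.2.2) Tp hTp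
  rw [hK] at hsum
  -- the sum over the set `T'`
  have hfin : ∀ T' : Finset (HeightOneSpectrum (𝓞 K)), (∀ v ∈ T', ((p : ℕ) : 𝓞 K) ∈ v.asIdeal) →
      v0 ∈ T' → p ^ ((∑ v ∈ T', (ef v).1 * (ef v).2) * (l - 1)) ≡ 1 [MOD l ^ (kap l k + 1)] →
      p ^ (2 * (l - 1)) ≡ 1 [MOD l ^ (kap l k + 1)] := by
    intro T' h1 h2 h3
    have h4 : ∑ v ∈ T', (ef v).1 * (ef v).2 ≤ 2 := by
      rw [← hsum]
      exact Finset.sum_le_sum_of_subset fun v hv => (hTp v).2 (h1 v hv)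
    have h5 : 1 ≤ ∑ v ∈ T', (ef v).1 * (ef v).2 := by
      refine le_trans ?_ (Finset.single_le_sum (f := fun v => (ef v).1 * (ef v).2)
        (fun v _ => Nat.zero_le _) h2)
      obtain ⟨h6, -, h7, -⟩ := hef v0 hv0
      have h8 : 0 < (ef v0).1 := by rcases h6 with h6 | h6 <;> omega
      exact Nat.mul_pos h8 h7
    have h6 : (∑ v ∈ T', (ef v).1 * (ef v).2) = 1 ∨ (∑ v ∈ T', (ef v).1 * (ef v).2) = 2 := by
      omega
    rcases h6 with h6 | h6
    · rw [h6, one_mul] at h3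
      rw [mul_comm, pow_mul]
      simpa using h3.pow 2
    · rw [h6] at h3
      exact h3
  rcases hprec with hprec | ⟨P, hPl, hP1, hprec⟩
  · have hT'd : ∀ v, v ∈ Tp.filter (fun v => v.valuation K x = v.valuation K z ∧
        v.valuation K y = v.valuation K z) ↔ ((p : ℕ) : 𝓞 K) ∈ v.asIdeal ∧
        v.valuation K x = v.valuation K z ∧ v.valuation K y = v.valuation K z := by
      intro v
      rw [Finset.mem_filter, hTp]
    refine hfin _ (fun v hv => ((hT'd v).1 hv).1) ((hT'd v0).2 ⟨hv0, hgood⟩) ?_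
    exact mainTQ6 mainEVW mainNRN mainAPP mainRAT mainRAT2 mainPOSN mainNFAC hl hk hp hp2 hpl hcard
      hx hy hz h hnot hprec (fun v => (ef v).1) (fun v => (ef v).2) (fun v hv => (hef v hv).2.1)
      (fun v hv => (hef v hv).2.2.2) hep _ hT'd
  · obtain ⟨T', h1, h2, h3⟩ := mainTQ6s mainEVW mainNRN mainAPP mainRAT mainRAT2 mainPOSN mainNFAC
      hl hk hp hp2 hpl hx hy hz h P hPl hP1 (hcard P hPl) (hnot P hPl) hprec
      (fun v => (ef v).1) (fun v => (ef v).2) (fun v hv => (hef v hv).2.1)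
      (fun v hv => (hef v hv).2.2.2) hep
    exact hfin T' h1 (h2 v0 hv0 hgood.1 hgood.2) h3

end Pool.Agent.H47T
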