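import Pool.Agent.H47T.Stm2
import Pool.Agent.H47T.ALLU

/-!
# Project TQ, phase 2, piece CND (helper22): local conditions at a prime above two
-/

set_option autoImplicit false

namespace Pool.Agent.H47T

open NumberField IsDedekindDomain

namespace CndAux

section Val

variable {K : Type} [Field K] (w : Valuation K (WithZero (Multiplicative ℤ)))

/-- the additive valuation of `x` is at least `n` -/
def G (x : K) (n : ℤ) : Prop := w x ≤ WithZero.exp (-n)

/-- the additive valuation of `x` is `n` -/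
def E (x : K) (n : ℤ) : Prop := w x = WithZero.exp (-n)

variable {w} {x y : K} {a b n : ℤ}

theorem E.g (h : E w x n) : G w x n := le_of_eq h

theorem G.mono (h : G w x a) (hab : b ≤ a) : G w x b :=
  le_trans h (WithZero.exp_le_exp.2 (by omega))

theorem G.add (hx : G w x n) (hy : G w y n) : G w (x + y) n := Valuation.map_add_le _ hx hy

theorem G.neg (hx : G w x n) : G w (-x) n := by
  unfold G; rw [Valuation.map_neg]; exact hx

theorem G.sub (hx : G w x n) (hy : G w y n) : G w (x - y) n := by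
  rw [sub_eq_add_neg]; exact hx.add hy.neg

theorem G.mul (hx : G w x a) (hy : G w y b) : G w (x * y) (a + b) := by
  unfold G at *
  rw [map_mul, neg_add, WithZero.exp_add]
  exact mul_le_mul' hx hy

theorem E.mul (hx : E w x a) (hy : E w y b) : E w (x * y) (a + b) := by
  unfold E at *
  rw [map_mul, neg_add, WithZero.exp_add, hx, hy]

theorem E.neg (hx : E w x n) : E w (-x) n := by
  unfold E; rw [Valuation.map_neg]; exact hx

theorem E.div (hx : E w x a) (hy : E w y b) : E w (x / y) (a - b) := by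
  unfold E at *
  have : -(a - b) = -a - -b := by ring
  rw [map_div₀, this, WithZero.exp_sub, hx, hy]

theorem E.uniq (hx : E w x a) (hy : E w x b) : a = b := by
  unfold E at *
  rw [hx, WithZero.exp_inj] at hy
  omega

theorem ex (hx : x ≠ 0) : ∃ n, E w x n := by
  have h : w x ≠ 0 := (Valuation.ne_zero_iff _).2 hx
  exact ⟨-WithZero.log (w x), by unfold E; rw [neg_neg]; exact (WithZero.exp_log h).symm⟩

theorem E.ne (hx : E w x a) : x ≠ 0 := by
  rintro rfl
  unfold E at hx
  rw [map_zero] at hx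
  exact WithZero.exp_ne_zero hx.symm

theorem E.add (hx : E w x a) (hy : G w y (a + 1)) : E w (x + y) a := by
  unfold E G at *
  rw [Valuation.map_add_eq_of_lt_left, hx]
  rw [hx]
  exact lt_of_le_of_lt hy (WithZero.exp_lt_exp.2 (by omega))

theorem E.one : E w 1 0 := by unfold E; simp

theorem E.pow (hx : E w x a) (k : ℕ) : E w (x ^ k) (k * a) := by
  induction k with
  | zero => simpa using E.one
  | succ k ih =>
    rw [pow_succ]
    have := ih.mul hx
    have e : ((k + 1 : ℕ) : ℤ) * a = k * a + a := by push_cast; ring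
    rw [e]
    exact this

theorem E.of_pow {k : ℕ} (hk : k ≠ 0) (h : E w (x ^ k) n) : ∃ m, E w x m ∧ k * m = n := by
  have hx : x ≠ 0 := by
    rintro rfl
    rw [zero_pow hk] at h
    exact h.ne rfl
  obtain ⟨m, hm⟩ := ex (w := w) hx
  exact ⟨m, hm, (hm.pow k).uniq h⟩

/-- division of an estimate -/
theorem G.of_mul (hx : E w x a) (h : G w (x * y) b) : G w y (b - a) := by
  have h1 : E w x⁻¹ (-a) := by
    have := (E.one (w := w)).div hx
    rwa [one_div, zero_sub] at this
  have h2 := h1.g.mul h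
  have e : x⁻¹ * (x * y) = y := by rw [← mul_assoc, inv_mul_cancel₀ hx.ne, one_mul]
  rw [e] at h2
  exact h2.mono (by omega)

/-- `1 + t` is a unit -/
theorem E.one_add {t : K} {M : ℤ} (ht : G w t M) (hM : 1 ≤ M) : E w (1 + t) 0 :=
  E.one.add (ht.mono (by omega))

theorem G.nat (n : ℕ) : G w (n : K) 0 := by
  induction n with
  | zero => unfold G; simp
  | succ n ih => push_cast; exact ih.add E.one.g

variable {e : ℤ} (h2 : E w 2 e) (he : 1 ≤ e)

include h2 he

omit he in
theorem e4' : E w 4 (2 * e) := by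
  have := h2.mul h2
  have e1 : (2 : K) * 2 = 4 := by norm_num
  rw [e1] at this
  rw [two_mul]; exact this

theorem e4 : E w 4 (2 * e) := e4' h2

theorem e3 : E w 3 0 := by
  have := (E.one (w := w)).add (h2.g.mono (by omega : (0 : ℤ) + 1 ≤ e))
  have e1 : (1 : K) + 2 = 3 := by norm_num
  rwa [e1] at this

theorem e5 : E w 5 0 := by
  have := (E.one (w := w)).add ((e4 h2 he).g.mono (by omega : (0 : ℤ) + 1 ≤ 2 * e))
  have e1 : (1 : K) + 4 = 5 := by norm_num
  rwa [e1] at this

/-- `-2` is a square only if `e` is even -/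
theorem neg_two {b t : K} {M : ℤ} (hM : e + 1 ≤ M) (ht : G w t M) (h : -2 * (1 + t) = b ^ 2) :
    ∃ m, 2 * m = e := by
  have h3 := h2.neg.mul (E.one_add ht (by omega))
  rw [h] at h3
  obtain ⟨m, _, hm⟩ := h3.of_pow two_ne_zero
  exact ⟨m, by push_cast at hm; omega⟩

/-- `-1` is a square only if `e` is even -/
theorem neg_one {b t : K} {M : ℤ} (hM : e + 1 ≤ M) (ht : G w t M) (h : -1 * (1 + t) = b ^ 2) :
    ∃ m, 2 * m = e := by
  have h3 := (E.one (w := w)).neg.mul (E.one_add ht (by omega))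
  rw [h] at h3
  obtain ⟨m, hm1, hm⟩ := h3.of_pow two_ne_zero
  have hm0 : m = 0 := by push_cast at hm; omega
  subst hm0
  have h4 : E w ((b - 1) ^ 2) e := by
    have e1 : (b - 1) ^ 2 = -(2 * b) + -t := by linear_combination -h
    rw [e1]
    have := (h2.mul hm1).neg
    rw [add_zero] at this
    exact this.add (ht.neg.mono hM)
  obtain ⟨m, _, hm⟩ := h4.of_pow two_ne_zero
  exact ⟨m, by push_cast at hm; omega⟩

/-- if `5` is a square then there is a unit `g` with `g - 1` a unit -/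
theorem five {b t : K} {M : ℤ} (hM : 2 * e + 1 ≤ M) (ht : G w t M) (h : 5 * (1 + t) = b ^ 2) :
    ∃ g, E w g 0 ∧ E w (g - 1) 0 := by
  have h3 : E w ((b - 1) * (b + 1)) (2 * e) := by
    have e1 : (b - 1) * (b + 1) = 4 + 5 * t := by linear_combination -h
    rw [e1]
    refine (e4 h2 he).add ?_
    exact ((e5 h2 he).g.mul ht).mono (by omega)
  obtain ⟨n1, hn1⟩ := ex (w := w) (left_ne_zero_of_mul h3.ne)
  obtain ⟨n2, hn2⟩ := ex (w := w) (right_ne_zero_of_mul h3.ne)
  have h4 := (hn1.mul hn2).uniq h3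
  have e2 : b + 1 = (b - 1) + 2 := by ring
  have e3 : b + 1 = 2 + (b - 1) := by ring
  have h5 : n1 = e := by
    rcases lt_trichotomy n1 e with h6 | h6 | h6
    · have h7 := hn1.add (h2.g.mono (by omega : n1 + 1 ≤ e))
      rw [← e2] at h7
      have := h7.uniq hn2
      omega
    · exact h6
    · have h7 := h2.add (hn1.g.mono (by omega : e + 1 ≤ n1))
      rw [← e3] at h7
      have := h7.uniq hn2
      omega
  have h6 : n2 = e := by omega
  subst h5
  subst h6
  refine ⟨(b + 1) / 2, ?_, ?_⟩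
  · have := hn2.div h2
    rwa [sub_self] at this
  · have e4 : (b + 1) / 2 - 1 = (b - 1) / 2 := by
      have := h2.ne
      field_simp
      ring
    rw [e4]
    have := hn1.div h2
    rwa [sub_self] at this

/-- if `-1` and `2` are squares then four divides `e` -/
theorem two_of_neg_one {b t c t' : K} {M : ℤ} (hM : 3 * e + 1 ≤ M) (ht : G w t M)
    (ht' : G w t' M) (h : -1 * (1 + t) = b ^ 2) (h' : 2 * (1 + t') = c ^ 2) : ∃ m, 4 * m = e := by
  have h3 := (E.one (w := w)).neg.mul (E.one_add ht (by omega))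
  rw [h] at h3
  obtain ⟨m, hb, hm⟩ := h3.of_pow two_ne_zero
  have hm0 : m = 0 := by push_cast at hm; omega
  subst hm0
  have h4 := h2.mul (E.one_add ht' (by omega))
  rw [h'] at h4
  obtain ⟨m0, hc, hm0⟩ := h4.of_pow two_ne_zero
  have hm0' : 2 * m0 = e := by push_cast at hm0; omega
  have h5 : E w ((1 + b) ^ 2) e := by
    have e1 : (1 + b) ^ 2 = 2 * b + -t := by linear_combination -h
    rw [e1]
    have := h2.mul hb
    rw [add_zero] at this
    exact this.add (ht.neg.mono (by omega))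
  obtain ⟨m1, hb1, hm1⟩ := h5.of_pow two_ne_zero
  have hm1' : m1 = m0 := by push_cast at hm1; omega
  subst hm1'
  obtain ⟨u, hu⟩ : ∃ u, u = (1 + b) / c := ⟨_, rfl⟩
  have huc : u * c = 1 + b := by rw [hu]; exact div_mul_cancel₀ _ hc.ne
  have hu0 : E w u 0 := by
    have := hb1.div hc
    rw [sub_self] at this
    rw [hu]; exact this
  have h6 : G w (u ^ 4 + 1) (M - 2 * e) := by
    have h7 := hc.pow 4
    have e2 : ((4 : ℕ) : ℤ) * m1 = 2 * e := by push_cast; omega
    rw [e2] at h7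
    refine G.of_mul h7 ?_
    have e3 : c ^ 4 * (u ^ 4 + 1) = -(4 * t) - 4 * (b * t) + t * t + 8 * t' + 4 * (t' * t') := by
      have e4 : c ^ 4 * u ^ 4 = (1 + b) ^ 4 := by rw [← huc]; ring
      have e5 : b ^ 2 = -1 - t := by rw [← h]; ring
      have e6 : (1 + b) ^ 2 = 2 * b - t := by
        have : (1 + b) ^ 2 = 1 + 2 * b + b ^ 2 := by ring
        rw [this, e5]; ring
      have e7 : (1 + b) ^ 4 = (2 * b - t) ^ 2 := by rw [← e6]; ring
      have e8 : c ^ 4 = (2 * (1 + t')) ^ 2 := by rw [h']; ring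
      rw [mul_add, e4, e7, e8]
      linear_combination (4 : K) * e5
    rw [e3]
    have g4 : G w (4 : K) 0 := (e4 h2 he).g.mono (by omega)
    have g8 : G w (8 : K) 0 := by
      have := g4.mul (h2.g.mono (by omega : (0 : ℤ) ≤ e))
      have e9 : (4 : K) * 2 = 8 := by norm_num
      rwa [e9] at this
    have k1 : G w (4 * t) M := (g4.mul ht).mono (by omega)
    have k2 : G w (4 * (b * t)) M := (g4.mul (hb.g.mul ht)).mono (by omega)
    have k3 : G w (t * t) M := (ht.mul ht).mono (by omega)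
    have k4 : G w (8 * t') M := (g8.mul ht').mono (by omega)
    have k5 : G w (4 * (t' * t')) M := (g4.mul (ht'.mul ht')).mono (by omega)
    exact ((((k1.neg).sub k2).add k3).add k4).add k5
  have h7 : E w ((u - 1) ^ 4) e := by
    have e1 : (u - 1) ^ 4 = -(2 * (u * (-(3 * u) + 2 * (u ^ 2 + 1)))) + (u ^ 4 + 1) := by ring
    rw [e1]
    have k1 : E w (-(3 * u) + 2 * (u ^ 2 + 1)) 0 := by
      have k2 := ((e3 h2 he).mul hu0).neg
      rw [add_zero] at k2
      refine k2.add ?_
      have k3 : G w (u ^ 2 + 1) 0 := by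
        have := (hu0.pow 2).g
        rw [mul_zero] at this
        exact this.add E.one.g
      exact (h2.g.mul k3).mono (by omega)
    have k2 := (h2.mul (hu0.mul k1)).neg
    rw [add_zero, add_zero] at k2
    exact k2.add (h6.mono (by omega))
  obtain ⟨m, _, hm⟩ := h7.of_pow four_ne_zero
  exact ⟨m, by push_cast at hm; omega⟩

/-- if `-2` and `3` are squares then four divides `e` -/
theorem three_of_neg_two {b t c t' : K} {M : ℤ} (hM : 3 * e + 1 ≤ M) (ht : G w t M)
    (ht' : G w t' M) (h : 3 * (1 + t) = b ^ 2) (h' : -2 * (1 + t') = c ^ 2) : ∃ m, 4 * m = e := by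
  have h3 := (e3 h2 he).mul (E.one_add ht (by omega))
  rw [h] at h3
  obtain ⟨m, hb, hm⟩ := h3.of_pow two_ne_zero
  have hm0 : m = 0 := by push_cast at hm; omega
  subst hm0
  have h4 := h2.neg.mul (E.one_add ht' (by omega))
  rw [h'] at h4
  obtain ⟨m0, hc, hm0⟩ := h4.of_pow two_ne_zero
  have hm0' : 2 * m0 = e := by push_cast at hm0; omega
  have h5 : E w ((b - 1) ^ 2) e := by
    have e1 : (b - 1) ^ 2 = -(2 * b) + (4 + 3 * t) := by linear_combination -h
    rw [e1]
    have := (h2.mul hb).neg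
    rw [add_zero] at this
    refine this.add (G.add ((e4 h2 he).g.mono (by omega)) ?_)
    exact ((e3 h2 he).g.mul ht).mono (by omega)
  obtain ⟨m1, hb1, hm1⟩ := h5.of_pow two_ne_zero
  have hm1' : m1 = m0 := by push_cast at hm1; omega
  subst hm1'
  obtain ⟨u, hu⟩ : ∃ u, u = (b - 1) / c := ⟨_, rfl⟩
  have huc : u * c = b - 1 := by rw [hu]; exact div_mul_cancel₀ _ hc.ne
  have hu0 : E w u 0 := by
    have := hb1.div hc
    rw [sub_self] at this
    rw [hu]; exact this
  have h6 : G w (u ^ 2 - b + 2) (M - e) := by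
    have h7 := hc.pow 2
    have e2 : ((2 : ℕ) : ℤ) * m1 = e := by push_cast; omega
    rw [e2] at h7
    refine G.of_mul h7 ?_
    have e6 : c ^ 2 * (u ^ 2 - b + 2) = 3 * t + 2 * (t' * (b - 2)) := by
      have e4 : c ^ 2 * u ^ 2 = (b - 1) ^ 2 := by rw [← huc]; ring
      have e5 : c ^ 2 * (u ^ 2 - b + 2) = c ^ 2 * u ^ 2 - c ^ 2 * (b - 2) := by ring
      rw [e5, e4, ← h']
      linear_combination -h
    rw [e6]
    have gb : G w (b - 2) 0 := hb.g.sub (h2.g.mono (by omega))
    exact (((e3 h2 he).g.mul ht).mono (by omega)).add ((h2.g.mul (ht'.mul gb)).mono (by omega))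
  have h7 : E w ((u - 1) ^ 2) m1 := by
    have e1 : (u - 1) ^ 2 = (b - 1) + ((u ^ 2 - b + 2) - 2 * u) := by ring
    rw [e1]
    refine hb1.add (G.sub (h6.mono (by omega)) ?_)
    exact (h2.g.mul hu0.g).mono (by omega)
  obtain ⟨m, _, hm⟩ := h7.of_pow two_ne_zero
  exact ⟨m, by push_cast at hm; omega⟩

end Val

section Red

variable {K : Type} [Field K] [NumberField K] {v : HeightOneSpectrum (𝓞 K)} {M : ℕ}

theorem Sq.mul {x y : K} (hx : Sq v M x) (hy : Sq v M y) : Sq v M (x * y) := by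
  obtain ⟨b, t, hb, h1, h2⟩ := hx
  obtain ⟨c, s, hc, h3, h4⟩ := hy
  refine ⟨b * c, t + s + t * s, mul_ne_zero hb hc, ?_, ?_⟩
  · calc x * y * (1 + (t + s + t * s)) = (x * (1 + t)) * (y * (1 + s)) := by ring
      _ = (b * c) ^ 2 := by rw [h1, h3]; ring
  · have g1 : G (v.valuation K) t M := h2
    have g2 : G (v.valuation K) s M := h4
    exact (g1.add g2).add ((g1.mul g2).mono (by omega))

theorem Sq.of_sq {x y c : K} (hc : c ≠ 0) (h : x = y * c ^ 2) (hx : Sq v M x) : Sq v M y := by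
  obtain ⟨b, t, hb, h1, h2⟩ := hx
  refine ⟨b / c, t, div_ne_zero hb hc, ?_, h2⟩
  rw [div_pow, ← h1, h]
  field_simp

theorem pow_split (a : K) (i : ℕ) : a ^ i = a ^ (i % 2) * (a ^ (i / 2)) ^ 2 := by
  rw [← pow_mul, ← pow_add]
  congr 1
  omega

theorem Sq.red {a b c : K} (ha : a ≠ 0) (hb : b ≠ 0) (hc : c ≠ 0) {i j k : ℕ}
    (h : Sq v M (a ^ i * b ^ j * c ^ k)) : Sq v M (a ^ (i % 2) * b ^ (j % 2) * c ^ (k % 2)) := by
  refine Sq.of_sq (c := a ^ (i / 2) * b ^ (j / 2) * c ^ (k / 2)) ?_ ?_ h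
  · exact mul_ne_zero (mul_ne_zero (pow_ne_zero _ ha) (pow_ne_zero _ hb)) (pow_ne_zero _ hc)
  · rw [pow_split a i, pow_split b j, pow_split c k]
    ring_nf

/-- it is enough to treat exponents `0` and `1` -/
theorem cnd_of {q : ℕ} (hq : q ≠ 0)
    (h : ∀ i j k : ℕ, i < 2 → j < 2 → k < 2 → s1 q ^ i * s2 q ^ j * (-1) ^ k ≠ 1 →
      ¬ Sq v M ((-1) ^ i * 2 ^ j * (q : K) ^ k)) :
    ∀ i j k : ℕ, Sq v M ((-1) ^ i * 2 ^ j * (q : K) ^ k) → s1 q ^ i * s2 q ^ j * (-1) ^ k = 1 := by
  intro i j k hS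
  have h1 := Sq.red (neg_ne_zero.2 one_ne_zero) two_ne_zero (Nat.cast_ne_zero.2 hq) hS
  by_contra hne
  refine h (i % 2) (j % 2) (k % 2) (Nat.mod_lt _ two_pos) (Nat.mod_lt _ two_pos)
    (Nat.mod_lt _ two_pos) ?_ h1
  rw [← Int.units_pow_eq_pow_mod_two, ← Int.units_pow_eq_pow_mod_two,
    ← Int.units_pow_eq_pow_mod_two]
  exact hne

/-- `-7` is a square modulo every power of two -/
theorem neg_seven (N : ℕ) : ∃ b : ℤ, Odd b ∧ (2 : ℤ) ^ (N + 3) ∣ b ^ 2 + 7 := by
  induction N with
  | zero => exact ⟨1, odd_one, by norm_num⟩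
  | succ N ih =>
    obtain ⟨b, hb, c, hc⟩ := ih
    rcases Int.even_or_odd c with ⟨d, hd⟩ | ⟨d, hd⟩
    · refine ⟨b, hb, d, ?_⟩
      rw [hc, hd]; ring
    · obtain ⟨r, hr⟩ := hb
      refine ⟨b + 2 ^ (N + 2), ?_, d + r + 1 + 2 ^ N, ?_⟩
      · exact (show Odd b from ⟨r, hr⟩).add_even ⟨2 ^ (N + 1), by ring⟩
      · have : (b + 2 ^ (N + 2)) ^ 2 + 7 = (b ^ 2 + 7) + 2 ^ (N + 3) * b + 2 ^ (N + 4) * 2 ^ N := by
          ring
        rw [this, hc, hd]
        conv_lhs => rw [hr]
        ring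

end Red

end CndAux

open CndAux in
theorem mainCND : S_CND := by
  intro K _ _ v e h2v he1 he2 hor
  have h2 : E (v.valuation K) 2 e := by
    have h3 : v.intValuation 2 ≤ WithZero.exp (-(e : ℤ)) := (v.intValuation_le_pow_iff_mem 2 e).2 he1
    have h4 : ¬ v.intValuation 2 ≤ WithZero.exp (-((e + 1 : ℕ) : ℤ)) := fun h =>
      he2 ((v.intValuation_le_pow_iff_mem 2 (e + 1)).1 h)
    have h5 : v.valuation K 2 = v.intValuation 2 := by
      have h := HeightOneSpectrum.valuation_of_algebraMap (K := K) v (2 : 𝓞 K)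
      have e : algebraMap (𝓞 K) K 2 = 2 := map_ofNat _ 2
      rw [← e]
      exact h
    have h6 : v.intValuation (2 : 𝓞 K) ≠ 0 := v.intValuation_ne_zero 2 two_ne_zero
    obtain ⟨k, hk⟩ : ∃ k : ℤ, v.intValuation (2 : 𝓞 K) = WithZero.exp k := ⟨_, (WithZero.exp_log h6).symm⟩
    unfold E
    rw [h5, hk]
    rw [hk] at h3 h4
    rw [WithZero.exp_le_exp] at h3 h4
    congr 1
    push_cast at h4
    omega
  have he : 1 ≤ e := by
    by_contra h
    obtain rfl : e = 0 := by omega
    apply he2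
    simpa using h2v
  have he' : (1 : ℤ) ≤ e := by exact_mod_cast he
  set M : ℕ := 8 * e + 8 with hM
  -- the facts
  have ev1 : Sq v M (-1) → ¬ Odd e := by
    rintro ⟨b, t, hb, h3, h4⟩ ⟨r, hr⟩
    obtain ⟨m, hm⟩ := neg_one h2 he' (M := M) (by push_cast [hM]; omega) h4 h3
    omega
  have ev2 : Sq v M (-2) → ¬ Odd e := by
    rintro ⟨b, t, hb, h3, h4⟩ ⟨r, hr⟩
    obtain ⟨m, hm⟩ := neg_two h2 he' (M := M) (by push_cast [hM]; omega) h4 h3
    omega
  have n5 : Nat.card (𝓞 K ⧸ v.asIdeal) = 2 → ¬ Sq v M 5 := by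
    rintro hcard ⟨b, t, hb, h3, h4⟩
    obtain ⟨g, hg, hg'⟩ := five h2 he' (M := M) (by push_cast [hM]; omega) h4 h3
    have h5 : v.valuation K g = 1 := by
      have : v.valuation K g = WithZero.exp (-0) := hg
      rwa [neg_zero, WithZero.exp_zero] at this
    have h6 := AlluAux.sub_one_lt v hcard h5
    have h7 : v.valuation K (g - 1) = WithZero.exp (-0) := hg'
    rw [neg_zero, WithZero.exp_zero] at h7
    rw [h7] at h6
    exact lt_irrefl _ h6
  have n2 : ¬ 4 ∣ e → Sq v M (-1) → ¬ Sq v M 2 := by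
    rintro h4e ⟨b, t, hb, h3, h4⟩ ⟨c, t', hc, h5, h6⟩
    obtain ⟨m, hm⟩ := two_of_neg_one h2 he' (M := M) (by push_cast [hM]; omega) h4 h6 h3 h5
    apply h4e
    have : (4 : ℤ) ∣ e := ⟨m, hm.symm⟩
    exact_mod_cast this
  have n3 : ¬ 4 ∣ e → Sq v M (-2) → ¬ Sq v M 3 := by
    rintro h4e ⟨c, t', hc, h5, h6⟩ ⟨b, t, hb, h3, h4⟩
    obtain ⟨m, hm⟩ := three_of_neg_two h2 he' (M := M) (by push_cast [hM]; omega) h4 h6 h3 h5
    apply h4e
    have : (4 : ℤ) ∣ e := ⟨m, hm.symm⟩
    exact_mod_cast this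
  have s7 : Sq v M (-7) := by
    obtain ⟨b, hb, c, hc⟩ := neg_seven M
    have hb0 : b ≠ 0 := by rintro rfl; simp at hb
    have h7 : E (v.valuation K) (7 : K) 0 := by
      have h8 := (E.one (w := v.valuation K)).neg.add
        (((e4' h2).mul h2).g.mono (by omega : (0 : ℤ) + 1 ≤ 2 * e + e))
      have e1 : (-1 : K) + 4 * 2 = 7 := by norm_num
      rwa [e1] at h8
    refine ⟨b, -(((b ^ 2 + 7 : ℤ) : K) / 7), by exact_mod_cast hb0, ?_, ?_⟩
    · have := h7.ne
      push_cast
      field_simp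
      ring
    · have g1 : G (v.valuation K) ((b ^ 2 + 7 : ℤ) : K) ((M + 3 : ℕ) * e) := by
        rw [hc]
        push_cast
        have g2 : G (v.valuation K) ((c : K)) 0 := by
          rcases Int.eq_nat_or_neg c with ⟨n, rfl | rfl⟩
          · simpa using G.nat n
          · simpa using (G.nat n).neg
        have g3 := (h2.pow (M + 3)).g.mul g2
        rw [add_zero] at g3
        exact_mod_cast g3
      have g2 : E (v.valuation K) ((7 : K)⁻¹) 0 := by
        have := (E.one (w := v.valuation K)).div h7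
        rwa [one_div, sub_zero] at this
      have g3 := (g1.mul g2.g).neg
      rw [← div_eq_mul_inv] at g3
      refine g3.mono ?_
      rw [add_zero]
      push_cast
      nlinarith
  by_cases hA : Sq v M (-1)
  · -- `q = 5`
    have h3 : Nat.card (𝓞 K ⧸ v.asIdeal) = 2 ∧ ¬ 4 ∣ e := hor.resolve_left (ev1 hA)
    have m2 := n2 h3.2 hA
    have m5 := n5 h3.1
    have m2' : ¬ Sq v M (-2) := fun h => m2 (by simpa using Sq.mul hA h)
    have m5' : ¬ Sq v M (-5) := fun h => m5 (by simpa using Sq.mul hA h)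
    refine ⟨M, 5, Or.inr (Or.inl rfl), cnd_of (by norm_num) ?_⟩
    intro i j k hi hj hk hne
    interval_cases i <;> interval_cases j <;> interval_cases k <;>
      first
      | (exfalso; exact hne (by decide))
      | simpa using m2
      | simpa using m5
      | simpa using m2'
      | simpa using m5'
  by_cases hB : Sq v M (-2)
  · -- `q = 3`
    have h3 : Nat.card (𝓞 K ⧸ v.asIdeal) = 2 ∧ ¬ 4 ∣ e := hor.resolve_left (ev2 hB)
    have m3 := n3 h3.2 hB
    have m2 : ¬ Sq v M 2 := fun h => hA (by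
      have := Sq.mul h hB
      exact Sq.of_sq (c := 2) two_ne_zero (by norm_num) this)
    have m6 : ¬ Sq v M (-6) := fun h => m3 (by
      have := Sq.mul h hB
      exact Sq.of_sq (c := 2) two_ne_zero (by norm_num) this)
    refine ⟨M, 3, Or.inl rfl, cnd_of (by norm_num) ?_⟩
    intro i j k hi hj hk hne
    interval_cases i <;> interval_cases j <;> interval_cases k <;>
      first
      | (exfalso; exact hne (by decide))
      | simpa using hA
      | simpa using m2
      | simpa using m3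
      | (norm_num; exact m6)
  · -- `q = 7`
    have m7 : ¬ Sq v M 7 := fun h => hA (by
      have := Sq.mul h s7
      exact Sq.of_sq (c := 7) (by norm_num) (by norm_num) this)
    have m14 : ¬ Sq v M 14 := fun h => hB (by
      have := Sq.mul h s7
      exact Sq.of_sq (c := 7) (by norm_num) (by norm_num) this)
    refine ⟨M, 7, Or.inr (Or.inr rfl), cnd_of (by norm_num) ?_⟩
    intro i j k hi hj hk hne
    interval_cases i <;> interval_cases j <;> interval_cases k <;>
      first
      | (exfalso; exact hne (by decide))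
      | simpa using hA
      | simpa using hB
      | simpa using m7
      | (norm_num; exact m14)


end Pool.Agent.H47T
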