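import Pool.Agent.H47T.Stm2
import Pool.Agent.H47T.ALLU
import Pool.Agent.Y682.Lcl

/-!
# Project TQ, phase 2: the local conditions in terms of squares of the completion
-/

set_option autoImplicit false

namespace Pool.Agent.H47T

open NumberField IsDedekindDomain Pool.Agent.Y682

/-- CND2: norm two; in the completion neither `-1, 2` nor `-2, -5` are both squares. -/
def S_CND2 : Prop := ∀ (K : Type) [Field K] [NumberField K] (v : HeightOneSpectrum (𝓞 K)),
  (2 : 𝓞 K) ∈ v.asIdeal → Nat.card (𝓞 K ⧸ v.asIdeal) = 2 →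
  ¬ (IsSquare (-1 : v.adicCompletion K) ∧ IsSquare (2 : v.adicCompletion K)) →
  ¬ (IsSquare (-2 : v.adicCompletion K) ∧ IsSquare (-5 : v.adicCompletion K)) →
  ∃ M q : ℕ, (q = 3 ∨ q = 5 ∨ q = 7) ∧ ∀ i j k : ℕ, Sq v M ((-1) ^ i * 2 ^ j * (q : K) ^ k) →
    s1 q ^ i * s2 q ^ j * (-1) ^ k = 1

section

variable {K : Type} [Field K] [NumberField K] {v : HeightOneSpectrum (𝓞 K)}

theorem sq_of_Sq {M : ℕ} (hM : WithZero.exp (-(M : ℤ)) < v.valuation K 4) {u : K}
    (h : Sq v M u) : IsSquare (algebraMap K (v.adicCompletion K) u) := by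
  obtain ⟨b, t, hb, hbt, ht⟩ := h
  have hb' : algebraMap K (v.adicCompletion K) b ≠ 0 := (map_ne_zero _).2 hb
  have h4 : vv v (4 : v.adicCompletion K) = v.valuation K 4 := by
    have := vv_coe v (4 : K)
    rwa [map_ofNat (algebraMap K (v.adicCompletion K)) 4] at this
  have hvb : v.valuation K b ≠ 0 := (Valuation.ne_zero_iff _).2 hb
  have ht4 : v.valuation K t < v.valuation K 4 := lt_of_le_of_lt ht hM
  have ht1 : v.valuation K t < 1 := by
    refine lt_of_lt_of_le ht4 ?_
    have : v.valuation K (algebraMap (𝓞 K) K 4) ≤ 1 := v.valuation_le_one 4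
    rwa [map_ofNat (algebraMap (𝓞 K) K) 4] at this
  have h1t : v.valuation K (1 + t) = 1 := by
    rw [Valuation.map_add_eq_of_lt_left _ (by rw [map_one]; exact ht1), map_one]
  obtain ⟨z, hz⟩ := exists_sqrt' v hb' (x := algebraMap K (v.adicCompletion K) u) (by
    rw [← map_pow, ← map_sub, vv_coe, vv_coe, h4, ← hbt]
    have e : u - u * (1 + t) = -(u * t) := by ring
    rw [e, Valuation.map_neg, map_mul]
    have h2 : v.valuation K u = v.valuation K b ^ 2 := by
      rw [← map_pow, ← hbt, map_mul, h1t, mul_one]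
    rw [h2, mul_comm]
    exact mul_lt_mul_of_pos_right ht4 (zero_lt_iff.2 (pow_ne_zero 2 hvb)))
  exact ⟨z, by rw [← sq, hz]⟩

theorem Sq_of_sq {u : K} (hu : u ≠ 0) (M : ℕ)
    (h : IsSquare (algebraMap K (v.adicCompletion K) u)) : Sq v M u := by
  obtain ⟨z, hz⟩ := h
  have hu' : algebraMap K (v.adicCompletion K) u ≠ 0 := (map_ne_zero _).2 hu
  have hz0 : z ≠ 0 := by
    rintro rfl
    rw [mul_zero] at hz
    exact hu' hz
  have hvz : vv v z ≠ 0 := (Valuation.ne_zero_iff _).2 hz0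
  have hM0 : WithZero.exp (-(M : ℤ)) ≠ 0 := WithZero.exp_ne_zero
  have hM1 : WithZero.exp (-(M : ℤ)) ≤ 1 := by
    rw [← WithZero.exp_zero, WithZero.exp_le_exp]
    omega
  obtain ⟨k, hk⟩ := exists_approx v z (vv v z * WithZero.exp (-(M : ℤ))) (mul_ne_zero hvz hM0)
  obtain ⟨κ, hκ⟩ : ∃ κ, κ = algebraMap K (v.adicCompletion K) k := ⟨_, rfl⟩
  rw [← hκ] at hk
  have hlt : vv v (κ - z) < vv v z :=
    lt_of_lt_of_le hk (by
      calc vv v z * WithZero.exp (-(M : ℤ)) ≤ vv v z * 1 := mul_le_mul_right hM1 _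
        _ = vv v z := mul_one _)
  have hκz : vv v κ = vv v z := by
    have e : κ = (κ - z) + z := by ring
    rw [e, Valuation.map_add_eq_of_lt_right _ hlt]
  have hsum : vv v (κ + z) ≤ vv v z :=
    (Valuation.map_add _ _ _).trans (max_le hκz.le le_rfl)
  have hk0 : k ≠ 0 := by
    rintro rfl
    rw [hκ, map_zero, map_zero] at hκz
    exact hvz hκz.symm
  refine ⟨k, (k ^ 2 - u) / u, hk0, by field_simp; ring, ?_⟩
  have h1 : v.valuation K (k ^ 2 - u) = vv v (κ - z) * vv v (κ + z) := by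
    rw [← vv_coe, map_sub, map_pow, hz, ← hκ, ← map_mul]
    congr 1
    ring
  have h2 : v.valuation K u = vv v z * vv v z := by
    rw [← vv_coe, hz, map_mul]
  rw [map_div₀, h1, h2]
  rw [div_le_iff₀ (zero_lt_iff.2 (mul_ne_zero hvz hvz))]
  calc vv v (κ - z) * vv v (κ + z) ≤ (vv v z * WithZero.exp (-(M : ℤ))) * vv v z :=
        mul_le_mul' hk.le hsum
    _ = WithZero.exp (-(M : ℤ)) * (vv v z * vv v z) := by
        rw [mul_comm (vv v z) (WithZero.exp (-(M : ℤ))), mul_assoc]

/-- `5` is not close to a square if the residue field has two elements -/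
theorem not_Sq_five (h2v : (2 : 𝓞 K) ∈ v.asIdeal) (hc : Nat.card (𝓞 K ⧸ v.asIdeal) = 2) {M : ℕ}
    (hM : WithZero.exp (-(M : ℤ)) < v.valuation K 4) : ¬ Sq v M (5 : K) := by
  rintro ⟨b, t, hb, hbt, ht⟩
  set w := v.valuation K with hw
  have h22 : w 2 < 1 := by
    have h3 : v.valuation K (algebraMap (𝓞 K) K 2) < 1 :=
      (HeightOneSpectrum.valuation_lt_one_iff_mem (K := K) v 2).2 h2v
    rwa [map_ofNat (algebraMap (𝓞 K) K) 2] at h3
  have h20 : w 2 ≠ 0 := (Valuation.ne_zero_iff _).2 two_ne_zero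
  have h4 : w 4 = w 2 * w 2 := by
    rw [← map_mul]
    norm_num
  have h5 : w (5 : K) ≤ 1 := by
    have : v.valuation K (algebraMap (𝓞 K) K 5) ≤ 1 := v.valuation_le_one 5
    rwa [map_ofNat (algebraMap (𝓞 K) K) 5] at this
  have ht4 : w t < w 4 := lt_of_le_of_lt ht hM
  have hprod : w (b - 1) * w (b + 1) = w 2 * w 2 := by
    rw [← map_mul, ← h4]
    have e : (b - 1) * (b + 1) = 4 + 5 * t := by linear_combination -hbt
    rw [e]
    refine Valuation.map_add_eq_of_lt_left _ ?_
    rw [map_mul]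
    calc w 5 * w t ≤ 1 * w t := mul_le_mul_left h5 _
      _ = w t := one_mul _
      _ < w 4 := ht4
  have hdiff : (b + 1) - (b - 1) = 2 := by ring
  have hm1 : w (b - 1) ≠ 0 := by
    intro h0
    rw [h0, zero_mul] at hprod
    exact mul_ne_zero h20 h20 hprod.symm
  have heq : w (b + 1) = w 2 := by
    rcases lt_trichotomy (w (b - 1)) (w (b + 1)) with h | h | h
    · have h6 := Valuation.map_sub_eq_of_lt_left w h
      rw [hdiff] at h6
      exact h6.symm
    · rw [h] at hprod
      have h7 : w (b + 1) ^ 2 = w 2 ^ 2 := by rw [sq, sq, hprod]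
      exact (pow_left_inj₀ zero_le zero_le two_ne_zero).1 h7
    · have h6 : w 2 = w (b - 1) := by
        have h6 := Valuation.map_sub_eq_of_lt_right w h
        rwa [hdiff] at h6
      rw [← h6] at hprod
      exact mul_left_cancel₀ h20 hprod
  have hg : w ((b + 1) / 2) = 1 := by rw [map_div₀, heq, div_self h20]
  have h8 := AlluAux.sub_one_lt v hc hg
  have e2 : (b + 1) / 2 - 1 = (b - 1) / 2 := by field_simp; ring
  rw [e2, map_div₀] at h8
  rw [heq] at hprod
  have h9 : w (b - 1) = w 2 := mul_right_cancel₀ h20 hprod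
  change w (b - 1) / w 2 < 1 at h8
  rw [h9, div_self h20] at h8
  exact lt_irrefl _ h8

theorem sq_red {Q : Type} [Field Q] {a b c : Q} (ha : a ≠ 0) (hb : b ≠ 0) (hc : c ≠ 0)
    {i j k : ℕ} (h : IsSquare (a ^ i * b ^ j * c ^ k)) :
    IsSquare (a ^ (i % 2) * b ^ (j % 2) * c ^ (k % 2)) := by
  obtain ⟨w, hw⟩ := h
  have e : ∀ (x : Q) (n : ℕ), x ^ n = x ^ (n % 2) * (x ^ (n / 2)) ^ 2 := fun x n => by
    rw [← pow_mul, ← pow_add, mul_comm (n / 2) 2, Nat.mod_add_div]
  have h1 : a ^ (i / 2) * b ^ (j / 2) * c ^ (k / 2) ≠ 0 :=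
    mul_ne_zero (mul_ne_zero (pow_ne_zero _ ha) (pow_ne_zero _ hb)) (pow_ne_zero _ hc)
  refine ⟨w / (a ^ (i / 2) * b ^ (j / 2) * c ^ (k / 2)), ?_⟩
  rw [div_mul_div_comm, ← hw, e a i, e b j, e c k]
  field_simp

theorem unit_red (ε : ℤˣ) (n : ℕ) : ε ^ n = ε ^ (n % 2) := by
  conv_lhs => rw [← Nat.mod_add_div n 2, pow_add, pow_mul, Int.units_sq, one_pow, mul_one]

theorem mainCND2 : S_CND2 := by
  intro K _ _ v h2v hc hA hB
  have h40 : v.valuation K (4 : K) ≠ 0 := (Valuation.ne_zero_iff _).2 (by norm_num)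
  obtain ⟨n, hn⟩ : ∃ n : ℤ, v.valuation K (4 : K) = WithZero.exp n :=
    ⟨WithZero.log (v.valuation K 4), (WithZero.exp_log h40).symm⟩
  obtain ⟨M, hM⟩ : ∃ M : ℕ, M = (-n).toNat + 1 := ⟨_, rfl⟩
  have hM4 : WithZero.exp (-(M : ℤ)) < v.valuation K 4 := by
    rw [hn, WithZero.exp_lt_exp]
    omega
  have h20 : (2 : v.adicCompletion K) ≠ 0 := by
    have := (map_ne_zero (algebraMap K (v.adicCompletion K))).2 (two_ne_zero (α := K))
    rwa [map_ofNat] at this
  have h10 : (-1 : v.adicCompletion K) ≠ 0 := neg_ne_zero.2 one_ne_zero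
  have hnat : ∀ q : ℕ, q ≠ 0 → (q : v.adicCompletion K) ≠ 0 := by
    intro q hq
    have := (map_ne_zero (algebraMap K (v.adicCompletion K))).2
      (show (q : K) ≠ 0 by exact_mod_cast hq)
    rwa [map_natCast] at this
  have h1eq : vv v (4 : v.adicCompletion K) = v.valuation K 4 := by
    have := vv_coe v (4 : K)
    rwa [map_ofNat (algebraMap K (v.adicCompletion K)) 4] at this
  have h2lt : v.valuation K (2 : K) < 1 := by
    have h3 : v.valuation K (algebraMap (𝓞 K) K 2) < 1 :=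
      (HeightOneSpectrum.valuation_lt_one_iff_mem (K := K) v 2).2 h2v
    rwa [map_ofNat (algebraMap (𝓞 K) K) 2] at h3
  -- `-7` and `-15` are squares
  have hclose : ∀ m : K, v.valuation K m ≤ 1 →
      ∃ y : v.adicCompletion K, y ^ 2 = algebraMap K (v.adicCompletion K) (1 + 8 * m) := by
    intro m hm
    obtain ⟨y, hy⟩ := exists_sqrt v (algebraMap K (v.adicCompletion K) (8 * m)) (by
      rw [vv_coe, h1eq, map_mul]
      have e : (8 : K) = 2 * 4 := by norm_num
      rw [e, map_mul]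
      calc v.valuation K 2 * v.valuation K 4 * v.valuation K m
          ≤ v.valuation K 2 * v.valuation K 4 * 1 := mul_le_mul_right hm _
        _ = v.valuation K 2 * v.valuation K 4 := mul_one _
        _ < 1 * v.valuation K 4 := mul_lt_mul_of_pos_right h2lt (zero_lt_iff.2 h40)
        _ = v.valuation K 4 := one_mul _)
    exact ⟨y, by rw [hy, map_add, map_one]⟩
  have h7 : IsSquare (-7 : v.adicCompletion K) := by
    obtain ⟨y, hy⟩ := hclose (-1) (by rw [Valuation.map_neg, map_one])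
    refine ⟨y, ?_⟩
    rw [← sq, hy]
    have e : (1 + 8 * (-1) : K) = -7 := by norm_num
    rw [e, map_neg, map_ofNat]
  have h15 : IsSquare (-15 : v.adicCompletion K) := by
    obtain ⟨y, hy⟩ := hclose (-2) (by
      rw [Valuation.map_neg]
      exact h2lt.le)
    refine ⟨y, ?_⟩
    rw [← sq, hy]
    have e : (1 + 8 * (-2) : K) = -15 := by norm_num
    rw [e, map_neg, map_ofNat]
  have hdiv : ∀ a b c : v.adicCompletion K, b ≠ 0 → IsSquare a → IsSquare b → a = b * c →
      IsSquare c := by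
    intro a b c hb ha hb' h
    have : c = a / b := by rw [h]; field_simp
    rw [this]
    exact ha.div hb'
  have h5 : ¬ Sq v M (5 : K) := not_Sq_five h2v hc hM4
  -- reduction
  have main : ∀ q : ℕ, q ≠ 0 → (∀ i j k : ℕ, i < 2 → j < 2 → k < 2 →
      Sq v M ((-1) ^ i * 2 ^ j * (q : K) ^ k) →
      IsSquare ((-1 : v.adicCompletion K) ^ i * 2 ^ j * (q : v.adicCompletion K) ^ k) →
      s1 q ^ i * s2 q ^ j * (-1) ^ k = 1) → ∀ i j k : ℕ,
      Sq v M ((-1) ^ i * 2 ^ j * (q : K) ^ k) → s1 q ^ i * s2 q ^ j * (-1) ^ k = 1 := by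
    intro q hq h i j k hS
    have hqK : (q : K) ≠ 0 := by exact_mod_cast hq
    rw [unit_red (s1 q) i, unit_red (s2 q) j, unit_red (-1) k]
    have e : ∀ (x : K) (n : ℕ), x ^ n = x ^ (n % 2) * (x ^ (n / 2)) ^ 2 := fun x n => by
      rw [← pow_mul, ← pow_add, mul_comm (n / 2) 2, Nat.mod_add_div]
    have hS' : Sq v M ((-1) ^ (i % 2) * 2 ^ (j % 2) * (q : K) ^ (k % 2)) := by
      obtain ⟨b, t, hb, hbt, ht⟩ := hS
      have h1 : ((-1 : K)) ^ (i / 2) * 2 ^ (j / 2) * (q : K) ^ (k / 2) ≠ 0 :=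
        mul_ne_zero (mul_ne_zero (pow_ne_zero _ (neg_ne_zero.2 one_ne_zero))
          (pow_ne_zero _ two_ne_zero)) (pow_ne_zero _ hqK)
      refine ⟨b / ((-1 : K) ^ (i / 2) * 2 ^ (j / 2) * (q : K) ^ (k / 2)), t,
        div_ne_zero hb h1, ?_, ht⟩
      rw [div_pow, ← hbt, e (-1) i, e 2 j, e (q : K) k]
      field_simp
    refine h _ _ _ (Nat.mod_lt _ two_pos) (Nat.mod_lt _ two_pos) (Nat.mod_lt _ two_pos) hS' ?_
    have h2 := sq_of_Sq hM4 hS'
    rw [map_mul, map_mul, map_pow, map_pow, map_pow, map_neg, map_one,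
      map_ofNat (algebraMap K (v.adicCompletion K)) 2, map_natCast] at h2
    exact h2
  by_cases hm1 : IsSquare (-1 : v.adicCompletion K)
  · -- `q = 5`
    have n2 : ¬ IsSquare (2 : v.adicCompletion K) := fun h => hA ⟨hm1, h⟩
    have nm2 : ¬ IsSquare (-2 : v.adicCompletion K) := fun h =>
      n2 (hdiv _ _ _ h10 h hm1 (by ring))
    have hs1 : s1 5 = 1 := rfl
    have hs2 : s2 5 = -1 := rfl
    refine ⟨M, 5, Or.inr (Or.inl rfl), main 5 (by norm_num) ?_⟩
    intro i j k hi hj hk hS hQ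
    rw [hs1, hs2, one_pow, one_mul]
    interval_cases j <;> interval_cases k
    · rfl
    · exfalso
      interval_cases i
      · apply h5
        simpa using hS
      · -- `-5`
        apply h5
        apply Sq_of_sq (by norm_num)
        have e : (algebraMap K (v.adicCompletion K)) 5 = -1 * -5 := by
          rw [map_ofNat (algebraMap K (v.adicCompletion K)) 5]
          ring
        rw [e]
        exact hm1.mul (by simpa using hQ)
    · exfalso
      interval_cases i
      · exact n2 (by simpa using hQ)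
      · exact nm2 (by simpa using hQ)
    · rfl
  by_cases hm2 : IsSquare (-2 : v.adicCompletion K)
  · -- `q = 3`
    have n2 : ¬ IsSquare (2 : v.adicCompletion K) := fun h =>
      hm1 (hdiv _ _ _ h20 hm2 h (by ring))
    have n3 : ¬ IsSquare (3 : v.adicCompletion K) := fun h =>
      hB ⟨hm2, hdiv _ _ _ (hnat 3 (by norm_num)) h15 h (by norm_num)⟩
    have n6 : ¬ IsSquare (-6 : v.adicCompletion K) := fun h =>
      n3 (hdiv _ _ _ (neg_ne_zero.2 h20) h hm2 (by norm_num))
    have hs1 : s1 3 = -1 := rfl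
    have hs2 : s2 3 = -1 := rfl
    refine ⟨M, 3, Or.inl rfl, main 3 (by norm_num) ?_⟩
    intro i j k hi hj hk hS hQ
    rw [hs1, hs2]
    interval_cases i <;> interval_cases j <;> interval_cases k
    · rfl
    · exact absurd (by simpa using hQ) n3
    · exact absurd (by simpa using hQ) n2
    · rfl
    · exact absurd (by simpa using hQ) hm1
    · rfl
    · rfl
    · exact absurd (by simpa using (show IsSquare (-6 : v.adicCompletion K) by
        convert hQ using 1; norm_num)) n6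
  · -- `q = 7`
    have n7 : ¬ IsSquare (7 : v.adicCompletion K) := fun h =>
      hm1 (hdiv _ _ _ (hnat 7 (by norm_num)) h7 h (by norm_num))
    have n14 : ¬ IsSquare (14 : v.adicCompletion K) := fun h =>
      hm2 (by
        have h1 : IsSquare (-7 * 14 : v.adicCompletion K) := h7.mul h
        have h2 : IsSquare (7 * 7 : v.adicCompletion K) := ⟨7, rfl⟩
        exact hdiv _ _ _ (mul_ne_zero (hnat 7 (by norm_num)) (hnat 7 (by norm_num))) h1 h2
          (by norm_num))
    have hs1 : s1 7 = -1 := rfl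
    have hs2 : s2 7 = 1 := rfl
    refine ⟨M, 7, Or.inr (Or.inr rfl), main 7 (by norm_num) ?_⟩
    intro i j k hi hj hk hS hQ
    rw [hs1, hs2, one_pow, mul_one]
    interval_cases i <;> interval_cases k
    · rfl
    · exfalso
      interval_cases j
      · exact n7 (by simpa using hQ)
      · exact n14 (by convert hQ using 1; norm_num)
    · exfalso
      interval_cases j
      · exact hm1 (by simpa using hQ)
      · exact hm2 (by simpa using hQ)
    · rfl

end

end Pool.Agent.H47T
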