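import Pool.Agent.H47T.Stm3

/-!
# Project TQ phase 3, piece CYC (helper31)
-/

set_option autoImplicit false

namespace Pool.Agent.H47T

open NumberField IsDedekindDomain Polynomial

theorem cyc_finrank (l : ℕ) (hl : l.Prime) (K : Type) [Field K] [NumberField K] [NeZero l] :
    Module.finrank K (CyclotomicField l K) ≤ l - 1 := by
  have hζ := IsCyclotomicExtension.zeta_spec l K (CyclotomicField l K)
  rw [(hζ.powerBasis K).finrank, ← PowerBasis.natDegree_minpoly, IsPrimitiveRoot.powerBasis_gen]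
  have h1 : minpoly K (IsCyclotomicExtension.zeta l K (CyclotomicField l K)) ∣ cyclotomic l K := by
    apply minpoly.dvd
    rw [← eval_map_algebraMap, map_cyclotomic]
    exact hζ.isRoot_cyclotomic hl.pos
  refine (natDegree_le_of_dvd h1 (cyclotomic_ne_zero l K)).trans ?_
  rw [natDegree_cyclotomic, Nat.totient_prime hl]

/-- piece CYC -/
theorem mainCYC : S_CYC := by
  intro l hl hl2 K _ _ P e he he0 hle
  have : NeZero l := ⟨hl.ne_zero⟩
  let K' := CyclotomicField l K
  have : NumberField K' := IsCyclotomicExtension.numberField {l} K K'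
  have hζ := IsCyclotomicExtension.zeta_spec l K K'
  obtain ⟨Q, hQm, hQ⟩ := Ideal.exists_maximal_ideal_liesOver_of_isIntegral (S := 𝓞 K') P.asIdeal
  have hQ0 : Q ≠ ⊥ := Ideal.ne_bot_of_liesOver_of_ne_bot P.ne_bot Q
  let w : HeightOneSpectrum (𝓞 K') := ⟨Q, hQm.isPrime, hQ0⟩
  have hw : w.asIdeal.LiesOver P.asIdeal := hQ
  refine ⟨K', inferInstance, inferInstance, inferInstance, _, w,
    P.asIdeal.ramificationIdx' w.asIdeal, hζ, ?_, ?_, ?_⟩
  · exact Nat.pos_of_ne_zero
      (Ideal.IsDedekindDomain.ramificationIdx'_ne_zero_of_liesOver w.asIdeal P.ne_bot)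
  · have hz : NoZeroSMulDivisors (𝓞 K) (𝓞 K') := ⟨fun {c x} h => smul_eq_zero.1 h⟩
    have h1 : P.asIdeal.ramificationIdx' w.asIdeal ≤ l - 1 :=
      (Ideal.ramificationIdx_le_finrank (𝓞 K') K K' w.asIdeal).trans (cyc_finrank l hl K)
    have h2 : 0 < P.asIdeal.ramificationIdx' w.asIdeal := Nat.pos_of_ne_zero
      (Ideal.IsDedekindDomain.ramificationIdx'_ne_zero_of_liesOver w.asIdeal P.ne_bot)
    intro h3
    rcases hl.dvd_mul.1 h3 with h4 | h4
    · exact hle h4
    · have := Nat.le_of_dvd h2 h4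
      have := hl.two_le
      omega
  · intro x
    exact (HeightOneSpectrum.valuation_liesOver K' P w x).symm

end Pool.Agent.H47T
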