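import Pool.Agent.H47T.Stm2
import Pool.Agent.K3h73.RS.Cheb

/-!
# Piece DEN of project TQ, phase 2: Chebotarev's theorem in the form which is needed
-/

set_option autoImplicit false

namespace Pool.Agent.H47T

open NumberField IsDedekindDomain Filter Topology Pool.Agent.W401.Cheb Pool.Agent.K3h73.RS

theorem mainDEN : S_DEN := by
  intro F L _ _ _ _ _ Φ B
  classical
  have hcl : IsAlgClosure ℚ (AlgebraicClosure L) :=
    IsAlgClosure.ofAlgebraic ℚ L (AlgebraicClosure L)
  have hnorm : Normal ℚ (AlgebraicClosure L) := IsAlgClosure.normal ℚ (AlgebraicClosure L)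
  have hgal : IsGalois ℚ (AlgebraicClosure L) := {}
  let E := IntermediateField.normalClosure ℚ L (AlgebraicClosure L)
  have : FiniteDimensional ℚ E := inferInstance
  have : NumberField E := {}
  have : IsGalois ℚ E := IsGalois.normalClosure ℚ L (AlgebraicClosure L)
  let Φ₀ : L ≃ₐ[ℚ] L := Φ.restrictScalars ℚ
  let Φ' : Gal(E/ℚ) := Φ₀.liftNormal E
  have hΦ' : ∀ x : L, Φ' (algebraMap L E x) = algebraMap L E (Φ x) := fun x =>
    AlgEquiv.liftNormal_commutes Φ₀ E x
  obtain ⟨D, hD, htor⟩ := torsor E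
  set A : ℕ := D * B.factorial with hA
  have hA0 : A ≠ 0 := by
    rw [hA]
    exact mul_ne_zero hD.ne' (Nat.factorial_ne_zero B)
  -- the primes
  have key : ∀ p : ℕ, p.Prime → ¬ p ∣ A → xp E Φ' p ≠ 0 →
      B < p ∧ ∃ (v : HeightOneSpectrum (𝓞 F)) (P : HeightOneSpectrum (𝓞 L)), Fr Φ p v P := by
    intro p hp hpA hx
    have hpF : Fact p.Prime := ⟨hp⟩
    refine ⟨?_, ?_⟩
    · by_contra hcon
      push Not at hcon
      exact hpA (hA ▸ (Nat.dvd_factorial hp.pos hcon).mul_left _)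
    obtain ⟨φ₀, hφ₀⟩ : ∃ φ₀ : 𝓞 E →+* AlgebraicClosure (ZMod p), HasFrob p φ₀ Φ' := by
      unfold xp at hx
      rw [dif_pos hp] at hx
      obtain ⟨⟨⟨φ₀, hφ₀⟩⟩, -⟩ := Nat.card_ne_zero.1 hx
      exact ⟨φ₀, hφ₀⟩
    obtain ⟨v, hv, P, ⟨w, hw, hP⟩, hPx⟩ := prime_of Φ (φ₀.comp (algebraMap (𝓞 L) (𝓞 E))) (by
      intro x y hy
      rw [RingHom.comp_apply, RingHom.comp_apply, ← hφ₀]
      congr 1
      apply RingOfIntegers.ext
      change algebraMap L E (y : L) = Φ' (algebraMap L E (x : L))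
      rw [hΦ', hy])
    rw [Set.mem_singleton_iff] at hw
    subst hw
    rw [hv] at hPx
    exact ⟨w, P, hv, hP, hPx⟩
  -- the mean value
  set n : ℕ := Nat.card Gal(E/ℚ) with hn
  have hn0 : 0 < n := Nat.card_pos
  have hle : ∀ p : ℕ, p.Prime → ¬ p ∣ A → xp E Φ' p ≤ n := by
    intro p hp hpA
    have hpF : Fact p.Prime := ⟨hp⟩
    have hpD : ¬ p ∣ D := fun h => hpA (hA ▸ h.mul_right _)
    have ht := (htor p hpD).1
    have hfin : Finite (𝓞 E →+* AlgebraicClosure (ZMod p)) := by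
      refine Nat.finite_of_card_ne_zero ?_
      rw [ht]
      exact hn0.ne'
    unfold xp
    rw [dif_pos hp, hn, ← ht]
    exact Nat.card_le_card_of_injective _ Subtype.val_injective
  let good : ℕ → Prop := fun p => ¬ p ∣ A ∧ xp E Φ' p ≠ 0
  let a : ℕ → ℝ := fun p => if p ∣ A then 0 else (xp E Φ' p : ℝ)
  have ha : Tendsto (M a) atTop (𝓝 1) := by
    refine M_congr (Nat.pos_of_ne_zero hA0) (b := fun p => (xp E Φ' p : ℝ)) ?_
      (chebotarev E Φ')
    intro p _ hpA
    simp only [a, if_neg hpA]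
  have hab : ∀ p, p.Prime → a p ≤ (fun p => (n : ℝ) * (if good p then 1 else 0)) p := by
    intro p hp
    simp only [a, good]
    by_cases h1 : p ∣ A
    · rw [if_pos h1]
      split_ifs <;> simp
    · rw [if_neg h1]
      by_cases h2 : xp E Φ' p = 0
      · rw [h2]
        split_ifs <;> simp
      · rw [if_pos ⟨h1, h2⟩, mul_one]
        exact_mod_cast hle p hp h1
  refine ⟨1 / (2 * n), by positivity, ?_⟩
  have h12 : ∀ᶠ N : ℕ in atTop, (1 / 2 : ℝ) < M a N := ha.eventually (lt_mem_nhds (by norm_num))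
  filter_upwards [h12, eventually_ge_atTop 2] with X hX hX2
  have hpc : 0 < (Nat.primeCounting X : ℝ) := by
    have : Nat.primeCounting X ≠ 0 := by
      rw [Ne, Nat.primeCounting_eq_zero_iff]
      omega
    exact_mod_cast Nat.pos_of_ne_zero this
  have h3 : (1 / 2 : ℝ) < M (fun p => (n : ℝ) * (if good p then 1 else 0)) X :=
    lt_of_lt_of_le hX (M_mono hab X)
  rw [M_smul] at h3
  unfold M at h3
  have h4 : (∑ p ∈ pr X, (if good p then (1 : ℝ) else 0)) = (((pr X).filter good).card : ℝ) := by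
    rw [Finset.sum_ite, Finset.sum_const_zero, add_zero, Finset.sum_const, nsmul_eq_mul, mul_one]
  rw [h4] at h3
  have hn1 : (0 : ℝ) < n := by exact_mod_cast hn0
  have h5 : 1 / (2 * (n : ℝ)) * (Nat.primeCounting X : ℝ) ≤ (((pr X).filter good).card : ℝ) := by
    have h6 : (n : ℝ) * ((((pr X).filter good).card : ℝ) / (Nat.primeCounting X : ℝ)) =
      (n * (((pr X).filter good).card : ℝ)) / (Nat.primeCounting X : ℝ) := by ring
    rw [h6, lt_div_iff₀ hpc] at h3
    rw [div_mul_eq_mul_div, one_mul, div_le_iff₀ (by positivity)]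
    linarith
  refine h5.trans ?_
  have hfin : Finite {p : ℕ // p ≤ X ∧ p.Prime ∧ B < p ∧
      ∃ (v : HeightOneSpectrum (𝓞 F)) (P : HeightOneSpectrum (𝓞 L)), Fr Φ p v P} := by
    refine Finite.of_injective (fun v => (⟨v.1, Nat.lt_succ_of_le v.2.1⟩ : Fin (X + 1))) ?_
    intro v w hvw
    apply Subtype.ext
    exact congrArg Fin.val hvw
  have h9 : ((pr X).filter good).card = Nat.card ((pr X).filter good) := by
    rw [Nat.card_eq_fintype_card, Fintype.card_coe]
  rw [h9]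
  refine Nat.cast_le.2 ?_
  refine Nat.card_le_card_of_injective (fun q => ⟨(q : ℕ), ?_⟩) ?_
  · obtain ⟨hq1, hq2, hq3⟩ := Finset.mem_filter.1 q.2
    obtain ⟨k1, k2⟩ := key q (mem_pr.1 hq1).2 hq2 hq3
    exact ⟨(mem_pr.1 hq1).1, (mem_pr.1 hq1).2, k1, k2⟩
  · intro q q' hqq
    apply Subtype.ext
    have h := congrArg Subtype.val hqq
    exact h

end Pool.Agent.H47T
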