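import Pool.Agent.H47T.QF

/-!
# Piece DIV of project TQ (helper52 for helper47)
-/

set_option autoImplicit false

namespace Pool.Agent.H47T

open NumberField IsDedekindDomain Polynomial

namespace QF

theorem prime_even {K : Type} [Field K] [NumberField K] (hK : Module.finrank ℚ K = 2) {d : ℤ} (r : K)
    (hd : Squarefree d) (hd1 : d ≠ 1) (hr : r ^ 2 = (d : K)) (l : ℕ)
    (hl : l.Prime) (hl2 : l ≠ 2) (h : ∀ v : HeightOneSpectrum (𝓞 K), ∃ m : ℤ,
      v.valuation K (l : K) = WithZero.exp (2 * m)) : (l : ℤ) ∣ d := by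
  obtain ⟨hco, hno, htr⟩ := coords hd hd1 hK r hr
  have hl0 : (l : 𝓞 K) ≠ 0 := by exact_mod_cast hl.ne_zero
  obtain ⟨I, hI⟩ := sq_ideal (l : 𝓞 K) hl0 (fun v => by
    obtain ⟨m, hm⟩ := h v
    exact ⟨m, by simpa using hm⟩)
  have hcard : Ideal.absNorm I = l := by
    have h1 : Ideal.absNorm (Ideal.span {(l : 𝓞 K)}) = l ^ 2 := by
      rw [Ideal.absNorm_span_natCast, RingOfIntegers.rank, hK]
    rw [hI, map_pow] at h1
    exact Nat.pow_left_injective (n := 2) (by norm_num) h1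
  have hcard' : Nat.card (𝓞 K ⧸ I) = l := by
    rw [← hcard, Ideal.absNorm_apply, Submodule.cardQuot_apply]
  have hint : IsIntegral ℤ r := by
    refine ⟨X ^ 2 - C d, by monicity!, ?_⟩
    rw [eval₂_sub, eval₂_X_pow, eval₂_C, eq_intCast]
    linear_combination hr
  obtain ⟨w, hw⟩ : ∃ w : 𝓞 K, (w : K) = r := ⟨⟨_, hint⟩, rfl⟩
  -- an integer congruent to `w`
  obtain ⟨c, hc⟩ : ∃ c : ℤ, w - (c : 𝓞 K) ∈ I := by
    have : Fact l.Prime := ⟨hl⟩
    have : Nontrivial (𝓞 K ⧸ I) := by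
      have : Finite (𝓞 K ⧸ I) := Nat.finite_of_card_ne_zero (by rw [hcard']; exact hl.ne_zero)
      rw [← Finite.one_lt_card_iff_nontrivial, hcard']
      exact hl.one_lt
    have h1 : Ideal.Quotient.mk I w ∈ AddSubgroup.zmultiples (1 : 𝓞 K ⧸ I) :=
      mem_zmultiples_of_prime_card hcard' one_ne_zero
    obtain ⟨c, hc⟩ := AddSubgroup.mem_zmultiples_iff.1 h1
    refine ⟨c, ?_⟩
    rw [← Ideal.Quotient.eq_zero_iff_mem, map_sub, ← hc]
    simp
  have hn1 : (l : ℤ) ∣ Algebra.norm ℤ (w - (c : 𝓞 K)) := by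
    rw [← hcard]
    exact Ideal.absNorm_dvd_norm_of_mem hc
  have hsq : (w - (c : 𝓞 K)) ^ 2 ∈ Ideal.span {(l : 𝓞 K)} := by
    rw [hI]
    exact Ideal.pow_mem_pow hc 2
  obtain ⟨y, hy⟩ := Ideal.mem_span_singleton'.1 hsq
  have hwK : ((w - (c : 𝓞 K) : 𝓞 K) : K) = (((-c : ℤ) : ℚ) : K) + ((1 : ℚ) : K) * r := by
    have h7 : ((w - (c : 𝓞 K) : 𝓞 K) : K) = (w : K) - (c : K) := by simp
    rw [h7, hw]
    push_cast
    ring
  have hnorm : (Algebra.norm ℤ (w - (c : 𝓞 K)) : ℚ) = c ^ 2 - d := by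
    rw [Algebra.coe_norm_int, hwK, hno]
    push_cast
    ring
  have htrace : (l : ℚ) * (Algebra.trace ℤ (𝓞 K) y : ℚ) = 2 * (c ^ 2 + d) := by
    rw [Algebra.coe_trace_int]
    have h2 : (l : ℚ) * Algebra.trace ℚ K (y : K) = Algebra.trace ℚ K ((l : ℚ) • (y : K)) := by
      rw [map_smul, smul_eq_mul]
    have h3 : (l : ℚ) • (y : K) = (((c ^ 2 + d : ℤ) : ℚ) : K) + (((-2 * c : ℤ) : ℚ) : K) * r := by
      have h4 : (y : K) * (l : K) = ((w - (c : 𝓞 K) : 𝓞 K) : K) ^ 2 := by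
        have h5 := congrArg (algebraMap (𝓞 K) K) hy
        rw [map_mul, map_pow] at h5
        simpa using h5
      rw [Algebra.smul_def]
      simp only [eq_ratCast, Rat.cast_natCast]
      rw [mul_comm, h4, hwK]
      push_cast
      linear_combination hr
    rw [h2, h3, htr]
    push_cast
    ring
  have hn2 : Algebra.norm ℤ (w - (c : 𝓞 K)) = c ^ 2 - d := by exact_mod_cast hnorm
  have ht2 : (l : ℤ) * Algebra.trace ℤ (𝓞 K) y = 2 * (c ^ 2 + d) := by exact_mod_cast htrace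
  have h6 : (l : ℤ) ∣ 4 * c ^ 2 := by
    have h7 : (4 : ℤ) * c ^ 2 = l * Algebra.trace ℤ (𝓞 K) y + 2 * Algebra.norm ℤ (w - (c : 𝓞 K)) := by
      rw [ht2, hn2]
      ring
    rw [h7]
    exact dvd_add (dvd_mul_right _ _) (hn1.mul_left 2)
  have hlp : Prime (l : ℤ) := Nat.prime_iff_prime_int.1 hl
  have h8 : (l : ℤ) ∣ c := by
    rcases hlp.dvd_or_dvd h6 with h9 | h9
    · exfalso
      have h10 : l ∣ 2 ^ 2 := by exact_mod_cast h9
      exact hl2 ((Nat.prime_dvd_prime_iff_eq hl Nat.prime_two).1 (hl.dvd_of_dvd_pow h10))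
    · exact hlp.dvd_of_dvd_pow h9
  have h11 : d = c ^ 2 - Algebra.norm ℤ (w - (c : 𝓞 K)) := by rw [hn2]; ring
  rw [h11]
  exact dvd_sub (dvd_pow h8 two_ne_zero) hn1

end QF

/-- Piece DIV. -/
theorem mainDIV : S_DIV := by
  intro K _ _ hK d r hd hd1 hr c hc hev l hl hl2 hlc
  refine QF.prime_even hK r hd hd1 hr l hl hl2 fun v => ?_
  obtain ⟨s1, hs1⟩ := hlc
  by_cases hlv : (l : 𝓞 K) ∈ v.asIdeal
  · have hcop : IsCoprime (l : ℤ) s1 := by
      have hlp : Prime (l : ℤ) := Nat.prime_iff_prime_int.1 hl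
      rw [hlp.coprime_iff_not_dvd]
      rintro ⟨t, ht⟩
      have h1 : (l : ℤ) * l ∣ c := ⟨t, by rw [hs1, ht]; ring⟩
      exact hlp.not_isUnit (hc _ h1)
    have hs1v : (s1 : 𝓞 K) ∉ v.asIdeal := by
      intro hs1v
      apply v.isPrime.ne_top
      rw [Ideal.eq_top_iff_one]
      obtain ⟨a, b, hab⟩ := hcop
      have h4 : ((a * l + b * s1 : ℤ) : 𝓞 K) = 1 := by
        rw [hab]
        simp
      rw [← h4]
      push_cast
      exact v.asIdeal.add_mem (v.asIdeal.mul_mem_left _ hlv) (v.asIdeal.mul_mem_left _ hs1v)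
    obtain ⟨m, hm⟩ := hev v
    refine ⟨m, ?_⟩
    rw [hs1] at hm
    push_cast at hm
    rw [map_mul, QF.val_int v s1 hs1v, mul_one] at hm
    exact hm
  · refine ⟨0, ?_⟩
    have h1 : ((l : ℤ) : 𝓞 K) ∉ v.asIdeal := by simpa using hlv
    have := QF.val_int v (l : ℤ) h1
    simpa using this

end Pool.Agent.H47T
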