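import Pool.Agent.H47T.Stm3

/-!
# Project TQ phase 3, piece DWN (helper66)
-/

set_option autoImplicit false

namespace Pool.Agent.H47T

open NumberField IsDedekindDomain

theorem mainDWN : S_DWN := by
  intro K K' _ _ _ _ _ w'
  have hl : w'.asIdeal.LiesOver (w'.under (𝓞 K)).asIdeal := ⟨rfl⟩
  exact ⟨w'.under (𝓞 K), _, Nat.pos_of_ne_zero
    (Ideal.IsDedekindDomain.ramificationIdx'_ne_zero_of_liesOver w'.asIdeal
      (w'.under (𝓞 K)).ne_bot),
    fun x => (HeightOneSpectrum.valuation_liesOver K' (w'.under (𝓞 K)) w' x).symm⟩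

end Pool.Agent.H47T
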