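import Pool.Agent.H47T.LOC2

set_option autoImplicit false

namespace Pool.Agent.H47T

open NumberField IsDedekindDomain

namespace EVAaux

open LOCPaux LOC2aux

lemma AA_symm {K : Type} [Field K] {p : ℕ} (hp : Odd p) (X Y : K) (h : X ^ p + Y ^ p ≠ 0) :
    AA p Y X = AA p X Y := by
  have h1 := AA_mul hp X Y
  have h2 := AA_mul hp Y X
  have h0 : X + Y ≠ 0 := by
    intro h0
    rw [h0, mul_zero] at h1
    exact h h1.symm
  refine mul_right_cancel₀ h0 ?_
  rw [h1, add_comm X Y, h2, add_comm]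

/-- the case of a prime not dividing `p` with `w Y ≤ w X` -/
lemma case_one {K : Type} [Field K] (w : Valuation K (WithZero (Multiplicative ℤ)))
    {p : ℕ} (hp : Odd p) (hwp : w (p : K) = 1) (X Y Z : K) (hX : X ≠ 0)
    (hXYZ : X ^ p + Y ^ p = Z ^ p) (a m : ℤ) (ha : w X = WithZero.exp (2 * a))
    (hm : w Z = WithZero.exp (2 * m)) (hYX : w Y ≤ w X) :
    ∃ k : ℤ, w (AA p X Y) = WithZero.exp (2 * k) := by
  have hX0 : w X ≠ 0 := (Valuation.ne_zero_iff _).mpr hX
  have hA : AA p X Y * (X + Y) = Z ^ p := by rw [AA_mul hp, hXYZ]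
  have hle : w (X + Y) ≤ w X := (w.map_add X Y).trans (max_le le_rfl hYX)
  rcases hle.lt_or_eq with hlt | heq
  · have hYX' : w Y = w X := by
      refine le_antisymm hYX ?_
      by_contra hlt2
      push Not at hlt2
      rw [Valuation.map_add_eq_of_lt_left _ hlt2] at hlt
      exact lt_irrefl _ hlt
    set t := -Y / X with ht
    have hYt : Y = -(t * X) := by rw [ht]; field_simp
    have hvt : w t = 1 := by rw [ht, map_div₀, Valuation.map_neg, hYX', div_self hX0]
    have ht1 : w (t - 1) < 1 := by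
      have h1 : t - 1 = -((X + Y) / X) := by rw [ht]; field_simp; ring
      rw [h1, Valuation.map_neg, map_div₀, div_lt_one₀ (zero_lt_iff.mpr hX0)]
      exact hlt
    set S := ∑ i ∈ Finset.range p, t ^ i with hS
    have hSp : w (S - (p : K)) ≤ w (t - 1) := val_geom_sub w p t hvt.le
    have hS1 : w S = 1 := by
      have h1 : S = (p : K) + (S - (p : K)) := by ring
      rw [h1, Valuation.map_add_eq_of_lt_left, hwp]
      rw [hwp]
      exact lt_of_le_of_lt hSp ht1
    refine ⟨(p - 1 : ℕ) * a, ?_⟩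
    rw [hYt, AA_eq, ← hS, map_mul, hS1, mul_one, map_pow, ha, ← WithZero.exp_nsmul]
    congr 1
    rw [nsmul_eq_mul]; ring
  · refine ⟨p * m - a, ?_⟩
    have h1 : w (AA p X Y) * w X = w Z ^ p := by rw [← heq, ← map_mul, hA, map_pow]
    rw [← eq_div_iff hX0] at h1
    rw [h1, hm, ha, ← WithZero.exp_nsmul, ← WithZero.exp_sub]
    congr 1
    rw [nsmul_eq_mul]; ring

end EVAaux

open EVAaux LOCPaux

theorem mainEVA : S_EVA := by
  intro K _ _ p hp hp2 X Y Z hX hY hZ hXYZ hEX hEY hEZ hpv v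
  have hodd : Odd p := hp.odd_of_ne_two hp2
  set w := v.valuation K with hw
  obtain ⟨a, ha⟩ := hEX v
  obtain ⟨b, hb⟩ := hEY v
  obtain ⟨m, hm⟩ := hEZ v
  have hZ0 : w Z ≠ 0 := (Valuation.ne_zero_iff _).mpr hZ
  by_cases hv : ((p : ℕ) : 𝓞 K) ∈ v.asIdeal
  · obtain ⟨hvX, hvY⟩ := hpv v hv
    have hA : AA p X Y * (X + Y) = Z ^ p := by rw [AA_mul hodd, hXYZ]
    have hA1 : w (AA p X Y) ≤ w Z ^ (p - 1) := val_AA_le w p X Y (w Z) hvX.le hvY.le
    have hS1 : w (X + Y) ≤ w Z := (w.map_add X Y).trans (by rw [hvX, hvY, max_self])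
    have hmul : w (AA p X Y) * w (X + Y) = w Z ^ p := by rw [← map_mul, hA, map_pow]
    have hp1 : p - 1 + 1 = p := Nat.sub_add_cancel hp.one_le
    have hA2 : w (AA p X Y) = w Z ^ (p - 1) := by
      refine le_antisymm hA1 ?_
      by_contra hlt
      push Not at hlt
      have h1 : w (AA p X Y) * w (X + Y) < w Z ^ (p - 1) * w Z := by
        refine lt_of_le_of_lt (mul_le_mul' le_rfl hS1) ?_
        exact mul_lt_mul_of_pos_right hlt (zero_lt_iff.mpr hZ0)
      rw [hmul, ← pow_succ, hp1] at h1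
      exact lt_irrefl _ h1
    refine ⟨(p - 1 : ℕ) * m, ?_⟩
    rw [hA2]
    have hm' : w Z = WithZero.exp (2 * m) := hm
    rw [hm', ← WithZero.exp_nsmul]
    congr 1
    rw [nsmul_eq_mul]; ring
  · have hwp : w (p : K) = 1 := by
      have h : w (algebraMap (𝓞 K) K ((p : ℕ) : 𝓞 K)) = 1 :=
        (v.valuation_eq_one_iff_notMem (K := K)).mpr hv
      rwa [map_natCast] at h
    rcases le_total (w Y) (w X) with hle | hle
    · exact case_one w hodd hwp X Y Z hX hXYZ a m ha hm hle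
    · have h0 : X ^ p + Y ^ p ≠ 0 := by rw [hXYZ]; exact pow_ne_zero _ hZ
      rw [← AA_symm hodd X Y h0]
      exact case_one w hodd hwp Y X Z hY (by rw [add_comm, hXYZ]) b m hb hm hle

end Pool.Agent.H47T
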