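import Pool.Agent.H47T.Stm2
import Pool.Agent.H437R2.Man.MWSel

set_option autoImplicit false

namespace Pool.Agent.H47T

open NumberField IsDedekindDomain

theorem mainFIN : S_FIN := by
  intro K _ _
  obtain ⟨T, hT0, hT⟩ := Pool.Agent.H437R2.Man.MW.sel_finite (K := K) ∅ Set.finite_empty
  refine ⟨T, hT0, fun a ha hev => ?_⟩
  refine hT (Units.mk0 a ha) fun v _ => ?_
  obtain ⟨m, hm⟩ := hev v
  have h1 : ((v.valuationOfNeZero (Units.mk0 a ha) : Multiplicative ℤ) : WithZero (Multiplicative ℤ)) =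
      v.valuation K a := HeightOneSpectrum.valuationOfNeZero_eq v (Units.mk0 a ha)
  rw [hm] at h1
  have h2 : v.valuationOfNeZero (Units.mk0 a ha) = Multiplicative.ofAdd (2 * m) := by
    exact WithZero.coe_inj.1 h1
  rw [h2]
  exact ⟨m, by rw [toAdd_ofAdd]; ring⟩

end Pool.Agent.H47T
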