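import Pool.Agent.H47T.Stm3
import Pool.Agent.K4H56.IF.Sel

/-!
# Project TQ phase 3, piece FINL (helper66)
-/

set_option autoImplicit false

namespace Pool.Agent.H47T

open NumberField IsDedekindDomain

theorem mainFINL : S_FINL := by
  intro l hl K _ _
  obtain ⟨T, hT0, hT⟩ := Pool.Agent.K4H56.IF.sel (K := K) hl ∅ Set.finite_empty
  refine ⟨T, hT0, fun a ha hev => hT a ha fun v _ => ?_⟩
  obtain ⟨m, hm⟩ := hev v
  show (l : ℤ) ∣ -WithZero.log (v.valuation K a)
  rw [hm, WithZero.log_exp]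
  exact ⟨-m, by ring⟩

end Pool.Agent.H47T
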