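import Pool.Agent.H47T.Stm2

/-!
# Project TQ phase 2, piece KUM
-/

set_option autoImplicit false

namespace Pool.Agent.H47T

open NumberField Polynomial

section
variable {L : Type} [Field L] (c : L)

theorem kum_irr (hc : ¬ ∃ s : L, s ^ 2 = c) : Irreducible (X ^ 2 - C c : L[X]) :=
  X_pow_sub_C_irreducible_of_prime Nat.prime_two (fun b hb => hc ⟨b, hb⟩)

theorem kum_coord (x : AdjoinRoot (X ^ 2 - C c : L[X])) : ∃ α β : L,
    x = AdjoinRoot.of _ α + AdjoinRoot.of _ β * AdjoinRoot.root (X ^ 2 - C c : L[X]) := by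
  obtain ⟨g, rfl⟩ := AdjoinRoot.mk_surjective x
  have hm : (X ^ 2 - C c : L[X]).Monic := monic_X_pow_sub_C c two_ne_zero
  have hd : (g %ₘ (X ^ 2 - C c)).degree < 2 := by
    have := degree_modByMonic_lt g hm
    rwa [degree_X_pow_sub_C (by norm_num : 0 < 2)] at this
  have h1 : AdjoinRoot.mk (X ^ 2 - C c) g = AdjoinRoot.mk (X ^ 2 - C c) (g %ₘ (X ^ 2 - C c)) := by
    conv_lhs => rw [← modByMonic_add_div g (X ^ 2 - C c)]
    rw [map_add, map_mul, AdjoinRoot.mk_self, zero_mul, add_zero]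
  have h2 : g %ₘ (X ^ 2 - C c) = C ((g %ₘ (X ^ 2 - C c)).coeff 1) * X
      + C ((g %ₘ (X ^ 2 - C c)).coeff 0) := by
    apply eq_X_add_C_of_degree_le_one
    exact Order.le_of_lt_succ hd
  refine ⟨(g %ₘ (X ^ 2 - C c)).coeff 0, (g %ₘ (X ^ 2 - C c)).coeff 1, ?_⟩
  rw [h1]
  conv_lhs => rw [h2]
  rw [map_add, map_mul, AdjoinRoot.mk_C, AdjoinRoot.mk_C, AdjoinRoot.mk_X, add_comm]

theorem kum_root : AdjoinRoot.root (X ^ 2 - C c : L[X]) ^ 2 = AdjoinRoot.of _ c := by
  have := AdjoinRoot.eval₂_root (X ^ 2 - C c : L[X])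
  rw [eval₂_sub, eval₂_pow, eval₂_X, eval₂_C, sub_eq_zero] at this
  exact this

end

/-- the strong form of the induction statement -/
def KStr (K L : Type) [Field K] [Field L] [Algebra K L] (χ : Kˣ →* ℤˣ) (Φ : L ≃ₐ[K] L) : Prop :=
  ∀ (a : Kˣ) (s : L), s ^ 2 = algebraMap K L (a : K) → Φ s = (((χ a : ℤˣ) : ℤ) : L) * s

theorem sgn_sq (ε : ℤˣ) (R : Type) [Ring R] : (((ε : ℤˣ) : ℤ) : R) ^ 2 = 1 := by
  rcases Int.units_eq_one_or ε with h | h <;> simp [h]

theorem kum_step {K L : Type} [Field K] [NumberField K] [Field L] [NumberField L] [Algebra K L]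
    (χ : Kˣ →* ℤˣ) (Φ : L ≃ₐ[K] L) (hΦ : KStr K L χ Φ) (f : Kˣ) :
    ∃ (L' : Type) (_ : Field L') (_ : NumberField L') (_ : Algebra K L') (_ : Algebra L L')
      (_ : IsScalarTower K L L') (Φ' : L' ≃ₐ[K] L'),
      KStr K L' χ Φ' ∧ ∃ s : L', s ^ 2 = algebraMap K L' (f : K) := by
  by_cases hc : ∃ s : L, s ^ 2 = algebraMap K L (f : K)
  · exact ⟨L, inferInstance, inferInstance, inferInstance, inferInstance, inferInstance, Φ, hΦ, hc⟩
  set c : L := algebraMap K L (f : K) with hcdef
  have hirr : Irreducible (X ^ 2 - C c : L[X]) := kum_irr c hc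
  have : Fact (Irreducible (X ^ 2 - C c : L[X])) := ⟨hirr⟩
  let L' := AdjoinRoot (X ^ 2 - C c : L[X])
  have : CharZero L' := charZero_of_injective_algebraMap (algebraMap L L').injective
  have : FiniteDimensional L L' :=
    (AdjoinRoot.powerBasis hirr.ne_zero).finite
  have : FiniteDimensional ℚ L' := FiniteDimensional.trans ℚ L L'
  have : NumberField L' := ⟨⟩
  have : FiniteDimensional K L' := Module.Finite.of_restrictScalars_finite ℚ K L'
  let r : L' := AdjoinRoot.root (X ^ 2 - C c : L[X])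
  have hr : r ^ 2 = algebraMap L L' c := kum_root c
  let sg : L' := (((χ f : ℤˣ) : ℤ) : L')
  have hsg : sg ^ 2 = 1 := sgn_sq _ _
  have hΦc : Φ c = c := by rw [hcdef]; exact Φ.commutes _
  let φ0 : L' →+* L' := AdjoinRoot.lift ((algebraMap L L').comp (Φ : L →+* L)) (sg * r) (by
    rw [eval₂_sub, eval₂_pow, eval₂_X, eval₂_C, mul_pow, hsg, one_mul, hr, RingHom.comp_apply]
    rw [show ((Φ : L →+* L) c) = c from hΦc, sub_self])
  have hof : ∀ x : L, φ0 (algebraMap L L' x) = algebraMap L L' (Φ x) := by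
    intro x
    exact AdjoinRoot.lift_of _
  have hroot : φ0 r = sg * r := AdjoinRoot.lift_root _
  let φ1 : L' →ₐ[K] L' := { φ0 with
    commutes' := by
      intro k
      show φ0 (algebraMap K L' k) = algebraMap K L' k
      rw [IsScalarTower.algebraMap_apply K L L', hof, Φ.commutes] }
  let Φ' : L' ≃ₐ[K] L' := AlgEquiv.ofBijective φ1 φ1.bijective
  have hΦ'of : ∀ x : L, Φ' (algebraMap L L' x) = algebraMap L L' (Φ x) := hof
  have hΦ'r : Φ' r = sg * r := hroot
  refine ⟨L', inferInstance, inferInstance, inferInstance, inferInstance, inferInstance, Φ', ?_,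
    r, ?_⟩
  · intro a s hs
    obtain ⟨α, β, hαβ⟩ := kum_coord c s
    change s = algebraMap L L' α + algebraMap L L' β * r at hαβ
    have e1 : algebraMap L L' (α ^ 2 + β ^ 2 * c - algebraMap K L a)
        + algebraMap L L' (2 * α * β) * r = 0 := by
      have h1 : s ^ 2 = algebraMap L L' (algebraMap K L a) := by
        rw [hs]; exact IsScalarTower.algebraMap_apply K L L' _
      rw [map_sub, ← h1, hαβ]
      simp only [map_add, map_mul, map_pow, ← hr, map_ofNat]
      ring
    have hαβ0 : 2 * α * β = 0 := by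
      by_contra hne
      apply hc
      refine ⟨-((α ^ 2 + β ^ 2 * c - algebraMap K L a) / (2 * α * β)), ?_⟩
      apply (algebraMap L L').injective
      rw [← hr, map_pow]
      congr 1
      have hne' : algebraMap L L' (2 * α * β) ≠ 0 := by
        simpa using hne
      rw [map_neg, map_div₀, ← neg_div, div_eq_iff hne', ← sub_eq_zero, ← neg_eq_zero]
      linear_combination e1
    have hs2 : α ^ 2 + β ^ 2 * c = algebraMap K L a := by
      rw [hαβ0, map_zero, zero_mul, add_zero] at e1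
      have := (map_eq_zero_iff _ (algebraMap L L').injective).1 e1
      exact sub_eq_zero.1 this
    have h2 : (2 : L) ≠ 0 := two_ne_zero
    rcases mul_eq_zero.1 hαβ0 with h | h
    · have hα : α = 0 := by
        rcases mul_eq_zero.1 h with h | h
        · exact absurd h h2
        · exact h
      subst hα
      rw [map_zero, zero_add] at hαβ
      have hβ : β ^ 2 = algebraMap K L ((a / f : Kˣ) : K) := by
        have hf0 : algebraMap K L (f : K) ≠ 0 := by
          simp
        rw [Units.val_div_eq_div_val, map_div₀, eq_div_iff hf0, ← hs2]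
        ring
      have h3 := hΦ _ _ hβ
      rw [hαβ, map_mul, hΦ'of, hΦ'r, h3, map_mul, map_intCast]
      have h4 : (((χ a : ℤˣ) : ℤ) : L') = (((χ (a / f) : ℤˣ) : ℤ) : L') * sg := by
        rw [← Int.cast_mul, ← Units.val_mul, ← map_mul, div_mul_cancel]
      rw [h4]
      ring
    · subst h
      rw [map_zero, zero_mul, add_zero] at hαβ
      have hα : α ^ 2 = algebraMap K L (a : K) := by
        rw [← hs2]; ring
      rw [hαβ, hΦ'of, hΦ _ _ hα, map_mul, map_intCast]
  · rw [hr]
    exact (IsScalarTower.algebraMap_apply K L L' _).symm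

theorem kum_ind {K : Type} [Field K] [NumberField K] (χ : Kˣ →* ℤˣ) (F : Finset Kˣ) :
    ∃ (L : Type) (_ : Field L) (_ : NumberField L) (_ : Algebra K L) (Φ : L ≃ₐ[K] L),
      KStr K L χ Φ ∧ ∀ f ∈ F, ∃ s : L, s ^ 2 = algebraMap K L (f : K) := by
  classical
  induction F using Finset.induction_on with
  | empty =>
    refine ⟨K, inferInstance, inferInstance, inferInstance, AlgEquiv.refl, ?_, by simp⟩
    intro a s hs
    have hs' : s ^ 2 = (a : K) := hs
    have hs0 : s ≠ 0 := by
      rintro rfl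
      apply a.ne_zero
      rw [← hs']; ring
    have : a = (Units.mk0 s hs0) ^ 2 := by
      ext
      simp [hs']
    have h1 : χ a = 1 := by
      rw [this, map_pow, Int.units_sq]
    rw [h1]
    simp
  | insert f F _ ih =>
    obtain ⟨L, _, _, _, Φ, hΦ, hF⟩ := ih
    obtain ⟨L', _, _, _, _, _, Φ', hΦ', hf⟩ := kum_step χ Φ hΦ f
    refine ⟨L', inferInstance, inferInstance, inferInstance, Φ', hΦ', ?_⟩
    intro g hg
    rcases Finset.mem_insert.1 hg with rfl | hg
    · exact hf
    · obtain ⟨s, hs⟩ := hF g hg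
      refine ⟨algebraMap L L' s, ?_⟩
      rw [← map_pow, hs]
      exact (IsScalarTower.algebraMap_apply K L L' _).symm

/-- piece KUM -/
theorem mainKUM : S_KUM := by
  intro K _ _ χ F
  obtain ⟨L, h1, h2, h3, Φ, hΦ, hF⟩ := kum_ind χ F
  refine ⟨L, h1, h2, h3, Φ, ?_⟩
  intro f hf
  obtain ⟨s, hs⟩ := hF f hf
  exact ⟨s, hs, hΦ f s hs⟩

end Pool.Agent.H47T
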