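import Pool.Agent.H47T.Stm3

/-!
# Project TQ phase 3, piece KUML (Kummer theory, helper31; after KUM of phase 2)
-/

set_option autoImplicit false

namespace Pool.Agent.H47T

open NumberField Polynomial

/-- the root of unity attached to a class modulo `l` -/
def zl {R : Type} [CommRing R] (l : ℕ) (ζ : R) (x : Multiplicative (ZMod l)) : R :=
  ζ ^ (Multiplicative.toAdd x).val

theorem zl_mul {R : Type} [CommRing R] (l : ℕ) (hl : l.Prime) (ζ : R) (hζ : ζ ^ l = 1)
    (x y : Multiplicative (ZMod l)) : zl l ζ (x * y) = zl l ζ x * zl l ζ y := by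
  have : NeZero l := ⟨hl.ne_zero⟩
  unfold zl
  rw [toAdd_mul, ZMod.val_add, ← pow_add]
  exact (pow_eq_pow_mod _ hζ).symm

theorem zl_one {R : Type} [CommRing R] (l : ℕ) (ζ : R) : zl l ζ 1 = 1 := by
  unfold zl
  rw [toAdd_one, ZMod.val_zero, pow_zero]

theorem zl_pow {R : Type} [CommRing R] (l : ℕ) (hl : l.Prime) (ζ : R) (hζ : ζ ^ l = 1)
    (x : Multiplicative (ZMod l)) (n : ℕ) : zl l ζ (x ^ n) = zl l ζ x ^ n := by
  induction n with
  | zero => rw [pow_zero, pow_zero, zl_one]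
  | succ n ih => rw [pow_succ, zl_mul l hl ζ hζ, ih, pow_succ]

section
variable {L : Type} [Field L] (l : ℕ) (c : L)

theorem kuml_root : AdjoinRoot.root (X ^ l - C c : L[X]) ^ l = AdjoinRoot.of _ c := by
  have := AdjoinRoot.eval₂_root (X ^ l - C c : L[X])
  rw [eval₂_sub, eval₂_pow, eval₂_X, eval₂_C, sub_eq_zero] at this
  exact this

theorem kuml_fix (hl : l.Prime) (ζ : L) (hζ : IsPrimitiveRoot ζ l)
    (σ : AdjoinRoot (X ^ l - C c : L[X]) →ₐ[L] AdjoinRoot (X ^ l - C c : L[X]))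
    (hσ : σ (AdjoinRoot.root _) = AdjoinRoot.of _ ζ * AdjoinRoot.root _)
    (y : AdjoinRoot (X ^ l - C c : L[X])) (hy : σ y = y) : ∃ β : L, y = AdjoinRoot.of _ β := by
  obtain ⟨g, rfl⟩ := AdjoinRoot.mk_surjective y
  have hm : (X ^ l - C c : L[X]).Monic := monic_X_pow_sub_C c hl.ne_zero
  have hd : (g %ₘ (X ^ l - C c)).degree < l := by
    have := degree_modByMonic_lt g hm
    rwa [degree_X_pow_sub_C hl.pos] at this
  have h1 : AdjoinRoot.mk (X ^ l - C c) g = AdjoinRoot.mk (X ^ l - C c) (g %ₘ (X ^ l - C c)) := by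
    conv_lhs => rw [← modByMonic_add_div g (X ^ l - C c)]
    rw [map_add, map_mul, AdjoinRoot.mk_self, zero_mul, add_zero]
  rw [h1] at hy ⊢
  set h : L[X] := g %ₘ (X ^ l - C c) with hh
  clear_value h
  have h2 : σ (AdjoinRoot.mk (X ^ l - C c) h) = AdjoinRoot.mk (X ^ l - C c) (h.comp (C ζ * X)) := by
    rw [← AdjoinRoot.aeval_eq, ← AdjoinRoot.aeval_eq, ← Polynomial.aeval_algHom_apply, hσ,
      Polynomial.aeval_comp]
    congr 1
    rw [map_mul, Polynomial.aeval_C, Polynomial.aeval_X]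
    rfl
  rw [h2, ← sub_eq_zero, ← map_sub, AdjoinRoot.mk_eq_zero] at hy
  have hd2 : (h.comp (C ζ * X) - h).degree < (X ^ l - C c : L[X]).degree := by
    rw [degree_X_pow_sub_C hl.pos]
    rw [Polynomial.degree_lt_iff_coeff_zero]
    intro m hm'
    have h3 := (Polynomial.degree_lt_iff_coeff_zero h l).1 hd m hm'
    rw [coeff_sub, Polynomial.comp_C_mul_X_coeff, h3, zero_mul, sub_zero]
  have h4 := Polynomial.eq_zero_of_dvd_of_degree_lt hy hd2
  refine ⟨h.coeff 0, ?_⟩
  have h5 : h = C (h.coeff 0) := by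
    ext j
    rw [coeff_C]
    split_ifs with hj
    · rw [hj]
    · by_cases hjl : l ≤ j
      · exact (Polynomial.degree_lt_iff_coeff_zero h l).1 hd j hjl
      · have h6 := congrArg (fun q => Polynomial.coeff q j) h4
        simp only [coeff_sub, Polynomial.comp_C_mul_X_coeff, coeff_zero] at h6
        have h7 : h.coeff j * (ζ ^ j - 1) = 0 := by linear_combination h6
        rcases mul_eq_zero.1 h7 with h8 | h8
        · exact h8
        · exfalso
          exact hζ.pow_ne_one_of_pos_of_lt hj (not_le.1 hjl) (sub_eq_zero.1 h8)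
  conv_lhs => rw [h5]
  rw [AdjoinRoot.mk_C]

theorem kuml_eig (hl : l.Prime) (ζ : L) (hζ : IsPrimitiveRoot ζ l)
    (hirr : Irreducible (X ^ l - C c : L[X])) (hc : c ≠ 0)
    (s : AdjoinRoot (X ^ l - C c : L[X])) (a : L) (ha : a ≠ 0) (hs : s ^ l = AdjoinRoot.of _ a) :
    ∃ (i : ℕ) (β : L), s = AdjoinRoot.of _ β * AdjoinRoot.root (X ^ l - C c : L[X]) ^ i := by
  have : Fact (Irreducible (X ^ l - C c : L[X])) := ⟨hirr⟩
  let L' := AdjoinRoot (X ^ l - C c : L[X])
  let r : L' := AdjoinRoot.root (X ^ l - C c : L[X])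
  have hr : r ^ l = algebraMap L L' c := kuml_root l c
  have hr0 : r ≠ 0 := by
    intro h
    rw [h, zero_pow hl.ne_zero] at hr
    exact hc ((map_eq_zero_iff _ (algebraMap L L').injective).1 hr.symm)
  have hs' : s ^ l = algebraMap L L' a := hs
  have hs0 : s ≠ 0 := by
    intro h
    rw [h, zero_pow hl.ne_zero] at hs'
    exact ha ((map_eq_zero_iff _ (algebraMap L L').injective).1 hs'.symm)
  let ζ' : L' := algebraMap L L' ζ
  have hζ' : IsPrimitiveRoot ζ' l := hζ.map_of_injective (algebraMap L L').injective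
  have hζ0 : ζ' ≠ 0 := hζ'.ne_zero hl.ne_zero
  let σ : L' →ₐ[L] L' := AdjoinRoot.liftAlgHom _ (Algebra.ofId L L') (ζ' * r) (by
    rw [eval₂_sub, eval₂_pow, eval₂_X, eval₂_C, mul_pow, hζ'.pow_eq_one, one_mul, hr]
    exact sub_self _)
  have hσr : σ r = ζ' * r := AdjoinRoot.liftAlgHom_root _ _ _ _
  have h1 : (σ s / s) ^ l = 1 := by
    rw [div_pow, ← map_pow, hs', AlgHom.commutes, div_self]
    rw [← hs']
    exact pow_ne_zero _ hs0
  have : NeZero l := ⟨hl.ne_zero⟩
  obtain ⟨i, _, hi⟩ := hζ'.eq_pow_of_pow_eq_one h1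
  have hσs : σ s = ζ' ^ i * s := by
    rw [hi, div_mul_cancel₀ _ hs0]
  have hy : σ (s / r ^ i) = s / r ^ i := by
    rw [map_div₀, map_pow, hσr, hσs, mul_pow]
    rw [mul_div_mul_left _ _ (pow_ne_zero _ hζ0)]
  obtain ⟨β, hβ⟩ := kuml_fix l c hl ζ hζ σ hσr _ hy
  refine ⟨i, β, ?_⟩
  rw [← hβ]
  exact (div_mul_cancel₀ _ (pow_ne_zero _ hr0)).symm

end

/-- the strong form of the induction statement -/
def KStrL (l : ℕ) (K L : Type) [Field K] [Field L] [Algebra K L] (ζ : K)
    (χ : Kˣ →* Multiplicative (ZMod l)) (Φ : L ≃ₐ[K] L) : Prop :=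
  ∀ (a : Kˣ) (s : L), s ^ l = algebraMap K L (a : K) →
    Φ s = algebraMap K L (zl l ζ (χ a)) * s

theorem kuml_step {l : ℕ} (hl : l.Prime) {K L : Type} [Field K] [NumberField K] [Field L]
    [NumberField L] [Algebra K L] (ζ : K) (hζ : IsPrimitiveRoot ζ l)
    (χ : Kˣ →* Multiplicative (ZMod l)) (Φ : L ≃ₐ[K] L) (hΦ : KStrL l K L ζ χ Φ) (f : Kˣ) :
    ∃ (L' : Type) (_ : Field L') (_ : NumberField L') (_ : Algebra K L') (_ : Algebra L L')
      (_ : IsScalarTower K L L') (Φ' : L' ≃ₐ[K] L'),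
      KStrL l K L' ζ χ Φ' ∧ ∃ s : L', s ^ l = algebraMap K L' (f : K) := by
  by_cases hc : ∃ s : L, s ^ l = algebraMap K L (f : K)
  · exact ⟨L, inferInstance, inferInstance, inferInstance, inferInstance, inferInstance, Φ, hΦ, hc⟩
  set c : L := algebraMap K L (f : K) with hcdef
  have hc0 : c ≠ 0 := by rw [hcdef]; simp
  have hirr : Irreducible (X ^ l - C c : L[X]) :=
    X_pow_sub_C_irreducible_of_prime hl (fun b hb => hc ⟨b, hb⟩)
  have : Fact (Irreducible (X ^ l - C c : L[X])) := ⟨hirr⟩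
  let L' := AdjoinRoot (X ^ l - C c : L[X])
  have : CharZero L' := charZero_of_injective_algebraMap (algebraMap L L').injective
  have : FiniteDimensional L L' :=
    (AdjoinRoot.powerBasis hirr.ne_zero).finite
  have : FiniteDimensional ℚ L' := FiniteDimensional.trans ℚ L L'
  have : NumberField L' := ⟨⟩
  have : FiniteDimensional K L' := Module.Finite.of_restrictScalars_finite ℚ K L'
  let r : L' := AdjoinRoot.root (X ^ l - C c : L[X])
  have hr : r ^ l = algebraMap L L' c := kuml_root l c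
  let sg : L' := algebraMap K L' (zl l ζ (χ f))
  have hzl : (zl l ζ (χ f)) ^ l = 1 := by
    unfold zl
    rw [← pow_mul, mul_comm, pow_mul, hζ.pow_eq_one, one_pow]
  have hsg : sg ^ l = 1 := by
    rw [← map_pow, hzl, map_one]
  have hΦc : Φ c = c := by rw [hcdef]; exact Φ.commutes _
  let φ0 : L' →+* L' := AdjoinRoot.lift ((algebraMap L L').comp (Φ : L →+* L)) (sg * r) (by
    rw [eval₂_sub, eval₂_pow, eval₂_X, eval₂_C, mul_pow, hsg, one_mul, hr, RingHom.comp_apply]
    rw [show ((Φ : L →+* L) c) = c from hΦc, sub_self])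
  have hof : ∀ x : L, φ0 (algebraMap L L' x) = algebraMap L L' (Φ x) := by
    intro x
    exact AdjoinRoot.lift_of _
  have hroot : φ0 r = sg * r := AdjoinRoot.lift_root _
  let φ1 : L' →ₐ[K] L' := { φ0 with
    commutes' := by
      intro k
      show φ0 (algebraMap K L' k) = algebraMap K L' k
      rw [IsScalarTower.algebraMap_apply K L L', hof, Φ.commutes] }
  let Φ' : L' ≃ₐ[K] L' := AlgEquiv.ofBijective φ1 φ1.bijective
  have hΦ'of : ∀ x : L, Φ' (algebraMap L L' x) = algebraMap L L' (Φ x) := hof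
  have hΦ'r : Φ' r = sg * r := hroot
  refine ⟨L', inferInstance, inferInstance, inferInstance, inferInstance, inferInstance, Φ', ?_,
    r, ?_⟩
  · intro a s hs
    have ha0 : algebraMap K L (a : K) ≠ 0 := by simp
    have hs1 : s ^ l = algebraMap L L' (algebraMap K L (a : K)) := by
      rw [hs]; exact IsScalarTower.algebraMap_apply K L L' _
    obtain ⟨i, β, hβ⟩ := kuml_eig l c hl (algebraMap K L ζ)
      (hζ.map_of_injective (algebraMap K L).injective) hirr hc0 s _ ha0 hs1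
    change s = algebraMap L L' β * r ^ i at hβ
    have h1 : β ^ l = algebraMap K L ((a / f ^ i : Kˣ) : K) := by
      apply (algebraMap L L').injective
      have hf0 : algebraMap K L (f : K) ^ i ≠ 0 := by
        simp
      rw [Units.val_div_eq_div_val, map_div₀, Units.val_pow_eq_pow_val, map_pow, map_div₀, map_pow,
        eq_div_iff (by simp), ← hs1, hβ, mul_pow, ← hcdef, map_pow, ← hr]
      ring
    have h2 := hΦ _ _ h1
    rw [hβ, map_mul, map_pow, hΦ'of, hΦ'r, h2, map_mul, mul_pow,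
      ← IsScalarTower.algebraMap_apply K L L']
    have h3 : algebraMap K L' (zl l ζ (χ a)) = algebraMap K L' (zl l ζ (χ (a / f ^ i))) * sg ^ i := by
      rw [← map_pow, ← map_mul]
      congr 1
      rw [← zl_pow l hl ζ hζ.pow_eq_one, ← zl_mul l hl ζ hζ.pow_eq_one, ← map_pow, ← map_mul,
        div_mul_cancel]
    rw [h3]
    ring
  · rw [hr]
    exact (IsScalarTower.algebraMap_apply K L L' _).symm

theorem kuml_ind {l : ℕ} (hl : l.Prime) {K : Type} [Field K] [NumberField K] (ζ : K)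
    (hζ : IsPrimitiveRoot ζ l) (χ : Kˣ →* Multiplicative (ZMod l)) (F : Finset Kˣ) :
    ∃ (L : Type) (_ : Field L) (_ : NumberField L) (_ : Algebra K L) (Φ : L ≃ₐ[K] L),
      KStrL l K L ζ χ Φ ∧ ∀ f ∈ F, ∃ s : L, s ^ l = algebraMap K L (f : K) := by
  classical
  induction F using Finset.induction_on with
  | empty =>
    refine ⟨K, inferInstance, inferInstance, inferInstance, AlgEquiv.refl, ?_, by simp⟩
    intro a s hs
    have hs' : s ^ l = (a : K) := hs
    have hs0 : s ≠ 0 := by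
      rintro rfl
      apply a.ne_zero
      rw [← hs', zero_pow hl.ne_zero]
    have : a = (Units.mk0 s hs0) ^ l := by
      ext
      simp [hs']
    have h1 : χ a = 1 := by
      rw [this, map_pow]
      apply Multiplicative.toAdd.injective
      rw [toAdd_pow, toAdd_one, nsmul_eq_mul, CharP.cast_eq_zero, zero_mul]
    rw [h1, zl_one]
    simp
  | insert f F _ ih =>
    obtain ⟨L, _, _, _, Φ, hΦ, hF⟩ := ih
    obtain ⟨L', _, _, _, _, _, Φ', hΦ', hf⟩ := kuml_step hl ζ hζ χ Φ hΦ f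
    refine ⟨L', inferInstance, inferInstance, inferInstance, Φ', hΦ', ?_⟩
    intro g hg
    rcases Finset.mem_insert.1 hg with rfl | hg
    · exact hf
    · obtain ⟨s, hs⟩ := hF g hg
      refine ⟨algebraMap L L' s, ?_⟩
      rw [← map_pow, hs]
      exact (IsScalarTower.algebraMap_apply K L L' _).symm

/-- piece KUML -/
theorem mainKUML : S_KUML := by
  intro l hl K _ _ ζ hζ χ F
  obtain ⟨L, h1, h2, h3, Φ, hΦ, hF⟩ := kuml_ind hl ζ hζ χ F
  refine ⟨L, h1, h2, h3, Φ, ?_⟩
  intro f hf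
  obtain ⟨s, hs⟩ := hF f hf
  exact ⟨s, hs, hΦ f s hs⟩

end Pool.Agent.H47T
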