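import Pool.Agent.H47T.Stm2

/-!
# Project TQ phase 2, piece LIN
-/

set_option autoImplicit false

namespace Pool.Agent.H47T

/-- factorisation of a linear map through another one, over a field -/
theorem lin_factor {k V W U : Type} [Field k] [AddCommGroup V] [Module k V] [AddCommGroup W]
    [Module k W] [AddCommGroup U] [Module k U] (f : V →ₗ[k] W) (φ : V →ₗ[k] U)
    (h : LinearMap.ker f ≤ LinearMap.ker φ) : ∃ ψ : W →ₗ[k] U, ψ ∘ₗ f = φ := by
  obtain ⟨g, hg⟩ := LinearMap.exists_extend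
    (((LinearMap.ker f).liftQ φ h) ∘ₗ f.quotKerEquivRange.symm.toLinearMap)
  refine ⟨g, ?_⟩
  ext x
  have := LinearMap.congr_fun hg ⟨f x, x, rfl⟩
  simp only [LinearMap.comp_apply, Submodule.subtype_apply] at this
  rw [LinearMap.comp_apply, this]
  have h2 : f.quotKerEquivRange.symm ⟨f x, x, rfl⟩ = Submodule.Quotient.mk x := by
    rw [LinearEquiv.symm_apply_eq]
    ext
    simp
  simp [h2]

/-- piece LIN -/
theorem mainLIN : S_LIN := by
  intro G _ H hsq g1 g2 g3 ε1 ε2 ε3 hε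
  let V := Additive (G ⧸ H)
  have h2 : ∀ x : V, 2 • x = 0 := by
    intro x
    obtain ⟨g, hg⟩ := QuotientGroup.mk_surjective (s := H) x.toMul
    have : x = Additive.ofMul (g : G ⧸ H) := by rw [hg]; rfl
    rw [this, ← ofMul_pow, ← QuotientGroup.mk_pow]
    have h1 : ((g ^ 2 : G) : G ⧸ H) = 1 := (QuotientGroup.eq_one_iff _).2 (hsq g)
    rw [h1]; rfl
  let _ : Module (ZMod 2) V := AddCommGroup.zmodModule h2
  let q : G → V := fun g => Additive.ofMul (g : G ⧸ H)
  let f : (ZMod 2 × ZMod 2 × ZMod 2) →ₗ[ZMod 2] V :=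
    (LinearMap.toSpanSingleton (ZMod 2) V (q g1)).coprod
      ((LinearMap.toSpanSingleton (ZMod 2) V (q g2)).coprod
        (LinearMap.toSpanSingleton (ZMod 2) V (q g3)))
  let φ : (ZMod 2 × ZMod 2 × ZMod 2) →ₗ[ZMod 2] (Additive ℤˣ) :=
    (LinearMap.toSpanSingleton (ZMod 2) _ (Additive.ofMul ε1)).coprod
      ((LinearMap.toSpanSingleton (ZMod 2) _ (Additive.ofMul ε2)).coprod
        (LinearMap.toSpanSingleton (ZMod 2) _ (Additive.ofMul ε3)))
  have key : LinearMap.ker f ≤ LinearMap.ker φ := by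
    rintro ⟨a, b, c⟩ hx
    rw [LinearMap.mem_ker] at hx ⊢
    have ha : ((a.val : ℕ) : ZMod 2) = a := ZMod.natCast_zmod_val a
    have hb : ((b.val : ℕ) : ZMod 2) = b := ZMod.natCast_zmod_val b
    have hc : ((c.val : ℕ) : ZMod 2) = c := ZMod.natCast_zmod_val c
    have h1 : f (a, b, c) = q (g1 ^ a.val * g2 ^ b.val * g3 ^ c.val) := by
      simp only [f, LinearMap.coprod_apply, LinearMap.toSpanSingleton_apply]
      conv_lhs => rw [← ha, ← hb, ← hc]
      simp only [Nat.cast_smul_eq_nsmul]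
      simp only [q, QuotientGroup.mk_mul, QuotientGroup.mk_pow, ofMul_mul, ofMul_pow, add_assoc]
    have h3 : φ (a, b, c) = Additive.ofMul (ε1 ^ a.val * ε2 ^ b.val * ε3 ^ c.val) := by
      simp only [φ, LinearMap.coprod_apply, LinearMap.toSpanSingleton_apply]
      conv_lhs => rw [← ha, ← hb, ← hc]
      simp only [Nat.cast_smul_eq_nsmul]
      simp only [ofMul_mul, ofMul_pow, add_assoc]
    rw [h1] at hx
    have h4 : g1 ^ a.val * g2 ^ b.val * g3 ^ c.val ∈ H :=
      (QuotientGroup.eq_one_iff _).1 hx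
    rw [h3, hε _ _ _ h4]
    rfl
  obtain ⟨ψ, hψ⟩ := lin_factor f φ key
  have e1 : ψ (q g1) = Additive.ofMul ε1 := by
    have := LinearMap.congr_fun hψ (1, 0, 0)
    simpa [f, φ] using this
  have e2 : ψ (q g2) = Additive.ofMul ε2 := by
    have := LinearMap.congr_fun hψ (0, 1, 0)
    simpa [f, φ] using this
  have e3 : ψ (q g3) = Additive.ofMul ε3 := by
    have := LinearMap.congr_fun hψ (0, 0, 1)
    simpa [f, φ] using this
  refine ⟨{ toFun := fun g => (ψ (q g)).toMul
            map_one' := ?_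
            map_mul' := ?_ }, ?_, ?_, ?_, ?_⟩
  · have : q 1 = 0 := rfl
    rw [this, map_zero]; rfl
  · intro x y
    have : q (x * y) = q x + q y := rfl
    rw [this, map_add]; rfl
  · intro h hh
    have : q h = 0 := (QuotientGroup.eq_one_iff _).2 hh
    show (ψ (q h)).toMul = 1
    rw [this, map_zero]; rfl
  · show (ψ (q g1)).toMul = ε1
    rw [e1]; rfl
  · show (ψ (q g2)).toMul = ε2
    rw [e2]; rfl
  · show (ψ (q g3)).toMul = ε3
    rw [e3]; rfl

end Pool.Agent.H47T
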