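import Pool.Agent.H47T.Stm3
import Pool.Agent.H47T.LIN

/-!
# Project TQ phase 3, piece LINL (helper66)
-/

set_option autoImplicit false

namespace Pool.Agent.H47T

theorem two_val {k V : Type} [Field k] [AddCommGroup V] [Module k V] (x y : V) (hx : x ≠ 0)
    (hy : y ≠ 0) : ∃ ψ : V →+ k, ψ x = 1 ∧ ψ y ≠ 0 := by
  by_cases hdep : ∃ c : k, y = c • x
  · obtain ⟨c, hc⟩ := hdep
    have hc0 : c ≠ 0 := by
      rintro rfl
      rw [zero_smul] at hc
      exact hy hc
    obtain ⟨ψ, hψ⟩ := lin_factor (LinearMap.toSpanSingleton k V x)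
      (LinearMap.id (R := k) (M := k)) (by
        intro a ha
        rw [LinearMap.mem_ker, LinearMap.toSpanSingleton_apply] at ha
        rw [LinearMap.mem_ker, LinearMap.id_apply]
        exact (smul_eq_zero.1 ha).resolve_right hx)
    have h1 : ψ x = 1 := by
      have := LinearMap.congr_fun hψ 1
      simpa using this
    refine ⟨ψ.toAddMonoidHom, h1, ?_⟩
    show ψ y ≠ 0
    rw [hc, map_smul, h1, smul_eq_mul, mul_one]
    exact hc0
  · push Not at hdep
    let f : (k × k) →ₗ[k] V :=
      (LinearMap.toSpanSingleton k V x).coprod (LinearMap.toSpanSingleton k V y)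
    let φ : (k × k) →ₗ[k] k := (LinearMap.id).coprod (LinearMap.id)
    obtain ⟨ψ, hψ⟩ := lin_factor f φ (by
      rintro ⟨a, b⟩ hx'
      rw [LinearMap.mem_ker] at hx' ⊢
      simp only [f, LinearMap.coprod_apply, LinearMap.toSpanSingleton_apply] at hx'
      have hb : b = 0 := by
        by_contra hb
        apply hdep (-(b⁻¹ * a))
        have h3 : b • y = -(a • x) := by
          rw [eq_neg_iff_add_eq_zero, add_comm]
          exact hx'
        have h4 : y = b⁻¹ • (b • y) := by
          rw [smul_smul, inv_mul_cancel₀ hb, one_smul]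
        rw [h4, h3, smul_neg, smul_smul, neg_smul]
      subst hb
      rw [zero_smul, add_zero] at hx'
      have ha : a = 0 := (smul_eq_zero.1 hx').resolve_right hx
      subst ha
      simp [φ])
    have e1 : ψ x = 1 := by
      have := LinearMap.congr_fun hψ (1, 0)
      simpa [f, φ] using this
    have e2 : ψ y = 1 := by
      have := LinearMap.congr_fun hψ (0, 1)
      simpa [f, φ] using this
    exact ⟨ψ.toAddMonoidHom, e1, by show ψ y ≠ 0; rw [e2]; exact one_ne_zero⟩

theorem mainLINL : S_LINL := by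
  intro l hl G _ H hpow g1 g2 hg1 hg2
  have : Fact l.Prime := ⟨hl⟩
  let V := Additive (G ⧸ H)
  have h2 : ∀ x : V, l • x = 0 := by
    intro x
    obtain ⟨g, hg⟩ := QuotientGroup.mk_surjective (s := H) x.toMul
    have : x = Additive.ofMul (g : G ⧸ H) := by rw [hg]; rfl
    rw [this, ← ofMul_pow, ← QuotientGroup.mk_pow]
    have h1 : ((g ^ l : G) : G ⧸ H) = 1 := (QuotientGroup.eq_one_iff _).2 (hpow g)
    rw [h1]; rfl
  let _ : Module (ZMod l) V := AddCommGroup.zmodModule h2
  let q : G → V := fun g => Additive.ofMul (g : G ⧸ H)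
  have hq0 : ∀ g, q g = 0 → g ∈ H := fun g hg => (QuotientGroup.eq_one_iff _).1 hg
  obtain ⟨ψ, e1, e2⟩ := two_val (k := ZMod l) (q g1) (q g2) (fun h => hg1 (hq0 _ h))
    (fun h => hg2 (hq0 _ h))
  refine ⟨{ toFun := fun g => Multiplicative.ofAdd (ψ (q g))
            map_one' := ?_
            map_mul' := ?_ }, ?_, ?_, ?_⟩
  · have : q 1 = 0 := rfl
    rw [this, map_zero]; rfl
  · intro x y
    have : q (x * y) = q x + q y := rfl
    rw [this, map_add]; rfl
  · intro h hh
    have : q h = 0 := (QuotientGroup.eq_one_iff _).2 hh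
    show Multiplicative.ofAdd (ψ (q h)) = 1
    rw [this, map_zero]; rfl
  · show Multiplicative.ofAdd (ψ (q g1)) = _
    rw [e1]
  · show Multiplicative.ofAdd (ψ (q g2)) ≠ 1
    intro h
    exact e2 (Multiplicative.ofAdd.injective h)

end Pool.Agent.H47T
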