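import Pool.Agent.H47T.Stm3

/-!
# Project TQ, phase 3, piece LOC3: the first case of the cubic equation is locally impossible
-/

set_option autoImplicit false

namespace Pool.Agent.H47T

open NumberField IsDedekindDomain

namespace LOC3aux

lemma lt_one_le {x : WithZero (Multiplicative ℤ)} (h : x < 1) : x ≤ WithZero.exp (-1 : ℤ) := by
  by_cases h0 : x = 0
  · rw [h0]; exact zero_le
  · rw [← WithZero.exp_log h0] at h ⊢
    rw [← WithZero.exp_zero, WithZero.exp_lt_exp] at h
    rw [WithZero.exp_le_exp]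
    omega

lemma mul_le_exp {a b : WithZero (Multiplicative ℤ)} {m n : ℤ} (ha : a ≤ WithZero.exp m)
    (hb : b ≤ WithZero.exp n) : a * b ≤ WithZero.exp (m + n) := by
  rw [WithZero.exp_add]
  exact mul_le_mul' ha hb

/-- An element of valuation one at a prime with residue field of three elements is `1` or `-1`. -/
lemma res3 {K : Type} [Field K] [NumberField K] (v : HeightOneSpectrum (𝓞 K))
    (hcard : Nat.card (𝓞 K ⧸ v.asIdeal) = 3) (t : K) (ht : v.valuation K t = 1) :
    v.valuation K (t - 1) < 1 ∨ v.valuation K (t + 1) < 1 := by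
  obtain ⟨a, ha⟩ := v.exists_valuation_sub_lt_of_integer (K := K) (x := t) ht.le 1
  rw [Units.val_one, Valuation.map_sub_swap] at ha
  have ha' : v.valuation K (t - (a : K)) < 1 := ha
  have hva : v.valuation K (a : K) = 1 := by
    have h1 : (a : K) = t - (t - (a : K)) := by ring
    rw [h1, Valuation.map_sub_eq_of_lt_left, ht]
    rwa [ht]
  have hmem : a ∉ v.asIdeal := by
    intro h
    have := (v.valuation_lt_one_iff_mem (K := K) a).mpr h
    rw [hva] at this
    exact lt_irrefl _ this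
  let _ : Field (𝓞 K ⧸ v.asIdeal) :=
    @Ideal.Quotient.field _ _ v.asIdeal (v.isPrime.isMaximal v.ne_bot)
  have : Finite (𝓞 K ⧸ v.asIdeal) := v.asIdeal.finiteQuotientOfFreeOfNeBot v.ne_bot
  let _ : Fintype (𝓞 K ⧸ v.asIdeal) := Fintype.ofFinite _
  set b : 𝓞 K ⧸ v.asIdeal := Ideal.Quotient.mk v.asIdeal a with hb
  have hb0 : b ≠ 0 := by
    intro h
    exact hmem (Ideal.Quotient.eq_zero_iff_mem.mp h)
  have hb2 : b ^ 2 = 1 := by
    have h := FiniteField.pow_card_sub_one_eq_one b hb0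
    rw [← Nat.card_eq_fintype_card, hcard] at h
    exact h
  have h3 : (b - 1) * (b + 1) = 0 := by
    have : (b - 1) * (b + 1) = b ^ 2 - 1 := by ring
    rw [this, hb2, sub_self]
  rcases mul_eq_zero.mp h3 with h | h
  · left
    have hmem2 : a - 1 ∈ v.asIdeal := by
      rw [← Ideal.Quotient.eq_zero_iff_mem, map_sub, map_one, ← hb]
      exact h
    have hvab : v.valuation K (((a - 1 : 𝓞 K) : K)) < 1 :=
      (v.valuation_lt_one_iff_mem (K := K) _).mpr hmem2
    have h9 : t - 1 = (t - (a : K)) + ((a - 1 : 𝓞 K) : K) := by push_cast; ring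
    rw [h9]
    exact Valuation.map_add_lt _ ha' hvab
  · right
    have hmem2 : a + 1 ∈ v.asIdeal := by
      rw [← Ideal.Quotient.eq_zero_iff_mem, map_add, map_one, ← hb]
      exact h
    have hvab : v.valuation K (((a + 1 : 𝓞 K) : K)) < 1 :=
      (v.valuation_lt_one_iff_mem (K := K) _).mpr hmem2
    have h9 : t + 1 = (t - (a : K)) + ((a + 1 : 𝓞 K) : K) := by push_cast; ring
    rw [h9]
    exact Valuation.map_add_lt _ ha' hvab

/-- The cube of an element near `ε = 1` or `-1` is near `ε`. -/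
lemma cube3 {K : Type} [Field K] (V : Valuation K (WithZero (Multiplicative ℤ)))
    (h3 : V 3 = WithZero.exp (-2 : ℤ)) (t ε : K) (hε : ε = 1 ∨ ε = -1) (ht : V (t - ε) < 1) :
    V (t ^ 3 - ε) ≤ WithZero.exp (-3 : ℤ) := by
  have hε2 : ε ^ 2 = 1 := by rcases hε with rfl | rfl <;> ring
  have hVε : V ε ≤ 1 := by
    rcases hε with rfl | rfl
    · rw [map_one]
    · rw [Valuation.map_neg, map_one]
  set s := t - ε with hs
  have hs1 : V s ≤ WithZero.exp (-1 : ℤ) := lt_one_le ht
  have e : t ^ 3 - ε = 3 * s + (3 * s * (ε * s) + s * s * s) := by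
    have h1 : t = s + ε := by rw [hs]; ring
    have h2 : ε ^ 3 = ε := by rw [pow_succ, hε2, one_mul]
    rw [h1]
    have h4 : (s + ε) ^ 3 - ε = 3 * s * ε ^ 2 + (3 * s * (ε * s) + s * s * s) + (ε ^ 3 - ε) := by ring
    rw [h4, h2, hε2]
    ring
  rw [e]
  have h31 : V (3 * s) ≤ WithZero.exp (-3 : ℤ) := by
    rw [map_mul]
    exact mul_le_exp h3.le hs1
  have hεs : V (ε * s) ≤ 1 := by
    rw [map_mul]
    exact mul_le_one' hVε (ht.le)
  have h32 : V (3 * s * (ε * s)) ≤ WithZero.exp (-3 : ℤ) := by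
    rw [map_mul]
    calc V (3 * s) * V (ε * s) ≤ WithZero.exp (-3 : ℤ) * 1 := mul_le_mul' h31 hεs
      _ = _ := mul_one _
  have h33 : V (s * s * s) ≤ WithZero.exp (-3 : ℤ) := by
    rw [map_mul, map_mul]
    exact mul_le_exp (mul_le_exp hs1 hs1) hs1
  exact V.map_add_le h31 (V.map_add_le h32 h33)

end LOC3aux

open LOC3aux

theorem mainLOC3 : S_LOC3 := by
  intro K _ _ v hv X Y Z hX hY hZ hXYZ hval
  obtain ⟨hXZ, hYZ⟩ := hval
  set V := v.valuation K with hV
  have hZ0 : V Z ≠ 0 := (Valuation.ne_zero_iff _).mpr hZ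
  set u := X / Z with hu
  set w := Y / Z with hw
  have hVu : V u = 1 := by rw [hu, map_div₀, hXZ, div_self hZ0]
  have hVw : V w = 1 := by rw [hw, map_div₀, hYZ, div_self hZ0]
  have huw : u ^ 3 + w ^ 3 = 1 := by
    rw [hu, hw, div_pow, div_pow, ← add_div, hXYZ, div_self (pow_ne_zero 3 hZ)]
  rcases hv with h3 | ⟨hcard, h3⟩
  · -- unramified
    set s := u + w - 1 with hs
    set c := -u ^ 2 + u ^ 2 * w + u - 2 * u * w + u * w ^ 2 + w - w ^ 2 with hc
    have es : s ^ 3 = 3 * c := by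
      have h1 : s ^ 3 = (u ^ 3 + w ^ 3 - 1) + 3 * c := by rw [hs, hc]; ring
      rw [h1, huw]; ring
    have hle : ∀ i j : ℕ, V (u ^ i * w ^ j) ≤ 1 := by
      intro i j
      rw [map_mul, map_pow, map_pow, hVu, hVw, one_pow, one_pow, one_mul]
    have hVc : V c ≤ 1 := by
      have h20 : V (-u ^ 2) ≤ 1 := by
        rw [Valuation.map_neg, map_pow, hVu, one_pow]
      have h21 : V (u ^ 2 * w) ≤ 1 := by rw [map_mul, map_pow, hVu, hVw, one_pow, one_mul]
      have h11 : V (u * w) ≤ 1 := by rw [map_mul, hVu, hVw, one_mul]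
      have h11' : V (2 * u * w) ≤ 1 := by
        have : 2 * u * w = u * w + u * w := by ring
        rw [this]
        exact V.map_add_le h11 h11
      have h12 : V (u * w ^ 2) ≤ 1 := by rw [map_mul, map_pow, hVu, hVw, one_pow, one_mul]
      have h02 : V (w ^ 2) ≤ 1 := by rw [map_pow, hVw, one_pow]
      rw [hc]
      exact V.map_sub_le (V.map_add_le (V.map_add_le (V.map_sub_le (V.map_add_le (V.map_add_le h20 h21)
        hVu.le) h11') h12) hVw.le) h02
    have hs3 : V s ^ 3 < 1 := by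
      rw [← map_pow, es, map_mul, h3]
      calc WithZero.exp (-1 : ℤ) * V c ≤ WithZero.exp (-1 : ℤ) * 1 := mul_le_mul' le_rfl hVc
        _ = WithZero.exp (-1 : ℤ) := mul_one _
        _ < 1 := by rw [← WithZero.exp_zero, WithZero.exp_lt_exp]; norm_num
    have hs1 : V s < 1 := by
      by_contra h
      push Not at h
      exact absurd hs3 (not_lt.mpr (one_le_pow₀ h))
    have hs1' := lt_one_le hs1
    have hVuw : V (u + w) = 1 := by
      have h1 : u + w = 1 + s := by rw [hs]; ring
      rw [h1, Valuation.map_add_eq_of_lt_left, map_one]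
      rwa [map_one]
    have e1 : (u + w) ^ 3 - 1 = 3 * (u * w * (u + w)) := by
      have : (u + w) ^ 3 - 1 = (u ^ 3 + w ^ 3 - 1) + 3 * (u * w * (u + w)) := by ring
      rw [this, huw]; ring
    have e2 : (u + w) ^ 3 - 1 = 3 * s + (3 * s * s + s * s * s) := by
      have h1 : u + w = 1 + s := by rw [hs]; ring
      rw [h1]; ring
    have h31 : V (3 * s) ≤ WithZero.exp (-2 : ℤ) := by
      rw [map_mul]
      exact mul_le_exp h3.le hs1'
    have h32 : V (3 * s * s) ≤ WithZero.exp (-2 : ℤ) := by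
      rw [map_mul]
      calc V (3 * s) * V s ≤ WithZero.exp (-2 : ℤ) * 1 := mul_le_mul' h31 hs1.le
        _ = _ := mul_one _
    have h33 : V (s * s * s) ≤ WithZero.exp (-2 : ℤ) := by
      rw [map_mul, map_mul]
      calc V s * V s * V s ≤ WithZero.exp (-2 : ℤ) * 1 :=
            mul_le_mul' (mul_le_exp hs1' hs1') hs1.le
        _ = _ := mul_one _
    have h4 : V ((u + w) ^ 3 - 1) ≤ WithZero.exp (-2 : ℤ) := by
      rw [e2]
      exact V.map_add_le h31 (V.map_add_le h32 h33)
    rw [e1, map_mul, map_mul, map_mul, h3, hVu, hVw, hVuw, one_mul, one_mul, mul_one,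
      WithZero.exp_le_exp] at h4
    norm_num at h4
  · -- three elements in the residue field
    have hsign : ∀ t : K, V t = 1 → ∃ ε : K, (ε = 1 ∨ ε = -1) ∧ V (t ^ 3 - ε) ≤ WithZero.exp (-3 : ℤ) := by
      intro t ht
      rcases res3 v hcard t ht with h | h
      · exact ⟨1, Or.inl rfl, cube3 V h3 t 1 (Or.inl rfl) h⟩
      · refine ⟨-1, Or.inr rfl, cube3 V h3 t (-1) (Or.inr rfl) ?_⟩
        rwa [sub_neg_eq_add]
    obtain ⟨ε, hε, h1⟩ := hsign u hVu
    obtain ⟨δ, hδ, h2⟩ := hsign w hVw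
    have h4 : V (1 - ε - δ) ≤ WithZero.exp (-3 : ℤ) := by
      have : 1 - ε - δ = (u ^ 3 - ε) + (w ^ 3 - δ) := by
        rw [← huw]; ring
      rw [this]
      exact V.map_add_le h1 h2
    have hlt : WithZero.exp (-3 : ℤ) < (1 : WithZero (Multiplicative ℤ)) := by
      rw [← WithZero.exp_zero, WithZero.exp_lt_exp]; norm_num
    rcases hε with rfl | rfl <;> rcases hδ with rfl | rfl
    · have : (1 : K) - 1 - 1 = -1 := by ring
      rw [this, Valuation.map_neg, map_one] at h4
      exact absurd h4 (not_le.mpr hlt)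
    · have : (1 : K) - 1 - -1 = 1 := by ring
      rw [this, map_one] at h4
      exact absurd h4 (not_le.mpr hlt)
    · have : (1 : K) - -1 - 1 = 1 := by ring
      rw [this, map_one] at h4
      exact absurd h4 (not_le.mpr hlt)
    · have : (1 : K) - -1 - -1 = 3 := by ring
      rw [this, h3, WithZero.exp_le_exp] at h4
      norm_num at h4

end Pool.Agent.H47T
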