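import Pool.Agent.H47T.LOC2
import Pool.Agent.H47T.Stm3

/-! Piece LOCL of project TQ, phase 3 (helper6), adapted from `LOC2.lean`. -/

set_option autoImplicit false

namespace Pool.Agent.H47T

open NumberField IsDedekindDomain

open LOC2aux LOCPaux

theorem mainLOCL : S_LOCL := by
  intro K _ _ p hp hp2 v hpv hcard X Y Z hX hY hZ hXYZ hvY hvZ
  have hodd : Odd p := hp.odd_of_ne_two hp2
  set w := v.valuation K with hw
  have hX0 : w X ≠ 0 := (Valuation.ne_zero_iff _).mpr hX
  have hp1 : p - 1 + 1 = p := Nat.sub_add_cancel hp.one_le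
  -- `w p = 1`
  have hvp : w (p : K) = 1 := by
    have h1 : w (algebraMap (𝓞 K) K ((p : ℕ) : 𝓞 K)) ≤ 1 := v.valuation_le_one (K := K) _
    have h2 : ¬ w (algebraMap (𝓞 K) K ((p : ℕ) : 𝓞 K)) < 1 := fun h =>
      hpv ((v.valuation_lt_one_iff_mem (K := K) _).mp h)
    rw [map_natCast] at h1 h2
    exact le_antisymm h1 (not_lt.mp h2)
  set t := -Y / X with ht
  have hYt : Y = -(t * X) := by rw [ht]; field_simp
  have hvt : w t = 1 := by rw [ht, map_div₀, Valuation.map_neg, hvY, div_self hX0]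
  set S := ∑ i ∈ Finset.range p, t ^ i with hS
  have hgeo : S * (t - 1) = t ^ p - 1 := geom_sum_mul t p
  have htp : t ^ p - 1 = -(Z / X) ^ p := by
    rw [ht, neg_div, hodd.neg_pow, div_pow, div_pow, ← hXYZ]
    field_simp
    ring
  have hZX : w (Z / X) ≤ WithZero.exp (-1) := by
    rw [map_div₀]
    rw [div_le_iff₀ (zero_lt_iff.mpr hX0), mul_comm]
    exact hvZ
  have hexp : (WithZero.exp (-1 : ℤ)) ^ p = WithZero.exp (-(p : ℤ)) := by
    rw [← WithZero.exp_nsmul]; congr 1; simp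
  have htp2 : w (t ^ p - 1) ≤ WithZero.exp (-(p : ℤ)) := by
    rw [htp, Valuation.map_neg, map_pow, ← hexp]
    exact pow_le_pow_left₀ zero_le hZX p
  have htp1 : w (t ^ p - 1) < 1 := by
    refine lt_of_le_of_lt htp2 ?_
    rw [← WithZero.exp_zero, WithZero.exp_lt_exp]
    have := hp.pos
    omega
  -- residue of `t`
  have ht1 : w (t - 1) < 1 := by
    obtain ⟨a, ha⟩ := v.exists_valuation_sub_lt_of_integer (K := K) (x := t) hvt.le 1
    rw [Units.val_one, Valuation.map_sub_swap] at ha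
    have ha' : w (t - (a : K)) < 1 := ha
    have hta : w (t ^ p - (a : K) ^ p) < 1 := by
      have ha1 : w (a : K) ≤ 1 := v.valuation_le_one (K := K) a
      rw [← Commute.geom_sum₂_mul (Commute.all t (a : K)) p, map_mul]
      have h3 : w (∑ i ∈ Finset.range p, t ^ i * (a : K) ^ (p - 1 - i)) ≤ 1 :=
        w.map_sum_le fun j _ => by
          rw [map_mul, map_pow, map_pow, hvt, one_pow, one_mul]
          exact pow_le_one₀ zero_le ha1
      calc _ ≤ 1 * w (t - (a : K)) := mul_le_mul' h3 le_rfl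
        _ < 1 := by rwa [one_mul]
    have hap : w (((a ^ p - 1 : 𝓞 K) : K)) < 1 := by
      have h4 : ((a ^ p - 1 : 𝓞 K) : K) = (t ^ p - 1) - (t ^ p - (a : K) ^ p) := by
        push_cast; ring
      rw [h4]
      exact Valuation.map_sub_lt _ htp1 hta
    have hmem : a ^ p - 1 ∈ v.asIdeal := (v.valuation_lt_one_iff_mem (K := K) _).mp hap
    -- the residue field
    let _ : Field (𝓞 K ⧸ v.asIdeal) :=
      @Ideal.Quotient.field _ _ v.asIdeal (v.isPrime.isMaximal v.ne_bot)
    have : Finite (𝓞 K ⧸ v.asIdeal) := v.asIdeal.finiteQuotientOfFreeOfNeBot v.ne_bot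
    let _ : Fintype (𝓞 K ⧸ v.asIdeal) := Fintype.ofFinite _
    set b : 𝓞 K ⧸ v.asIdeal := Ideal.Quotient.mk v.asIdeal a with hb
    have hbp : b ^ p = 1 := by
      have h5 : Ideal.Quotient.mk v.asIdeal (a ^ p - 1) = 0 := Ideal.Quotient.eq_zero_iff_mem.mpr hmem
      rw [map_sub, map_pow, map_one, sub_eq_zero] at h5
      exact h5
    have hb0 : b ≠ 0 := by
      intro h0
      rw [h0, zero_pow hp.ne_zero] at hbp
      exact zero_ne_one hbp
    have hbq : b ^ (Nat.card (𝓞 K ⧸ v.asIdeal) - 1) = 1 := by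
      rw [Nat.card_eq_fintype_card]
      exact FiniteField.pow_card_sub_one_eq_one b hb0
    have hb1 : b = 1 := by
      have h6 : orderOf b ∣ p := orderOf_dvd_of_pow_eq_one hbp
      have h7 : orderOf b ∣ Nat.card (𝓞 K ⧸ v.asIdeal) - 1 := orderOf_dvd_of_pow_eq_one hbq
      rcases (Nat.dvd_prime hp).mp h6 with h8 | h8
      · exact orderOf_eq_one_iff.mp h8
      · rw [h8] at h7; exact absurd h7 hcard
    have hmem2 : a - 1 ∈ v.asIdeal := by
      rw [← Ideal.Quotient.eq_zero_iff_mem, map_sub, map_one, ← hb, hb1, sub_self]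
    have hvab : w (((a - 1 : 𝓞 K) : K)) < 1 := (v.valuation_lt_one_iff_mem (K := K) _).mpr hmem2
    have h9 : t - 1 = (t - (a : K)) + ((a - 1 : 𝓞 K) : K) := by push_cast; ring
    rw [h9]
    exact Valuation.map_add_lt _ ha' hvab
  -- `w S = 1`
  have hSp : w (S - (p : K)) ≤ w (t - 1) := val_geom_sub w p t hvt.le
  have hS1 : w S = 1 := by
    have h1 : S = (p : K) + (S - (p : K)) := by ring
    rw [h1, Valuation.map_add_eq_of_lt_left, hvp]
    rw [hvp]
    exact lt_of_le_of_lt hSp ht1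
  have ht2 : w (t - 1) ≤ WithZero.exp (-(p : ℤ)) := by
    have h1 : w S * w (t - 1) = w (t ^ p - 1) := by rw [← map_mul, hgeo]
    rw [hS1, one_mul] at h1
    rw [h1]; exact htp2
  have hpK : (p : K) ≠ 0 := by
    intro h0
    rw [h0, map_zero] at hvp
    exact zero_ne_one hvp
  have hfin : AA p X Y / (p * X ^ (p - 1)) - 1 = (S - (p : K)) / (p : K) := by
    rw [hYt, AA_eq, ← hS]
    have hXp : X ^ (p - 1) ≠ 0 := pow_ne_zero _ hX
    field_simp
  rw [hfin, map_div₀, hvp, div_one]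
  exact hSp.trans ht2

end Pool.Agent.H47T
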