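import Pool.Agent.H47T.Stm4

/-!
# Project TQ, phase 4, piece LOCM: the first case of exponent `l` is locally impossible
-/

set_option autoImplicit false

namespace Pool.Agent.H47T

open NumberField IsDedekindDomain

namespace LOCMaux

/-- the middle part of the binomial expansion, divided by `l` -/
noncomputable def MM {R : Type} [CommRing R] (l : ℕ) (x y : R) : R :=
  ∑ i ∈ Finset.Ioo 0 l, ((l.choose i / l : ℕ) : R) * x ^ i * y ^ (l - i)

lemma add_pow_eq {R : Type} [CommRing R] {l : ℕ} (hl : l.Prime) (x y : R) :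
    (x + y) ^ l = x ^ l + y ^ l + l * MM l x y := by
  rw [add_pow_prime_eq' hl]
  congr 2
  unfold MM
  exact Finset.sum_congr rfl fun i _ => by ring

lemma map_MM {R S : Type} [CommRing R] [CommRing S] (f : R →+* S) (l : ℕ) (x y : R) :
    f (MM l x y) = MM l (f x) (f y) := by
  unfold MM
  rw [map_sum]
  refine Finset.sum_congr rfl fun i _ => ?_
  rw [map_mul, map_mul, map_natCast, map_pow, map_pow]

section val

variable {K : Type} [Field K] {Γ : Type} [LinearOrderedCommGroupWithZero Γ] (V : Valuation K Γ)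

omit [Field K] in
lemma mlt {a b : Γ} (ha : a < 1) (hb : b ≤ 1) : a * b < 1 :=
  lt_of_le_of_lt (calc a * b ≤ a * 1 := mul_le_mul' le_rfl hb
    _ = a := mul_one a) ha

omit [Field K] in
lemma mlt' {a b : Γ} (ha : a ≤ 1) (hb : b < 1) : a * b < 1 := by
  rw [mul_comm]; exact mlt hb ha

lemma val_MM (hn : ∀ n : ℕ, V (n : K) ≤ 1) (l : ℕ) {x y : K} (hx : V x ≤ 1) (hy : V y ≤ 1) :
    V (MM l x y) ≤ 1 := by
  unfold MM
  refine V.map_sum_le fun i _ => ?_
  rw [map_mul, map_mul, map_pow, map_pow]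
  exact mul_le_one' (mul_le_one' (hn _) (pow_le_one₀ zero_le hx)) (pow_le_one₀ zero_le hy)

lemma val_pow_sub {x x' : K} (hx : V x ≤ 1) (hx' : V x' ≤ 1) (h : V (x - x') < 1) (i : ℕ) :
    V (x ^ i - x' ^ i) < 1 := by
  rw [← Commute.geom_sum₂_mul (Commute.all x x') i, map_mul]
  have h3 : V (∑ j ∈ Finset.range i, x ^ j * x' ^ (i - 1 - j)) ≤ 1 :=
    V.map_sum_le fun j _ => by
      rw [map_mul, map_pow, map_pow]
      exact mul_le_one' (pow_le_one₀ zero_le hx) (pow_le_one₀ zero_le hx')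
  calc _ ≤ 1 * V (x - x') := mul_le_mul' h3 le_rfl
    _ < 1 := by rwa [one_mul]

lemma val_MM_sub (hn : ∀ n : ℕ, V (n : K) ≤ 1) (l : ℕ) {x y x' y' : K} (hx : V x ≤ 1)
    (hy : V y ≤ 1) (hx' : V x' ≤ 1) (hy' : V y' ≤ 1) (h1 : V (x - x') < 1) (h2 : V (y - y') < 1) :
    V (MM l x y - MM l x' y') < 1 := by
  unfold MM
  rw [← Finset.sum_sub_distrib]
  refine V.map_sum_lt one_ne_zero fun i _ => ?_
  have e : ((l.choose i / l : ℕ) : K) * x ^ i * y ^ (l - i)
      - ((l.choose i / l : ℕ) : K) * x' ^ i * y' ^ (l - i)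
      = ((l.choose i / l : ℕ) : K) * ((x ^ i - x' ^ i) * y ^ (l - i)
        + x' ^ i * (y ^ (l - i) - y' ^ (l - i))) := by ring
  rw [e, map_mul]
  have h3 : V ((x ^ i - x' ^ i) * y ^ (l - i) + x' ^ i * (y ^ (l - i) - y' ^ (l - i))) < 1 := by
    refine V.map_add_lt ?_ ?_
    · rw [map_mul, map_pow]
      exact mlt (val_pow_sub V hx hx' h1 i) (pow_le_one₀ zero_le hy)
    · rw [map_mul, map_pow]
      exact mlt' (pow_le_one₀ zero_le hx') (val_pow_sub V hy hy' h2 (l - i))
  exact mlt' (hn _) h3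

/-- If `x` is small then so is the middle part for `x` and `1`. -/
lemma val_MM_small (hn : ∀ n : ℕ, V (n : K) ≤ 1) (l : ℕ) {x : K} (hx : V x < 1) :
    V (MM l x 1) < 1 := by
  unfold MM
  refine V.map_sum_lt one_ne_zero fun i hi => ?_
  rw [Finset.mem_Ioo] at hi
  rw [map_mul, map_mul, map_pow, map_pow, map_one, one_pow, mul_one]
  exact mlt' (hn _) (pow_lt_one₀ zero_le hx (by omega))

end val

end LOCMaux

open LOCMaux

theorem mainLOCM : S_LOCM := by
  intro l hl hl2 K _ _ v e hve he hle hM X Y Z hX hY hZ hXYZ hval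
  obtain ⟨hXZ, hYZ⟩ := hval
  set V := v.valuation K with hV
  have hn : ∀ n : ℕ, V (n : K) ≤ 1 := by
    intro n
    have h := v.valuation_le_one (K := K) ((n : ℕ) : 𝓞 K)
    simpa using h
  have hVl : V (l : K) < 1 := by
    rw [hve, ← WithZero.exp_zero, WithZero.exp_lt_exp]
    omega
  have hZ0 : V Z ≠ 0 := (Valuation.ne_zero_iff _).mpr hZ
  set u := X / Z with hu
  set w := Y / Z with hw
  have hVu : V u = 1 := by rw [hu, map_div₀, hXZ, div_self hZ0]
  have hVw : V w = 1 := by rw [hw, map_div₀, hYZ, div_self hZ0]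
  have huw : u ^ l + w ^ l = 1 := by
    rw [hu, hw, div_pow, div_pow, ← add_div, hXYZ, div_self (pow_ne_zero l hZ)]
  set s := u + w - 1 with hs
  have hs1 : u + w = s + 1 := by rw [hs]; ring
  have hVs1 : V s ≤ 1 := by
    rw [hs]
    exact V.map_sub_le (V.map_add_le hVu.le hVw.le) (by rw [map_one])
  -- the two expansions
  have e1 : (u + w) ^ l = 1 + l * MM l u w := by rw [add_pow_eq hl, huw]
  have e2 : (s + 1) ^ l = s ^ l + 1 + l * MM l s 1 := by rw [add_pow_eq hl, one_pow]
  have e3 : s ^ l = l * (MM l u w - MM l s 1) := by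
    have h1 : s ^ l + 1 + l * MM l s 1 = 1 + l * MM l u w := by rw [← e2, ← hs1, e1]
    linear_combination h1
  have hVs : V s < 1 := by
    have h1 : V s ^ l < 1 := by
      rw [← map_pow, e3, map_mul]
      have h2 : V (MM l u w - MM l s 1) ≤ 1 :=
        V.map_sub_le (val_MM V hn l hVu.le hVw.le) (val_MM V hn l hVs1 (by rw [map_one]))
      exact mul_lt_one_of_lt_of_le hVl h2
    by_contra h
    push Not at h
    exact absurd h1 (not_lt.mpr (one_le_pow₀ h))
  -- the residues
  obtain ⟨a, ha⟩ := v.exists_valuation_sub_lt_of_integer (K := K) (x := u) hVu.le 1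
  rw [Units.val_one, Valuation.map_sub_swap] at ha
  have ha' : V (u - (a : K)) < 1 := ha
  obtain ⟨b, hb⟩ := v.exists_valuation_sub_lt_of_integer (K := K) (x := w) hVw.le 1
  rw [Units.val_one, Valuation.map_sub_swap] at hb
  have hb' : V (w - (b : K)) < 1 := hb
  have hnm : ∀ x : 𝓞 K, V (x : K) = 1 → x ∉ v.asIdeal := by
    intro x hx hmem
    have h1 : V (x : K) < 1 := (v.valuation_lt_one_iff_mem (K := K) x).mpr hmem
    rw [hx] at h1
    exact lt_irrefl _ h1
  have hVa : V (a : K) = 1 := by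
    have h1 : (a : K) = u - (u - (a : K)) := by ring
    rw [h1, Valuation.map_sub_eq_of_lt_left, hVu]
    rwa [hVu]
  have hVb : V (b : K) = 1 := by
    have h1 : (b : K) = w - (w - (b : K)) := by ring
    rw [h1, Valuation.map_sub_eq_of_lt_left, hVw]
    rwa [hVw]
  have hVab : V ((a + b : 𝓞 K) : K) = 1 := by
    have h1 : ((a + b : 𝓞 K) : K) = 1 + (s - ((u - (a : K)) + (w - (b : K)))) := by
      rw [hs]; push_cast; ring
    rw [h1, Valuation.map_add_eq_of_lt_left, map_one]
    rw [map_one]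
    exact Valuation.map_sub_lt _ hVs (Valuation.map_add_lt _ ha' hb')
  have hMab := hM a b (hnm a hVa) (hnm b hVb) (hnm _ hVab)
  have hVM : V (MM l (a : K) (b : K)) = 1 := by
    have h1 : MM l (a : K) (b : K) = ((MM l a b : 𝓞 K) : K) := by
      exact (map_MM (algebraMap (𝓞 K) K) l a b).symm
    rw [h1]
    have h2 : V ((MM l a b : 𝓞 K) : K) ≤ 1 := v.valuation_le_one (K := K) _
    refine le_antisymm h2 ?_
    by_contra h3
    push Not at h3
    exact hMab ((v.valuation_lt_one_iff_mem (K := K) _).mp h3)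
  have hVMu : V (MM l u w - MM l s 1) = 1 := by
    have h1 : MM l u w - MM l s 1 = MM l (a : K) (b : K)
        + ((MM l u w - MM l (a : K) (b : K)) - MM l s 1) := by ring
    rw [h1, Valuation.map_add_eq_of_lt_left, hVM]
    rw [hVM]
    exact Valuation.map_sub_lt _ (val_MM_sub V hn l hVu.le hVw.le hVa.le hVb.le ha' hb')
      (val_MM_small V hn l hVs)
  have hfin : V s ^ l = WithZero.exp (-(e : ℤ)) := by
    rw [← map_pow, e3, map_mul, hVMu, mul_one, hve]
  have hs0 : V s ≠ 0 := by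
    intro h
    rw [h, zero_pow hl.ne_zero] at hfin
    exact WithZero.exp_ne_zero hfin.symm
  rw [← WithZero.exp_log hs0, ← WithZero.exp_nsmul, WithZero.exp_inj] at hfin
  apply hle
  have h4 : (l : ℤ) ∣ (e : ℤ) := by
    refine ⟨-(WithZero.log (V s)), ?_⟩
    rw [nsmul_eq_mul] at hfin
    linarith
  exact_mod_cast h4

end Pool.Agent.H47T
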