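import Pool.Agent.H47T.Stm

set_option autoImplicit false

namespace Pool.Agent.H47T

open NumberField IsDedekindDomain

namespace LOCPaux

lemma AA_mul {K : Type} [Field K] {p : ℕ} (hp : Odd p) (X Y : K) :
    AA p X Y * (X + Y) = X ^ p + Y ^ p := by
  have h := Commute.geom_sum₂_mul (Commute.all (-Y) X) p
  have h2 : AA p X Y = ∑ i ∈ Finset.range p, (-Y) ^ i * X ^ (p - 1 - i) := by
    unfold AA
    exact Finset.sum_congr rfl fun i _ => mul_comm _ _
  have h3 : (-Y) ^ p = - Y ^ p := hp.neg_pow Y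
  rw [h2]
  have h4 : (∑ i ∈ Finset.range p, (-Y) ^ i * X ^ (p - 1 - i)) * (X + Y)
      = -((∑ i ∈ Finset.range p, (-Y) ^ i * X ^ (p - 1 - i)) * (-Y - X)) := by ring
  rw [h4, h, h3]; ring

lemma AA_scale {K : Type} [Field K] (p : ℕ) (X Y c : K) :
    AA p (c * X) (c * Y) = c ^ (p - 1) * AA p X Y := by
  unfold AA
  rw [Finset.mul_sum]
  refine Finset.sum_congr rfl fun i hi => ?_
  have hi' : i ≤ p - 1 := by have := Finset.mem_range.mp hi; omega
  have h1 : c ^ (p - 1) = c ^ (p - 1 - i) * c ^ i := by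
    rw [← pow_add]; congr 1; omega
  rw [h1, show -(c * Y) = c * (-Y) by ring, mul_pow, mul_pow]; ring

/-- a general bound of sums -/
lemma val_AA_le {K : Type} [Field K] {Γ : Type} [LinearOrderedCommGroupWithZero Γ]
    (v : Valuation K Γ) (p : ℕ) (X Y : K) (M : Γ) (hX : v X ≤ M) (hY : v Y ≤ M) :
    v (AA p X Y) ≤ M ^ (p - 1) := by
  unfold AA
  refine v.map_sum_le fun i hi => ?_
  have hi' : i ≤ p - 1 := by have := Finset.mem_range.mp hi; omega
  rw [map_mul, map_pow, map_pow, Valuation.map_neg]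
  calc v X ^ (p - 1 - i) * v Y ^ i ≤ M ^ (p - 1 - i) * M ^ i :=
        mul_le_mul' (pow_le_pow_left₀ zero_le hX _) (pow_le_pow_left₀ zero_le hY _)
    _ = M ^ (p - 1) := by rw [← pow_add]; congr 1; omega

end LOCPaux

open LOCPaux

theorem mainLOCP : S_LOCP := by
  intro K _ _ p hp hp2 v hpv X Y Z hX hY hZ hXYZ hvX hvY
  have hodd : Odd p := hp.odd_of_ne_two hp2
  set w := v.valuation K with hw
  have hvp : w (p : K) < 1 := by
    have h := (v.valuation_lt_one_iff_mem (K := K) ((p : ℕ) : 𝓞 K)).mpr hpv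
    simpa using h
  have hA : AA p X Y * (X + Y) = Z ^ p := by rw [AA_mul hodd, hXYZ]
  have hZ0 : w Z ≠ 0 := (Valuation.ne_zero_iff _).mpr hZ
  have hA1 : w (AA p X Y) ≤ w Z ^ (p - 1) := val_AA_le w p X Y (w Z) hvX.le hvY.le
  have hS1 : w (X + Y) ≤ w Z := (w.map_add X Y).trans (by rw [hvX, hvY, max_self])
  have hmul : w (AA p X Y) * w (X + Y) = w Z ^ p := by rw [← map_mul, hA, map_pow]
  have hp1 : p - 1 + 1 = p := Nat.sub_add_cancel hp.one_le
  have hS : w (X + Y) = w Z := by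
    refine le_antisymm hS1 ?_
    by_contra hlt
    push Not at hlt
    have h1 : w (AA p X Y) * w (X + Y) < w Z ^ (p - 1) * w Z := by
      refine lt_of_le_of_lt (mul_le_mul' hA1 le_rfl) ?_
      exact mul_lt_mul_of_pos_left hlt (zero_lt_iff.mpr (pow_ne_zero _ hZ0))
    rw [hmul, ← pow_succ, hp1] at h1
    exact lt_irrefl _ h1
  have hXY0 : X + Y ≠ 0 := by
    intro h0
    rw [h0, map_zero] at hS
    exact hZ0 hS.symm
  set s := X + Y with hs
  have hws0 : w s ≠ 0 := (Valuation.ne_zero_iff _).mpr hXY0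
  set X' := X / s with hX'
  set Y' := Y / s with hY'
  have hsum : X' + Y' = 1 := by rw [hX', hY', ← add_div, ← hs, div_self hXY0]
  have hvX' : w X' = 1 := by rw [hX', map_div₀, hvX, hS, div_self hZ0]
  have hvY' : w Y' = 1 := by rw [hY', map_div₀, hvY, hS, div_self hZ0]
  have hAA : AA p X Y / s ^ (p - 1) = X' ^ p + Y' ^ p := by
    have h1 : AA p X' Y' = s⁻¹ ^ (p - 1) * AA p X Y := by
      rw [← AA_scale, hX', hY']; congr 1 <;> (rw [div_eq_mul_inv, mul_comm])
    have h2 := AA_mul hodd X' Y'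
    rw [hsum, mul_one] at h2
    rw [← h2, h1, inv_pow, div_eq_mul_inv, mul_comm]
  -- in the valuation subring
  let R := w.valuationSubring
  let x : R := ⟨X', by rw [Valuation.mem_valuationSubring_iff]; exact hvX'.le⟩
  let y : R := ⟨Y', by rw [Valuation.mem_valuationSubring_iff]; exact hvY'.le⟩
  obtain ⟨r, hr⟩ := exists_add_pow_prime_eq hp x y
  have hr' : (1 : K) = X' ^ p + Y' ^ p + p * X' * Y' * (r : K) := by
    have h := congrArg (fun z : R => (z : K)) hr
    simp only [x, y] at h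
    push_cast at h
    rw [hsum, one_pow] at h
    exact h
  have hrv : w (r : K) ≤ 1 := (Valuation.mem_valuationSubring_iff _ _).mp r.2
  rw [hAA]
  have : X' ^ p + Y' ^ p - 1 = -(p * X' * Y' * (r : K)) := by
    linear_combination -hr'
  rw [this, Valuation.map_neg, map_mul, map_mul, map_mul, hvX', hvY', mul_one, mul_one]
  calc w (p : K) * w (r : K) ≤ w (p : K) * 1 := mul_le_mul' le_rfl hrv
    _ < 1 := by rwa [mul_one]

end Pool.Agent.H47T
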