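import Pool.Agent.H47T.Stm3

/-!
# Project TQ, phase 4: exponents `l ^ k p`, explicit primes `p`, no Chebotarev

Goal: let `l` be an odd prime, `K` a number field of degree `d` such that at the primes `P` above `l` the
first case of the equation of exponent `l ^ k` is impossible (always so if `l = 3` and `3` does not
divide the ramification index) and `k e_P < l ^ k`. Let `p ≠ 2, l` be a prime, `p ∤ N(P) - 1`. Then the
first case of Fermat's Last Theorem holds over `K` for all exponents divisible by `l ^ k p`, unless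
`p ^ (d (l - 1)) ≡ 1` modulo `l ^ (k + 1)`. So over EVERY quadratic field it holds for the exponents
`3 p` for all `p` not `1` or `-1` modulo `9`, and for `3 ^ k p` if `3 ^ (k + 1) > p + 1`.

Proof. `X = x ^ m`, `Y`, `Z`, `m = l ^ k`, `X ^ p + Y ^ p = Z ^ p`. Let `B` be the product of
`(X ^ p + Y ^ p) / (X + Y)`, `(Z ^ p - Y ^ p) / (Z - Y)`, `(Z ^ p - X ^ p) / (Z - X)`. All its valuations
are divisible by `m` (EVAL), so its norm is an `m`-th power in `ℚ` (IDN). At every `P` above `l` exactly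
one of `X, Y, Z` is more divisible, so one of the three factors is `p` times an `m`-th power and the
other two are `m`-th powers, up to factors `1 + t`. So `B = p b ^ m (1 + t)` with `b ∈ K`, `t` small at
all primes above `l` (APP), `N B = p ^ d (N b) ^ m N (1 + t)`, `N (1 + t) ≡ 1` modulo `l ^ (k + 1)`
(NRN), and `p ^ d` is an `m`-th power modulo `l ^ (k + 1)` (RAT).

Each piece is a `Prop`; prove it as a theorem `main<NAME> : S_<NAME>` in a file of its own
(`Pool/Agent/H47T/<NAME>.lean`, namespace `Pool.Agent.H47T`). All of them are short.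
-/

set_option autoImplicit false

namespace Pool.Agent.H47T

open NumberField IsDedekindDomain

/-- IDN. Proof. Multiplying `a` by the `m`-th power of a positive integer we may assume that `a` is
integral. The ideal of `a` is an `m`-th power (all multiplicities in its factorisation are
divisible by `m`; see `FINL`, `Pool/Agent/K4H56/IF/Sel.lean`, `Pool/Agent/H47T/NRM.lean` or
`Pool/Agent/Y309/WQ/KNQ.lean` for such arguments), so `|N a| = absNorm (a) = (absNorm I) ^ m`. -/
def S_IDN : Prop := ∀ (m : ℕ), 0 < m → ∀ (K : Type) [Field K] [NumberField K] (a : K), a ≠ 0 →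
  EvL m a → ∃ c : ℚ, Algebra.norm ℚ a = c ^ m ∨ Algebra.norm ℚ a = -c ^ m

/-- NRN. Proof. Write `t = l ^ k r`, so `v r < 1` at all primes above `l`. There is a positive integer
`s` prime to `l` with `s r` integral (write `r = α / (l ^ j s)`, `α ∈ 𝓞 K`; then `α / l ^ j` has
valuations at most `1`), and multiplying by an integer we may assume `s ≡ 1` modulo `l ^ (k + 1)`.
Then `s (1 + t) = s + l ^ k (s r) = 1 + l ^ k β`, where `β ∈ 𝓞 K` lies in all primes above `l`. So some
power of `β` is in `l 𝓞 K` (`Ideal.radical`), the matrix of multiplication by `β` is nilpotent modulo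
`l`, and `l` divides the trace of `β` (`Matrix.isNilpotent_trace_of_isNilpotent`). Now
`N (1 + l ^ k β) = 1 + l ^ k Tr β + l ^ (2 k) (...)` (`Matrix.det_one_add_smul`). -/
def S_NRN : Prop := ∀ (l : ℕ), l.Prime → ∀ (k : ℕ), 0 < k → ∀ (K : Type) [Field K] [NumberField K]
  (t : K), (∀ P : HeightOneSpectrum (𝓞 K), ((l : ℕ) : 𝓞 K) ∈ P.asIdeal →
    P.valuation K t ≤ P.valuation K (l : K) ^ k * WithZero.exp (-1)) →
  ∃ a b : ℤ, ¬ (l : ℤ) ∣ b ∧ Algebra.norm ℚ (1 + t) = 1 + (l : ℚ) ^ (k + 1) * (a / b)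

/-- APP (weak approximation). Proof. Finitely many primes contain `l`. Multiplying all `b P` by an
integer we may assume that they are in `𝓞 K`; use `IsDedekindDomain.exists_forall_sub_mem_ideal` with
large exponents. -/
def S_APP : Prop := ∀ (l : ℕ), l ≠ 0 → ∀ (K : Type) [Field K] [NumberField K]
  (b : HeightOneSpectrum (𝓞 K) → K) (N : ℕ), (∀ P, b P ≠ 0) →
  ∃ c : K, c ≠ 0 ∧ ∀ P : HeightOneSpectrum (𝓞 K), ((l : ℕ) : 𝓞 K) ∈ P.asIdeal →
    P.valuation K (c / b P - 1) ≤ WithZero.exp (-(N : ℤ))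

/-- RAT (elementary). Proof. `c = u / w` with `u, w` prime to each other; the equation gives
`p ^ d (b + l ^ (k + 1) a) w ^ (l ^ k) = b u ^ (l ^ k)`, so `l` divides neither `w` nor `u`, and
`p ^ d w ^ (l ^ k) ≡ u ^ (l ^ k)` modulo `l ^ (k + 1)` (`b` is invertible). Raise it to the power `l - 1`
and use Euler's theorem, `φ (l ^ (k + 1)) = l ^ k (l - 1)`. -/
def S_RAT : Prop := ∀ (l : ℕ), l.Prime → ∀ (k p d : ℕ), ¬ l ∣ p → ∀ (c : ℚ) (a b : ℤ),
  ¬ (l : ℤ) ∣ b → (p : ℚ) ^ d * (1 + (l : ℚ) ^ (k + 1) * (a / b)) = c ^ (l ^ k) →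
  p ^ (d * (l - 1)) ≡ 1 [MOD l ^ (k + 1)]

/-- LOCM: the first case of exponent `l` is impossible at `v` if `l` does not divide the ramification
index and `((a + b) ^ l - a ^ l - b ^ l) / l` is prime to `v` for all `a, b` with `a, b, a + b` prime to `v`.
Proof. `u = X / Z`, `w = Y / Z` are units at `v` with `u ^ l + w ^ l = 1`. Let `M (u, w)` be the sum, so
`(u + w) ^ l = 1 + l M (u, w)`. Modulo `v`: `(u + w) ^ l ≡ 1`, so `s = u + w - 1` has `v s < 1` (the
Frobenius map of the residue field is injective, or: `s ^ l ≡ (u + w) ^ l - 1` modulo `l`). By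
hypothesis (for `a, b ∈ 𝓞 K` congruent to `u, w` modulo `v`) `M (u, w)` is a unit at `v`.
And `1 + l M = (1 + s) ^ l = 1 + l s (...) + s ^ l`, where `l s (...)` has valuation less than `v l`;
so `v s ^ l = v l = exp (- e)`, and `l ∣ e`. -/
def S_LOCM : Prop := ∀ (l : ℕ), l.Prime → l ≠ 2 → ∀ (K : Type) [Field K] [NumberField K]
  (v : HeightOneSpectrum (𝓞 K)) (e : ℕ), v.valuation K (l : K) = WithZero.exp (-(e : ℤ)) →
  0 < e → ¬ l ∣ e →
  (∀ a b : 𝓞 K, a ∉ v.asIdeal → b ∉ v.asIdeal → a + b ∉ v.asIdeal →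
    (∑ i ∈ Finset.Ioo 0 l, ((l.choose i / l : ℕ) : 𝓞 K) * a ^ i * b ^ (l - i)) ∉ v.asIdeal) →
  ∀ X Y Z : K, X ≠ 0 → Y ≠ 0 → Z ≠ 0 → X ^ l + Y ^ l = Z ^ l →
  ¬ (v.valuation K X = v.valuation K Z ∧ v.valuation K Y = v.valuation K Z)

/-- QL. Proof: as `QTWO.lean`; `v ∣ l`, so `absNorm v ∣ l ^ 2`, and if `v ^ 2 ∣ l` then
`absNorm v ^ 2 ∣ l ^ 2`; the valuation of `l` is the multiplicity of `v` in `l 𝓞 K`. -/
def S_QL : Prop := ∀ (l : ℕ), l.Prime → ∀ (K : Type) [Field K] [NumberField K],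
  Module.finrank ℚ K = 2 → ∀ v : HeightOneSpectrum (𝓞 K), ((l : ℕ) : 𝓞 K) ∈ v.asIdeal →
  (Nat.card (𝓞 K ⧸ v.asIdeal) = l ∨ Nat.card (𝓞 K ⧸ v.asIdeal) = l ^ 2) ∧
  (v.valuation K (l : K) = WithZero.exp (-1) ∨ v.valuation K (l : K) = WithZero.exp (-2))

end Pool.Agent.H47T
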