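import Pool.Agent.H47T.Asm
import Pool.Agent.H47T.LOC2
import Pool.Agent.H47T.Stm4

/-! # Project TQ, phase 4: the local computations -/

set_option autoImplicit false

namespace Pool.Agent.H47T

open NumberField IsDedekindDomain

open LOC2aux LOCPaux

/-- `LOCL` with the full precision -/
theorem locS {K : Type} [Field K] [NumberField K] {p : ℕ} (hp : p.Prime) (hp2 : p ≠ 2)
    (v : HeightOneSpectrum (𝓞 K)) (hpv : ((p : ℕ) : 𝓞 K) ∉ v.asIdeal)
    (hcard : ¬ p ∣ Nat.card (𝓞 K ⧸ v.asIdeal) - 1) {X Y Z : K} (hX : X ≠ 0)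
    (hXYZ : X ^ p + Y ^ p = Z ^ p) (hvY : v.valuation K Y = v.valuation K X)
    (hvZ : v.valuation K Z < v.valuation K X) :
    v.valuation K (AA p X Y / (p * X ^ (p - 1)) - 1) ≤ v.valuation K (Z / X) ^ p := by
  have hodd : Odd p := hp.odd_of_ne_two hp2
  set w := v.valuation K with hw
  have hX0 : w X ≠ 0 := (Valuation.ne_zero_iff _).mpr hX
  have hp1 : p - 1 + 1 = p := Nat.sub_add_cancel hp.one_le
  -- `w p = 1`
  have hvp : w (p : K) = 1 := by
    have h1 : w (algebraMap (𝓞 K) K ((p : ℕ) : 𝓞 K)) ≤ 1 := v.valuation_le_one (K := K) _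
    have h2 : ¬ w (algebraMap (𝓞 K) K ((p : ℕ) : 𝓞 K)) < 1 := fun h =>
      hpv ((v.valuation_lt_one_iff_mem (K := K) _).mp h)
    rw [map_natCast] at h1 h2
    exact le_antisymm h1 (not_lt.mp h2)
  set t := -Y / X with ht
  have hYt : Y = -(t * X) := by rw [ht]; field_simp
  have hvt : w t = 1 := by rw [ht, map_div₀, Valuation.map_neg, hvY, div_self hX0]
  set S := ∑ i ∈ Finset.range p, t ^ i with hS
  have hgeo : S * (t - 1) = t ^ p - 1 := geom_sum_mul t p
  have htp : t ^ p - 1 = -(Z / X) ^ p := by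
    rw [ht, neg_div, hodd.neg_pow, div_pow, div_pow, ← hXYZ]
    field_simp
    ring
  have hZX : w (Z / X) < 1 := by
    rw [map_div₀]
    rw [div_lt_one₀ (zero_lt_iff.mpr hX0)]
    exact hvZ
  have htp2 : w (t ^ p - 1) ≤ w (Z / X) ^ p := by
    rw [htp, Valuation.map_neg, map_pow]
  have htp1 : w (t ^ p - 1) < 1 := lt_of_le_of_lt htp2 (pow_lt_one₀ zero_le hZX hp.ne_zero)
  -- residue of `t`
  have ht1 : w (t - 1) < 1 := by
    obtain ⟨a, ha⟩ := v.exists_valuation_sub_lt_of_integer (K := K) (x := t) hvt.le 1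
    rw [Units.val_one, Valuation.map_sub_swap] at ha
    have ha' : w (t - (a : K)) < 1 := ha
    have hta : w (t ^ p - (a : K) ^ p) < 1 := by
      have ha1 : w (a : K) ≤ 1 := v.valuation_le_one (K := K) a
      rw [← Commute.geom_sum₂_mul (Commute.all t (a : K)) p, map_mul]
      have h3 : w (∑ i ∈ Finset.range p, t ^ i * (a : K) ^ (p - 1 - i)) ≤ 1 :=
        w.map_sum_le fun j _ => by
          rw [map_mul, map_pow, map_pow, hvt, one_pow, one_mul]
          exact pow_le_one₀ zero_le ha1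
      calc _ ≤ 1 * w (t - (a : K)) := mul_le_mul' h3 le_rfl
        _ < 1 := by rwa [one_mul]
    have hap : w (((a ^ p - 1 : 𝓞 K) : K)) < 1 := by
      have h4 : ((a ^ p - 1 : 𝓞 K) : K) = (t ^ p - 1) - (t ^ p - (a : K) ^ p) := by
        push_cast; ring
      rw [h4]
      exact Valuation.map_sub_lt _ htp1 hta
    have hmem : a ^ p - 1 ∈ v.asIdeal := (v.valuation_lt_one_iff_mem (K := K) _).mp hap
    -- the residue field
    let _ : Field (𝓞 K ⧸ v.asIdeal) :=
      @Ideal.Quotient.field _ _ v.asIdeal (v.isPrime.isMaximal v.ne_bot)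
    have : Finite (𝓞 K ⧸ v.asIdeal) := v.asIdeal.finiteQuotientOfFreeOfNeBot v.ne_bot
    let _ : Fintype (𝓞 K ⧸ v.asIdeal) := Fintype.ofFinite _
    set b : 𝓞 K ⧸ v.asIdeal := Ideal.Quotient.mk v.asIdeal a with hb
    have hbp : b ^ p = 1 := by
      have h5 : Ideal.Quotient.mk v.asIdeal (a ^ p - 1) = 0 := Ideal.Quotient.eq_zero_iff_mem.mpr hmem
      rw [map_sub, map_pow, map_one, sub_eq_zero] at h5
      exact h5
    have hb0 : b ≠ 0 := by
      intro h0
      rw [h0, zero_pow hp.ne_zero] at hbp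
      exact zero_ne_one hbp
    have hbq : b ^ (Nat.card (𝓞 K ⧸ v.asIdeal) - 1) = 1 := by
      rw [Nat.card_eq_fintype_card]
      exact FiniteField.pow_card_sub_one_eq_one b hb0
    have hb1 : b = 1 := by
      have h6 : orderOf b ∣ p := orderOf_dvd_of_pow_eq_one hbp
      have h7 : orderOf b ∣ Nat.card (𝓞 K ⧸ v.asIdeal) - 1 := orderOf_dvd_of_pow_eq_one hbq
      rcases (Nat.dvd_prime hp).mp h6 with h8 | h8
      · exact orderOf_eq_one_iff.mp h8
      · rw [h8] at h7; exact absurd h7 hcard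
    have hmem2 : a - 1 ∈ v.asIdeal := by
      rw [← Ideal.Quotient.eq_zero_iff_mem, map_sub, map_one, ← hb, hb1, sub_self]
    have hvab : w (((a - 1 : 𝓞 K) : K)) < 1 := (v.valuation_lt_one_iff_mem (K := K) _).mpr hmem2
    have h9 : t - 1 = (t - (a : K)) + ((a - 1 : 𝓞 K) : K) := by push_cast; ring
    rw [h9]
    exact Valuation.map_add_lt _ ha' hvab
  -- `w S = 1`
  have hSp : w (S - (p : K)) ≤ w (t - 1) := val_geom_sub w p t hvt.le
  have hS1 : w S = 1 := by
    have h1 : S = (p : K) + (S - (p : K)) := by ring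
    rw [h1, Valuation.map_add_eq_of_lt_left, hvp]
    rw [hvp]
    exact lt_of_le_of_lt hSp ht1
  have ht2 : w (t - 1) ≤ w (Z / X) ^ p := by
    have h1 : w S * w (t - 1) = w (t ^ p - 1) := by rw [← map_mul, hgeo]
    rw [hS1, one_mul] at h1
    rw [h1]; exact htp2
  have hpK : (p : K) ≠ 0 := by
    intro h0
    rw [h0, map_zero] at hvp
    exact zero_ne_one hvp
  have hfin : AA p X Y / (p * X ^ (p - 1)) - 1 = (S - (p : K)) / (p : K) := by
    rw [hYt, AA_eq, ← hS]
    have hXp : X ^ (p - 1) ≠ 0 := pow_ne_zero _ hX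
    field_simp
  rw [hfin, map_div₀, hvp, div_one]
  exact hSp.trans ht2


/-- the case where `X` is more divisible -/
theorem locX {K : Type} [Field K] [NumberField K] {p : ℕ} (hp : Odd p)
    (v : HeightOneSpectrum (𝓞 K)) {X Y : K} (hY : Y ≠ 0)
    (h : v.valuation K X < v.valuation K Y) :
    v.valuation K (AA p X Y / Y ^ (p - 1) - 1) ≤ v.valuation K (X / Y) := by
  obtain ⟨n, rfl⟩ := hp
  have hY0 : v.valuation K Y ≠ 0 := (Valuation.ne_zero_iff _).mpr hY
  have h1 : v.valuation K (X / Y) ≤ 1 := by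
    rw [map_div₀]
    exact div_le_one_of_le₀ h.le zero_le
  have h2 : AA (2 * n + 1) X Y / Y ^ (2 * n + 1 - 1) - 1 =
      ∑ i ∈ Finset.range (2 * n), (X / Y) ^ (2 * n - i) * (-1) ^ i := by
    rw [AA, Finset.sum_range_succ, add_div, Finset.sum_div]
    have h3 : X ^ (2 * n + 1 - 1 - 2 * n) * (-Y) ^ (2 * n) / Y ^ (2 * n + 1 - 1) = 1 := by
      rw [show 2 * n + 1 - 1 - 2 * n = 0 by omega, pow_zero, one_mul,
        show 2 * n + 1 - 1 = 2 * n by omega, (even_two_mul n).neg_pow,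
        div_self (pow_ne_zero _ hY)]
    rw [h3, add_sub_cancel_right]
    refine Finset.sum_congr rfl fun i hi => ?_
    have hi' : i < 2 * n := Finset.mem_range.1 hi
    obtain ⟨j, hj⟩ : ∃ j, 2 * n = i + j := ⟨2 * n - i, by omega⟩
    rw [show 2 * n + 1 - 1 = i + j by omega, show i + j - i = j by omega,
      show 2 * n - i = j by omega, neg_pow, div_pow]
    rw [pow_add]
    field_simp
  rw [h2]
  refine Valuation.map_sum_le _ fun i hi => ?_
  have hi' : i < 2 * n := Finset.mem_range.1 hi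
  rw [map_mul, map_pow, map_pow, Valuation.map_neg, map_one, one_pow, mul_one]
  exact pow_le_of_le_one zero_le h1 (by omega)

theorem AA_comm {K : Type} [Field K] {p : ℕ} (hp : Odd p) (X Y : K) : AA p X Y = AA p Y X := by
  obtain ⟨n, rfl⟩ := hp
  rw [AA, AA, ← Finset.sum_range_reflect]
  refine Finset.sum_congr rfl fun i hi => ?_
  have hi' : i < 2 * n + 1 := Finset.mem_range.1 hi
  obtain ⟨j, hj⟩ : ∃ j, 2 * n = i + j := ⟨2 * n - i, by omega⟩
  rw [show 2 * n + 1 - 1 = i + j by omega, show i + j - i = j by omega,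
    show i + j - j = i by omega, neg_pow Y, neg_pow X]
  have h1 : (-1 : K) ^ i = (-1) ^ j := by
    have h2 : (-1 : K) ^ i * (-1) ^ j = 1 := by
      rw [← pow_add, ← hj, (even_two_mul n).neg_one_pow]
    have h3 : (-1 : K) ^ j * (-1) ^ j = 1 := by
      rw [← mul_pow]
      norm_num
    calc (-1 : K) ^ i = (-1) ^ i * ((-1) ^ j * (-1) ^ j) := by rw [h3, mul_one]
      _ = (-1) ^ j := by rw [← mul_assoc, h2, one_mul]
  rw [h1]
  ring

/-- the case where `Y` is more divisible -/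
theorem locY {K : Type} [Field K] [NumberField K] {p : ℕ} (hp : Odd p)
    (v : HeightOneSpectrum (𝓞 K)) {X Y : K} (hX : X ≠ 0)
    (h : v.valuation K Y < v.valuation K X) :
    v.valuation K (AA p X Y / X ^ (p - 1) - 1) ≤ v.valuation K (Y / X) := by
  rw [AA_comm hp]
  exact locX hp v hX h

/-- elements close to `1` -/
theorem near_mul {K : Type} [Field K] {Γ : Type} [LinearOrderedCommGroupWithZero Γ]
    (w : Valuation K Γ) {γ : Γ} (hγ : γ ≤ 1) {a b : K} (ha : w (a - 1) ≤ γ) (hb : w (b - 1) ≤ γ) :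
    w (a * b - 1) ≤ γ := by
  have h1 : a * b - 1 = (a - 1) * (b - 1) + (a - 1) + (b - 1) := by ring
  rw [h1]
  refine Valuation.map_add_le _ (Valuation.map_add_le _ ?_ ha) hb
  rw [map_mul]
  exact (mul_le_mul' ha (hb.trans hγ)).trans (mul_one γ).le

theorem near_pow {K : Type} [Field K] {Γ : Type} [LinearOrderedCommGroupWithZero Γ]
    (w : Valuation K Γ) {γ : Γ} (hγ : γ ≤ 1) {a : K} (ha : w (a - 1) ≤ γ) (n : ℕ) :
    w (a ^ n - 1) ≤ γ := by
  induction n with
  | zero => simp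
  | succ n ih =>
    rw [pow_succ]
    exact near_mul w hγ ih ha

theorem near_inv {K : Type} [Field K] {Γ : Type} [LinearOrderedCommGroupWithZero Γ]
    (w : Valuation K Γ) {γ : Γ} (hγ : γ < 1) {a : K} (ha : w (a - 1) ≤ γ) :
    w (a⁻¹ - 1) ≤ γ := by
  have h1 : w a = 1 := by
    have h2 : a = 1 + (a - 1) := by ring
    rw [h2, Valuation.map_add_eq_of_lt_left _ (by rw [map_one]; exact ha.trans_lt hγ), map_one]
  have h0 : a ≠ 0 := by
    rintro rfl
    rw [map_zero] at h1
    exact zero_ne_one h1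
  have h2 : a⁻¹ - 1 = -(a - 1) / a := by
    field_simp
    ring
  rw [h2, map_div₀, Valuation.map_neg, h1, div_one]
  exact ha

/-- The three elements `A`: one of them is `p` times a `(p - 1)`-th power, the others are
`(p - 1)`-th powers. -/
theorem locB {K : Type} [Field K] [NumberField K] {p : ℕ} (hp : p.Prime) (hp2 : p ≠ 2)
    (v : HeightOneSpectrum (𝓞 K)) (hpv : ((p : ℕ) : 𝓞 K) ∉ v.asIdeal)
    (hcard : ¬ p ∣ Nat.card (𝓞 K ⧸ v.asIdeal) - 1) {m : ℕ} (hm : 0 < m) {x y z : K}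
    (hx : x ≠ 0) (hy : y ≠ 0) (hz : z ≠ 0)
    (h : (x ^ m) ^ p + (y ^ m) ^ p = (z ^ m) ^ p)
    (hnot : ¬ (v.valuation K x = v.valuation K z ∧ v.valuation K y = v.valuation K z)) :
    ∃ b : K, b ≠ 0 ∧ v.valuation K (AA p (x ^ m) (y ^ m) * AA p (z ^ m) (-y ^ m) *
      AA p (z ^ m) (-x ^ m) / (p * b ^ m) - 1) ≤ WithZero.exp (-(m : ℤ)) := by
  have hodd : Odd p := hp.odd_of_ne_two hp2
  have hpK : (p : K) ≠ 0 := by exact_mod_cast hp.ne_zero
  have hγ1 : WithZero.exp (-(m : ℤ)) < 1 := by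
    rw [← WithZero.exp_zero, WithZero.exp_lt_exp]
    omega
  have hmp : m * p ≠ 0 := mul_ne_zero hm.ne' hp.ne_zero
  -- ratios
  have hr : ∀ a b : K, a ≠ 0 → b ≠ 0 → v.valuation K a < v.valuation K b →
      v.valuation K (a ^ m / b ^ m) ≤ WithZero.exp (-(m : ℤ)) := by
    intro a b ha hb hab
    obtain ⟨i, hi⟩ := val_exp v ha
    obtain ⟨j, hj⟩ := val_exp v hb
    rw [hi, hj, WithZero.exp_lt_exp] at hab
    rw [map_div₀, map_pow, map_pow, hi, hj, ← WithZero.exp_nsmul, ← WithZero.exp_nsmul,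
      ← WithZero.exp_sub, WithZero.exp_le_exp]
    simp only [nsmul_eq_mul]
    have h1 : (0 : ℤ) ≤ m := by positivity
    nlinarith
  have hlt : ∀ a b : K, v.valuation K a < v.valuation K b →
      v.valuation K (a ^ m) < v.valuation K (b ^ m) := fun a b hab => by
    rw [map_pow, map_pow]
    exact pow_lt_pow_left₀ hab zero_le hm.ne'
  have hpow : ∀ a : K, a ≠ 0 → v.valuation K (a ^ m / a ^ m - 1) ≤ WithZero.exp (-(m : ℤ)) := by
    intro a ha
    rw [div_self (pow_ne_zero m ha), sub_self, map_zero]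
    exact zero_le
  have hsmall : ∀ g : K, v.valuation K g ≤ WithZero.exp (-(m : ℤ)) →
      v.valuation K g ^ p ≤ WithZero.exp (-(m : ℤ)) := fun g hg =>
    (pow_le_of_le_one zero_le (hg.trans hγ1.le) hp.ne_zero).trans hg
  by_cases h1 : v.valuation K x < v.valuation K z
  · -- `x` is more divisible
    have h2 : v.valuation K y = v.valuation K z := by
      rw [← pow_eq_iff' v hmp]
      have h3 : y ^ (m * p) = z ^ (m * p) - x ^ (m * p) := by
        rw [pow_mul, pow_mul, pow_mul]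
        linear_combination h
      rw [h3]
      exact Valuation.map_sub_eq_of_lt_left _ ((pow_lt_iff' v hmp x z).2 h1)
    refine ⟨y ^ (p - 1) * z ^ (p - 1) * z ^ (p - 1), mul_ne_zero (mul_ne_zero (pow_ne_zero _ hy)
      (pow_ne_zero _ hz)) (pow_ne_zero _ hz), ?_⟩
    have e1 := locX hodd v (pow_ne_zero m hy) (hlt x y (h2 ▸ h1))
    have e2 := locS hp hp2 v hpv hcard (X := z ^ m) (Y := -y ^ m) (Z := x ^ m) (pow_ne_zero m hz)
      (by rw [hodd.neg_pow]; linear_combination -h)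
      (by rw [Valuation.map_neg, map_pow, map_pow, h2]) (hlt x z h1)
    have e3 := locY hodd v (X := z ^ m) (Y := -x ^ m) (pow_ne_zero m hz)
      (by rw [Valuation.map_neg]; exact hlt x z h1)
    rw [neg_div, Valuation.map_neg] at e3
    have e4 := near_mul _ hγ1.le (near_mul _ hγ1.le (e1.trans (hr x y hx hy (h2 ▸ h1)))
      (e2.trans (hsmall _ (hr x z hx hz h1)))) (e3.trans (hr x z hx hz h1))
    refine le_of_eq_of_le ?_ e4
    congr 2
    have := pow_ne_zero m hy
    have := pow_ne_zero m hz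
    field_simp
    ring
  by_cases h2 : v.valuation K y < v.valuation K z
  · -- `y` is more divisible
    have h3 : v.valuation K x = v.valuation K z := by
      rw [← pow_eq_iff' v hmp]
      have h3 : x ^ (m * p) = z ^ (m * p) - y ^ (m * p) := by
        rw [pow_mul, pow_mul, pow_mul]
        linear_combination h
      rw [h3]
      exact Valuation.map_sub_eq_of_lt_left _ ((pow_lt_iff' v hmp y z).2 h2)
    refine ⟨x ^ (p - 1) * z ^ (p - 1) * z ^ (p - 1), mul_ne_zero (mul_ne_zero (pow_ne_zero _ hx)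
      (pow_ne_zero _ hz)) (pow_ne_zero _ hz), ?_⟩
    have e1 := locY hodd v (pow_ne_zero m hx) (hlt y x (h3 ▸ h2))
    have e2 := locY hodd v (X := z ^ m) (Y := -y ^ m) (pow_ne_zero m hz)
      (by rw [Valuation.map_neg]; exact hlt y z h2)
    have e3 := locS hp hp2 v hpv hcard (X := z ^ m) (Y := -x ^ m) (Z := y ^ m) (pow_ne_zero m hz)
      (by rw [hodd.neg_pow]; linear_combination -h)
      (by rw [Valuation.map_neg, map_pow, map_pow, h3]) (hlt y z h2)
    rw [neg_div, Valuation.map_neg] at e2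
    have e4 := near_mul _ hγ1.le (near_mul _ hγ1.le (e1.trans (hr y x hy hx (h3 ▸ h2)))
      (e2.trans (hr y z hy hz h2))) (e3.trans (hsmall _ (hr y z hy hz h2)))
    refine le_of_eq_of_le ?_ e4
    congr 2
    have := pow_ne_zero m hx
    have := pow_ne_zero m hz
    field_simp
    ring
  -- `z` is more divisible
  push Not at h1 h2
  have hzx : v.valuation K z < v.valuation K x := by
    refine lt_of_le_of_ne h1 fun h3 => ?_
    have h4 : v.valuation K z < v.valuation K y :=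
      lt_of_le_of_ne h2 fun h4 => hnot ⟨h3.symm, h4.symm⟩
    have h5 : v.valuation K (x ^ (m * p)) < v.valuation K (y ^ (m * p)) :=
      (pow_lt_iff' v hmp x y).2 (h3 ▸ h4)
    have h6 := Valuation.map_add_eq_of_lt_left _ h5
    rw [add_comm, pow_mul, pow_mul, h, ← pow_mul, ← pow_mul, pow_eq_iff' v hmp] at h6
    exact h4.ne h6
  have hxy : v.valuation K y = v.valuation K x := by
    rw [← pow_eq_iff' v hmp, ← Valuation.map_neg]
    have h3 : -y ^ (m * p) = x ^ (m * p) - z ^ (m * p) := by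
      rw [pow_mul, pow_mul, pow_mul]
      linear_combination -h
    rw [h3]
    exact Valuation.map_sub_eq_of_lt_left _ ((pow_lt_iff' v hmp z x).2 hzx)
  have hzy : v.valuation K z < v.valuation K y := hxy ▸ hzx
  refine ⟨x ^ (p - 1) * y ^ (p - 1) * x ^ (p - 1), mul_ne_zero (mul_ne_zero (pow_ne_zero _ hx)
      (pow_ne_zero _ hy)) (pow_ne_zero _ hx), ?_⟩
  have hev : Even (p - 1) := by
    obtain ⟨n, rfl⟩ := hodd
    exact ⟨n, by omega⟩
  have e1 := locS hp hp2 v hpv hcard (X := x ^ m) (Y := y ^ m) (Z := z ^ m) (pow_ne_zero m hx)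
      h (by rw [map_pow, map_pow, hxy]) (hlt z x hzx)
  have e2 := locX hodd v (X := z ^ m) (Y := -y ^ m) (neg_ne_zero.2 (pow_ne_zero m hy))
      (by rw [Valuation.map_neg]; exact hlt z y hzy)
  have e3 := locX hodd v (X := z ^ m) (Y := -x ^ m) (neg_ne_zero.2 (pow_ne_zero m hx))
      (by rw [Valuation.map_neg]; exact hlt z x hzx)
  rw [div_neg, Valuation.map_neg, hev.neg_pow] at e2 e3
  have e4 := near_mul _ hγ1.le (near_mul _ hγ1.le (e1.trans (hsmall _ (hr z x hz hx hzx)))
      (e2.trans (hr z y hz hy hzy))) (e3.trans (hr z x hz hx hzx))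
  refine le_of_eq_of_le ?_ e4
  congr 2
  have := pow_ne_zero m hx
  have := pow_ne_zero m hy
  field_simp
  ring

end Pool.Agent.H47T
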