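import Pool.Agent.H47T.Stm3

/-!
# Piece NPW of project TQ, phase 3
-/

set_option autoImplicit false

namespace Pool.Agent.H47T

open NumberField IsDedekindDomain

namespace NPWaux

section

variable {K : Type} [Field K] [NumberField K] {v : HeightOneSpectrum (𝓞 K)}

lemma val_nat (n : ℕ) : v.valuation K (n : K) ≤ 1 := by
  have h : v.valuation K (algebraMap (𝓞 K) K ((n : ℕ) : 𝓞 K)) ≤ 1 := v.valuation_le_one (K := K) _
  rwa [map_natCast] at h

lemma val_root {l : ℕ} (hl : l ≠ 0) {μ : K} (h : μ ^ l = 1) : v.valuation K μ = 1 := by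
  have h1 : v.valuation K (μ ^ l) = 1 := by rw [h, map_one]
  rw [map_pow] at h1
  exact (pow_eq_one_iff_of_nonneg zero_le hl).mp h1

lemma val_sub_le {l : ℕ} (hl : l ≠ 0) {ζ μ : K} (hζ : IsPrimitiveRoot ζ l)
    (hμ : IsPrimitiveRoot μ l) : v.valuation K (1 - μ) ≤ v.valuation K (1 - ζ) := by
  have : NeZero l := ⟨hl⟩
  obtain ⟨i, -, hi⟩ := hζ.eq_pow_of_pow_eq_one hμ.pow_eq_one
  rw [← hi, ← mul_neg_geom_sum ζ i, map_mul]
  have h5 : v.valuation K (∑ j ∈ Finset.range i, ζ ^ j) ≤ 1 := (v.valuation K).map_sum_le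
    fun j _ => by rw [map_pow, val_root hl hζ.pow_eq_one, one_pow]
  calc _ ≤ v.valuation K (1 - ζ) * 1 := mul_le_mul' le_rfl h5
    _ = _ := mul_one _

lemma val_zeta {l : ℕ} (hl : l.Prime) {ζ : K} (hζ : IsPrimitiveRoot ζ l) :
    v.valuation K (1 - ζ) ^ (l - 1) = v.valuation K (l : K) := by
  have : Fact l.Prime := ⟨hl⟩
  have h1 : (l : K) = ∏ μ ∈ primitiveRoots l K, (1 - μ) := by
    rw [← Polynomial.eval_one_cyclotomic_prime (R := K) (p := l),
      Polynomial.cyclotomic_eq_prod_X_sub_primitiveRoots hζ, Polynomial.eval_prod]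
    exact Finset.prod_congr rfl fun μ _ => by simp
  rw [h1, map_prod, Finset.prod_congr rfl (g := fun _ => v.valuation K (1 - ζ)), Finset.prod_const,
    hζ.card_primitiveRoots, Nat.totient_prime hl]
  intro μ hμ
  have hμ' := (mem_primitiveRoots hl.pos).1 hμ
  exact le_antisymm (val_sub_le hl.ne_zero hζ hμ') (val_sub_le hl.ne_zero hμ' hζ)

lemma main {l : ℕ} (hl : l.Prime) {e M : ℕ} (hle : v.valuation K (l : K) = WithZero.exp (-(e : ℤ)))
    (heM : e < M) {u : K} {a : ℕ} (ha0 : 0 < a) (hae : a ≤ e) (hla : ¬ l ∣ a)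
    (hu : v.valuation K (u - 1) = WithZero.exp (-(a : ℤ))) : ¬ Pw l v M u := by
  rintro ⟨b, t, hb, hbt, ht⟩
  set w := v.valuation K with hw
  have ha1 : w (u - 1) < 1 := by
    rw [hu, ← WithZero.exp_zero, WithZero.exp_lt_exp]
    omega
  have hu1 : w u = 1 := by
    have h1 : u = 1 + (u - 1) := by ring
    rw [h1, Valuation.map_add_eq_of_lt_left, map_one]
    rw [map_one]; exact ha1
  have htlt : w (u * t) < w (u - 1) := by
    rw [map_mul, hu1, one_mul, hu]
    refine lt_of_le_of_lt ht ?_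
    rw [WithZero.exp_lt_exp]
    omega
  have hb1 : w (b ^ l - 1) = WithZero.exp (-(a : ℤ)) := by
    have h1 : b ^ l - 1 = (u - 1) + u * t := by rw [← hbt]; ring
    rw [h1, Valuation.map_add_eq_of_lt_left _ htlt, hu]
  have hbl : w (b ^ l) = 1 := by
    have h1 : b ^ l = 1 + (b ^ l - 1) := by ring
    rw [h1, Valuation.map_add_eq_of_lt_left, map_one]
    rw [map_one, hb1, ← hu]; exact ha1
  have hwb : w b = 1 := by
    rw [map_pow] at hbl
    exact (pow_eq_one_iff_of_nonneg zero_le hl.ne_zero).mp hbl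
  set c : K := b - 1 with hc
  have hwc : w c ≤ 1 := by
    rw [hc]
    exact (w.map_sub b 1).trans (by rw [hwb, map_one, max_self])
  obtain ⟨g, hg1, hg⟩ : ∃ g : K, w g ≤ 1 ∧ b ^ l - 1 = c ^ l + (l : K) * c * g := by
    refine ⟨∑ k ∈ Finset.Ioo 0 l, c ^ (k - 1) * 1 ^ (l - k - 1) * ((l.choose k / l : ℕ) : K), ?_, ?_⟩
    · refine w.map_sum_le fun k _ => ?_
      rw [one_pow, mul_one, map_mul, map_pow]
      exact mul_le_one' (pow_le_one₀ zero_le hwc) (val_nat _)
    · have h1 := add_pow_prime_eq hl c (1 : K)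
      have h2 : c + 1 = b := by rw [hc]; ring
      rw [h2, one_pow, mul_one] at h1
      rw [h1]
      ring
  have hlc : w ((l : K) * c * g) ≤ w c * WithZero.exp (-(e : ℤ)) := by
    rw [map_mul, map_mul, hle]
    calc _ ≤ WithZero.exp (-(e : ℤ)) * w c * 1 := mul_le_mul' le_rfl hg1
      _ = _ := by rw [mul_one, mul_comm]
  have he1 : (WithZero.exp (-(e : ℤ)) : WithZero (Multiplicative ℤ)) ≤ WithZero.exp (-(a : ℤ)) := by
    rw [WithZero.exp_le_exp]
    omega
  have ha2 : (WithZero.exp (-(a : ℤ)) : WithZero (Multiplicative ℤ)) < 1 := by rw [← hu]; exact ha1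
  have hcl0 : w (c ^ l) < 1 := by
    have h1 : c ^ l = (b ^ l - 1) - (l : K) * c * g := by rw [hg]; ring
    rw [h1]
    refine Valuation.map_sub_lt _ (by rw [hb1]; exact ha2) ?_
    refine lt_of_le_of_lt hlc ?_
    calc w c * WithZero.exp (-(e : ℤ)) ≤ 1 * WithZero.exp (-(a : ℤ)) := mul_le_mul' hwc he1
      _ < 1 := by rw [one_mul]; exact ha2
  have hc1 : w c < 1 := by
    rw [map_pow] at hcl0
    exact (pow_lt_one_iff_of_nonneg zero_le hl.ne_zero).1 hcl0
  have hlt : w ((l : K) * c * g) < WithZero.exp (-(a : ℤ)) := by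
    refine lt_of_le_of_lt hlc ?_
    calc w c * WithZero.exp (-(e : ℤ)) < 1 * WithZero.exp (-(e : ℤ)) :=
          mul_lt_mul_of_pos_right hc1 WithZero.exp_pos
      _ = WithZero.exp (-(e : ℤ)) := one_mul _
      _ ≤ _ := he1
  have hcl : w (c ^ l) = WithZero.exp (-(a : ℤ)) := by
    have h1 : c ^ l = (b ^ l - 1) - (l : K) * c * g := by rw [hg]; ring
    rw [h1, Valuation.map_sub_eq_of_lt_left _ (by rw [hb1]; exact hlt), hb1]
  rw [map_pow] at hcl
  have hc0 : w c ≠ 0 := by
    intro h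
    rw [h, zero_pow hl.ne_zero] at hcl
    exact WithZero.exp_ne_zero hcl.symm
  rw [← WithZero.exp_log hc0, ← WithZero.exp_nsmul, WithZero.exp_inj, nsmul_eq_mul] at hcl
  apply hla
  have h2 : (l : ℤ) ∣ (a : ℤ) := ⟨- WithZero.log (w c), by linarith⟩
  exact_mod_cast h2

end

end NPWaux

open NPWaux

theorem mainNPW : S_NPW := by
  intro l hl hl2 K _ _ v e hle he0 hel ζ hζ M heM
  refine ⟨?_, ?_⟩
  · have h1 := val_zeta (v := v) hl hζ
    have h0 : v.valuation K (1 - ζ) ≠ 0 := by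
      intro h
      rw [h, zero_pow (by have := hl.two_le; omega), hle] at h1
      exact WithZero.exp_ne_zero h1.symm
    rw [hle, ← WithZero.exp_log h0, ← WithZero.exp_nsmul, WithZero.exp_inj, nsmul_eq_mul] at h1
    set n : ℤ := WithZero.log (v.valuation K (1 - ζ)) with hn
    have hl1 : 1 ≤ l - 1 := by have := hl.two_le; omega
    have hn0 : n < 0 := by
      by_contra hcon
      push Not at hcon
      have h2 : (0 : ℤ) ≤ ((l - 1 : ℕ) : ℤ) * n := mul_nonneg (by positivity) hcon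
      rw [h1] at h2
      omega
    obtain ⟨a, ha⟩ : ∃ a : ℕ, n = -(a : ℤ) := ⟨n.natAbs, by omega⟩
    have hae : (l - 1) * a = e := by
      rw [ha] at h1
      have h3 : (((l - 1) * a : ℕ) : ℤ) = e := by
        push_cast
        linarith
      exact_mod_cast h3
    refine main hl hle heM (a := a) (by omega) ?_ ?_ ?_
    · calc a = 1 * a := (one_mul a).symm
        _ ≤ (l - 1) * a := Nat.mul_le_mul_right a hl1
        _ = e := hae
    · intro h
      exact hel (hae ▸ h.mul_left _)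
    · rw [Valuation.map_sub_swap, ← WithZero.exp_log h0, ← hn, ha]
  · refine main hl hle heM (a := e) he0 le_rfl hel ?_
    rw [add_sub_cancel_left, hle]

end Pool.Agent.H47T

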