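import Pool.Agent.H47T.QF

/-!
# Piece NRM of project TQ (helper52 for helper47)
-/

set_option autoImplicit false

namespace Pool.Agent.H47T

open NumberField IsDedekindDomain

namespace QF

theorem nrm_int {K : Type} [Field K] [NumberField K] (hK : Module.finrank ℚ K = 2) {d : ℤ} (r : K)
    (hd : Squarefree d) (hd1 : d ≠ 1) (hr : r ^ 2 = (d : K)) (α : 𝓞 K) (hα : α ≠ 0)
    (h : ∀ v : HeightOneSpectrum (𝓞 K), ∃ m : ℤ, v.valuation K (α : K) = WithZero.exp (2 * m))
    (hpos : 0 < d → ∀ φ : K →+* ℂ, 0 < (φ (α : K)).re) :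
    ∃ (c : ℤ) (w : K), Squarefree c ∧ (0 < d → 0 < c) ∧ w ≠ 0 ∧ (c : K) * α = w ^ 2 := by
  obtain ⟨hco, hno, htr⟩ := coords hd hd1 hK r hr
  obtain ⟨J, hJ⟩ := sq_ideal α hα h
  obtain ⟨x, y, hxy⟩ := hco (α : K)
  have hαK : (α : K) ≠ 0 := RingOfIntegers.coe_ne_zero_iff.2 hα
  have hN : 0 < x ^ 2 - d * y ^ 2 := by
    rcases lt_trichotomy d 0 with h0 | h0 | h0
    · have hdQ : (d : ℚ) < 0 := by exact_mod_cast h0
      rcases eq_or_ne y 0 with hy | hy
      · have hx : x ≠ 0 := by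
          intro hx
          apply hαK
          rw [hxy, hx, hy]
          simp
        rw [hy]
        have hx2 : 0 < x ^ 2 := by positivity
        linarith
      · have : 0 < y ^ 2 := by positivity
        nlinarith [sq_nonneg x]
    · exact absurd h0 hd.ne_zero
    · have hp := hpos h0
      rw [hxy] at hp
      exact (pos_coords h0 hK r hr hco x y hp).2
  obtain ⟨n, hn⟩ : ∃ n : ℕ, n = Ideal.absNorm J := ⟨_, rfl⟩
  have hnorm : x ^ 2 - d * y ^ 2 = (n : ℚ) ^ 2 := by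
    have h1 : (Algebra.norm ℤ α).natAbs = n ^ 2 := by
      rw [← Ideal.absNorm_span_singleton, hJ, map_pow, hn]
    have h2 : (Algebra.norm ℤ α : ℚ) = x ^ 2 - d * y ^ 2 := by
      rw [Algebra.coe_norm_int, hxy, hno]
    have h3 : 0 < Algebra.norm ℤ α := by
      have : (0 : ℚ) < (Algebra.norm ℤ α : ℚ) := by rw [h2]; exact hN
      exact_mod_cast this
    have h4 : (Algebra.norm ℤ α : ℤ) = (n : ℤ) ^ 2 := by
      rw [← Int.natAbs_of_nonneg h3.le, h1]
      push_cast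
      rfl
    rw [← h2, h4]
    push_cast
    rfl
  have hnK : ((x ^ 2 - d * y ^ 2 : ℚ) : K) = (((n : ℚ) ^ 2 : ℚ) : K) := by rw [hnorm]
  push_cast at hnK
  -- the element `s`
  obtain ⟨β, s, hs0, hid, hsp⟩ : ∃ (β : K) (s : ℚ), s ≠ 0 ∧ β ^ 2 = (α : K) * s ∧ (0 < d → 0 < s) := by
    by_cases h1 : 2 * x + 2 * n = 0
    · refine ⟨(α : K) - n, 2 * x - 2 * n, ?_, ?_, ?_⟩
      · intro h2
        have hn0 : (n : ℚ) = 0 := by linarith
        rw [hn0] at hnorm
        rw [hnorm] at hN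
        norm_num at hN
      · rw [hxy]
        push_cast
        linear_combination (y : K) ^ 2 * hr - hnK
      · intro h0
        have hp := hpos h0
        rw [hxy] at hp
        have hx := (pos_coords h0 hK r hr hco x y hp).1
        have : (0 : ℚ) ≤ n := Nat.cast_nonneg n
        linarith
    · refine ⟨(α : K) + n, 2 * x + 2 * n, h1, ?_, ?_⟩
      · rw [hxy]
        push_cast
        linear_combination (y : K) ^ 2 * hr - hnK
      · intro h0
        have hp := hpos h0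
        rw [hxy] at hp
        have hx := (pos_coords h0 hK r hr hco x y hp).1
        have : (0 : ℚ) ≤ n := Nat.cast_nonneg n
        linarith
  obtain ⟨c, u, hc, hu, hsu, hcp⟩ := sqfree_part s hs0
  have huK : (u : K) ≠ 0 := by exact_mod_cast hu
  have hsK : (s : K) ≠ 0 := by exact_mod_cast hs0
  refine ⟨c, β / u, hc, fun h0 => hcp (hsp h0), ?_, ?_⟩
  · apply div_ne_zero _ huK
    intro h0
    rw [h0] at hid
    have : (α : K) * s ≠ 0 := mul_ne_zero hαK hsK
    apply this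
    rw [← hid]
    simp
  · rw [div_pow, hid, hsu]
    push_cast
    field_simp

end QF

/-- Piece NRM. -/
theorem mainNRM : S_NRM := by
  intro K _ _ hK d r hd hd1 hr a ha hpos
  obtain ⟨e, he, hint⟩ :=
    ((IsFractionRing.isAlgebraic_iff ℤ ℚ K).2
      (Algebra.IsAlgebraic.isAlgebraic (R := ℚ) a)).exists_integral_multiple
  obtain ⟨α0, hα0⟩ : ∃ α0 : 𝓞 K, (α0 : K) = (e : K) * a := ⟨⟨_, hint⟩, by
    simp [zsmul_eq_mul]⟩
  have heK : (e : K) ≠ 0 := by exact_mod_cast he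
  have ha0 : a ≠ 0 := by
    intro h0
    obtain ⟨v⟩ := QF.exists_prime K
    obtain ⟨m, hm⟩ := ha v
    rw [h0, map_zero] at hm
    exact WithZero.exp_ne_zero hm.symm
  have hα : (((e : 𝓞 K) * α0 : 𝓞 K) : K) = (e : K) ^ 2 * a := by
    have h8 : (((e : 𝓞 K) * α0 : 𝓞 K) : K) = (e : K) * (α0 : K) := by simp
    rw [h8, hα0]
    ring
  obtain ⟨c, w, hc, hcp, hw, hcw⟩ := QF.nrm_int hK r hd hd1 hr ((e : 𝓞 K) * α0) (by
    intro h0
    rw [h0] at hα
    have h9 : ((0 : 𝓞 K) : K) = 0 := by simp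
    rw [h9] at hα
    exact mul_ne_zero (pow_ne_zero 2 heK) ha0 hα.symm) (by
    intro v
    obtain ⟨m, hm⟩ := ha v
    obtain ⟨k, hk⟩ := QF.val_exists v (e : K) heK
    refine ⟨k + m, ?_⟩
    rw [hα, map_mul, map_pow, hk, hm, ← WithZero.exp_nsmul, ← WithZero.exp_add]
    congr 1
    simp only [nsmul_eq_mul, Nat.cast_ofNat]
    ring) (by
    intro h0 φ
    rw [hα, map_mul, map_pow, map_intCast]
    have h1 : ((e : ℂ) ^ 2 * φ a).re = (e : ℝ) ^ 2 * (φ a).re := by
      have : ((e : ℂ) ^ 2) = (((e : ℝ) ^ 2 : ℝ) : ℂ) := by push_cast; rfl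
      rw [this, Complex.re_ofReal_mul]
    rw [h1]
    have h2 : (e : ℝ) ≠ 0 := by exact_mod_cast he
    have h3 := hpos h0 φ
    positivity)
  rw [hα] at hcw
  refine ⟨c, w / e, hc, hcp, div_ne_zero hw heK, ?_⟩
  rw [div_pow, eq_div_iff (pow_ne_zero 2 heK), ← hcw]
  ring

end Pool.Agent.H47T
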