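import Pool.Agent.H47T.Stm

set_option autoImplicit false

namespace Pool.Agent.H47T

open NumberField IsDedekindDomain

theorem AA_mul {K : Type} [Field K] {p : ℕ} (hp : Odd p) (X Y : K) :
    AA p X Y * (X + Y) = X ^ p + Y ^ p := by
  have h1 := Commute.geom_sum₂_mul (Commute.all X (-Y)) p
  have h2 : AA p X Y = ∑ i ∈ Finset.range p, X ^ i * (-Y) ^ (p - 1 - i) := by
    unfold AA
    rw [← Finset.sum_range_reflect]
    refine Finset.sum_congr rfl fun i hi => ?_
    have hi' := Finset.mem_range.1 hi
    congr 2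
    omega
  rw [h2]
  have h3 : (-Y) ^ p = -Y ^ p := hp.neg_pow Y
  rw [h3] at h1
  linear_combination h1

theorem mainPOS : S_POS := by
  intro K _ φ p hp X Y hX hY hne
  obtain ⟨s, hs⟩ := hX
  obtain ⟨t, ht⟩ := hY
  have h0 := AA_mul hp X Y
  have hmap : φ (AA p X Y) = ((AA p s t : ℝ) : ℂ) := by
    unfold AA
    rw [map_sum]
    push_cast
    refine Finset.sum_congr rfl fun i _ => ?_
    rw [map_mul, map_pow, map_pow, map_neg, hs, ht]
  have hr := AA_mul hp s t
  have hne' : s ^ p + t ^ p ≠ 0 := by
    intro h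
    apply hne
    apply φ.injective
    rw [map_add, map_pow, map_pow, hs, ht, map_zero]
    exact_mod_cast h
  rw [hmap, Complex.ofReal_re]
  have hmono := hp.strictMono_pow (R := ℝ)
  rcases lt_trichotomy (s + t) 0 with h | h | h
  · have h1 : s < -t := by linarith
    have h2 := hmono h1
    simp only [hp.neg_pow] at h2
    have h3 : s ^ p + t ^ p < 0 := by linarith
    rw [← hr] at h3
    by_contra hcon
    push Not at hcon
    nlinarith [mul_nonneg_of_nonpos_of_nonpos hcon h.le]
  · exfalso
    rw [h, mul_zero] at hr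
    exact hne' hr.symm
  · have h1 : -t < s := by linarith
    have h2 := hmono h1
    simp only [hp.neg_pow] at h2
    have h3 : 0 < s ^ p + t ^ p := by linarith
    rw [← hr] at h3
    exact (pos_iff_pos_of_mul_pos h3).2 h

end Pool.Agent.H47T
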