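import Pool.Agent.H47T.Stm

/-!
# Common lemmas on quadratic fields `ℚ(√d)` (helper52; adapted from `Y309/WQ/KNQ.lean`)
-/

set_option autoImplicit false

namespace Pool.Agent.H47T

open NumberField IsDedekindDomain

namespace QF

theorem sq_ideal {K : Type} [Field K] [NumberField K] (x : 𝓞 K) (hx : x ≠ 0)
    (h : ∀ v : HeightOneSpectrum (𝓞 K), ∃ m : ℤ,
      v.valuation K (x : K) = WithZero.exp (2 * m)) :
    ∃ J : Ideal (𝓞 K), Ideal.span {x} = J ^ 2 := by
  classical
  have hI0 : (Ideal.span {x} : Ideal (𝓞 K)) ≠ 0 := by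
    rw [Ne, Ideal.zero_eq_bot, Ideal.span_singleton_eq_bot]
    exact hx
  obtain ⟨e, he⟩ : ∃ e : HeightOneSpectrum (𝓞 K) → ℕ, e = fun v =>
    (Associates.mk v.asIdeal).count (Associates.mk (Ideal.span {x})).factors := ⟨_, rfl⟩
  have hev : ∀ v, e v / 2 * 2 = e v := by
    intro v
    obtain ⟨m, hm⟩ := h v
    have h1 : v.valuation K (algebraMap (𝓞 K) K x) = WithZero.exp (-(e v : ℤ)) := by
      rw [HeightOneSpectrum.valuation_of_algebraMap, HeightOneSpectrum.intValuation_if_neg _ hx, he]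
    have h2 : WithZero.exp (2 * m) = WithZero.exp (-(e v : ℤ)) := by
      rw [← hm, ← h1]
    have h3 : 2 * m = -(e v : ℤ) := WithZero.exp_injective h2
    omega
  have hfac := Ideal.finprod_heightOneSpectrum_factorization hI0
  have hmp : ∀ v : HeightOneSpectrum (𝓞 K),
      v.maxPowDividing (Ideal.span {x}) = (v.asIdeal ^ (e v / 2)) ^ 2 := by
    intro v
    rw [← pow_mul, hev, he]
    rfl
  have hfin : Function.HasFiniteMulSupport fun v : HeightOneSpectrum (𝓞 K) =>
      v.asIdeal ^ (e v / 2) := by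
    refine Set.Finite.subset (Ideal.hasFiniteMulSupport hI0) fun v hv => ?_
    rw [Function.mem_mulSupport] at hv ⊢
    rw [hmp]
    intro h1
    apply hv
    rw [Ideal.one_eq_top] at h1 ⊢
    exact (Ideal.pow_eq_top_iff.1 h1).resolve_right (by norm_num)
  refine ⟨∏ᶠ v : HeightOneSpectrum (𝓞 K), v.asIdeal ^ (e v / 2), ?_⟩
  rw [finprod_pow hfin, ← hfac]
  exact finprod_congr fun v => hmp v

/-- `d` is not a rational square -/
theorem not_sq {d : ℤ} (hd : Squarefree d) (hd1 : d ≠ 1) (x : ℚ) : x ^ 2 ≠ (d : ℚ) := by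
  intro h
  have h3 : IsSquare (d : ℚ) := ⟨x, by rw [← h, sq]⟩
  have h4 : IsSquare d := by exact_mod_cast (Rat.isSquare_intCast_iff.1 h3)
  obtain ⟨n, hn⟩ := h4
  have hu : IsUnit n := hd n ⟨1, by rw [mul_one]; exact hn⟩
  rcases Int.isUnit_iff.1 hu with h5 | h5
  · exact hd1 (by rw [hn, h5]; rfl)
  · exact hd1 (by rw [hn, h5]; rfl)

theorem coords {K : Type} [Field K] [NumberField K] {d : ℤ} (hd : Squarefree d) (hd1 : d ≠ 1)
    (hK : Module.finrank ℚ K = 2) (r : K) (hr : r ^ 2 = (d : K)) :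
    (∀ a : K, ∃ x y : ℚ, a = (x : K) + y * r) ∧
    (∀ x y : ℚ, Algebra.norm ℚ ((x : K) + y * r) = x ^ 2 - d * y ^ 2) ∧
    (∀ x y : ℚ, Algebra.trace ℚ K ((x : K) + y * r) = 2 * x) := by
  have hirr : ∀ x : ℚ, (x : K) ≠ r := by
    intro x hx
    have h1 : (x : K) ^ 2 = (d : K) := by rw [hx, hr]
    have h2 : x ^ 2 = (d : ℚ) := by exact_mod_cast h1
    exact not_sq hd hd1 x h2
  have hli : LinearIndependent ℚ ![(1 : K), r] := by
    rw [LinearIndependent.pair_iff]
    intro s t hst
    rw [Algebra.smul_def, Algebra.smul_def, mul_one] at hst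
    simp only [eq_ratCast] at hst
    have ht : t = 0 := by
      by_contra ht
      apply hirr (-s / t)
      have ht' : (t : K) ≠ 0 := by exact_mod_cast ht
      push_cast
      rw [div_eq_iff ht']
      linear_combination -hst
    subst ht
    refine ⟨?_, rfl⟩
    simpa using hst
  let b := basisOfLinearIndependentOfCardEqFinrank hli (by rw [hK]; rfl)
  have hb : ∀ i, b i = ![(1 : K), r] i := fun i => by
    rw [show b i = _ from congrFun (coe_basisOfLinearIndependentOfCardEqFinrank hli _) i]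
  have hb0 : b 0 = 1 := hb 0
  have hb1 : b 1 = r := hb 1
  have hrepr : ∀ x y : ℚ, b.repr ((x : K) + y * r) = Finsupp.single 0 x + Finsupp.single 1 y := by
    intro x y
    have e1 : (x : K) + y * r = x • b 0 + y • b 1 := by
      rw [hb0, hb1, Algebra.smul_def, Algebra.smul_def, mul_one]
      simp only [eq_ratCast]
    rw [e1, map_add, map_smul, map_smul, b.repr_self, b.repr_self]
    simp
  have hM : ∀ x y : ℚ, Algebra.leftMulMatrix b ((x : K) + y * r) = !![x, d * y; y, x] := by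
    intro x y
    ext i j
    rw [Algebra.leftMulMatrix_eq_repr_mul]
    fin_cases j
    · show b.repr (((x : K) + y * r) * b 0) i = _
      rw [hb0, mul_one, hrepr]
      fin_cases i <;> simp
    · show b.repr (((x : K) + y * r) * b 1) i = _
      have e2 : ((x : K) + y * r) * b 1 = ((d * y : ℚ) : K) + x * r := by
        rw [hb1]
        push_cast
        linear_combination (y : K) * hr
      rw [e2, hrepr]
      fin_cases i <;> simp
  refine ⟨fun a => ⟨b.repr a 0, b.repr a 1, ?_⟩, fun x y => ?_, fun x y => ?_⟩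
  · have h1 := b.sum_repr a
    rw [Fin.sum_univ_two, hb0, hb1, Algebra.smul_def, Algebra.smul_def, mul_one] at h1
    simp only [eq_ratCast] at h1
    exact h1.symm
  · rw [Algebra.norm_eq_matrix_det b, hM, Matrix.det_fin_two_of]
    ring
  · rw [Algebra.trace_eq_matrix_trace b, hM, Matrix.trace_fin_two_of]
    ring

theorem pos_coords {d : ℤ} (hd0 : 0 < d) {K : Type} [Field K] [NumberField K]
    (hK : Module.finrank ℚ K = 2) (r : K) (hr : r ^ 2 = (d : K))
    (hco : ∀ a : K, ∃ x y : ℚ, a = (x : K) + y * r) (x y : ℚ)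
    (hpos : ∀ φ : K →+* ℂ, 0 < (φ ((x : K) + y * r)).re) : 0 < x ∧ 0 < x ^ 2 - d * y ^ 2 := by
  have hcard : 1 < Fintype.card (K →+* ℂ) := by
    rw [NumberField.Embeddings.card K ℂ, hK]
    norm_num
  obtain ⟨φ, ψ, hne⟩ := Fintype.one_lt_card_iff.1 hcard
  have hval : ∀ θ : K →+* ℂ, ∀ x y : ℚ, θ ((x : K) + y * r) = (x : ℂ) + y * θ r := by
    intro θ x y
    rw [map_add, map_mul, map_ratCast, map_ratCast]
  have hsq : ∀ θ : K →+* ℂ, θ r ^ 2 = (d : ℂ) := by
    intro θ
    rw [← map_pow, hr, map_intCast]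
  have hneg : ψ r = -φ r := by
    rcases sq_eq_sq_iff_eq_or_eq_neg.1 ((hsq ψ).trans (hsq φ).symm) with h | h
    · exfalso
      apply hne
      ext a
      obtain ⟨x, y, rfl⟩ := hco a
      rw [hval, hval, h]
    · exact h
  have h1 := hpos φ
  have h2 := hpos ψ
  rw [hval] at h1 h2
  rw [hneg] at h2
  have h3 := hsq φ
  generalize φ r = ρ at h1 h2 h3
  have h4 := congrArg Complex.re h3
  have h5 := congrArg Complex.im h3
  rw [sq, Complex.mul_re, Complex.intCast_re] at h4
  rw [sq, Complex.mul_im, Complex.intCast_im] at h5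
  have hq0 : (0 : ℝ) < d := by exact_mod_cast hd0
  have him : ρ.im = 0 := by
    have h6 : ρ.re * ρ.im = 0 := by linarith
    rcases mul_eq_zero.1 h6 with h | h
    · rw [h] at h4
      nlinarith [mul_self_nonneg ρ.im]
    · exact h
  rw [him] at h4
  have e1 : ((x : ℂ) + y * ρ).re = x + y * ρ.re := by
    simp [him]
  have e2 : ((x : ℂ) + y * -ρ).re = x - y * ρ.re := by
    simp [him]
    ring
  rw [e1] at h1
  rw [e2] at h2
  have hx : (0 : ℝ) < x := by linarith
  have hn : (0 : ℝ) < x ^ 2 - d * y ^ 2 := by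
    have h7 : (x : ℝ) ^ 2 - d * y ^ 2 = (x + y * ρ.re) * (x - y * ρ.re) := by
      linear_combination ((y : ℝ) ^ 2) * h4
    rw [h7]
    exact mul_pos h1 h2
  exact ⟨by exact_mod_cast hx, by exact_mod_cast hn⟩

theorem val_exists {K : Type} [Field K] [NumberField K] (v : HeightOneSpectrum (𝓞 K))
    (x : K) (hx : x ≠ 0) : ∃ k : ℤ, v.valuation K x = WithZero.exp k := by
  have h1 : v.valuation K x ≠ 0 := (Valuation.ne_zero_iff _).2 hx
  exact ⟨WithZero.log (v.valuation K x), (WithZero.exp_log h1).symm⟩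

theorem val_int {K : Type} [Field K] [NumberField K] (v : HeightOneSpectrum (𝓞 K))
    (n : ℤ) (hn : (n : 𝓞 K) ∉ v.asIdeal) : v.valuation K (n : K) = 1 := by
  have h1 : ¬ v.valuation K (algebraMap (𝓞 K) K (n : 𝓞 K)) < 1 := fun h =>
    hn ((v.valuation_lt_one_iff_mem (n : 𝓞 K)).1 h)
  have h2 := v.valuation_le_one (K := K) (n : 𝓞 K)
  have h3 := le_antisymm h2 (not_lt.1 h1)
  simpa using h3

/-- a nonzero rational number is a squarefree integer times a square -/
theorem sqfree_part (s : ℚ) (hs : s ≠ 0) :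
    ∃ (c : ℤ) (u : ℚ), Squarefree c ∧ u ≠ 0 ∧ s = c * u ^ 2 ∧ (0 < s → 0 < c) := by
  obtain ⟨s0, c, hc, hsf⟩ := Nat.sq_mul_squarefree (s.num.natAbs * s.den)
  have hnum : s.num ≠ 0 := Rat.num_ne_zero.2 hs
  have hden : (s.den : ℚ) ≠ 0 := by exact_mod_cast s.den_nz
  have hN0 : s.num.natAbs * s.den ≠ 0 := mul_ne_zero (Int.natAbs_ne_zero.2 hnum) s.den_nz
  have hc0 : c ≠ 0 := by
    rintro rfl
    apply hN0
    rw [← hc]
    simp
  have hs00 : s0 ≠ 0 := hsf.ne_zero
  have h3 : s * s.den = s.num := Rat.mul_den_eq_num s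
  rcases lt_or_gt_of_ne hnum with hneg | hpos
  · refine ⟨-(s0 : ℤ), c / s.den, ?_, ?_, ?_, ?_⟩
    · rw [← Int.squarefree_natAbs, Int.natAbs_neg, Int.natAbs_natCast]
      exact hsf
    · exact div_ne_zero (by exact_mod_cast hc0) hden
    · have h1 : (c : ℚ) ^ 2 * s0 = -(s.num : ℚ) * s.den := by
        have h2 : ((s.num.natAbs : ℕ) : ℚ) = -(s.num : ℚ) := by
          rw [← Int.cast_natCast (R := ℚ), Int.ofNat_natAbs_of_nonpos hneg.le]
          push_cast
          rfl
        rw [← h2]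
        have : ((c ^ 2 * s0 : ℕ) : ℚ) = ((s.num.natAbs * s.den : ℕ) : ℚ) := by rw [hc]
        push_cast at this
        exact this
      rw [div_pow]
      push_cast
      field_simp
      linear_combination s.den * h3 + h1
    · intro h
      exact absurd (Rat.num_pos.2 h) (by omega)
  · refine ⟨(s0 : ℤ), c / s.den, ?_, ?_, ?_, ?_⟩
    · exact Int.squarefree_natCast.2 hsf
    · exact div_ne_zero (by exact_mod_cast hc0) hden
    · have h1 : (c : ℚ) ^ 2 * s0 = (s.num : ℚ) * s.den := by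
        have h2 : ((s.num.natAbs : ℕ) : ℚ) = (s.num : ℚ) := by
          rw [← Int.cast_natCast (R := ℚ), Int.natAbs_of_nonneg hpos.le]
        rw [← h2]
        have : ((c ^ 2 * s0 : ℕ) : ℚ) = ((s.num.natAbs * s.den : ℕ) : ℚ) := by rw [hc]
        push_cast at this
        exact this
      rw [div_pow]
      push_cast
      field_simp
      linear_combination s.den * h3 - h1
    · intro _
      exact_mod_cast Nat.pos_of_ne_zero hs00

theorem exists_prime (K : Type) [Field K] [NumberField K] : Nonempty (HeightOneSpectrum (𝓞 K)) := by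
  obtain ⟨M, hM⟩ := Ideal.exists_maximal (𝓞 K)
  exact ⟨⟨M, hM.isPrime, Ring.ne_bot_of_isMaximal_of_not_isField hM (RingOfIntegers.not_isField K)⟩⟩

end QF

end Pool.Agent.H47T
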