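import Pool.Agent.H47T.Stm4

/-!
# Project TQ phase 4, piece QL
-/

set_option autoImplicit false

namespace Pool.Agent.H47T

open NumberField IsDedekindDomain

/-- piece QL -/
theorem mainQL : S_QL := by
  intro l hl K _ _ hK v hv
  obtain ⟨N, hN⟩ : ∃ N : ℕ, N = Ideal.absNorm v.asIdeal := ⟨_, rfl⟩
  have hcard : Nat.card (𝓞 K ⧸ v.asIdeal) = N := by
    rw [hN, Ideal.absNorm_apply, Submodule.cardQuot_apply]
  have h2 : Ideal.absNorm (Ideal.span {((l : ℕ) : 𝓞 K)}) = l ^ 2 := by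
    rw [Ideal.absNorm_span_natCast, RingOfIntegers.rank, hK]
  have hdv : N ∣ l ^ 2 := by
    rw [← h2, hN]
    exact Ideal.absNorm_dvd_absNorm_of_le ((Ideal.span_singleton_le_iff_mem _).2 hv)
  have hn1 : N ≠ 1 := fun h => v.isPrime.ne_top (Ideal.absNorm_eq_one_iff.1 (hN ▸ h))
  have hcases : N = l ∨ N = l ^ 2 := by
    obtain ⟨i, hi, h4⟩ := (Nat.dvd_prime_pow hl).1 hdv
    interval_cases i
    · exact absurd (h4.trans (pow_zero l)) hn1
    · exact Or.inl (h4.trans (pow_one l))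
    · exact Or.inr h4
  rw [hcard]
  refine ⟨hcases, ?_⟩
  have hle : l ≤ N := by
    rcases hcases with h | h
    · exact h.ge
    · rw [h]; exact Nat.le_self_pow two_ne_zero l
  have h3 : ((l : ℕ) : 𝓞 K) ∉ v.asIdeal ^ 3 := by
    intro h33
    have h5 : N ^ 3 ∣ l ^ 2 := by
      rw [← h2, hN, ← map_pow]
      exact Ideal.absNorm_dvd_absNorm_of_le ((Ideal.span_singleton_le_iff_mem _).2 h33)
    have h6 := Nat.le_of_dvd (pow_pos hl.pos 2) h5
    have h7 : l ^ 3 ≤ N ^ 3 := Nat.pow_le_pow_left hle 3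
    have h8 : l ^ 2 < l ^ 3 := Nat.pow_lt_pow_right hl.one_lt (by norm_num)
    omega
  have hval : v.valuation K (l : K) = v.intValuation ((l : ℕ) : 𝓞 K) := by
    rw [← v.valuation_of_algebraMap (K := K)]
    simp
  rw [hval]
  have hl0 : ((l : ℕ) : 𝓞 K) ≠ 0 := by
    exact_mod_cast hl.ne_zero
  have hv0 : v.intValuation ((l : ℕ) : 𝓞 K) ≠ 0 := v.intValuation_ne_zero _ hl0
  have e1 : v.intValuation ((l : ℕ) : 𝓞 K) ≤ WithZero.exp (-((1 : ℕ) : ℤ)) := by
    rw [v.intValuation_le_pow_iff_mem, pow_one]; exact hv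
  have e3 : ¬ v.intValuation ((l : ℕ) : 𝓞 K) ≤ WithZero.exp (-((3 : ℕ) : ℤ)) := by
    rw [v.intValuation_le_pow_iff_mem]; exact h3
  rw [← WithZero.exp_log hv0] at e1 e3 ⊢
  rw [WithZero.exp_le_exp] at e1 e3
  rw [WithZero.exp_inj, WithZero.exp_inj]
  push_cast at e1 e3
  omega

end Pool.Agent.H47T
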