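import Pool.Agent.H47T.Stm

set_option autoImplicit false

namespace Pool.Agent.H47T

open NumberField IsDedekindDomain

theorem mainQTWO : S_QTWO := by
  intro K _ _ hK v hv
  obtain ⟨N, hN⟩ : ∃ N : ℕ, N = Ideal.absNorm v.asIdeal := ⟨_, rfl⟩
  have hcard : Nat.card (𝓞 K ⧸ v.asIdeal) = N := by
    rw [hN, Ideal.absNorm_apply, Submodule.cardQuot_apply]
  have h2 : Ideal.absNorm (Ideal.span {(2 : 𝓞 K)}) = 4 := by
    have h1 : Ideal.absNorm (Ideal.span {((2 : ℕ) : 𝓞 K)}) = 2 ^ 2 := by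
      rw [Ideal.absNorm_span_natCast, RingOfIntegers.rank, hK]
    simpa using h1
  have hdv : N ∣ 4 := by
    rw [← h2, hN]
    exact Ideal.absNorm_dvd_absNorm_of_le ((Ideal.span_singleton_le_iff_mem _).2 hv)
  have hn1 : N ≠ 1 := fun h => v.isPrime.ne_top (Ideal.absNorm_eq_one_iff.1 (hN ▸ h))
  have hcases : N = 2 ∨ N = 4 := by
    have h3 : N ∣ 2 ^ 2 := hdv
    obtain ⟨i, hi, h4⟩ := (Nat.dvd_prime_pow Nat.prime_two).1 h3
    interval_cases i
    · exact absurd h4 hn1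
    · exact Or.inl h4
    · exact Or.inr h4
  rw [hcard]
  rcases hcases with h | h
  · exact Or.inl h
  · refine Or.inr ⟨h, fun h22 => ?_⟩
    have h3 : N ^ 2 ∣ 4 := by
      rw [← h2, hN, ← map_pow]
      exact Ideal.absNorm_dvd_absNorm_of_le ((Ideal.span_singleton_le_iff_mem _).2 h22)
    rw [h] at h3
    norm_num at h3

end Pool.Agent.H47T
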