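import Pool.Agent.H47T.Stm5

/-!
# Project TQ, phase 5, piece RES
-/

set_option autoImplicit false

namespace Pool.Agent.H47T

open NumberField IsDedekindDomain

theorem mainRES : S_RES := by
  intro l hl K _ _ v hcard hint a b ha hb hab hmem
  have : Fact (Nat.card (𝓞 K ⧸ v.asIdeal)).Prime := ⟨by rw [hcard]; exact hl⟩
  have : Nontrivial (𝓞 K ⧸ v.asIdeal) := Ideal.Quotient.nontrivial_iff.2 v.isPrime.ne_top
  set m := Ideal.Quotient.mk v.asIdeal with hm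
  have hm0 : ∀ x, m x = 0 ↔ x ∈ v.asIdeal := fun x => Ideal.Quotient.eq_zero_iff_mem
  -- every class contains an integer
  have hsurj : ∀ x : 𝓞 K, ∃ n : ℤ, m x = m (n : 𝓞 K) := by
    intro x
    let H : AddSubgroup (𝓞 K ⧸ v.asIdeal) := (Int.castAddHom (𝓞 K ⧸ v.asIdeal)).range
    have hH : H = ⊤ := by
      refine (H.eq_bot_or_eq_top_of_prime_card).resolve_left fun h => ?_
      have h1 : (1 : 𝓞 K ⧸ v.asIdeal) ∈ H := ⟨1, by simp⟩
      rw [h, AddSubgroup.mem_bot] at h1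
      exact one_ne_zero h1
    have h2 : m x ∈ H := by rw [hH]; exact AddSubgroup.mem_top _
    obtain ⟨n, hn⟩ := h2
    exact ⟨n, by rw [← hn, map_intCast]; rfl⟩
  have hlv : ((l : ℤ) : 𝓞 K) ∈ v.asIdeal := by
    rw [← hm0, Int.cast_natCast, map_natCast, ← hcard]
    have h1 := card_nsmul_eq_zero' (x := (1 : 𝓞 K ⧸ v.asIdeal))
    rwa [nsmul_eq_mul, mul_one] at h1
  have hdvd : ∀ n : ℤ, (n : 𝓞 K) ∈ v.asIdeal ↔ (l : ℤ) ∣ n := by
    intro n
    constructor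
    · intro hn
      by_contra hnd
      obtain ⟨r, s, hrs⟩ := ((Nat.prime_iff_prime_int.mp hl).coprime_iff_not_dvd.mpr hnd)
      apply v.isPrime.ne_top
      rw [Ideal.eq_top_iff_one]
      have h1 : (1 : 𝓞 K) = (r : 𝓞 K) * ((l : ℤ) : 𝓞 K) + (s : 𝓞 K) * (n : 𝓞 K) := by
        exact_mod_cast congrArg (Int.cast (R := 𝓞 K)) hrs.symm
      rw [h1]
      exact add_mem (Ideal.mul_mem_left _ _ hlv) (Ideal.mul_mem_left _ _ hn)
    · rintro ⟨c, rfl⟩
      rw [Int.cast_mul]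
      exact Ideal.mul_mem_right _ _ hlv
  obtain ⟨A, hA⟩ := hsurj a
  obtain ⟨B, hB⟩ := hsurj b
  have hA' : ¬ (l : ℤ) ∣ A := by
    rw [← hdvd, ← hm0, ← hA, hm0]
    exact ha
  have hB' : ¬ (l : ℤ) ∣ B := by
    rw [← hdvd, ← hm0, ← hB, hm0]
    exact hb
  have hAB' : ¬ (l : ℤ) ∣ A + B := by
    rw [← hdvd, ← hm0, Int.cast_add, map_add, ← hA, ← hB, ← map_add, hm0]
    exact hab
  have hS : (l : ℤ) ∣ ∑ i ∈ Finset.Ioo 0 l, ((l.choose i / l : ℕ) : ℤ) * A ^ i * B ^ (l - i) := by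
    rw [← hdvd, ← hm0]
    rw [← hm0] at hmem
    rw [← hmem]
    simp only [Int.cast_sum, Int.cast_mul, Int.cast_pow, Int.cast_natCast, map_sum, map_mul,
      map_pow, map_natCast, hA, hB]
  apply hint A B hA' hB' hAB'
  obtain ⟨c, hc⟩ := hS
  have h1 := add_pow_prime_eq' hl A B
  refine ⟨c, ?_⟩
  have h2 : ∑ k ∈ Finset.Ioo 0 l, A ^ k * B ^ (l - k) * ((l.choose k / l : ℕ) : ℤ) = l * c := by
    rw [← hc]
    exact Finset.sum_congr rfl fun i _ => by ring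
  rw [h1, h2]
  ring

end Pool.Agent.H47T

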