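import Pool.Agent.H47T.Stm2

set_option autoImplicit false

namespace Pool.Agent.H47T

open NumberField IsDedekindDomain

namespace SQ8aux

lemma exists_sq (m : ℤ) (hm : (8 : ℤ) ∣ 1 - m) : ∀ N : ℕ, ∃ b : ℤ, b % 2 = 1 ∧ (2 : ℤ) ^ (N + 3) ∣ b ^ 2 - m := by
  intro N
  induction N with
  | zero => exact ⟨1, rfl, by simpa using hm⟩
  | succ N ih =>
    obtain ⟨b, hb, c, hc⟩ := ih
    rcases Int.even_or_odd c with ⟨k, hk⟩ | ⟨k, hk⟩
    · refine ⟨b, hb, k, ?_⟩
      rw [hc, hk]; ring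
    · obtain ⟨j, hj⟩ : ∃ j, b = 2 * j + 1 := ⟨b / 2, by omega⟩
      refine ⟨b + 2 ^ (N + 2), ?_, k + j + 1 + 2 ^ N, ?_⟩
      · have : (2 : ℤ) ^ (N + 2) = 2 * 2 ^ (N + 1) := by ring
        rw [this]; omega
      · have h1 : (b + 2 ^ (N + 2)) ^ 2 - m = (b ^ 2 - m) + 2 ^ (N + 3) * b + 2 ^ (2 * N + 4) := by
          ring
        rw [h1, hc, hk, hj]; ring

end SQ8aux

theorem mainSQ8 : S_SQ8 := by
  intro K _ _ v h2v M p q hp hpq
  have h8 : (8 : ℤ) ∣ 1 - ((p * q : ℕ) : ℤ) := by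
    have h : (p * q) % 8 = 1 := by
      rw [Nat.mul_mod, hpq]
      have : q % 8 = 1 ∨ q % 8 = 3 ∨ q % 8 = 5 ∨ q % 8 = 7 := by omega
      rcases this with h | h | h | h <;> rw [h]
    omega
  obtain ⟨b, hb, c, hc⟩ := SQ8aux.exists_sq _ h8 M
  have hm : p * q % 2 = 1 := by
    have : ((p * q : ℕ) : ℤ) % 2 = 1 := by omega
    omega
  have hmK : ((p * q : ℕ) : K) ≠ 0 := by
    have : p * q ≠ 0 := by omega
    exact_mod_cast this
  have hbK : (b : K) ≠ 0 := by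
    have : b ≠ 0 := by omega
    exact_mod_cast this
  refine ⟨(b : K), ((b ^ 2 - (p * q : ℕ) : ℤ) : K) / ((p * q : ℕ) : K), hbK, ?_, ?_⟩
  · have e : (p : K) * (q : K) = ((p * q : ℕ) : K) := by push_cast; rfl
    rw [e, mul_add, mul_one, mul_div_cancel₀ _ hmK]
    push_cast
    ring
  · have h1 : v.valuation K ((b ^ 2 - (p * q : ℕ) : ℤ) : K) ≤ WithZero.exp (-(M : ℤ)) := by
      have h2 : v.valuation K (algebraMap (𝓞 K) K ((b ^ 2 - (p * q : ℕ) : ℤ) : 𝓞 K)) ≤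
          WithZero.exp (-((M + 3 : ℕ) : ℤ)) := by
        rw [HeightOneSpectrum.valuation_of_algebraMap, HeightOneSpectrum.intValuation_le_pow_iff_mem, hc]
        push_cast
        exact Ideal.mul_mem_right _ _ (Ideal.pow_mem_pow h2v _)
      rw [map_intCast] at h2
      refine h2.trans ?_
      rw [WithZero.exp_le_exp]; push_cast; omega
    have h3 : v.valuation K ((p * q : ℕ) : K) = 1 := by
      have h4 : v.valuation K (algebraMap (𝓞 K) K ((p * q : ℕ) : 𝓞 K)) = 1 := by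
        rw [HeightOneSpectrum.valuation_eq_one_iff_notMem]
        intro h5
        apply v.isPrime.ne_top
        rw [Ideal.eq_top_iff_one]
        have h6 : (1 : 𝓞 K) = ((p * q : ℕ) : 𝓞 K) - 2 * ((p * q / 2 : ℕ) : 𝓞 K) := by
          have h7 : p * q = 2 * (p * q / 2) + 1 := by omega
          have h8 : ((p * q : ℕ) : 𝓞 K) = 2 * ((p * q / 2 : ℕ) : 𝓞 K) + 1 := by exact_mod_cast congrArg (Nat.cast (R := 𝓞 K)) h7
          rw [h8]; ring
        rw [h6]
        exact Ideal.sub_mem _ h5 (Ideal.mul_mem_right _ _ h2v)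
      rwa [map_natCast] at h4
    rw [map_div₀, h3, div_one]
    exact h1

end Pool.Agent.H47T
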