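import Pool.Agent.H47T.Stm3

/-!
# Project TQ phase 3, piece SQL (helper14)
-/

set_option autoImplicit false

namespace Pool.Agent.H47T

open NumberField IsDedekindDomain

namespace SQLaux

lemma exists_pow (l : ℕ) (hl : l.Prime) (hl2 : l ≠ 2) (p q : ℤ) (hp : ¬ (l : ℤ) ∣ p)
    (hpq : (l : ℤ) ^ 2 ∣ q - p) : ∀ N : ℕ, ∃ b : ℤ, (l : ℤ) ^ (N + 2) ∣ b ^ l * q - p := by
  intro N
  induction N with
  | zero => exact ⟨1, by simpa using hpq⟩
  | succ N ih =>
    obtain ⟨b, c, hc⟩ := ih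
    have hlp : Prime (l : ℤ) := Nat.prime_iff_prime_int.1 hl
    have h1 : ¬ (l : ℤ) ∣ b ^ (l - 1) * q := by
      intro h
      apply hp
      have h2 : (l : ℤ) ∣ b ^ l * q := by
        have : b ^ l * q = b * (b ^ (l - 1) * q) := by
          rw [← mul_assoc, ← pow_succ', Nat.sub_add_cancel hl.one_le]
        rw [this]
        exact h.mul_left _
      have h3 : (l : ℤ) ∣ b ^ l * q - p := by
        rw [hc]
        exact (dvd_pow_self _ (by omega)).mul_right _
      have := dvd_sub h2 h3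
      simpa using this
    obtain ⟨u, v, huv⟩ : IsCoprime (b ^ (l - 1) * q) (l : ℤ) :=
      ((Prime.coprime_iff_not_dvd hlp).2 h1).symm
    have hodd : Odd l := hl.odd_of_ne_two hl2
    obtain ⟨s, hs⟩ := odd_sq_dvd_geom_sum₂_sub (R := ℤ) (a := b) (b := (l : ℤ) ^ N * (-c * u)) hodd
    have hgs := (Commute.all (b + l * ((l : ℤ) ^ N * (-c * u))) b).geom_sum₂_mul l
    refine ⟨b + l * ((l : ℤ) ^ N * (-c * u)), c * v + (-c * u) * s * q, ?_⟩
    have h4 : (b + l * ((l : ℤ) ^ N * (-c * u))) ^ l = b ^ l +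
        (l * b ^ (l - 1) + l ^ 2 * s) * (l * ((l : ℤ) ^ N * (-c * u))) := by
      rw [← hs]
      linear_combination -hgs
    rw [h4]
    have h5 : (b ^ l + (l * b ^ (l - 1) + l ^ 2 * s) * (l * ((l : ℤ) ^ N * (-c * u)))) * q - p =
      (b ^ l * q - p) + (l : ℤ) ^ (N + 2) * (-c * (u * (b ^ (l - 1) * q))) +
        (l : ℤ) ^ (N + 3) * ((-c * u) * s * q) := by ring
    rw [h5, hc, show u * (b ^ (l - 1) * q) = 1 - v * l by linear_combination huv]
    ring

end SQLaux

theorem mainSQL : S_SQL := by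
  intro l hl hl2 K _ _ v hv M p q hp hpq
  have hlp : Prime (l : ℤ) := Nat.prime_iff_prime_int.1 hl
  have hp' : ¬ (l : ℤ) ∣ (p : ℤ) := by exact_mod_cast hp
  obtain ⟨b, c, hc⟩ := SQLaux.exists_pow l hl hl2 p q hp'
    (by have := (Nat.modEq_iff_dvd).1 hpq; exact_mod_cast this) M
  have hb : b ≠ 0 := by
    rintro rfl
    apply hp'
    rw [zero_pow hl.ne_zero, zero_mul, zero_sub] at hc
    have : (l : ℤ) ∣ -(p : ℤ) := by
      rw [hc]
      exact (dvd_pow_self _ (by omega)).mul_right _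
    exact (dvd_neg).1 this
  have hp0 : p ≠ 0 := by
    rintro rfl
    exact hp (dvd_zero _)
  have hq0 : q ≠ 0 := by
    rintro rfl
    apply hp
    have := (Nat.modEq_zero_iff_dvd).1 hpq
    exact (dvd_pow_self l two_ne_zero).trans this
  have hpK : (p : K) ≠ 0 := by exact_mod_cast hp0
  have hqK : (q : K) ≠ 0 := by exact_mod_cast hq0
  have hbK : (b : K) ≠ 0 := by exact_mod_cast hb
  refine ⟨(b : K), ((b ^ l * q - p : ℤ) : K) / (p : K), hbK, ?_, ?_⟩
  · push_cast
    field_simp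
    ring
  · have h1 : v.valuation K ((b ^ l * q - p : ℤ) : K) ≤ WithZero.exp (-(M : ℤ)) := by
      have h2 : v.valuation K (algebraMap (𝓞 K) K ((b ^ l * q - p : ℤ) : 𝓞 K)) ≤
          WithZero.exp (-((M + 2 : ℕ) : ℤ)) := by
        rw [HeightOneSpectrum.valuation_of_algebraMap, HeightOneSpectrum.intValuation_le_pow_iff_mem, hc]
        push_cast
        exact Ideal.mul_mem_right _ _ (Ideal.pow_mem_pow hv _)
      rw [map_intCast] at h2
      refine h2.trans ?_
      rw [WithZero.exp_le_exp]; push_cast; omega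
    have h3 : v.valuation K (p : K) = 1 := by
      have h4 : v.valuation K (algebraMap (𝓞 K) K ((p : ℕ) : 𝓞 K)) = 1 := by
        rw [HeightOneSpectrum.valuation_eq_one_iff_notMem]
        intro h5
        apply v.isPrime.ne_top
        rw [Ideal.eq_top_iff_one]
        obtain ⟨x, y, hxy⟩ : IsCoprime (p : ℤ) (l : ℤ) := ((Prime.coprime_iff_not_dvd hlp).2 hp').symm
        have h6 : (1 : 𝓞 K) = (x : 𝓞 K) * ((p : ℕ) : 𝓞 K) + (y : 𝓞 K) * ((l : ℕ) : 𝓞 K) := by
          exact_mod_cast congrArg (Int.cast (R := 𝓞 K)) hxy.symm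
        rw [h6]
        exact Ideal.add_mem _ (Ideal.mul_mem_left _ _ h5) (Ideal.mul_mem_left _ _ hv)
      rwa [map_natCast] at h4
    rw [map_div₀, h3, div_one]
    exact h1

end Pool.Agent.H47T
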