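import Pool.Agent.H47T.Stm

set_option autoImplicit false

/-! # Piece SQP of project TQ: `c` or `d / c` is a nonzero square modulo `p` -/

namespace Pool.Agent.H47T

open NumberField IsDedekindDomain

private theorem sqp_int_mem {K : Type} [Field K] [NumberField K] (v : HeightOneSpectrum (𝓞 K))
    (p : ℕ) (hp : p.Prime) (hv : ((p : ℕ) : 𝓞 K) ∈ v.asIdeal) (n : ℤ) :
    (n : 𝓞 K) ∈ v.asIdeal ↔ (p : ℤ) ∣ n := by
  constructor
  · intro h
    by_contra hn
    have hcop : IsCoprime (p : ℤ) n := by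
      rw [Int.isCoprime_iff_gcd_eq_one]
      have h1 : Int.gcd (p : ℤ) n = Nat.gcd p n.natAbs := rfl
      rw [h1]
      refine (Nat.Prime.coprime_iff_not_dvd hp).2 ?_
      intro h2
      exact hn (Int.natCast_dvd.2 h2)
    obtain ⟨a, b, hab⟩ := hcop
    have h1 : (1 : 𝓞 K) ∈ v.asIdeal := by
      have h2 : (1 : 𝓞 K) = (a : 𝓞 K) * ((p : ℕ) : 𝓞 K) + (b : 𝓞 K) * (n : 𝓞 K) := by
        have h3 := congrArg (fun z : ℤ => (z : 𝓞 K)) hab
        push_cast at h3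
        exact h3.symm
      rw [h2]
      exact v.asIdeal.add_mem (v.asIdeal.mul_mem_left _ hv) (v.asIdeal.mul_mem_left _ h)
    exact v.isPrime.ne_top ((Ideal.eq_top_iff_one _).2 h1)
  · rintro ⟨k, rfl⟩
    push_cast
    exact v.asIdeal.mul_mem_right _ hv

private theorem sqp_core {K : Type} [Field K] [NumberField K] (v : HeightOneSpectrum (𝓞 K))
    (p : ℕ) (hp : p.Prime) (hv : ((p : ℕ) : 𝓞 K) ∈ v.asIdeal)
    (hres : ∀ x : 𝓞 K, ∃ n : ℤ, x - (n : 𝓞 K) ∈ v.asIdeal) (c : ℤ) (hc : ¬ (p : ℤ) ∣ c)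
    (W t : K) (h : (c : K) * (1 + t) = W ^ 2) (ht : v.valuation K t < 1) :
    ∃ s : ℤ, ¬ (p : ℤ) ∣ s ∧ (p : ℤ) ∣ s ^ 2 - c := by
  have hcv : v.valuation K (c : K) = 1 := by
    have h1 : (c : K) = algebraMap (𝓞 K) K (c : 𝓞 K) := by simp
    rw [h1, HeightOneSpectrum.valuation_of_algebraMap,
      HeightOneSpectrum.intValuation_eq_one_iff]
    intro h2
    exact hc ((sqp_int_mem v p hp hv c).1 h2)
  have h1t : v.valuation K (1 + t) = 1 := by
    have := Valuation.map_add_eq_of_lt_right (v.valuation K) (x := t) (y := 1)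
      (by rw [map_one]; exact ht)
    rw [add_comm, this, map_one]
  have hW : v.valuation K W = 1 := by
    have h2 : v.valuation K W ^ 2 = 1 := by
      rw [← map_pow, ← h, map_mul, hcv, h1t, mul_one]
    exact (pow_eq_one_iff_of_nonneg zero_le (by norm_num)).1 h2
  obtain ⟨β, ⟨γ, hγ⟩, hβγ⟩ := v.exists_primeCompl_mul_eq_of_integer (K := K) W hW.le
  have hγv : γ ∉ v.asIdeal := hγ
  simp only at hβγ
  obtain ⟨g, hg⟩ := hres γ
  obtain ⟨b, hb⟩ := hres β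
  -- `β ^ 2 - c γ ^ 2` is in `v`
  have hmem : β ^ 2 - (c : 𝓞 K) * γ ^ 2 ∈ v.asIdeal := by
    rw [← HeightOneSpectrum.valuation_lt_one_iff_mem (K := K)]
    have h3 : algebraMap (𝓞 K) K (β ^ 2 - (c : 𝓞 K) * γ ^ 2) =
        (c : K) * (algebraMap (𝓞 K) K γ) ^ 2 * t := by
      rw [map_sub, map_mul, map_pow, map_pow, ← hβγ, mul_pow, ← h]
      have h4 : algebraMap (𝓞 K) K (c : 𝓞 K) = (c : K) := by simp
      rw [h4]
      ring
    change v.valuation K (algebraMap (𝓞 K) K (β ^ 2 - (c : 𝓞 K) * γ ^ 2)) < 1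
    rw [h3, map_mul, map_mul, map_pow, hcv, one_mul]
    have h5 : v.valuation K (algebraMap (𝓞 K) K γ) ≤ 1 := v.valuation_le_one γ
    calc v.valuation K (algebraMap (𝓞 K) K γ) ^ 2 * v.valuation K t
        ≤ 1 * v.valuation K t := by
          gcongr
          exact pow_le_one' h5 2
      _ < 1 := by rw [one_mul]; exact ht
  have hbg : (p : ℤ) ∣ b ^ 2 - c * g ^ 2 := by
    rw [← sqp_int_mem v p hp hv]
    push_cast
    have h6 : (b : 𝓞 K) ^ 2 - (c : 𝓞 K) * (g : 𝓞 K) ^ 2 =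
        (β ^ 2 - (c : 𝓞 K) * γ ^ 2) - (β - (b : 𝓞 K)) * (β + (b : 𝓞 K)) +
          (γ - (g : 𝓞 K)) * ((c : 𝓞 K) * (γ + (g : 𝓞 K))) := by ring
    rw [h6]
    exact v.asIdeal.add_mem (v.asIdeal.sub_mem hmem (v.asIdeal.mul_mem_right _ hb))
      (v.asIdeal.mul_mem_right _ hg)
  have hpg : ¬ (p : ℤ) ∣ g := by
    intro h7
    apply hγv
    have h8 := (sqp_int_mem v p hp hv g).2 h7
    have h9 := v.asIdeal.add_mem hg h8
    simpa using h9
  have hcop : IsCoprime (p : ℤ) g := by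
    rw [Int.isCoprime_iff_gcd_eq_one]
    have h1 : Int.gcd (p : ℤ) g = Nat.gcd p g.natAbs := rfl
    rw [h1]
    refine (Nat.Prime.coprime_iff_not_dvd hp).2 ?_
    intro h2
    exact hpg (Int.natCast_dvd.2 h2)
  obtain ⟨a, k, hak⟩ := hcop
  have hs : (p : ℤ) ∣ (k * b) ^ 2 - c := by
    have e : (k * b) ^ 2 - c = k ^ 2 * (b ^ 2 - c * g ^ 2) + c * (k * g + 1) * (k * g - 1) := by
      ring
    rw [e]
    refine dvd_add (hbg.mul_left _) ?_
    have e2 : k * g - 1 = (p : ℤ) * (-a) := by linarith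
    rw [e2]
    exact (dvd_mul_right _ _).mul_left _
  refine ⟨k * b, ?_, hs⟩
  intro h10
  apply hc
  have h11 : (p : ℤ) ∣ (k * b) ^ 2 := h10.pow (by norm_num)
  have h12 := dvd_sub h11 hs
  have e3 : (k * b) ^ 2 - ((k * b) ^ 2 - c) = c := by ring
  rwa [e3] at h12

private theorem sqp_trace {K : Type} [Field K] [NumberField K] (hK : Module.finrank ℚ K = 2)
    (d : ℤ) (hd : Squarefree d) (hd1 : d ≠ 1) (r : K) (hr : r ^ 2 = (d : K)) :
    Algebra.trace ℚ K r = 0 := by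
  have hirr : ∀ x : ℚ, (x : K) ≠ r := by
    intro x hx
    have h1 : (x : K) ^ 2 = (d : K) := by rw [hx, hr]
    have h2 : x ^ 2 = (d : ℚ) := by exact_mod_cast h1
    have h3 : IsSquare (d : ℚ) := ⟨x, by rw [← h2, sq]⟩
    obtain ⟨k, hk⟩ : IsSquare d := Rat.isSquare_intCast_iff.1 h3
    have h4 : IsUnit k := hd k ⟨1, by rw [hk]; ring⟩
    apply hd1
    rcases Int.isUnit_iff.1 h4 with h5 | h5 <;> rw [hk, h5] <;> norm_num
  have hli : LinearIndependent ℚ ![(1 : K), r] := by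
    rw [LinearIndependent.pair_iff]
    intro s t hst
    rw [Algebra.smul_def, Algebra.smul_def, mul_one] at hst
    simp only [eq_ratCast] at hst
    have ht : t = 0 := by
      by_contra ht
      apply hirr (-s / t)
      have ht' : (t : K) ≠ 0 := by exact_mod_cast ht
      push_cast
      rw [div_eq_iff ht']
      linear_combination -hst
    subst ht
    refine ⟨?_, rfl⟩
    simpa using hst
  let b := basisOfLinearIndependentOfCardEqFinrank hli (by rw [hK]; rfl)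
  have hb : ∀ i, b i = ![(1 : K), r] i := fun i => by
    rw [show b i = _ from congrFun (coe_basisOfLinearIndependentOfCardEqFinrank hli _) i]
  have hb0 : b 0 = 1 := hb 0
  have hb1 : b 1 = r := hb 1
  have hM : Algebra.leftMulMatrix b r = !![0, (d : ℚ); 1, 0] := by
    ext i j
    rw [Algebra.leftMulMatrix_eq_repr_mul]
    fin_cases j
    · show b.repr (r * b 0) i = _
      rw [hb0, mul_one, ← hb1, b.repr_self]
      fin_cases i <;> simp
    · show b.repr (r * b 1) i = _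
      have e2 : r * b 1 = (d : ℚ) • b 0 := by
        rw [hb1, hb0, Algebra.smul_def, mul_one]
        simp only [eq_ratCast]
        rw [← sq, hr]
        push_cast
        rfl
      rw [e2, map_smul, b.repr_self]
      fin_cases i <;> simp
  rw [Algebra.trace_eq_matrix_trace b, hM, Matrix.trace_fin_two_of]
  ring

private theorem sqp_notMem {K : Type} [Field K] [NumberField K] (hK : Module.finrank ℚ K = 2)
    (d : ℤ) (hd : Squarefree d) (hd1 : d ≠ 1) (R : 𝓞 K) (hR : (R : K) ^ 2 = (d : K)) (p : ℕ)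
    (hp : p.Prime) (hp2 : p ≠ 2) (a : ℤ) : R + (a : 𝓞 K) ∉ Ideal.span {((p : ℕ) : 𝓞 K)} := by
  intro h
  obtain ⟨γ, hγ⟩ := Ideal.mem_span_singleton'.1 h
  have hpZ : Prime (p : ℤ) := Nat.prime_iff_prime_int.1 hp
  have hp2' : ¬ (p : ℤ) ∣ 2 := by
    intro h1
    have h2 : p ∣ 2 := by exact_mod_cast h1
    exact hp2 ((Nat.prime_dvd_prime_iff_eq hp Nat.prime_two).1 h2)
  have htr := sqp_trace hK d hd hd1 (R : K) hR
  have hpK : (p : K) ≠ 0 := by exact_mod_cast hp.ne_zero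
  have hγK : (γ : K) * (p : K) = (R : K) + (a : K) := by
    have h5 := congrArg (algebraMap (𝓞 K) K) hγ
    rw [map_mul, map_add] at h5
    simpa using h5
  have hta : (p : ℤ) ∣ 2 * a := by
    refine ⟨Algebra.trace ℤ (𝓞 K) γ, ?_⟩
    have h6 : ((p : ℤ) : ℚ) * (Algebra.trace ℤ (𝓞 K) γ : ℚ) = 2 * (a : ℚ) := by
      rw [Algebra.coe_trace_int]
      have h7 : ((p : ℤ) : ℚ) * Algebra.trace ℚ K (γ : K) =
          Algebra.trace ℚ K ((p : ℚ) • (γ : K)) := by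
        rw [map_smul, smul_eq_mul]
        push_cast
        rfl
      have h8 : (p : ℚ) • (γ : K) = (R : K) + algebraMap ℚ K (a : ℚ) := by
        rw [Algebra.smul_def]
        simp only [eq_ratCast, Rat.cast_natCast, Rat.cast_intCast]
        rw [mul_comm, hγK]
      rw [h7, h8, map_add, htr, Algebra.trace_algebraMap, hK]
      simp
    have h9 : (p : ℤ) * Algebra.trace ℤ (𝓞 K) γ = 2 * a := by exact_mod_cast h6
    exact h9.symm
  obtain ⟨k, rfl⟩ := (hpZ.dvd_or_dvd hta).resolve_left hp2'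
  -- `d = p ^ 2 δ ^ 2`
  have hdd : (p : ℤ) ^ 2 ∣ 2 * d := by
    refine ⟨Algebra.trace ℤ (𝓞 K) ((γ - (k : 𝓞 K)) ^ 2), ?_⟩
    have hδ : (p : K) * ((γ : K) - (k : K)) = (R : K) := by
      push_cast at hγK
      linear_combination hγK
    have h6 : (((p : ℤ) ^ 2 : ℤ) : ℚ) *
        (Algebra.trace ℤ (𝓞 K) ((γ - (k : 𝓞 K)) ^ 2) : ℚ) = 2 * (d : ℚ) := by
      rw [Algebra.coe_trace_int]
      have h7 : (((p : ℤ) ^ 2 : ℤ) : ℚ) *
          Algebra.trace ℚ K (((γ - (k : 𝓞 K)) ^ 2 : 𝓞 K) : K) =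
          Algebra.trace ℚ K ((p : ℚ) ^ 2 • (((γ - (k : 𝓞 K)) ^ 2 : 𝓞 K) : K)) := by
        rw [map_smul, smul_eq_mul]
        push_cast
        rfl
      have h8 : (p : ℚ) ^ 2 • (((γ - (k : 𝓞 K)) ^ 2 : 𝓞 K) : K) =
          algebraMap ℚ K (d : ℚ) := by
        rw [Algebra.smul_def]
        simp only [eq_ratCast, Rat.cast_pow, Rat.cast_natCast, Rat.cast_intCast]
        have h9 : (((γ - (k : 𝓞 K)) ^ 2 : 𝓞 K) : K) = ((γ : K) - (k : K)) ^ 2 := by
          push_cast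
          rfl
        rw [h9, ← mul_pow, hδ, hR]
      rw [h7, h8, Algebra.trace_algebraMap, hK]
      simp
    have h9 : (p : ℤ) ^ 2 * Algebra.trace ℤ (𝓞 K) ((γ - (k : 𝓞 K)) ^ 2) = 2 * d := by
      exact_mod_cast h6
    exact h9.symm
  have hcop : IsCoprime ((p : ℤ) ^ 2) 2 :=
    (((Prime.coprime_iff_not_dvd hpZ).2 hp2')).pow_left
  have h10 : (p : ℤ) * p ∣ d := by
    rw [← sq]
    exact hcop.dvd_of_dvd_mul_left hdd
  exact hpZ.not_isUnit (hd _ h10)

private theorem sqp_prime {K : Type} [Field K] [NumberField K] (hK : Module.finrank ℚ K = 2)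
    (d : ℤ) (hd : Squarefree d) (hd1 : d ≠ 1) (R : 𝓞 K) (hR : (R : K) ^ 2 = (d : K)) (p : ℕ)
    (hp : p.Prime) (hp2 : p ≠ 2) (a : ℤ) (ha : (p : ℤ) ∣ a ^ 2 - d) :
    ∃ v : HeightOneSpectrum (𝓞 K), ((p : ℕ) : 𝓞 K) ∈ v.asIdeal ∧
      ∀ x : 𝓞 K, ∃ n : ℤ, x - (n : 𝓞 K) ∈ v.asIdeal := by
  have hp0 : ((p : ℕ) : 𝓞 K) ≠ 0 := by exact_mod_cast hp.ne_zero
  have hRR : R ^ 2 = (d : 𝓞 K) := by
    apply RingOfIntegers.coe_injective
    rw [map_pow]
    simpa using hR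
  have hI : Ideal.span {((p : ℕ) : 𝓞 K), R - (a : 𝓞 K)} ≠ ⊤ := by
    intro htop
    have h1 : (1 : 𝓞 K) ∈ Ideal.span {((p : ℕ) : 𝓞 K), R - (a : 𝓞 K)} := by
      rw [htop]; trivial
    obtain ⟨x, y, hxy⟩ := Ideal.mem_span_pair.1 h1
    apply sqp_notMem hK d hd hd1 R hR p hp hp2 a
    obtain ⟨k, hk⟩ := ha
    have hk' : (a : 𝓞 K) ^ 2 - (d : 𝓞 K) = ((p : ℕ) : 𝓞 K) * (k : 𝓞 K) := by
      have h3 := congrArg (fun z : ℤ => (z : 𝓞 K)) hk
      push_cast at h3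
      exact h3
    rw [Ideal.mem_span_singleton']
    refine ⟨x * (R + (a : 𝓞 K)) - y * (k : 𝓞 K), ?_⟩
    linear_combination (R + (a : 𝓞 K)) * hxy - y * hRR + y * hk'
  obtain ⟨M, hM, hle⟩ := Ideal.exists_le_maximal _ hI
  have hpM : ((p : ℕ) : 𝓞 K) ∈ M := hle (Ideal.subset_span (by simp))
  have hRM : R - (a : 𝓞 K) ∈ M := hle (Ideal.subset_span (by simp))
  have hM0 : M ≠ ⊥ := by
    rintro rfl
    exact hp0 ((Ideal.mem_bot).1 hpM)
  refine ⟨⟨M, hM.isPrime, hM0⟩, hpM, ?_⟩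
  have hdvd : M ∣ Ideal.span {((p : ℕ) : 𝓞 K)} := by
    rw [Ideal.dvd_iff_le, Ideal.span_singleton_le_iff_mem]
    exact hpM
  obtain ⟨J, hJ⟩ := hdvd
  have hcard : Ideal.absNorm M * Ideal.absNorm J = p ^ 2 := by
    rw [← map_mul, ← hJ, Ideal.absNorm_span_natCast, RingOfIntegers.rank, hK]
  have hMp : Ideal.absNorm M = p := by
    have h1 : Ideal.absNorm M ∣ p ^ 2 := ⟨_, hcard.symm⟩
    obtain ⟨i, hi, hMi⟩ := (Nat.dvd_prime_pow hp).1 h1
    interval_cases i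
    · exfalso
      rw [pow_zero, Ideal.absNorm_eq_one_iff] at hMi
      exact hM.ne_top hMi
    · rw [hMi, pow_one]
    · exfalso
      rw [hMi] at hcard
      have hpos : 0 < p ^ 2 := pow_pos hp.pos 2
      have hJ1 : Ideal.absNorm J = 1 := by
        have : p ^ 2 * Ideal.absNorm J = p ^ 2 * 1 := by rw [hcard, mul_one]
        exact Nat.eq_of_mul_eq_mul_left hpos this
      rw [Ideal.absNorm_eq_one_iff] at hJ1
      rw [hJ1, Ideal.mul_top] at hJ
      apply sqp_notMem hK d hd hd1 R hR p hp hp2 (-a)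
      rw [hJ]
      push_cast
      rw [← sub_eq_add_neg]
      exact hRM
  have hcard' : Nat.card (𝓞 K ⧸ M) = p := by
    rw [← hMp, Ideal.absNorm_apply, Submodule.cardQuot_apply]
  intro x
  have : Fact p.Prime := ⟨hp⟩
  have : Nontrivial (𝓞 K ⧸ M) := by
    have : Finite (𝓞 K ⧸ M) := Nat.finite_of_card_ne_zero (by rw [hcard']; exact hp.ne_zero)
    rw [← Finite.one_lt_card_iff_nontrivial, hcard']
    exact hp.one_lt
  have h1 : Ideal.Quotient.mk M x ∈ AddSubgroup.zmultiples (1 : 𝓞 K ⧸ M) :=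
    mem_zmultiples_of_prime_card hcard' one_ne_zero
  obtain ⟨c, hc⟩ := AddSubgroup.mem_zmultiples_iff.1 h1
  refine ⟨c, ?_⟩
  show x - (c : 𝓞 K) ∈ M
  rw [← Ideal.Quotient.eq_zero_iff_mem, map_sub, ← hc]
  simp

/-- the case that `p` does not divide `c` -/
private theorem sqp_case {K : Type} [Field K] [NumberField K] (hK : Module.finrank ℚ K = 2)
    (d : ℤ) (hd : Squarefree d) (hd1 : d ≠ 1) (r : K) (hr : r ^ 2 = (d : K)) (p : ℕ)
    (hp : p.Prime) (hp2 : p ≠ 2) (c c' : ℤ) (hcc : c * c' = d) (hc : ¬ (p : ℤ) ∣ c)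
    (h : ∀ v : HeightOneSpectrum (𝓞 K), ((p : ℕ) : 𝓞 K) ∈ v.asIdeal →
      ∃ W t : K, (c : K) * (1 + t) = W ^ 2 ∧ v.valuation K t < 1) :
    ∃ s : ℤ, ¬ (p : ℤ) ∣ s ∧ ((p : ℤ) ∣ s ^ 2 - c ∨ (p : ℤ) ∣ s ^ 2 - c') := by
  have : Fact p.Prime := ⟨hp⟩
  obtain ⟨R, hR⟩ : ∃ R : 𝓞 K, (R : K) = r := by
    have hint : IsIntegral ℤ r := by
      refine ⟨Polynomial.X ^ 2 - Polynomial.C d, by monicity!, ?_⟩
      rw [Polynomial.eval₂_sub, Polynomial.eval₂_pow, Polynomial.eval₂_X, Polynomial.eval₂_C, hr]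
      simp
    exact ⟨⟨_, hint⟩, rfl⟩
  by_contra hcon
  push Not at hcon
  obtain ⟨a, ha⟩ : ∃ a : ℤ, (p : ℤ) ∣ a ^ 2 - d := by
    by_cases hc' : (p : ℤ) ∣ c'
    · exact ⟨0, by rw [← hcc]; simpa using hc'.mul_left c⟩
    have key : ∀ n : ℤ, ¬ (p : ℤ) ∣ n →
        (∀ s : ℤ, ¬ (p : ℤ) ∣ s → ¬ (p : ℤ) ∣ s ^ 2 - n) → legendreSym p n = -1 := by
      intro n hn hs
      rw [legendreSym.eq_neg_one_iff]
      rintro ⟨y, hy⟩
      obtain ⟨s, rfl⟩ := ZMod.intCast_surjective y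
      have h1 : (p : ℤ) ∣ s ^ 2 - n := by
        rw [← ZMod.intCast_zmod_eq_zero_iff_dvd]
        push_cast
        rw [hy]
        ring
      by_cases h2 : (p : ℤ) ∣ s
      · apply hn
        have h3 : (p : ℤ) ∣ s ^ 2 := h2.pow (by norm_num)
        have h4 := dvd_sub h3 h1
        have e3 : s ^ 2 - (s ^ 2 - n) = n := by ring
        rwa [e3] at h4
      · exact hs s h2 h1
    have h1 := key c hc fun s hs => (hcon s hs).1
    have h2 := key c' hc' fun s hs => (hcon s hs).2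
    have h3 : legendreSym p d = 1 := by
      rw [← hcc, legendreSym.mul, h1, h2]
      norm_num
    have h4 : ((d : ℤ) : ZMod p) ≠ 0 := by
      intro h5
      rw [(legendreSym.eq_zero_iff p d).2 h5] at h3
      exact zero_ne_one h3
    obtain ⟨y, hy⟩ := (legendreSym.eq_one_iff p h4).1 h3
    obtain ⟨s, rfl⟩ := ZMod.intCast_surjective y
    refine ⟨s, ?_⟩
    rw [← ZMod.intCast_zmod_eq_zero_iff_dvd]
    push_cast
    rw [hy]
    ring
  obtain ⟨v, hv, hres⟩ := sqp_prime hK d hd hd1 R (by rw [hR]; exact hr) p hp hp2 a ha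
  obtain ⟨W, t, hW, ht⟩ := h v hv
  obtain ⟨s, hs1, hs2⟩ := sqp_core v p hp hv hres c hc W t hW ht
  exact (hcon s hs1).1 hs2

theorem mainSQP : S_SQP := by
  intro K _ _ hK d r hd hd1 hr p hp hp2 c c' hcc h
  have hpZ : Prime (p : ℤ) := Nat.prime_iff_prime_int.1 hp
  by_cases hc : (p : ℤ) ∣ c
  · have hc' : ¬ (p : ℤ) ∣ c' := by
      intro hc'
      apply hpZ.not_isUnit
      apply hd
      rw [← hcc]
      exact mul_dvd_mul hc hc'
    have hd0 : d ≠ 0 := hd.ne_zero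
    have hc0 : c ≠ 0 := by
      rintro rfl
      apply hd0
      rw [← hcc, zero_mul]
    have hcK : (c : K) ≠ 0 := by exact_mod_cast hc0
    obtain ⟨s, hs1, hs2⟩ := sqp_case hK d hd hd1 r hr p hp hp2 c' c (by rw [mul_comm, hcc]) hc'
      (fun v hv => by
        obtain ⟨W, t, hW, ht⟩ := h v hv
        refine ⟨r * W / c, t, ?_, ht⟩
        have e1 : (d : K) = (c : K) * (c' : K) := by exact_mod_cast congrArg (Int.cast (R := K)) hcc.symm
        rw [div_pow, mul_pow, hr, ← hW, eq_div_iff (pow_ne_zero 2 hcK), e1]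
        ring)
    exact ⟨s, hs1, hs2.symm⟩
  · exact sqp_case hK d hd hd1 r hr p hp hp2 c c' hcc hc h

end Pool.Agent.H47T
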