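import Pool.Agent.H47T.Stm2

set_option autoImplicit false

namespace Pool.Agent.H47T

open NumberField IsDedekindDomain

namespace SYMaux

section

variable {K L : Type} [Field K] [NumberField K] [Field L] [NumberField L] [Algebra K L]
  {Φ : L ≃ₐ[K] L} {p : ℕ} {v : HeightOneSpectrum (𝓞 K)} {P : HeightOneSpectrum (𝓞 L)}

lemma p_mem (h : Fr Φ p v P) : ((p : ℕ) : 𝓞 L) ∈ P.asIdeal := by
  obtain ⟨h1, h2, _⟩ := h
  have h3 : ((p : ℕ) : 𝓞 K) ∈ v.asIdeal := by
    rw [← h1]; exact Ideal.absNorm_mem v.asIdeal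
  rw [← h2, Ideal.mem_comap, map_natCast] at h3
  exact h3

lemma val_int_le (n : ℤ) : P.valuation L (n : L) ≤ 1 := by
  have h : P.valuation L (algebraMap (𝓞 L) L ((n : ℤ) : 𝓞 L)) ≤ 1 := P.valuation_le_one (K := L) _
  rwa [map_intCast] at h

/-- an integer in `P` is divisible by `p` -/
lemma dvd_of_val (hp : p.Prime) (h : Fr Φ p v P) (n : ℤ) (hn : P.valuation L (n : L) < 1) :
    (p : ℤ) ∣ n := by
  by_contra hd
  have hco : IsCoprime (n : ℤ) (p : ℤ) := by
    have := (Nat.prime_iff_prime_int.mp hp).coprime_iff_not_dvd.mpr hd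
    exact this.symm
  obtain ⟨a, b, hab⟩ := hco
  have hpv : P.valuation L ((p : ℤ) : L) < 1 := by
    have h1 : P.valuation L (algebraMap (𝓞 L) L ((p : ℕ) : 𝓞 L)) < 1 :=
      (P.valuation_lt_one_iff_mem (K := L) _).mpr (p_mem h)
    rw [map_natCast] at h1
    exact_mod_cast h1
  have h1 : (1 : L) = (a : L) * (n : L) + (b : L) * ((p : ℤ) : L) := by
    exact_mod_cast congrArg (Int.cast (R := L)) hab.symm
  have h2 : P.valuation L (1 : L) < 1 := by
    rw [h1]
    refine Valuation.map_add_lt _ ?_ ?_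
    · rw [map_mul]
      calc _ ≤ 1 * P.valuation L (n : L) := mul_le_mul' (val_int_le a) le_rfl
        _ < 1 := by rwa [one_mul]
    · rw [map_mul]
      calc _ ≤ 1 * P.valuation L ((p : ℤ) : L) := mul_le_mul' (val_int_le b) le_rfl
        _ < 1 := by rwa [one_mul]
  rw [map_one] at h2
  exact lt_irrefl _ h2

lemma val_two (hp : p.Prime) (hp2 : p ≠ 2) (h : Fr Φ p v P) : P.valuation L (2 : L) = 1 := by
  have h1 : P.valuation L ((2 : ℤ) : L) ≤ 1 := val_int_le 2
  rcases h1.lt_or_eq with h2 | h2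
  · have h3 := dvd_of_val hp h 2 h2
    have h4 : p ∣ 2 := by exact_mod_cast h3
    exact absurd ((Nat.prime_dvd_prime_iff_eq hp Nat.prime_two).mp h4) hp2
  · exact_mod_cast h2

/-- the Frobenius congruence for all integral elements at `P` -/
lemma frob (h : Fr Φ p v P) (σ : L) (hσ : P.valuation L σ ≤ 1) :
    P.valuation L (Φ σ - σ ^ p) < 1 := by
  obtain ⟨n, d, hnd⟩ := P.exists_primeCompl_mul_eq_of_integer σ hσ
  set w := P.valuation L with hw
  set α : L := algebraMap (𝓞 L) L n with hα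
  set β : L := algebraMap (𝓞 L) L (d : 𝓞 L) with hβ
  have hn := h.2.2 n
  have hd := h.2.2 (d : 𝓞 L)
  change w (Φ α - α ^ p) < 1 at hn
  change w (Φ β - β ^ p) < 1 at hd
  have hβ1 : w β = 1 := (P.valuation_eq_one_iff_notMem (K := L)).mpr d.2
  have hΦβ : w (Φ β) = 1 := by
    have h1 : Φ β = β ^ p + (Φ β - β ^ p) := by ring
    have h2 : w (β ^ p) = 1 := by rw [map_pow, hβ1, one_pow]
    rw [h1, Valuation.map_add_eq_of_lt_left, h2]
    rw [h2]; exact hd
  have h3 : (Φ σ - σ ^ p) * Φ β = (Φ α - α ^ p) - σ ^ p * (Φ β - β ^ p) := by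
    rw [← hnd, map_mul]; ring
  have h4 : w ((Φ σ - σ ^ p) * Φ β) < 1 := by
    rw [h3]
    refine Valuation.map_sub_lt _ hn ?_
    rw [map_mul, map_pow]
    calc w σ ^ p * w (Φ β - β ^ p) ≤ 1 * w (Φ β - β ^ p) :=
          mul_le_mul' (pow_le_one₀ zero_le hσ) le_rfl
      _ < 1 := by rwa [one_mul]
  rwa [map_mul, hΦβ, mul_one] at h4

/-- the valuations of the elements of `K` -/
lemma val_lt (h : Fr Φ p v P) (t : K) (ht : v.valuation K t < 1) :
    P.valuation L (algebraMap K L t) < 1 := by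
  obtain ⟨n, d, hnd⟩ := v.exists_primeCompl_mul_eq_of_integer t ht.le
  have hd1 : v.valuation K (algebraMap (𝓞 K) K (d : 𝓞 K)) = 1 :=
    (v.valuation_eq_one_iff_notMem (K := K)).mpr d.2
  have hn : n ∈ v.asIdeal := by
    rw [← v.valuation_lt_one_iff_mem (K := K)]
    have : v.valuation K (algebraMap (𝓞 K) K n) < 1 := by
      rw [← hnd, map_mul, hd1, mul_one]; exact ht
    exact this
  have hn2 : algebraMap (𝓞 K) (𝓞 L) n ∈ P.asIdeal := by
    rw [← Ideal.mem_comap, h.2.1]; exact hn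
  have hd2 : algebraMap (𝓞 K) (𝓞 L) (d : 𝓞 K) ∉ P.asIdeal := by
    rw [← Ideal.mem_comap, h.2.1]; exact d.2
  have hn3 : P.valuation L (algebraMap (𝓞 L) L (algebraMap (𝓞 K) (𝓞 L) n)) < 1 :=
    (P.valuation_lt_one_iff_mem (K := L) _).mpr hn2
  have hd3 : P.valuation L (algebraMap (𝓞 L) L (algebraMap (𝓞 K) (𝓞 L) (d : 𝓞 K))) = 1 :=
    (P.valuation_eq_one_iff_notMem (K := L)).mpr hd2
  have e1 : ∀ x : 𝓞 K, algebraMap (𝓞 L) L (algebraMap (𝓞 K) (𝓞 L) x) =
      algebraMap K L (algebraMap (𝓞 K) K x) := fun x => rfl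
  rw [e1] at hn3 hd3
  rw [← hnd, map_mul, map_mul, hd3, mul_one] at hn3
  exact hn3

/-- two signs which agree up to a small error -/
lemma sign_eq (hp : p.Prime) (hp2 : p ≠ 2) (h : Fr Φ p v P) (ε δ : ℤˣ) (s : L)
    (hs : P.valuation L s = 1)
    (hsm : P.valuation L ((((ε : ℤ) : L) - ((δ : ℤ) : L)) * s) < 1) : ε = δ := by
  have h2 := val_two hp hp2 h
  rw [map_mul, hs, mul_one] at hsm
  rcases Int.units_eq_one_or ε with rfl | rfl <;> rcases Int.units_eq_one_or δ with rfl | rfl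
  · rfl
  · exfalso
    have e : (((1 : ℤˣ) : ℤ) : L) - (((-1 : ℤˣ) : ℤ) : L) = 2 := by push_cast; norm_num
    rw [e, h2] at hsm
    exact lt_irrefl _ hsm
  · exfalso
    have e : (((-1 : ℤˣ) : ℤ) : L) - (((1 : ℤˣ) : ℤ) : L) = -2 := by push_cast; norm_num
    rw [e, Valuation.map_neg, h2] at hsm
    exact lt_irrefl _ hsm
  · rfl

end

end SYMaux

open SYMaux

theorem mainSYM : S_SYM := by
  intro K L _ _ _ _ _ Φ p v P hp hp2 h s ε hs
  have hv2 := val_two hp hp2 h
  have hodd : Odd p := hp.odd_of_ne_two hp2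
  refine ⟨?_, ?_, ?_⟩
  · intro f b t hb hf ht hsf
    set w := P.valuation L with hw
    have hbL : algebraMap K L b ≠ 0 := (map_ne_zero _).mpr hb
    set σ : L := s / algebraMap K L b with hσ
    have hσ2 : σ ^ 2 = 1 + algebraMap K L t := by
      rw [hσ, div_pow, hsf, hf, map_mul, map_pow, map_add, map_one]
      field_simp
    have htL : w (algebraMap K L t) < 1 := val_lt h t ht
    have hσ1 : w σ = 1 := by
      have h1 : w (σ ^ 2) = 1 := by
        rw [hσ2, Valuation.map_add_eq_of_lt_left, map_one]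
        rw [map_one]; exact htL
      rw [map_pow] at h1
      exact (pow_eq_one_iff_of_nonneg zero_le two_ne_zero).mp h1
    have hfac : (σ - 1) * (σ + 1) = algebraMap K L t := by linear_combination hσ2
    -- `σ ≡ δ`
    obtain ⟨δ, hδ⟩ : ∃ δ : ℤˣ, w (σ - ((δ : ℤ) : L)) < 1 := by
      by_contra hcon
      push Not at hcon
      have h1 := hcon 1
      have h2 := hcon (-1)
      have e1 : σ - (((1 : ℤˣ) : ℤ) : L) = σ - 1 := by push_cast; ring
      have e2 : σ - (((-1 : ℤˣ) : ℤ) : L) = σ + 1 := by push_cast; ring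
      rw [e1] at h1
      rw [e2] at h2
      have h3 : 1 ≤ w (algebraMap K L t) := by
        rw [← hfac, map_mul]; exact one_le_mul h1 h2
      exact absurd htL (not_lt.mpr h3)
    have hδp : (((δ : ℤ) : L)) ^ p = ((δ : ℤ) : L) := by
      rcases Int.units_eq_one_or δ with rfl | rfl
      · simp
      · push_cast; exact hodd.neg_one_pow
    have hδ1 : w ((δ : ℤ) : L) = 1 := by
      rcases Int.units_eq_one_or δ with rfl | rfl
      · push_cast; exact map_one _
      · push_cast; rw [Valuation.map_neg, map_one]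
    have hσp : w (σ ^ p - σ) < 1 := by
      have h1 : w (σ ^ p - ((δ : ℤ) : L) ^ p) < 1 := by
        rw [← Commute.geom_sum₂_mul (Commute.all σ ((δ : ℤ) : L)) p, map_mul]
        have h3 : w (∑ i ∈ Finset.range p, σ ^ i * ((δ : ℤ) : L) ^ (p - 1 - i)) ≤ 1 :=
          w.map_sum_le fun j _ => by
            rw [map_mul, map_pow, map_pow, hσ1, hδ1, one_pow, one_pow, one_mul]
        calc _ ≤ 1 * w (σ - ((δ : ℤ) : L)) := mul_le_mul' h3 le_rfl
          _ < 1 := by rwa [one_mul]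
      rw [hδp] at h1
      have h2 : σ ^ p - σ = (σ ^ p - ((δ : ℤ) : L)) - (σ - ((δ : ℤ) : L)) := by ring
      rw [h2]
      exact Valuation.map_sub_lt _ h1 hδ
    have hΦσ : Φ σ = ((ε : ℤ) : L) * σ := by
      rw [hσ, map_div₀, hs, AlgEquiv.commutes]; ring
    have hfr := frob h σ hσ1.le
    rw [hΦσ] at hfr
    refine sign_eq hp hp2 h ε 1 σ hσ1 ?_
    have h4 : (((ε : ℤ) : L) - (((1 : ℤˣ) : ℤ) : L)) * σ =
        (((ε : ℤ) : L) * σ - σ ^ p) + (σ ^ p - σ) := by push_cast; ring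
    rw [h4]
    exact Valuation.map_add_lt _ hfr hσp
  · intro hs2
    set w := P.valuation L with hw
    have hs1 : w s = 1 := by
      have h1 : w (s ^ 2) = 1 := by rw [hs2, Valuation.map_neg, map_one]
      rw [map_pow] at h1
      exact (pow_eq_one_iff_of_nonneg zero_le two_ne_zero).mp h1
    have hfr := frob h s hs1.le
    rw [hs] at hfr
    obtain ⟨k, hk⟩ := hodd
    have hsp : s ^ p = (-1) ^ k * s := by
      rw [hk, pow_succ, pow_mul, hs2]
    have e : s1 p = (-1) ^ k := by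
      unfold s1
      rcases Nat.even_or_odd k with he | ho
      · rw [if_neg (by obtain ⟨j, hj⟩ := he; omega), he.neg_one_pow]
      · rw [if_pos (by obtain ⟨j, hj⟩ := ho; omega), ho.neg_one_pow]
    rw [e]
    refine sign_eq hp hp2 h ε _ s hs1 ?_
    have h4 : (((ε : ℤ) : L) - ((((-1 : ℤˣ) ^ k : ℤˣ) : ℤ) : L)) * s = ((ε : ℤ) : L) * s - s ^ p := by
      rw [hsp]; push_cast; ring
    rw [h4]; exact hfr
  · intro hs2
    set w := P.valuation L with hw
    have hs1 : w s = 1 := by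
      have h1 : w (s ^ 2) = 1 := by rw [hs2]; exact hv2
      rw [map_pow] at h1
      exact (pow_eq_one_iff_of_nonneg zero_le two_ne_zero).mp h1
    have hfr := frob h s hs1.le
    rw [hs] at hfr
    obtain ⟨k, hk⟩ := hodd
    have hsp : s ^ p = 2 ^ k * s := by
      rw [hk, pow_succ, pow_mul, hs2]
    have h5 : w ((((ε : ℤ) - 2 ^ k : ℤ)) : L) < 1 := by
      have h6 : (((ε : ℤ) - 2 ^ k : ℤ) : L) * s = ((ε : ℤ) : L) * s - s ^ p := by
        rw [hsp]; push_cast; ring
      have h7 : w ((((ε : ℤ) - 2 ^ k : ℤ) : L) * s) < 1 := by rw [h6]; exact hfr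
      rwa [map_mul, hs1, mul_one] at h7
    have h8 : (p : ℤ) ∣ (ε : ℤ) - 2 ^ k := dvd_of_val hp h _ h5
    have : Fact p.Prime := ⟨hp⟩
    have h9 : (((ε : ℤ) : ZMod p)) = 2 ^ k := by
      have := (ZMod.intCast_zmod_eq_zero_iff_dvd _ p).mpr h8
      push_cast at this
      exact sub_eq_zero.mp this
    have h10 : (legendreSym p 2 : ZMod p) = 2 ^ k := by
      have := legendreSym.eq_pow p 2
      rw [this]
      have hk2 : p / 2 = k := by omega
      rw [hk2]; push_cast; rfl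
    have h11 : legendreSym p 2 = ZMod.χ₈ p := legendreSym.at_two hp2
    have h12 : ((s2 p : ℤˣ) : ℤ) = legendreSym p 2 := by
      rw [h11, ZMod.χ₈_nat_eq_if_mod_eight]
      unfold s2
      have h13 : p % 2 = 1 := by omega
      have h14 : p % 8 = 1 ∨ p % 8 = 3 ∨ p % 8 = 5 ∨ p % 8 = 7 := by omega
      rcases h14 with h14 | h14 | h14 | h14 <;> simp [h14, h13]
    have h15 : (p : ℤ) ∣ (ε : ℤ) - ((s2 p : ℤˣ) : ℤ) := by
      rw [← ZMod.intCast_zmod_eq_zero_iff_dvd, h12]
      push_cast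
      rw [h9, h10, sub_self]
    have hp3 : 3 ≤ p := by
      have := hp.two_le
      omega
    rcases Int.units_eq_one_or ε with rfl | rfl <;>
      rcases Int.units_eq_one_or (s2 p) with h16 | h16
    · exact h16.symm
    · exfalso
      rw [h16] at h15
      have := Int.le_of_dvd (by norm_num) h15
      push_cast at this
      omega
    · exfalso
      rw [h16] at h15
      have := Int.le_of_dvd (by norm_num) ((dvd_neg).mpr h15)
      push_cast at this
      omega
    · exact h16.symm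

end Pool.Agent.H47T
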