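import Pool.Agent.H47T.Stm3
import Pool.Agent.H47T.SYM

/-!
# Piece SYML of project TQ, phase 3
-/

set_option autoImplicit false

namespace Pool.Agent.H47T

open NumberField IsDedekindDomain

namespace SYMLaux

open SYMaux

section

variable {K L : Type} [Field K] [NumberField K] [Field L] [NumberField L] [Algebra K L]
  {Φ : L ≃ₐ[K] L} {p : ℕ} {v : HeightOneSpectrum (𝓞 K)} {P : HeightOneSpectrum (𝓞 L)}

/-- a root of unity of order `l` which is `1` modulo `P` is `1` -/
lemma root_one (hp : p.Prime) (h : Fr Φ p v P) {l : ℕ} (hl : l.Prime) (hlp : l ≠ p) {η : L}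
    (hη : η ^ l = 1) (hw : P.valuation L (η - 1) < 1) : η = 1 := by
  by_contra hne
  set w := P.valuation L with hwd
  have hη1 : w η = 1 := by
    have h1 : w (η ^ l) = 1 := by rw [hη, map_one]
    rw [map_pow] at h1
    exact (pow_eq_one_iff_of_nonneg zero_le hl.ne_zero).mp h1
  have h1 : ∑ j ∈ Finset.range l, η ^ j = 0 := by
    have h2 := geom_sum_mul η l
    rw [hη, sub_self] at h2
    exact (mul_eq_zero.1 h2).resolve_right (sub_ne_zero.2 hne)
  have h3 : ∀ j : ℕ, w (η ^ j - 1) < 1 := by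
    intro j
    have h4 := mul_geom_sum η j
    rw [← h4, map_mul]
    have h5 : w (∑ i ∈ Finset.range j, η ^ i) ≤ 1 := w.map_sum_le fun i _ => by
      rw [map_pow, hη1, one_pow]
    calc _ ≤ w (η - 1) * 1 := mul_le_mul' le_rfl h5
      _ < 1 := by rwa [mul_one]
  have h4 : w (∑ j ∈ Finset.range l, (η ^ j - 1)) < 1 :=
    Valuation.map_sum_lt w one_ne_zero fun j _ => h3 j
  rw [Finset.sum_sub_distrib, h1, zero_sub, Valuation.map_neg, Finset.sum_const, Finset.card_range,
    nsmul_eq_mul, mul_one] at h4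
  have h5 := dvd_of_val hp h (l : ℤ) (by exact_mod_cast h4)
  have h6 : p ∣ l := by exact_mod_cast h5
  exact hlp ((Nat.prime_dvd_prime_iff_eq hp hl).1 h6).symm

lemma root_modEq (hp : p.Prime) (h : Fr Φ p v P) {l : ℕ} (hl : l.Prime) (hlp : l ≠ p) {ζ : L}
    (hζ : IsPrimitiveRoot ζ l) {i m : ℕ} (hw : P.valuation L (ζ ^ i - ζ ^ m) < 1) :
    i ≡ m [MOD l] := by
  have hζ1 : P.valuation L ζ = 1 := by
    have h1 : P.valuation L (ζ ^ l) = 1 := by rw [hζ.pow_eq_one, map_one]
    rw [map_pow] at h1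
    exact (pow_eq_one_iff_of_nonneg zero_le hl.ne_zero).mp h1
  have key : ∀ i m : ℕ, i ≤ m → P.valuation L (ζ ^ m - ζ ^ i) < 1 → i ≡ m [MOD l] := by
    intro i m him hw
    obtain ⟨d, rfl⟩ := Nat.exists_eq_add_of_le him
    have h1 : ζ ^ (i + d) - ζ ^ i = ζ ^ i * (ζ ^ d - 1) := by ring
    rw [h1, map_mul, map_pow, hζ1, one_pow, one_mul] at hw
    have h2 := root_one hp h hl hlp (η := ζ ^ d) (by
      rw [← pow_mul, mul_comm, pow_mul, hζ.pow_eq_one, one_pow]) hw
    have h3 := hζ.dvd_of_pow_eq_one d h2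
    exact ((Nat.modEq_iff_dvd' him).2 (by rwa [Nat.add_sub_cancel_left]))
  rcases le_total i m with him | him
  · exact key i m him (by rwa [Valuation.map_sub_swap])
  · exact (key m i him hw).symm

end

end SYMLaux

open SYMaux SYMLaux

theorem mainSYML : S_SYML := by
  intro K L _ _ _ _ _ Φ p v P hp h l hl hlp ζ hζ
  set w := P.valuation L with hw
  set z : L := algebraMap K L ζ with hz
  have hzl : IsPrimitiveRoot z l := hζ.map_of_injective (algebraMap K L).injective
  have hz1 : w z = 1 := by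
    have h1 : w (z ^ l) = 1 := by rw [hzl.pow_eq_one, map_one]
    rw [map_pow] at h1
    exact (pow_eq_one_iff_of_nonneg zero_le hl.ne_zero).mp h1
  -- `l ∣ p - 1`
  have hlp1 : l ∣ p - 1 := by
    have h1 := frob h z hz1.le
    rw [hz, AlgEquiv.commutes, ← hz] at h1
    have h2 : w (z ^ 1 - z ^ p) < 1 := by rwa [pow_one]
    have h3 := root_modEq hp h hl hlp hzl h2
    exact (Nat.modEq_iff_dvd' hp.one_lt.le).1 h3
  refine ⟨hlp1, fun s i hs => ⟨?_, ?_⟩⟩
  · intro f b t hb hf ht hsf
    have hbL : algebraMap K L b ≠ 0 := (map_ne_zero _).mpr hb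
    set σ : L := s / algebraMap K L b with hσ
    have hσ2 : σ ^ l = 1 + algebraMap K L t := by
      rw [hσ, div_pow, hsf, hf, map_mul, map_pow, map_add, map_one]
      field_simp
    have htL : w (algebraMap K L t) < 1 := val_lt h t ht
    have hσ1 : w σ = 1 := by
      have h1 : w (σ ^ l) = 1 := by
        rw [hσ2, Valuation.map_add_eq_of_lt_left, map_one]
        rw [map_one]; exact htL
      rw [map_pow] at h1
      exact (pow_eq_one_iff_of_nonneg zero_le hl.ne_zero).mp h1
    have hfac : ∏ η ∈ Polynomial.nthRootsFinset l (1 : L), (σ - η * 1) = algebraMap K L t := by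
      rw [← hzl.pow_sub_pow_eq_prod_sub_mul σ 1 hl.pos, hσ2, one_pow]
      ring
    obtain ⟨η, hη, hση⟩ : ∃ η : L, η ^ l = 1 ∧ w (σ - η) < 1 := by
      by_contra hcon
      push Not at hcon
      have h3 : 1 ≤ w (algebraMap K L t) := by
        rw [← hfac, map_prod]
        refine Finset.one_le_prod' fun η hη => ?_
        rw [mul_one]
        exact hcon η ((Polynomial.mem_nthRootsFinset hl.pos (1 : L)).1 hη)
      exact absurd htL (not_lt.mpr h3)
    have hη1 : w η = 1 := by
      have h1 : w (η ^ l) = 1 := by rw [hη, map_one]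
      rw [map_pow] at h1
      exact (pow_eq_one_iff_of_nonneg zero_le hl.ne_zero).mp h1
    have hηp : η ^ p = η := by
      obtain ⟨c, hc⟩ := hlp1
      have h1 : p = l * c + 1 := by
        have := hp.one_lt
        omega
      rw [h1, pow_succ, pow_mul, hη, one_pow, one_mul]
    have hσp : w (σ ^ p - σ) < 1 := by
      have h1 : w (σ ^ p - η ^ p) < 1 := by
        rw [← Commute.geom_sum₂_mul (Commute.all σ η) p, map_mul]
        have h3 : w (∑ i ∈ Finset.range p, σ ^ i * η ^ (p - 1 - i)) ≤ 1 :=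
          w.map_sum_le fun j _ => by
            rw [map_mul, map_pow, map_pow, hσ1, hη1, one_pow, one_pow, one_mul]
        calc _ ≤ 1 * w (σ - η) := mul_le_mul' h3 le_rfl
          _ < 1 := by rwa [one_mul]
      rw [hηp] at h1
      have h2 : σ ^ p - σ = (σ ^ p - η) - (σ - η) := by ring
      rw [h2]
      exact Valuation.map_sub_lt _ h1 hση
    have hΦσ : Φ σ = z ^ i * σ := by
      rw [hσ, map_div₀, hs, AlgEquiv.commutes, map_pow]; ring
    have hfr := frob h σ hσ1.le
    rw [hΦσ] at hfr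
    have h4 : w ((z ^ i - z ^ 0) * σ) < 1 := by
      have h5 : (z ^ i - z ^ 0) * σ = (z ^ i * σ - σ ^ p) + (σ ^ p - σ) := by rw [pow_zero]; ring
      rw [h5]
      exact Valuation.map_add_lt _ hfr hσp
    rw [map_mul, hσ1, mul_one] at h4
    have h5 := root_modEq hp h hl hlp hzl h4
    exact (Nat.modEq_zero_iff_dvd).1 h5
  · intro hsf
    have hs1 : w s = 1 := by
      have h1 : w (s ^ l) = 1 := by rw [hsf]; exact hz1
      rw [map_pow] at h1
      exact (pow_eq_one_iff_of_nonneg zero_le hl.ne_zero).mp h1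
    have hfr := frob h s hs1.le
    rw [hs, map_pow] at hfr
    obtain ⟨m, hm⟩ := hlp1
    have h1 : p = l * m + 1 := by
      have := hp.one_lt
      omega
    have hsp : s ^ p = z ^ m * s := by
      rw [h1, pow_succ, pow_mul, hsf]
    have h4 : w ((z ^ i - z ^ m) * s) < 1 := by
      have h5 : (z ^ i - z ^ m) * s = z ^ i * s - s ^ p := by rw [hsp]; ring
      rw [h5]; exact hfr
    rw [map_mul, hs1, mul_one] at h4
    have h5 := root_modEq hp h hl hlp hzl h4
    have h6 : i * l ≡ m * l [MOD l * l] := h5.mul_right' l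
    rw [← pow_two] at h6
    have h7 : p = 1 + m * l := by rw [h1]; ring
    rw [h7]
    exact (Nat.ModEq.rfl.add h6).symm

end Pool.Agent.H47T

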