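import Mathlib

/-!
# Project TQ: Terjanian's theorem over all quadratic fields (exponents `2 p`)

`x ^ (2 p) + y ^ (2 p) = z ^ (2 p)`, first case, over a quadratic field `K = Q(√d)`, `d` squarefree.
At a prime `P` above two one of `x, y, z` is more divisible than the two others. Let `Z` be plus or
minus its square and `X, Y` plus or minus the squares of the others, so that `X ^ p + Y ^ p = Z ^ p`.
Then `A = (X ^ p + Y ^ p) / (X + Y)` has even valuations everywhere, is totally positive, is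
`p X ^ (p - 1) (1 + small)` at `P` and `(X + Y) ^ (p - 1) (1 + small)` at the primes above `p`. So its
norm is a square `s ^ 2` in `ℚ` and `A (Tr A + 2 s) = (A + s) ^ 2`, hence `c A = w ^ 2` with a
squarefree integer `c`, and `c` is a divisor of `d` with strong local properties.

The pieces are independent of each other. Each is a `Prop`; prove it as a theorem in a file of its own
(`Pool/Agent/H47T/<NAME>.lean`, namespace `Pool.Agent.H47T`, theorem name `main<NAME>`).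
-/

set_option autoImplicit false

namespace Pool.Agent.H47T

open NumberField IsDedekindDomain

/-- `(X ^ p + Y ^ p) / (X + Y)` for odd `p` -/
def AA {K : Type} [Field K] (p : ℕ) (X Y : K) : K :=
  ∑ i ∈ Finset.range p, X ^ (p - 1 - i) * (-Y) ^ i

/-- all valuations of `a` are even -/
def Ev {K : Type} [Field K] [NumberField K] (a : K) : Prop :=
  ∀ v : HeightOneSpectrum (𝓞 K), ∃ m : ℤ, v.valuation K a = WithZero.exp (2 * m)

/-- EVA. Proof. `A (X + Y) = X ^ p + Y ^ p = Z ^ p` (for instance `Commute.mul_geom_sum₂` or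
`Odd.add_dvd_pow_add_pow`-style; `A = ∑ X ^ (p-1-i) (-Y) ^ i` and `(X - (-Y)) A = X ^ p - (-Y) ^ p`).
Let `v` be a prime. (1) `v ∤ p`. Let `M = max (v X) (v Y)` (multiplicative valuations), so
`v (X + Y) ≤ M`, `M = exp (2 a)`. If `v (X + Y) = M` then `v A = v Z ^ p / M` is even. If
`v (X + Y) < M` then `v X = v Y = M` and, with `t = - Y / X`, `v (t - 1) < 1`, `v t = 1`,
`A = X ^ (p - 1) ∑ t ^ i` and `∑ t ^ i = p + (t - 1) (...)` has valuation `1` as `v p = 1`; so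
`v A = M ^ (p - 1)`. (2) `v ∣ p`: `v X = v Y = v Z = M`; `v A ≤ M ^ (p - 1)` and `v (X + Y) ≤ M`,
and the product is `M ^ p`; so `v A = M ^ (p - 1)`. -/
def S_EVA : Prop := ∀ (K : Type) [Field K] [NumberField K] (p : ℕ), p.Prime → p ≠ 2 →
  ∀ X Y Z : K, X ≠ 0 → Y ≠ 0 → Z ≠ 0 → X ^ p + Y ^ p = Z ^ p → Ev X → Ev Y → Ev Z →
  (∀ v : HeightOneSpectrum (𝓞 K), ((p : ℕ) : 𝓞 K) ∈ v.asIdeal →
    v.valuation K X = v.valuation K Z ∧ v.valuation K Y = v.valuation K Z) →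
  Ev (AA p X Y)

/-- POS. Proof. For real `a, b` and odd `p`, `a ^ p + b ^ p` and `a + b` are both positive or both
negative (`Odd.strictMono_pow` for `a` and `- b`), and `AA p a b * (a + b) = a ^ p + b ^ p ≠ 0`. -/
def S_POS : Prop := ∀ (K : Type) [Field K] (φ : K →+* ℂ) (p : ℕ), Odd p → ∀ X Y : K,
  (∃ s : ℝ, φ X = s) → (∃ t : ℝ, φ Y = t) → X ^ p + Y ^ p ≠ 0 → 0 < (φ (AA p X Y)).re

/-- LOC2. Proof. `t = - Y / X` has `v t = 1` and `t ^ p - 1 = - (Z / X) ^ p` has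
`v ≤ exp (- 2 p)`; `(t - 1) S = t ^ p - 1` for `S = ∑_{i<p} t ^ i`. The residue of `t` modulo `v`
has the `p`-th power `1` in a group of order `card - 1` prime to `p`, so `v (t - 1) < 1`. Then
`S ≡ p` modulo `v`, `v S = 1` (`p` is odd), `v (t - 1) ≤ exp (- 2 p)`, `S - p = (t - 1) (...)`, and
`AA p X Y / (p X ^ (p - 1)) = S / p`. -/
def S_LOC2 : Prop := ∀ (K : Type) [Field K] [NumberField K] (p : ℕ), p.Prime → p ≠ 2 →
  ∀ v : HeightOneSpectrum (𝓞 K), (2 : 𝓞 K) ∈ v.asIdeal →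
  ¬ p ∣ Nat.card (𝓞 K ⧸ v.asIdeal) - 1 →
  ∀ X Y Z : K, X ≠ 0 → Y ≠ 0 → Z ≠ 0 → X ^ p + Y ^ p = Z ^ p →
  v.valuation K Y = v.valuation K X →
  v.valuation K Z ≤ v.valuation K X * WithZero.exp (-2) →
  v.valuation K (AA p X Y / (p * X ^ (p - 1)) - 1) ≤ WithZero.exp (-(2 * p : ℤ))

/-- LOCP. Proof. `v (X + Y) = v X`: `≤` is clear, and `A (X + Y) = Z ^ p`, `v A ≤ v X ^ (p - 1)`.
Let `X' = X / (X + Y)`, `Y' = Y / (X + Y)`; `v X' = v Y' = 1`, `X' + Y' = 1` and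
`AA p X Y / (X + Y) ^ (p - 1) = AA p X' Y' = X' ^ p + Y' ^ p = 1 - p r` with `v r ≤ 1`
(`exists_add_pow_prime_eq` in the valuation subring). -/
def S_LOCP : Prop := ∀ (K : Type) [Field K] [NumberField K] (p : ℕ), p.Prime → p ≠ 2 →
  ∀ v : HeightOneSpectrum (𝓞 K), ((p : ℕ) : 𝓞 K) ∈ v.asIdeal →
  ∀ X Y Z : K, X ≠ 0 → Y ≠ 0 → Z ≠ 0 → X ^ p + Y ^ p = Z ^ p →
  v.valuation K X = v.valuation K Z → v.valuation K Y = v.valuation K Z →
  v.valuation K (AA p X Y / (X + Y) ^ (p - 1) - 1) < 1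

/-- ALLU: if the residue field has two elements or the ramification index `e` is odd, then the
three valuations cannot be equal. Proof. `U = X / Z`, `V = Y / Z` are units with
`U ^ 2 + V ^ 2 = 1`. If the residue field has two elements then `U, V` are `1` modulo `v` and
`1 + 1 = 1` modulo `v`. Otherwise let `s = U + V - 1`; `s (s + 2) = 2 U V` has valuation
`exp (- e)`. If `v s < v 2` then `v (s + 2) = v 2` and `v s = 1`, a contradiction as `v 2 < 1`.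
If `v 2 < v s` then `v s ^ 2 = exp (- e)`, a contradiction as `e` is odd. If `v s = v 2` then
`v (s (s + 2)) ≤ v 2 ^ 2 < v 2`. -/
def S_ALLU : Prop := ∀ (K : Type) [Field K] [NumberField K] (v : HeightOneSpectrum (𝓞 K)),
  (2 : 𝓞 K) ∈ v.asIdeal →
  (Nat.card (𝓞 K ⧸ v.asIdeal) = 2 ∨
    ∃ e : ℕ, Odd e ∧ (2 : 𝓞 K) ∈ v.asIdeal ^ e ∧ (2 : 𝓞 K) ∉ v.asIdeal ^ (e + 1)) →
  ∀ X Y Z : K, X ≠ 0 → Y ≠ 0 → Z ≠ 0 → X ^ 2 + Y ^ 2 = Z ^ 2 →
  ¬ (v.valuation K X = v.valuation K Z ∧ v.valuation K Y = v.valuation K Z)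

/-- QTWO. Proof. `v ∣ 2`, so `absNorm v ∣ 4`, and if `v ^ 2 ∣ 2` then `absNorm v ^ 2 ∣ 4`. -/
def S_QTWO : Prop := ∀ (K : Type) [Field K] [NumberField K], Module.finrank ℚ K = 2 →
  ∀ v : HeightOneSpectrum (𝓞 K), (2 : 𝓞 K) ∈ v.asIdeal →
  Nat.card (𝓞 K ⧸ v.asIdeal) = 2 ∨
    (Nat.card (𝓞 K ⧸ v.asIdeal) = 4 ∧ (2 : 𝓞 K) ∉ v.asIdeal ^ 2)

/-- NRM. Proof: adapt `Pool/Agent/Y309/WQ/KNQ.lean` (`sq_ideal`, `coords`, `pos_coords`, `main_int`;
there `d = q` is a prime). Multiply `a` by the square of an integer to make it integral. The ideal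
of `a = x + y r` is a square, so `N a = x ^ 2 - d y ^ 2 = ± n ^ 2`; it is positive, trivially if
`d < 0` and by the hypothesis if `0 < d`. So `(a + n) ^ 2 = a (2 x + 2 n)` and
`(a - n) ^ 2 = a (2 x - 2 n)`; one of the rational numbers `2 x ± 2 n` is not zero, and it is a
squarefree integer `c` times a square. If `0 < d` then all embeddings are real and `0 < c`. -/
def S_NRM : Prop := ∀ (K : Type) [Field K] [NumberField K], Module.finrank ℚ K = 2 →
  ∀ (d : ℤ) (r : K), Squarefree d → d ≠ 1 → r ^ 2 = (d : K) → ∀ a : K, Ev a →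
  (0 < d → ∀ φ : K →+* ℂ, 0 < (φ a).re) →
  ∃ (c : ℤ) (w : K), Squarefree c ∧ (0 < d → 0 < c) ∧ w ≠ 0 ∧ (c : K) * a = w ^ 2

/-- DIV. Proof. Let `l` be an odd prime dividing `c` and not `d`. As in `prime_even` of
`Pool/Agent/Y309/WQ/KNQ.lean` the ideal of `l` is a square `I ^ 2`, `absNorm I = l`, so
`R = r ∈ 𝓞 K` is congruent to an integer `a` modulo `I`; `(R - a) ^ 2 ∈ (l)`, that is
`d + a ^ 2 - 2 a R ∈ l 𝓞 K`; and `d - a ^ 2 ∈ I ∩ ℤ = l ℤ`, so `2 a (a - R) ∈ l 𝓞 K`, and taking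
norm or trace gives `l ∣ 2 a ^ 2`, so `l ∣ a` and `l ∣ d`. -/
def S_DIV : Prop := ∀ (K : Type) [Field K] [NumberField K], Module.finrank ℚ K = 2 →
  ∀ (d : ℤ) (r : K), Squarefree d → d ≠ 1 → r ^ 2 = (d : K) → ∀ c : ℤ, Squarefree c →
  Ev (c : K) → ∀ l : ℕ, l.Prime → l ≠ 2 → (l : ℤ) ∣ c → (l : ℤ) ∣ d

/-- TWO. Let `m = c p`; so `W ^ 2` is very close to `m` at `v`. Proof. Write `v` additively, `v 2 = e`,
`e ≤ 2`, and let `μ = v m`, `μ ≤ e` (`c` is squarefree, `p` odd). `v (W ^ 2 - m) ≥ 10`.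
(a) `d % 8 = 1`. Then two splits, the residue field of `v` has two elements and `e = 1`, every `v`-integral
element of `K` is congruent modulo `v ^ k` to an integer; so `n ^ 2 ≡ m` modulo `8` (even modulo
`2 ^ 10`), `m` is odd (`m` is `0` or `2` modulo four if it is even: not divisible by four), `m ≡ 1` modulo
`8`, `c ≡ p` modulo `8`. (b) Otherwise `v` is the only prime above two, so `v` is invariant under the
conjugation `σ`. Let `T = W + σ W = 2 α`, `D = W - σ W = 2 β r`, `α, β ∈ ℚ`; `v (T D) ≥ 10` and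
`v (T + D) = v (2 W) = e + μ / 2`. If `v D > v (2 W)` then `v T = v (2 W)`, and `D` is small:
`α ^ 2 - m = (W ^ 2 - m) - α D - D ^ 2 / 4` has `v ≥ 8`, so the rational number `α` is a `2`-adic
integer with `α ^ 2 ≡ m` modulo `16`, hence `m` is odd (not divisible by four) and `m ≡ 1` modulo
`8`: `c ≡ p`. In the other case `T` is small, and `d β ^ 2 ≡ m` modulo `16`: if `d` is odd then `β`
is a `2`-adic unit and `m` odd and `m d ≡ 1` modulo `8`, so `(d / c) ≡ c d ≡ p`; if `d = 2 d'` then `m = 2 m'`,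
`d' ≡ m'` modulo `8` and `c = 2 c1`, `d / c = d' / c1 ≡ d' c1 ≡ p`.
In all cases `c` divides `d`, as `c` is squarefree. (The bounds are generous; any other way is
welcome.) -/
def S_TWO : Prop := ∀ (K : Type) [Field K] [NumberField K], Module.finrank ℚ K = 2 →
  ∀ (d : ℤ) (r : K), Squarefree d → d ≠ 1 → r ^ 2 = (d : K) → ∀ c : ℤ, Squarefree c →
  (∀ l : ℕ, l.Prime → l ≠ 2 → (l : ℤ) ∣ c → (l : ℤ) ∣ d) → ∀ p : ℕ, p % 2 = 1 →
  ∀ v : HeightOneSpectrum (𝓞 K), (2 : 𝓞 K) ∈ v.asIdeal → ∀ W t : K,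
  (c : K) * p * (1 + t) = W ^ 2 → v.valuation K t ≤ WithZero.exp (-10) →
  ∃ c' : ℤ, c * c' = d ∧ (c % 8 = p % 8 ∨ c' % 8 = p % 8)

/-- SQP. Proof. `p` does not divide both of `c, c'`. The hypothesis is symmetric:
`c' (1 + t) = (r W / c) ^ 2`. So let `p ∤ c`. If `c` is a square modulo `p`, done; otherwise suppose
that `c'` is not a nonzero square modulo `p`. Then `d ≡ a ^ 2` modulo `p` for some integer `a`
(`a = 0` if `p ∣ c'`, and product of two nonresidues otherwise). Let `R = r ∈ 𝓞 K`. There is a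
prime `v` containing `p` and `R - a`: otherwise `R + a ∈ p 𝓞 K`, so `(R + a) / p` is integral, with
trace `2 a / p` and norm `(a ^ 2 - d) / p ^ 2`, so `p ∣ a`, `a = 0`, `p ^ 2 ∣ d`, a contradiction. In the
same way `R - a ∉ p 𝓞 K`, so `v` is not `p 𝓞 K` and its norm is `p`: every element of `𝓞 K` is
congruent to an integer modulo `v`. As `v W = 1`, `W = β / γ` with `β, γ ∈ 𝓞 K` not in `v`, and
`β ^ 2 - c γ ^ 2 ∈ v` gives integers with `b ^ 2 ≡ c g ^ 2` modulo `p`, `p ∤ g`; a contradiction. -/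
def S_SQP : Prop := ∀ (K : Type) [Field K] [NumberField K], Module.finrank ℚ K = 2 →
  ∀ (d : ℤ) (r : K), Squarefree d → d ≠ 1 → r ^ 2 = (d : K) → ∀ p : ℕ, p.Prime → p ≠ 2 →
  ∀ c c' : ℤ, c * c' = d →
  (∀ v : HeightOneSpectrum (𝓞 K), ((p : ℕ) : 𝓞 K) ∈ v.asIdeal →
    ∃ W t : K, (c : K) * (1 + t) = W ^ 2 ∧ v.valuation K t < 1) →
  ∃ s : ℤ, ¬ (p : ℤ) ∣ s ∧ ((p : ℤ) ∣ s ^ 2 - c ∨ (p : ℤ) ∣ s ^ 2 - c')

/-- `d = c c'` with `c ≡ p` modulo `8`, `c > 0` if `d > 0`, and `c` or `c'` is a nonzero square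
modulo `p` -/
def Bad (d : ℤ) (p : ℕ) : Prop :=
  ∃ c c' : ℤ, c * c' = d ∧ c % 8 = p % 8 ∧ (0 < d → 0 < c) ∧
    ∃ s : ℤ, ¬ (p : ℤ) ∣ s ∧ ((p : ℤ) ∣ s ^ 2 - c ∨ (p : ℤ) ∣ s ^ 2 - c')

/-- AP (elementary number theory only). Proof: the residue classes
* `d % 4 = 1`: `p ≡ 1` modulo `|d|`, `p ≡ 3` modulo `4`;
* `d = 2 k`, `k % 4 = 1`: `p ≡ 1` modulo `|k|`, `p ≡ 7` modulo `8`;
* `d = 2 k`, `k % 4 = 3`: `p ≡ 1` modulo `|k|`, `p ≡ 3` modulo `8`;
* `d % 8 = 3`: `p ≡ 2` modulo `|d|`, `p ≡ 7` modulo `8`;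
* `d % 8 = 7`: `p ≡ 2` modulo `|d|`, `p ≡ 5` modulo `8`.
(Chinese remainder theorem; the odd part of `d` is prime to eight, and `p` is prime to it.) Let
`c c' = d`, `c ≡ p` modulo `8`. In the first three cases `jacobiSym p q = 1` for all odd `q ∣ d`, so for
odd `c > 0`, `c ≡ p ≡ 3` modulo `4`, `J(c | p) = - J(p | c) = - 1` by quadratic reciprocity; for `c < 0`
`J(c | p) = J(-1 | p) J(|c| | p) = - J(p | |c|) = - 1` as `|c| ≡ 1` modulo `4`. And `J(d | p) = 1`: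
for odd `k` of any sign `J(k | p) = 1` or `- 1` as `k % 4 = 1` or `3` (same computation), and
`J(2 | p)` is `1` for `p % 8 = 7` and `- 1` for `p % 8 = 3`. So `J(c' | p) = - 1` as well. In the last
two cases `J(p | q) = J(2 | q)` for all `q ∣ d`. If `p % 8 = 7` then for every `k ∣ d` (any sign)
`J(k | p) = 1` for `k % 8 = 1, 3` and `- 1` for `k % 8 = 5, 7`; here `c % 8 = 7`, `c' % 8 = 5`. If
`p % 8 = 5` then `J(k | p) = J(p | |k|) = J(2 | |k|)`, which is `1` for `k % 8 = 1, 7` and `- 1` for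
`k % 8 = 3, 5`; here `c % 8 = 5` and `c' % 8 = 3`. In all cases both `c` and `c'` are nonsquares modulo
`p`. -/
def S_AP : Prop := ∀ d : ℤ, Squarefree d → ∃ m a : ℕ, 0 < m ∧ a.Coprime m ∧
  ∀ p : ℕ, p.Prime → p % m = a % m → ¬ Bad d p

/-- SQRT. Every quadratic field is `ℚ(√d)`. -/
def S_SQRT : Prop := ∀ (K : Type) [Field K] [NumberField K], Module.finrank ℚ K = 2 →
  ∃ (d : ℤ) (r : K), Squarefree d ∧ d ≠ 1 ∧ r ^ 2 = (d : K)

end Pool.Agent.H47T
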