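import Pool.Agent.H47T.QF

/-! Piece TWO: the condition at the primes above two. -/

set_option autoImplicit false

namespace Pool.Agent.H47T

open NumberField IsDedekindDomain

namespace TWO

theorem odd_sq {a : ℤ} (ha : a % 2 = 1) : ∃ k : ℤ, a ^ 2 = 8 * k + 1 := by
  obtain ⟨j, hj⟩ : ∃ j, a = 2 * j + 1 := ⟨a / 2, by omega⟩
  obtain ⟨i, hi⟩ := Int.even_mul_succ_self j
  refine ⟨i, ?_⟩
  rw [hj]
  linear_combination 4 * hi

/-- the integral lemma -/
theorem intb {a b N m d : ℤ} (hm : m % 4 ≠ 0) (hd : d % 4 ≠ 0)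
    (hprim : ¬ (a % 2 = 0 ∧ b % 2 = 0 ∧ N % 2 = 0)) (hab : (8 : ℤ) ∣ a * b)
    (h16 : (16 : ℤ) ∣ a ^ 2 + d * b ^ 2 - m * N ^ 2)
    (h32 : m % 2 = 0 → (32 : ℤ) ∣ a ^ 2 + d * b ^ 2 - m * N ^ 2) :
    m % 8 = 1 ∨ (m % 2 = 1 ∧ m % 8 = d % 8) ∨ (m % 2 = 0 ∧ m % 16 = d % 16) := by
  rcases Int.emod_two_eq_zero_or_one a with ha | ha
  · rcases Int.emod_two_eq_zero_or_one b with hb | hb
    · exfalso
      have hN : N % 2 = 1 := by omega
      obtain ⟨l, hl⟩ := odd_sq hN
      obtain ⟨a1, rfl⟩ : ∃ a1, a = 2 * a1 := ⟨a / 2, by omega⟩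
      obtain ⟨b1, rfl⟩ : ∃ b1, b = 2 * b1 := ⟨b / 2, by omega⟩
      have e1 : (2 * a1) ^ 2 + d * (2 * b1) ^ 2 - m * N ^ 2 =
          4 * (a1 ^ 2 + d * b1 ^ 2) - (8 * (m * l) + m) := by
        rw [hl]
        ring
      rw [e1] at h16
      generalize a1 ^ 2 + d * b1 ^ 2 = X at h16
      generalize m * l = Y at h16
      omega
    · have ha8 : (8 : ℤ) ∣ a := by
        refine Int.dvd_of_dvd_mul_left_of_gcd_one hab ?_
        rw [Int.gcd_comm, ← Int.isCoprime_iff_gcd_eq_one]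
        obtain ⟨k, hk⟩ := odd_sq hb
        exact ⟨b, -k, by linear_combination hk⟩
      obtain ⟨a1, rfl⟩ := ha8
      obtain ⟨k, hk⟩ := odd_sq hb
      rcases Int.emod_two_eq_zero_or_one N with hN | hN
      · exfalso
        obtain ⟨N1, rfl⟩ : ∃ N1, N = 2 * N1 := ⟨N / 2, by omega⟩
        have e1 : (8 * a1) ^ 2 + d * b ^ 2 - m * (2 * N1) ^ 2 =
            64 * a1 ^ 2 + (8 * (d * k) + d) - 4 * (m * N1 ^ 2) := by
          rw [hk]
          ring
        rw [e1] at h16
        generalize a1 ^ 2 = X at h16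
        generalize d * k = Y at h16
        generalize m * N1 ^ 2 = Z at h16
        omega
      · obtain ⟨l, hl⟩ := odd_sq hN
        have e1 : (8 * a1) ^ 2 + d * b ^ 2 - m * N ^ 2 =
            64 * a1 ^ 2 + (8 * (d * k) + d) - (8 * (m * l) + m) := by
          rw [hk, hl]
          ring
        rw [e1] at h16 h32
        rcases Int.emod_two_eq_zero_or_one m with hm2 | hm2
        · have h3 := h32 hm2
          have hd2 : d % 2 = 0 := by
            generalize a1 ^ 2 = X at h3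
            generalize d * k = Y at h3
            generalize m * l = Z at h3
            omega
          obtain ⟨d', rfl⟩ : ∃ d', d = 2 * d' := ⟨d / 2, by omega⟩
          obtain ⟨m', rfl⟩ : ∃ m', m = 2 * m' := ⟨m / 2, by omega⟩
          have e2 : 64 * a1 ^ 2 + (8 * (2 * d' * k) + 2 * d') - (8 * (2 * m' * l) + 2 * m') =
              64 * a1 ^ 2 + (16 * (d' * k) + 2 * d') - (16 * (m' * l) + 2 * m') := by ring
          rw [e2] at h3
          generalize a1 ^ 2 = X at h3
          generalize d' * k = Y at h3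
          generalize m' * l = Z at h3
          omega
        · generalize a1 ^ 2 = X at h16
          generalize d * k = Y at h16
          generalize m * l = Z at h16
          omega
  · have hb8 : (8 : ℤ) ∣ b := by
      rw [mul_comm] at hab
      refine Int.dvd_of_dvd_mul_left_of_gcd_one hab ?_
      rw [Int.gcd_comm, ← Int.isCoprime_iff_gcd_eq_one]
      obtain ⟨k, hk⟩ := odd_sq ha
      exact ⟨a, -k, by linear_combination hk⟩
    obtain ⟨b1, rfl⟩ := hb8
    obtain ⟨k, hk⟩ := odd_sq ha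
    rcases Int.emod_two_eq_zero_or_one N with hN | hN
    · exfalso
      obtain ⟨N1, rfl⟩ : ∃ N1, N = 2 * N1 := ⟨N / 2, by omega⟩
      have e1 : a ^ 2 + d * (8 * b1) ^ 2 - m * (2 * N1) ^ 2 =
          8 * k + 1 + 64 * (d * b1 ^ 2) - 4 * (m * N1 ^ 2) := by
        rw [hk]
        ring
      rw [e1] at h16
      generalize d * b1 ^ 2 = X at h16
      generalize m * N1 ^ 2 = Z at h16
      omega
    · obtain ⟨l, hl⟩ := odd_sq hN
      have e1 : a ^ 2 + d * (8 * b1) ^ 2 - m * N ^ 2 =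
          8 * k + 1 + 64 * (d * b1 ^ 2) - (8 * (m * l) + m) := by
        rw [hk, hl]
        ring
      rw [e1] at h16
      generalize d * b1 ^ 2 = X at h16
      generalize m * l = Z at h16
      left
      omega

/-- a square root modulo powers of two -/
theorem sqrt_mod {d : ℤ} (h : d % 8 = 1) (k : ℕ) : ∃ ρ : ℤ, ρ % 2 = 1 ∧ (2 : ℤ) ^ (k + 3) ∣ ρ ^ 2 - d := by
  induction k with
  | zero => exact ⟨1, by norm_num, by norm_num; omega⟩
  | succ k ih =>
    obtain ⟨ρ, h1, q, hq⟩ := ih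
    rcases Int.emod_two_eq_zero_or_one q with h2 | h2
    · obtain ⟨q', rfl⟩ : ∃ q', q = 2 * q' := ⟨q / 2, by omega⟩
      exact ⟨ρ, h1, q', by rw [hq]; ring⟩
    · refine ⟨ρ + 2 ^ (k + 2), ?_, ?_⟩
      · rw [show ρ + 2 ^ (k + 2) = ρ + 2 * 2 ^ (k + 1) by ring]
        omega
      · obtain ⟨s, hs⟩ : ∃ s, q + ρ = 2 * s := ⟨(q + ρ) / 2, by omega⟩
        refine ⟨s + 2 ^ k, ?_⟩
        have e1 : (ρ + 2 ^ (k + 2)) ^ 2 - d = (ρ ^ 2 - d) + 2 ^ (k + 3) * ρ + 2 ^ (k + 4) * 2 ^ k := by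
          ring
        rw [e1, hq]
        have e2 : (2 : ℤ) ^ (k + 3) * q + 2 ^ (k + 3) * ρ = 2 ^ (k + 3) * (2 * s) := by
          rw [← hs]
          ring
        rw [e2]
        ring

theorem aux1 {G : Type} [CommMonoidWithZero G] (m a : G) : m * a ^ 5 = a * (m * a ^ 4) := by
  rw [pow_succ' a 4]
  exact mul_left_comm _ _ _

theorem aux2 {G : Type} [CommMonoidWithZero G] (a x : G) :
    a ^ 5 * x ^ 2 = a ^ 2 * ((a * x) ^ 2 * a) := by
  rw [mul_pow, show a ^ 5 = a ^ 2 * a ^ 2 * a by rw [← pow_add, ← pow_succ],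
    mul_right_comm, mul_assoc (a ^ 2) (a ^ 2) (x ^ 2), mul_assoc]

section Val

variable {K : Type} [Field K] {V : Valuation K (WithZero (Multiplicative ℤ))}

theorem v_dvd (hodd : ∀ n : ℤ, n % 2 = 1 → V (n : K) = 1) (h2 : V 2 < 1) (h20 : V 2 ≠ 0) (k : ℕ) :
    ∀ n : ℤ, V (n : K) ≤ V 2 ^ k → (2 : ℤ) ^ k ∣ n := by
  induction k with
  | zero => exact fun n _ => by simp
  | succ k ih =>
    intro n hn
    have hlt : V (n : K) < 1 := by
      refine lt_of_le_of_lt hn ?_
      rw [pow_succ]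
      exact mul_lt_one_of_nonneg_of_lt_one_right (pow_le_one' h2.le k) zero_le h2
    rcases Int.emod_two_eq_zero_or_one n with h | h
    · obtain ⟨n', rfl⟩ : ∃ n', n = 2 * n' := ⟨n / 2, by omega⟩
      rw [pow_succ, mul_comm]
      refine mul_dvd_mul_left 2 (ih n' ?_)
      push_cast at hn
      rw [map_mul, pow_succ, mul_comm] at hn
      exact le_of_mul_le_mul_right hn (zero_lt_iff.2 h20)
    · exact absurd (hodd n h) hlt.ne

theorem v_even (h1 : ∀ n : ℤ, V (n : K) ≤ 1) {n : ℤ} (hn : n % 2 = 0) : V (n : K) ≤ V 2 := by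
  obtain ⟨n', rfl⟩ : ∃ n', n = 2 * n' := ⟨n / 2, by omega⟩
  push_cast
  rw [map_mul]
  exact mul_le_of_le_one_right' (h1 n')

/-- the conjugates have the same valuation, if two does not split -/
theorem swap (h1 : ∀ n : ℤ, V (n : K) ≤ 1) (hodd : ∀ n : ℤ, n % 2 = 1 → V (n : K) = 1)
    (h2 : V 2 < 1) (h20 : V 2 ≠ 0) {d : ℤ} {r : K} (hr : r ^ 2 = (d : K)) (hd4 : d % 4 ≠ 0)
    (hd8 : d % 8 ≠ 1) (n : ℕ) : ∀ x y : ℤ, x.natAbs + y.natAbs ≤ n →
      ¬ V ((x : K) + y * r) < V ((x : K) - y * r) := by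
  induction n with
  | zero =>
    intro x y hxy
    obtain rfl : x = 0 := by omega
    obtain rfl : y = 0 := by omega
    simp
  | succ n ih =>
    intro x y hxy hlt
    by_cases hev : x % 2 = 0 ∧ y % 2 = 0
    · obtain ⟨x', rfl⟩ : ∃ x', x = 2 * x' := ⟨x / 2, by omega⟩
      obtain ⟨y', rfl⟩ : ∃ y', y = 2 * y' := ⟨y / 2, by omega⟩
      have e1 : ((2 * x' : ℤ) : K) + (2 * y' : ℤ) * r = 2 * ((x' : K) + y' * r) := by
        push_cast; ring
      have e2 : ((2 * x' : ℤ) : K) - (2 * y' : ℤ) * r = 2 * ((x' : K) - y' * r) := by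
        push_cast; ring
      rw [e1, e2, map_mul, map_mul] at hlt
      have h3 : V ((x' : K) + y' * r) < V ((x' : K) - y' * r) := by
        by_contra h
        exact absurd hlt (not_lt.2 (mul_le_mul_right (not_lt.1 h) _))
      rcases Nat.eq_zero_or_pos (x'.natAbs + y'.natAbs) with h0 | hpos
      · exact ih x' y' (by omega) h3
      · exact ih x' y' (by omega) h3
    · have hsum : V (2 * (x : K)) = V ((x : K) - y * r) := by
        have e1 : 2 * (x : K) = ((x : K) + y * r) + ((x : K) - y * r) := by ring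
        rw [e1]
        exact Valuation.map_add_eq_of_lt_right V hlt
      have hdif : V (2 * (y * r)) = V ((x : K) - y * r) := by
        have e1 : 2 * (y * r) = ((x : K) + y * r) - ((x : K) - y * r) := by ring
        rw [e1]
        exact Valuation.map_sub_eq_of_lt_right V hlt
      have hxy1 : V (x : K) = V (y * r) := by
        have h3 := hsum.trans hdif.symm
        rw [map_mul, map_mul V 2 (y * r)] at h3
        exact mul_left_cancel₀ h20 h3
      have hsq : V (x : K) ^ 2 = V (y : K) ^ 2 * V (d : K) := by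
        rw [hxy1, map_mul, mul_pow, ← map_pow V r, hr]
      have hyodd : y % 2 = 1 := by
        rcases Int.emod_two_eq_zero_or_one y with h | h
        · exfalso
          have hx : x % 2 = 1 := by omega
          rw [hodd x hx, one_pow] at hsq
          have h3 : V (y : K) ^ 2 * V (d : K) < 1 := by
            refine lt_of_le_of_lt (mul_le_of_le_one_right' (h1 d)) ?_
            have h4 : V (y : K) < 1 := lt_of_le_of_lt (v_even h1 h) h2
            exact pow_lt_one₀ zero_le h4 two_ne_zero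
          exact absurd hsq.symm h3.ne
        · exact h
      rw [hodd y hyodd, one_pow, one_mul] at hsq
      have hxodd : x % 2 = 1 := by
        rcases Int.emod_two_eq_zero_or_one x with h | h
        · exfalso
          have h3 : V (x : K) ^ 2 ≤ V 2 ^ 2 := pow_le_pow_left₀ zero_le (v_even h1 h) 2
          rw [hsq] at h3
          have h4 := v_dvd hodd h2 h20 2 d h3
          omega
        · exact h
      rw [hodd x hxodd, one_pow] at hsq
      have hlt2 : V ((x ^ 2 - d * y ^ 2 : ℤ) : K) < V 2 ^ 2 := by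
        have e1 : ((x ^ 2 - d * y ^ 2 : ℤ) : K) = ((x : K) + y * r) * ((x : K) - y * r) := by
          push_cast
          linear_combination (y : K) ^ 2 * hr
        have e2 : V ((x : K) - y * r) = V 2 := by
          rw [← hsum, map_mul, hodd x hxodd, mul_one]
        rw [e1, map_mul, e2, sq]
        rw [e2] at hlt
        by_contra hcon
        exact absurd hlt (not_lt.2 (le_of_mul_le_mul_right (not_lt.1 hcon) (zero_lt_iff.2 h20)))
      have h4 := v_dvd hodd h2 h20 2 _ hlt2.le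
      obtain ⟨k, hk⟩ := h4
      have hk2 : k % 2 = 0 := by
        rcases Int.emod_two_eq_zero_or_one k with h | h
        · exact h
        · exfalso
          rw [hk, Int.cast_mul, map_mul, hodd k h, mul_one, Int.cast_pow, map_pow,
            Int.cast_ofNat] at hlt2
          exact lt_irrefl _ hlt2
      obtain ⟨k1, e3⟩ := odd_sq hxodd
      obtain ⟨k2, e4⟩ := odd_sq hyodd
      rw [e3, e4] at hk
      apply hd8
      have e5 : d * (8 * k2 + 1) = 8 * (d * k2) + d := by ring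
      rw [e5] at hk
      generalize d * k2 = Z at hk
      omega

/-- primitive coordinates -/
theorem prim (hK : (2 : K) ≠ 0) {W r : K} (n : ℕ) : ∀ a b N : ℤ, N ≠ 0 → N.natAbs ≤ n → (N : K) * W = a + b * r →
    ∃ a' b' N' : ℤ, N' ≠ 0 ∧ (N' : K) * W = a' + b' * r ∧
      ¬ (a' % 2 = 0 ∧ b' % 2 = 0 ∧ N' % 2 = 0) := by
  induction n with
  | zero =>
    intro a b N hN hN0
    omega
  | succ n ih =>
    intro a b N hN hn hW
    by_cases hev : a % 2 = 0 ∧ b % 2 = 0 ∧ N % 2 = 0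
    · obtain ⟨a', rfl⟩ : ∃ a', a = 2 * a' := ⟨a / 2, by omega⟩
      obtain ⟨b', rfl⟩ : ∃ b', b = 2 * b' := ⟨b / 2, by omega⟩
      obtain ⟨N', rfl⟩ : ∃ N', N = 2 * N' := ⟨N / 2, by omega⟩
      refine ih a' b' N' (by omega) (by omega) ?_
      push_cast at hW
      refine mul_left_cancel₀ hK ?_
      linear_combination hW
    · exact ⟨a, b, N, hN, hW, hev⟩

/-- a rational integer near the square root of `d` -/
theorem near (h1 : ∀ n : ℤ, V (n : K) ≤ 1) (hodd : ∀ n : ℤ, n % 2 = 1 → V (n : K) = 1)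
    (h2 : V 2 < 1) (h20 : V 2 ≠ 0) {d : ℤ} {r : K} (hr : r ^ 2 = (d : K)) (hd8 : d % 8 = 1)
    (k : ℕ) : ∃ ρ : ℤ, V (r - ρ) ≤ V 2 ^ k := by
  obtain ⟨ρ, hρ, q, hq⟩ := sqrt_mod hd8 k
  have e1 : V (r - ρ) * V (r + ρ) ≤ V 2 ^ (k + 1) := by
    rw [← map_mul]
    have e2 : (r - ρ) * (r + ρ) = -(((2 : ℤ) ^ (k + 3) * q : ℤ) : K) := by
      rw [← hq]
      push_cast
      linear_combination hr
    rw [e2, Valuation.map_neg, Int.cast_mul, Int.cast_pow, map_mul, map_pow, Int.cast_ofNat]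
    refine (mul_le_of_le_one_right' (h1 q)).trans ?_
    exact pow_le_pow_right_of_le_one' h2.le (by omega)
  have e3 : V 2 ≤ max (V (r + ρ)) (V (r - ρ)) := by
    have e4 : V (2 * (ρ : K)) = V 2 := by rw [map_mul, hodd ρ hρ, mul_one]
    rw [← e4, show 2 * (ρ : K) = (r + ρ) - (r - ρ) by ring]
    exact Valuation.map_sub V _ _
  rcases le_max_iff.1 e3 with h | h
  · refine ⟨ρ, ?_⟩
    have h5 : V (r - ρ) * V 2 ≤ V 2 ^ k * V 2 := by
      rw [← pow_succ]
      exact (mul_le_mul_right h _).trans e1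
    exact le_of_mul_le_mul_right h5 (zero_lt_iff.2 h20)
  · refine ⟨-ρ, ?_⟩
    have h5 : V (r + ρ) * V 2 ≤ V 2 ^ k * V 2 := by
      rw [← pow_succ]
      refine (mul_le_mul_right h _).trans ?_
      rw [mul_comm]
      exact e1
    push_cast
    rw [sub_neg_eq_add]
    exact le_of_mul_le_mul_right h5 (zero_lt_iff.2 h20)

theorem concl (h1 : ∀ n : ℤ, V (n : K) ≤ 1)
    (hodd : ∀ n : ℤ, n % 2 = 1 → V (n : K) = 1)
    (h2 : V 2 < 1) (h20 : V 2 ≠ 0) {d : ℤ} {r : K} (hr : r ^ 2 = (d : K)) (hd4 : d % 4 ≠ 0)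
    {m : ℤ} (hm4 : m % 4 ≠ 0) {a b N : ℤ} (hN : N ≠ 0)
    (hprim : ¬ (a % 2 = 0 ∧ b % 2 = 0 ∧ N % 2 = 0))
    (hkey : V (((a : K) + b * r) ^ 2 - m * N ^ 2) ≤ V (m : K) * V (N : K) ^ 2 * V 2 ^ 5) :
    m % 8 = 1 ∨ (m % 2 = 1 ∧ m % 8 = d % 8) ∨ (m % 2 = 0 ∧ m % 16 = d % 16) := by
  by_cases hd8 : d % 8 = 1
  · left
    obtain ⟨n, N', hN', hNe⟩ : ∃ (n : ℕ) (N' : ℤ), N' % 2 = 1 ∧ N = 2 ^ n * N' := by
      have hfin : FiniteMultiplicity (2 : ℤ) N := Int.finiteMultiplicity_iff.2 ⟨by norm_num, hN⟩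
      obtain ⟨N', h3, h4⟩ := hfin.exists_eq_pow_mul_and_not_dvd
      exact ⟨_, N', by omega, h3⟩
    obtain ⟨ρ, hρ⟩ := near h1 hodd h2 h20 hr hd8 (2 * n + 5)
    have hr1 : V r ≤ 1 := by
      by_contra h
      have h3 : 1 < V r ^ 2 := one_lt_pow₀ (not_le.1 h) two_ne_zero
      rw [← map_pow, hr] at h3
      exact absurd (h1 d) (not_le.2 h3)
    have hA : V (((a + b * ρ) ^ 2 - m * N ^ 2 : ℤ) : K) ≤ V 2 ^ (2 * n + 5) := by
      have e1 : (((a + b * ρ) ^ 2 - m * N ^ 2 : ℤ) : K) =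
          (((a : K) + b * r) ^ 2 - m * N ^ 2) -
            (r - ρ) * (b * ((a : K) + (a + b * ρ : ℤ) + b * r)) := by
        push_cast
        ring
      rw [e1]
      refine (Valuation.map_sub V _ _).trans (max_le ?_ ?_)
      · refine hkey.trans ?_
        have e2 : V (N : K) ≤ V 2 ^ n := by
          rw [hNe, Int.cast_mul, map_mul, Int.cast_pow, map_pow, Int.cast_ofNat, hodd N' hN', mul_one]
        have e3 : V (m : K) * V (N : K) ^ 2 ≤ V 2 ^ (2 * n) := by
          refine (mul_le_of_le_one_left' (h1 m)).trans ?_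
          rw [mul_comm, pow_mul]
          exact pow_le_pow_left₀ zero_le e2 2
        rw [pow_add]
        exact mul_le_mul_left e3 _
      · rw [map_mul]
        refine (mul_le_of_le_one_right' ?_).trans hρ
        rw [map_mul]
        refine mul_le_one' (h1 b) ?_
        refine (Valuation.map_add V _ _).trans (max_le ?_ ?_)
        · exact (Valuation.map_add V _ _).trans (max_le (h1 a) (h1 _))
        · rw [map_mul]
          exact mul_le_one' (h1 b) hr1
    have hB := v_dvd hodd h2 h20 _ _ hA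
    have hC : (2 : ℤ) ^ n ∣ a + b * ρ := by
      rw [← Int.pow_dvd_pow_iff (n := 2) two_ne_zero, ← pow_mul]
      have e4 : (2 : ℤ) ^ (n * 2) ∣ (a + b * ρ) ^ 2 - m * N ^ 2 :=
        (pow_dvd_pow 2 (by omega)).trans hB
      have e5 : (2 : ℤ) ^ (n * 2) ∣ m * N ^ 2 := by
        rw [hNe]
        exact ⟨m * N' ^ 2, by ring⟩
      exact (dvd_sub_left e5).1 e4
    obtain ⟨A, hA'⟩ := hC
    rw [hA', hNe] at hB
    have hD : (2 : ℤ) ^ 5 ∣ A ^ 2 - m * N' ^ 2 := by
      have e6 : (2 ^ n * A) ^ 2 - m * (2 ^ n * N') ^ 2 = (2 : ℤ) ^ (2 * n) * (A ^ 2 - m * N' ^ 2) := by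
        ring
      rw [e6, pow_add] at hB
      exact Int.dvd_of_mul_dvd_mul_left (by positivity) hB
    obtain ⟨l, hl⟩ := odd_sq hN'
    have e7 : m * N' ^ 2 = 8 * (m * l) + m := by rw [hl]; ring
    rw [e7] at hD
    norm_num at hD
    rcases Int.emod_two_eq_zero_or_one A with h | h
    · exfalso
      obtain ⟨A', rfl⟩ : ∃ A', A = 2 * A' := ⟨A / 2, by omega⟩
      have e8 : (2 * A') ^ 2 = 4 * A' ^ 2 := by ring
      rw [e8] at hD
      generalize A' ^ 2 = X at hD
      generalize m * l = Y at hD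
      omega
    · obtain ⟨j, hj⟩ := odd_sq h
      rw [hj] at hD
      generalize m * l = Y at hD
      omega
  · have hsw : ∀ x y : ℤ, V ((x : K) - y * r) ≤ V ((x : K) + y * r) := fun x y =>
      not_lt.1 (swap h1 hodd h2 h20 hr hd4 hd8 _ x y le_rfl)
    have hkey' : V (((a ^ 2 + d * b ^ 2 - m * N ^ 2 : ℤ) : K) + (2 * (a * b) : ℤ) * r) ≤
        V (m : K) * V (N : K) ^ 2 * V 2 ^ 5 := by
      refine le_trans (le_of_eq ?_) hkey
      congr 1
      push_cast
      linear_combination (-(b : K) ^ 2) * hr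
    generalize hx : a ^ 2 + d * b ^ 2 - m * N ^ 2 = x at hkey'
    have hle : V (m : K) * V (N : K) ^ 2 * V 2 ^ 5 ≤ V (m : K) * V 2 ^ 5 :=
      mul_le_mul_left (mul_le_of_le_one_right' (pow_le_one' (h1 N) 2)) _
    have hs := hsw x (2 * (a * b))
    have hX : V (x : K) ≤ V (m : K) * V 2 ^ 4 := by
      have e1 : V (2 * (x : K)) ≤ V (m : K) * V 2 ^ 5 := by
        rw [show 2 * (x : K) = ((x : K) + (2 * (a * b) : ℤ) * r) + ((x : K) - (2 * (a * b) : ℤ) * r) by
          ring]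
        refine (Valuation.map_add V _ _).trans (max_le ?_ ?_)
        · exact hkey'.trans hle
        · exact hs.trans (hkey'.trans hle)
      rw [map_mul, aux1] at e1
      exact le_of_mul_le_mul_left e1 (zero_lt_iff.2 h20)
    have hY : V (2 * (((2 * (a * b) : ℤ) : K) * r)) ≤ V 2 ^ 5 := by
      rw [show 2 * (((2 * (a * b) : ℤ) : K) * r) =
        ((x : K) + (2 * (a * b) : ℤ) * r) - ((x : K) - (2 * (a * b) : ℤ) * r) by ring]
      have e2 : V (m : K) * V 2 ^ 5 ≤ V 2 ^ 5 := mul_le_of_le_one_left' (h1 m)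
      refine (Valuation.map_sub V _ _).trans (max_le ?_ ?_)
      · exact (hkey'.trans hle).trans e2
      · exact hs.trans ((hkey'.trans hle).trans e2)
    have hd2 : V 2 ≤ V (d : K) := by
      rcases Int.emod_two_eq_zero_or_one d with h | h
      · obtain ⟨d', rfl⟩ : ∃ d', d = 2 * d' := ⟨d / 2, by omega⟩
        rw [Int.cast_mul, map_mul, Int.cast_ofNat, hodd d' (by omega), mul_one]
      · rw [hodd d h]
        exact h2.le
    have hab2 : V (((a * b) ^ 2 : ℤ) : K) ≤ V 2 ^ 5 := by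
      have e3 := pow_le_pow_left₀ zero_le hY 2
      rw [map_mul, map_mul, mul_pow, mul_pow, ← map_pow V r, hr, Int.cast_mul, map_mul,
        Int.cast_ofNat] at e3
      have e4 : V 2 ^ 5 * V (((a * b) ^ 2 : ℤ) : K) ≤ V 2 ^ 5 * V 2 ^ 5 := by
        calc V 2 ^ 5 * V (((a * b) ^ 2 : ℤ) : K)
            = V 2 ^ 2 * ((V 2 * V ((a * b : ℤ) : K)) ^ 2 * V 2) := by
              rw [Int.cast_pow, map_pow]
              exact aux2 _ _
          _ ≤ V 2 ^ 2 * ((V 2 * V ((a * b : ℤ) : K)) ^ 2 * V (d : K)) :=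
              mul_le_mul_right (mul_le_mul_right hd2 _) _
          _ ≤ (V 2 ^ 5) ^ 2 := e3
          _ = V 2 ^ 5 * V 2 ^ 5 := sq _
      exact le_of_mul_le_mul_left e4 (pow_pos (zero_lt_iff.2 h20) 5)
    have hab : (8 : ℤ) ∣ a * b := by
      have h3 := v_dvd hodd h2 h20 _ _ hab2
      generalize a * b = z at h3
      rcases Int.emod_two_eq_zero_or_one z with h | h
      · obtain ⟨z', rfl⟩ : ∃ z', z = 2 * z' := ⟨z / 2, by omega⟩
        rw [show (2 * z') ^ 2 = 4 * z' ^ 2 by ring] at h3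
        rcases Int.emod_two_eq_zero_or_one z' with h' | h'
        · obtain ⟨z'', rfl⟩ : ∃ z'', z' = 2 * z'' := ⟨z' / 2, by omega⟩
          rw [show 4 * (2 * z'') ^ 2 = 16 * z'' ^ 2 by ring] at h3
          rcases Int.emod_two_eq_zero_or_one z'' with h'' | h''
          · omega
          · obtain ⟨k, hk⟩ := odd_sq h''
            rw [hk] at h3
            norm_num at h3
            omega
        · obtain ⟨k, hk⟩ := odd_sq h'
          rw [hk] at h3
          norm_num at h3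
          omega
      · obtain ⟨k, hk⟩ := odd_sq h
        rw [hk] at h3
        norm_num at h3
        omega
    refine intb hm4 hd4 hprim hab ?_ ?_
    · rw [hx]
      have h3 := v_dvd hodd h2 h20 4 x (hX.trans (mul_le_of_le_one_left' (h1 m)))
      norm_num at h3
      exact h3
    · intro hm2
      rw [hx]
      have h3 := v_dvd hodd h2 h20 5 x (hX.trans (by
        rw [pow_succ' (V 2) 4]
        exact mul_le_mul_left (v_even h1 hm2) _))
      norm_num at h3
      exact h3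

end Val

/-- divisibility of squarefree numbers -/
theorem sf_dvd {c d : ℤ} (hc : Squarefree c) (hd : d ≠ 0)
    (h : ∀ l : ℕ, l.Prime → (l : ℤ) ∣ c → (l : ℤ) ∣ d) : c ∣ d := by
  rw [← Int.natAbs_dvd_natAbs]
  have h1 : Squarefree c.natAbs := Int.squarefree_natAbs.2 hc
  rw [← Nat.prod_primeFactors_of_squarefree h1]
  refine (Finset.prod_dvd_prod_of_subset _ _ _ ?_).trans (Nat.prod_primeFactors_dvd d.natAbs)
  intro l hl
  rw [Nat.mem_primeFactors] at hl ⊢
  refine ⟨hl.1, ?_, by omega⟩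
  rw [← Int.natCast_dvd]
  exact h l hl.1 (Int.natCast_dvd.2 hl.2.1)

end TWO

open TWO

theorem mainTWO : S_TWO := by
  intro K _ _ hK d r hd hd1 hr c hc hcd p hp v hv W t hW ht
  obtain ⟨hco, -, -⟩ := QF.coords hd hd1 hK r hr
  have h1 : ∀ n : ℤ, v.valuation K (n : K) ≤ 1 := by
    intro n
    have := v.valuation_le_one (K := K) (n : 𝓞 K)
    simpa using this
  have h2 : v.valuation K (2 : K) < 1 := by
    exact (v.valuation_lt_one_iff_mem (K := K) (2 : 𝓞 K)).2 hv
  have hodd : ∀ n : ℤ, n % 2 = 1 → v.valuation K (n : K) = 1 := by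
    intro n hn
    refine QF.val_int v n fun hmem => ?_
    apply v.isPrime.ne_top
    rw [Ideal.eq_top_iff_one]
    obtain ⟨q, rfl⟩ : ∃ q, n = 2 * q + 1 := ⟨n / 2, by omega⟩
    have e1 : (1 : 𝓞 K) = ((2 * q + 1 : ℤ) : 𝓞 K) - 2 * (q : 𝓞 K) := by
      push_cast
      ring
    rw [e1]
    exact Ideal.sub_mem _ hmem (Ideal.mul_mem_right _ _ hv)
  have h20 : v.valuation K (2 : K) ≠ 0 := (Valuation.ne_zero_iff _).2 two_ne_zero
  have h22 : WithZero.exp (-2 : ℤ) ≤ v.valuation K (2 : K) := by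
    by_contra hcon
    have h3 : v.valuation K (2 : K) ≤ WithZero.exp (-((3 : ℕ) : ℤ)) := by
      obtain ⟨k, hk⟩ := QF.val_exists v (2 : K) two_ne_zero
      rw [hk, not_le, WithZero.exp_lt_exp] at hcon
      rw [hk, WithZero.exp_le_exp]
      push_cast
      omega
    have h4 : (2 : 𝓞 K) ∈ v.asIdeal ^ 3 := by
      rw [← v.intValuation_le_pow_iff_mem, ← v.valuation_of_algebraMap (K := K)]
      exact h3
    have h5 : Ideal.absNorm (Ideal.span {(2 : 𝓞 K)}) = 4 := by
      have h1 : Ideal.absNorm (Ideal.span {((2 : ℕ) : 𝓞 K)}) = 2 ^ 2 := by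
        rw [Ideal.absNorm_span_natCast, RingOfIntegers.rank, hK]
      simpa using h1
    have h6 : Ideal.absNorm v.asIdeal ^ 3 ∣ 4 := by
      rw [← h5, ← map_pow]
      exact Ideal.absNorm_dvd_absNorm_of_le ((Ideal.span_singleton_le_iff_mem _).2 h4)
    have h7 : Ideal.absNorm v.asIdeal ≠ 1 := fun h => v.isPrime.ne_top (Ideal.absNorm_eq_one_iff.1 h)
    have h8 : Ideal.absNorm v.asIdeal ≠ 0 := by
      intro h
      rw [h] at h6
      norm_num at h6
    have h9 : 2 ^ 3 ≤ Ideal.absNorm v.asIdeal ^ 3 := Nat.pow_le_pow_left (by omega) 3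
    have h10 := Nat.le_of_dvd (by norm_num) h6
    omega
  have h25 : WithZero.exp (-10 : ℤ) ≤ v.valuation K (2 : K) ^ 5 := by
    have h3 := pow_le_pow_left₀ zero_le h22 5
    rwa [← WithZero.exp_nsmul, show (5 : ℕ) • (-2 : ℤ) = -10 by norm_num] at h3
  have hc4 : c % 4 ≠ 0 := by
    intro h
    have h3 : (2 : ℤ) * 2 ∣ c := Int.dvd_of_emod_eq_zero h
    have h4 := hc 2 h3
    rw [Int.isUnit_iff] at h4
    omega
  have hd4 : d % 4 ≠ 0 := by
    intro h
    have h3 : (2 : ℤ) * 2 ∣ d := Int.dvd_of_emod_eq_zero h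
    have h4 := hd 2 h3
    rw [Int.isUnit_iff] at h4
    omega
  have hm4 : (c * p) % 4 ≠ 0 := by
    obtain ⟨j, hj⟩ : ∃ j : ℤ, (p : ℤ) = 2 * j + 1 := ⟨(p / 2 : ℕ), by omega⟩
    rw [hj, show c * (2 * j + 1) = 2 * (c * j) + c by ring]
    intro h
    rcases Int.emod_two_eq_zero_or_one c with h3 | h3
    · obtain ⟨c1, rfl⟩ : ∃ c1, c = 2 * c1 := ⟨c / 2, by omega⟩
      rw [show 2 * (2 * c1 * j) + 2 * c1 = 4 * (c1 * j) + 2 * c1 by ring] at h
      generalize c1 * j = X at h
      omega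
    · generalize c * j = X at h
      omega
  obtain ⟨α, β, hαβ⟩ := hco W
  have hden1 : ((α.den : ℤ) : K) ≠ 0 := by exact_mod_cast α.den_nz
  have hden2 : ((β.den : ℤ) : K) ≠ 0 := by exact_mod_cast β.den_nz
  have hα : ((α.den : ℤ) : K) * (α : K) = (α.num : ℤ) := by
    have h3 : (α.den : ℚ) * α = α.num := Rat.den_mul_eq_num α
    exact_mod_cast congrArg (fun q : ℚ => (q : K)) h3
  have hβ : ((β.den : ℤ) : K) * (β : K) = (β.num : ℤ) := by
    have h3 : (β.den : ℚ) * β = β.num := Rat.den_mul_eq_num β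
    exact_mod_cast congrArg (fun q : ℚ => (q : K)) h3
  obtain ⟨a, b, N, hN, hNW, hprim⟩ := prim (K := K) two_ne_zero (W := W) (r := r) _
    (α.num * β.den) (β.num * α.den) (α.den * β.den)
    (mul_ne_zero (by exact_mod_cast α.den_nz) (by exact_mod_cast β.den_nz)) le_rfl (by
      rw [hαβ]
      push_cast
      push_cast at hα hβ
      linear_combination (β.den : K) * hα + (α.den : K) * r * hβ)
  have hkey : v.valuation K (((a : K) + b * r) ^ 2 - (c * p : ℤ) * N ^ 2) ≤
      v.valuation K ((c * p : ℤ) : K) * v.valuation K (N : K) ^ 2 * v.valuation K 2 ^ 5 := by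
    have e1 : ((a : K) + b * r) ^ 2 - (c * p : ℤ) * N ^ 2 = (c * p : ℤ) * N ^ 2 * t := by
      rw [← hNW, mul_pow, ← hW]
      push_cast
      ring
    rw [e1, map_mul, map_mul, map_pow]
    exact mul_le_mul_right (ht.trans h25) _
  have hfin := concl h1 hodd h2 h20 hr hd4 hm4 hN hprim hkey
  have hcd' : c ∣ d := by
    refine sf_dvd hc hd.ne_zero fun l hl hlc => ?_
    by_cases hl2 : l = 2
    · subst hl2
      have hc2 : c % 2 = 0 := by
        push_cast at hlc
        omega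
      have hm2 : (c * p) % 2 = 0 := by
        rw [Int.mul_emod, hc2, zero_mul, Int.zero_emod]
      push_cast
      omega
    · exact hcd l hl hl2 hlc
  obtain ⟨c', rfl⟩ := hcd'
  refine ⟨c', rfl, ?_⟩
  obtain ⟨j, hj⟩ : ∃ j : ℤ, (p : ℤ) = 2 * j + 1 := ⟨(p / 2 : ℕ), by omega⟩
  rcases hfin with h | ⟨h, h'⟩ | ⟨h, h'⟩
  · left
    have hc2 : c % 2 = 1 := by
      rcases Int.emod_two_eq_zero_or_one c with h3 | h3
      · exfalso
        have : (c * p) % 2 = 0 := by rw [Int.mul_emod, h3, zero_mul, Int.zero_emod]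
        omega
      · exact h3
    obtain ⟨k, hk⟩ := odd_sq (show (p : ℤ) % 2 = 1 by omega)
    have e1 : c * p * p = 8 * (c * k) + c := by
      rw [mul_assoc, ← sq, hk]
      ring
    obtain ⟨q, hq⟩ : ∃ q, c * p = 8 * q + 1 := ⟨c * p / 8, by omega⟩
    rw [hq, show (8 * q + 1) * (p : ℤ) = 8 * (q * p) + p by ring] at e1
    generalize q * (p : ℤ) = X at e1
    generalize c * k = Y at e1
    omega
  · right
    have hc2 : c % 2 = 1 := by
      rcases Int.emod_two_eq_zero_or_one c with h3 | h3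
      · exfalso
        have : (c * p) % 2 = 0 := by rw [Int.mul_emod, h3, zero_mul, Int.zero_emod]
        omega
      · exact h3
    have h3 : (8 : ℤ) ∣ c * p - c * c' := by omega
    rw [← mul_sub] at h3
    have h4 : (8 : ℤ) ∣ p - c' := by
      refine Int.dvd_of_dvd_mul_right_of_gcd_one h3 ?_
      rw [Int.gcd_comm, ← Int.isCoprime_iff_gcd_eq_one]
      obtain ⟨k, hk⟩ := odd_sq hc2
      exact ⟨c, -k, by linear_combination hk⟩
    omega
  · right
    have hc2 : c % 2 = 0 := by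
      rcases Int.emod_two_eq_zero_or_one c with h3 | h3
      · exact h3
      · exfalso
        have : (c * p) % 2 = 1 := by
          rw [Int.mul_emod, h3, show (p : ℤ) % 2 = 1 by omega]
          norm_num
        omega
    obtain ⟨c1, rfl⟩ : ∃ c1, c = 2 * c1 := ⟨c / 2, by omega⟩
    have hc1 : c1 % 2 = 1 := by omega
    have h3 : (8 : ℤ) ∣ c1 * p - c1 * c' := by
      rw [mul_assoc, mul_assoc] at h'
      generalize c1 * (p : ℤ) = X at h'
      generalize c1 * c' = Y at h'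
      omega
    rw [← mul_sub] at h3
    have h4 : (8 : ℤ) ∣ p - c' := by
      refine Int.dvd_of_dvd_mul_right_of_gcd_one h3 ?_
      rw [Int.gcd_comm, ← Int.isCoprime_iff_gcd_eq_one]
      obtain ⟨k, hk⟩ := odd_sq hc1
      exact ⟨c1, -k, by linear_combination hk⟩
    omega


end Pool.Agent.H47T
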